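import Mathlib

/-!
# Character degree sets and class size sets of finite p-groups
-/

set_option autoImplicit false

namespace Run7.h528

/-- The set of degrees of the irreducible complex representations of `P`
(equivalently of the irreducible complex characters of `P`). -/
def cd (P : Type) [Group P] : Set ℕ :=
  {d | ∃ (V : Type) (_ : AddCommGroup V) (_ : Module ℂ V) (_ : FiniteDimensional ℂ V)
    (ρ : Representation ℂ P V), ρ.IsIrreducible ∧ Module.finrank ℂ V = d}

/-- The set of the sizes `|P : C_P(x)|` of the conjugacy classes of `P`. -/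
def cs (P : Type) [Group P] : Set ℕ :=
  {n | ∃ x : P, (Subgroup.centralizer ({x} : Set P)).index = n}

/-- The pair `({p ^ a : a ∈ α}, {p ^ b : b ∈ β})` is realizable: it is `(cd(P), cs(P))` for some
finite `p`-group `P`. -/
def Realizable (p : ℕ) (α β : Finset ℕ) : Prop :=
  ∃ (P : Type) (_ : Group P) (_ : Finite P), IsPGroup p P ∧
    cd P = (fun a => p ^ a) '' (α : Set ℕ) ∧ cs P = (fun b => p ^ b) '' (β : Set ℕ)

end Run7.h528
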