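import Mathlib
import Pool.Agent.Helper884.IC.Compl
import Pool.Agent.Q90.WR.Gal
import Pool.Agent.H977R3.CM.Aut
import Pool.Agent.Helper273_FS.Gen3
import Pool.Agent.H254R3.IN.Chars
import Pool.Agent.Run7.h528.Defs

/-!
# Character theory of finite groups: second orthogonality, normal subgroups, degrees
-/

set_option autoImplicit false
set_option linter.unusedSectionVars false
set_option linter.style.haveILetI false

open scoped BigOperators Classical ComplexConjugate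
open Pool.Agent.Helper884.IC

noncomputable section

namespace Run7.h528

variable {G : Type} [Group G] [Fintype G]

/-- second orthogonality -/
theorem orth2 (x : G) :
    ∑ χ ∈ Irr G, χ x * χ x⁻¹ = (Nat.card (Subgroup.centralizer ({x} : Set G)) : ℂ) := by
  let f : G → ℂ := fun g => if IsConj x g then 1 else 0
  have hf : IsClass f := by
    intro g z
    have hz : IsConj g (z * g * z⁻¹) := isConj_iff.mpr ⟨z, rfl⟩
    change (if IsConj x (z * g * z⁻¹) then (1 : ℂ) else 0) = if IsConj x g then 1 else 0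
    by_cases h1 : IsConj x g
    · rw [if_pos h1, if_pos (h1.trans hz)]
    · rw [if_neg h1, if_neg (fun h2 => h1 (h2.trans hz.symm))]
  have hB : ∀ χ : G → ℂ, IsIrrChar χ → B f χ =
      (Nat.card G : ℂ)⁻¹ * ((Nat.card {y : G // IsConj x y} : ℂ) * χ x⁻¹) := by
    intro χ hχ
    unfold B
    congr 1
    simp only [f, ite_mul, one_mul, zero_mul]
    rw [← Finset.sum_filter]
    rw [Finset.sum_congr rfl (g := fun _ => χ x⁻¹)]
    · rw [Finset.sum_const, nsmul_eq_mul, Nat.card_eq_fintype_card, Fintype.card_subtype]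
    · intro g hg
      obtain ⟨c, rfl⟩ := isConj_iff.mp (Finset.mem_filter.mp hg).2
      have : (c * x * c⁻¹)⁻¹ = c * x⁻¹ * c⁻¹ := by group
      rw [this, hχ.isClass]
  have h1 : f x = 1 := if_pos (IsConj.refl x)
  have h2 := congrFun (expand f hf) x
  rw [h1] at h2
  simp only [Finset.sum_apply, Pi.smul_apply, smul_eq_mul] at h2
  rw [Finset.sum_congr rfl (fun χ hχ => by rw [hB χ (mem_Irr.mp hχ)])] at h2
  have h3 := Pool.Agent.H254R3.IN.card_class_mul x
  have h4 : (Nat.card {y : G // IsConj x y} : ℂ) ≠ 0 := by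
    exact_mod_cast (Pool.Agent.H254R3.IN.card_class_pos x).ne'
  have h5 : (Nat.card G : ℂ) = (Nat.card {y : G // IsConj x y} : ℂ) *
      (Nat.card (Subgroup.centralizer ({x} : Set G)) : ℂ) := by exact_mod_cast h3.symm
  have h6 : (Nat.card G : ℂ) ≠ 0 := cardG_ne
  have h7 : (1 : ℂ) = (Nat.card G : ℂ)⁻¹ * (Nat.card {y : G // IsConj x y} : ℂ) *
      ∑ χ ∈ Irr G, χ x * χ x⁻¹ := by
    rw [Finset.mul_sum]
    refine h2.trans (Finset.sum_congr rfl fun χ _ => ?_)
    ring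
  have h8 : (Nat.card G : ℂ) = (Nat.card {y : G // IsConj x y} : ℂ) *
      ∑ χ ∈ Irr G, χ x * χ x⁻¹ := by
    have := congrArg (fun t => (Nat.card G : ℂ) * t) h7
    simp only [mul_one, ← mul_assoc, mul_inv_cancel₀ h6, one_mul] at this
    exact this
  rw [h5] at h8
  exact (mul_left_cancel₀ h4 h8).symm

theorem char_conj_inv {χ : G → ℂ} (h : IsIrrChar χ) (g : G) : χ g⁻¹ = conj (χ g) := by
  obtain ⟨V, _, _, _, ρ, _, rfl⟩ := h
  exact Pool.Agent.Helper273.FS.char_inv ρ g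

theorem mul_inv_norm {χ : G → ℂ} (h : IsIrrChar χ) (g : G) :
    χ g * χ g⁻¹ = ((‖χ g‖ ^ 2 : ℝ) : ℂ) := by
  rw [char_conj_inv h, Complex.mul_conj, Complex.normSq_eq_norm_sq]

/-- second orthogonality, real form -/
theorem orth2_norm (x : G) :
    ∑ χ ∈ Irr G, ‖χ x‖ ^ 2 = (Nat.card (Subgroup.centralizer ({x} : Set G)) : ℝ) := by
  have h := orth2 x
  rw [Finset.sum_congr rfl (fun χ hχ => mul_inv_norm (mem_Irr.mp hχ) x)] at h
  exact_mod_cast h

/-- first orthogonality, real form -/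
theorem orth1_norm {χ : G → ℂ} (h : IsIrrChar χ) : ∑ g, ‖χ g‖ ^ 2 = (Nat.card G : ℝ) := by
  have h1 := B_irr h h
  rw [if_pos rfl] at h1
  unfold B at h1
  have h6 : (Nat.card G : ℂ) ≠ 0 := cardG_ne
  rw [inv_mul_eq_one₀ h6] at h1
  rw [Finset.sum_congr rfl (fun g _ => mul_inv_norm h g)] at h1
  exact_mod_cast h1.symm

/-- the degree of a character -/
def dg (χ : G → ℂ) : ℕ := ⌊(χ 1).re⌋₊

theorem dg_eq {χ : G → ℂ} {n : ℕ} (h : χ 1 = n) : dg χ = n := by
  unfold dg
  rw [h]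
  simp

theorem dg_spec {χ : G → ℂ} (h : IsIrrChar χ) : χ 1 = (dg χ : ℂ) := by
  obtain ⟨n, -, hn⟩ := Pool.Agent.Q90.WR.deg_pos h
  rw [dg_eq hn, hn]

theorem dg_pos {χ : G → ℂ} (h : IsIrrChar χ) : 0 < dg χ := by
  obtain ⟨n, h0, hn⟩ := Pool.Agent.Q90.WR.deg_pos h
  rwa [dg_eq hn]

theorem norm_deg {χ : G → ℂ} (h : IsIrrChar χ) : ‖χ 1‖ = dg χ := by
  rw [dg_spec h]
  simp

/-- sum of squares -/
theorem sum_sq : ∑ χ ∈ Irr G, (dg χ) ^ 2 = Nat.card G := by
  have h := orth2_norm (1 : G)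
  have h1 : Subgroup.centralizer ({1} : Set G) = ⊤ := by
    ext g
    simp [Subgroup.mem_centralizer_iff]
  rw [h1, Subgroup.card_top] at h
  rw [Finset.sum_congr rfl (fun χ hχ => by rw [norm_deg (mem_Irr.mp hχ)])] at h
  exact_mod_cast h

/-- the number of irreducible characters -/
theorem card_irr_mul :
    (Irr G).card * Nat.card G = ∑ x : G, Nat.card (Subgroup.centralizer ({x} : Set G)) := by
  have h : ((∑ x : G, Nat.card (Subgroup.centralizer ({x} : Set G)) : ℕ) : ℝ) =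
      (((Irr G).card * Nat.card G : ℕ) : ℝ) := by
    push_cast
    rw [Finset.sum_congr rfl (fun x _ => (orth2_norm x).symm), Finset.sum_comm]
    rw [Finset.sum_congr rfl (fun χ hχ => orth1_norm (mem_Irr.mp hχ))]
    simp
  exact_mod_cast h.symm

theorem mem_cd_iff (d : ℕ) : d ∈ cd G ↔ ∃ χ ∈ Irr G, dg χ = d := by
  constructor
  · rintro ⟨V, _, _, _, ρ, hρ, rfl⟩
    refine ⟨ρ.character, mem_Irr.mpr ⟨V, inferInstance, inferInstance, inferInstance, ρ, hρ, rfl⟩, ?_⟩
    exact dg_eq ρ.char_one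
  · rintro ⟨χ, hχ, rfl⟩
    obtain ⟨V, _, _, _, ρ, hρ, rfl⟩ := mem_Irr.mp hχ
    refine ⟨V, inferInstance, inferInstance, inferInstance, ρ, hρ, ?_⟩
    exact (dg_eq ρ.char_one).symm

end Run7.h528
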