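import Mathlib
import Pool.Agent.Run7.h528.Char

/-!
# Irreducible characters and normal subgroups
-/

set_option autoImplicit false
set_option linter.unusedSectionVars false
set_option linter.style.haveILetI false

open scoped BigOperators Classical ComplexConjugate commutatorElement
open Pool.Agent.Helper884.IC

noncomputable section

namespace Run7.h528

variable {G : Type} [Group G] [Fintype G]

/-- `N` is contained in the kernel of `χ` -/
def Triv (N : Subgroup G) (χ : G → ℂ) : Prop := ∀ n ∈ N, ∀ g, χ (n * g) = χ g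

theorem avg_normal {V : Type} [AddCommGroup V] [Module ℂ V] [FiniteDimensional ℂ V]
    (ρ : Representation ℂ G V) (hr : ρ.IsIrreducible) (N : Subgroup G) [hN : N.Normal] :
    (∀ n ∈ N, ρ n = 1) ∨ ∑ n : N, ρ n = 0 := by
  have h0 : ∑ n : N, ρ n = ∑ g, (if g ∈ N then (1 : ℂ) else 0) • ρ g := by
    simp only [ite_smul, one_smul, zero_smul]
    rw [← Finset.sum_filter]
    refine (Finset.sum_subtype _ (fun g => ?_) _).symm
    simp
  have hf : ∀ g y : G, (if y * g * y⁻¹ ∈ N then (1 : ℂ) else 0) = if g ∈ N then 1 else 0 := by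
    intro g y
    have : y * g * y⁻¹ ∈ N ↔ g ∈ N := by
      constructor
      · intro h
        have := hN.conj_mem _ h y⁻¹
        simpa [mul_assoc] using this
      · intro h
        exact hN.conj_mem _ h y
    simp only [this]
  have h1 := Pool.Agent.H254R3.IN.class_scalar ρ hr (fun g => if g ∈ N then (1 : ℂ) else 0) hf
  rw [← h0] at h1
  set c : ℂ := (∑ g, (if g ∈ N then (1 : ℂ) else 0) * ρ.character g) / ρ.character 1 with hc
  by_cases hc0 : c = 0
  · right
    rw [h1, hc0, zero_smul]
  · left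
    intro m hm
    have h2 : (∑ n : N, ρ n) * ρ m = ∑ n : N, ρ n := by
      rw [Finset.sum_mul]
      refine Fintype.sum_equiv (Equiv.mulRight (⟨m, hm⟩ : N)) _ _ fun n => ?_
      rw [← map_mul]
      rfl
    rw [h1] at h2
    have h3 : c • (ρ m) = c • (1 : V →ₗ[ℂ] V) := by
      have : (c • (LinearMap.id : V →ₗ[ℂ] V)) * ρ m = c • ρ m := by
        ext v
        simp
      rw [this] at h2
      exact h2
    exact smul_right_injective _ hc0 h3

theorem triv_or {χ : G → ℂ} (h : IsIrrChar χ) (N : Subgroup G) [hN : N.Normal] :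
    Triv N χ ∨ ∀ g, ∑ n : N, χ (n * g) = 0 := by
  obtain ⟨V, _, _, _, ρ, hρ, rfl⟩ := h
  rcases avg_normal ρ hρ N with h1 | h1
  · left
    intro n hn g
    unfold Representation.character
    rw [map_mul, h1 n hn, one_mul]
  · right
    intro g
    unfold Representation.character
    rw [← map_sum]
    have : ∑ n : N, ρ (n * g) = (∑ n : N, ρ n) * ρ g := by
      rw [Finset.sum_mul]
      exact Finset.sum_congr rfl fun n _ => map_mul _ _ _
    rw [this, h1, zero_mul, map_zero]

theorem triv_iff_rep {V : Type} [AddCommGroup V] [Module ℂ V] [FiniteDimensional ℂ V]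
    (ρ : Representation ℂ G V) (hr : ρ.IsIrreducible) (N : Subgroup G) [hN : N.Normal] :
    Triv N ρ.character ↔ ∀ n ∈ N, ρ n = 1 := by
  constructor
  · intro h
    rcases avg_normal ρ hr N with h1 | h1
    · exact h1
    · exfalso
      have h2 := congrArg (LinearMap.trace ℂ V) h1
      rw [map_sum, map_zero] at h2
      have h3 : ∀ n : N, LinearMap.trace ℂ V (ρ n) = ρ.character 1 := by
        intro n
        have := h n n.2 1
        rw [mul_one] at this
        exact this
      rw [Finset.sum_congr rfl (fun n _ => h3 n), Finset.sum_const, nsmul_eq_mul] at h2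
      have h4 : IsIrrChar ρ.character := ⟨V, inferInstance, inferInstance, inferInstance, ρ, hr, rfl⟩
      rcases mul_eq_zero.mp h2 with h5 | h5
      · have : 0 < (Finset.univ : Finset N).card := Finset.card_pos.mpr ⟨1, Finset.mem_univ _⟩
        exact absurd h5 (by exact_mod_cast this.ne')
      · rw [dg_spec h4] at h5
        have := dg_pos h4
        exact absurd h5 (by exact_mod_cast this.ne')
  · intro h n hn g
    unfold Representation.character
    rw [map_mul, h n hn, one_mul]

/-- the sum of the squares of the degrees of the characters with kernel containing `N` -/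
theorem sum_sq_triv (N : Subgroup G) [hN : N.Normal] :
    ∑ χ ∈ (Irr G).filter (Triv N), (dg χ) ^ 2 = N.index := by
  let f : G → ℂ := fun g => if g ∈ N then 1 else 0
  have hf : IsClass f := by
    intro g y
    have : y * g * y⁻¹ ∈ N ↔ g ∈ N := by
      constructor
      · intro h
        have := hN.conj_mem _ h y⁻¹
        simpa [mul_assoc] using this
      · intro h
        exact hN.conj_mem _ h y
    simp only [f, this]
  have hB0 : ∀ χ : G → ℂ, B f χ = (Nat.card G : ℂ)⁻¹ * ∑ n : N, χ (n * 1) := by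
    intro χ
    unfold B
    congr 1
    simp only [f, ite_mul, one_mul, zero_mul]
    rw [← Finset.sum_filter]
    rw [Finset.sum_subtype (p := (· ∈ N)) _ (fun g => by simp)]
    refine Fintype.sum_equiv (Equiv.inv N) _ _ fun n => ?_
    simp
  have h2 := congrFun (expand f hf) 1
  have h1 : f 1 = 1 := if_pos N.one_mem
  rw [h1] at h2
  simp only [Finset.sum_apply, Pi.smul_apply, smul_eq_mul] at h2
  have h3 : ∀ χ ∈ Irr G, B f χ * χ 1 =
      if Triv N χ then (Nat.card G : ℂ)⁻¹ * (Nat.card N : ℂ) * ((dg χ : ℂ)) ^ 2 else 0 := by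
    intro χ hχ
    rw [hB0]
    split_ifs with h
    · rw [Finset.sum_congr rfl (fun (n : N) _ => h n n.2 1), Finset.sum_const, nsmul_eq_mul,
        dg_spec (mem_Irr.mp hχ), Finset.card_univ, Nat.card_eq_fintype_card (α := N)]
      ring
    · rcases triv_or (mem_Irr.mp hχ) N with h4 | h4
      · exact absurd h4 h
      · rw [h4 1, mul_zero, zero_mul]
  rw [Finset.sum_congr rfl h3, ← Finset.sum_filter, ← Finset.mul_sum] at h2
  have h6 : (Nat.card G : ℂ) ≠ 0 := cardG_ne
  have h7 : (Nat.card N : ℂ) ≠ 0 := by exact_mod_cast Nat.card_pos.ne'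
  have h8 : (Nat.card G : ℂ) = (Nat.card N : ℂ) * (N.index : ℂ) := by
    exact_mod_cast (N.card_mul_index).symm
  have h9 : (N.index : ℂ) = ∑ χ ∈ (Irr G).filter (Triv N), ((dg χ : ℂ)) ^ 2 := by
    have h10 : (Nat.card N : ℂ) * (N.index : ℂ) =
        (Nat.card N : ℂ) * ∑ χ ∈ (Irr G).filter (Triv N), ((dg χ : ℂ)) ^ 2 := by
      rw [← h8]
      have := congrArg (fun t => (Nat.card G : ℂ) * t) h2
      simp only [mul_one] at this
      rw [this, ← mul_assoc, ← mul_assoc, mul_inv_cancel₀ h6, one_mul]
    exact mul_left_cancel₀ h7 h10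
  exact_mod_cast h9.symm

/-- an irreducible representation in which `x` is central -/
theorem central_scalar {V : Type} [AddCommGroup V] [Module ℂ V] [FiniteDimensional ℂ V]
    (ρ : Representation ℂ G V) (hr : ρ.IsIrreducible) (x : G)
    (hx : ∀ g, ρ x * ρ g = ρ g * ρ x) :
    ∃ c : ℂ, ρ x = c • LinearMap.id ∧ ‖c‖ = 1 ∧ ∀ g, ρ.character (x * g) = c * ρ.character g := by
  obtain ⟨c, hc⟩ := Pool.Agent.H254R3.IN.schur ρ hr (ρ x) (by
    intro h v
    rw [← Module.End.mul_apply, ← Module.End.mul_apply, hx])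
  haveI := Pool.Agent.H254R3.IN.irr_nontrivial ρ hr
  have hpow : ∀ n : ℕ, ρ (x ^ n) = (c ^ n) • LinearMap.id := by
    intro n
    induction n with
    | zero => rw [pow_zero, pow_zero, map_one, one_smul]; rfl
    | succ n ih =>
      rw [pow_succ, map_mul, ih, hc]
      ext v
      simp only [Module.End.mul_apply, LinearMap.smul_apply, LinearMap.id_apply, pow_succ,
        mul_smul, map_smul]
      rw [smul_comm]
  refine ⟨c, hc, ?_, ?_⟩
  · have h1 : c ^ (Nat.card G) = 1 := by
      apply Pool.Agent.H254R3.IN.scalar_inj (V := V)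
      rw [← hpow, pow_card_eq_one', map_one, one_smul]
      rfl
    have h2 : ‖c‖ ^ (Nat.card G) = 1 := by rw [← norm_pow, h1, NormOneClass.norm_one]
    exact (pow_eq_one_iff_of_nonneg (norm_nonneg c) Nat.card_pos.ne').mp h2
  · intro g
    unfold Representation.character
    rw [map_mul, hc, Module.End.mul_eq_comp, LinearMap.smul_comp, LinearMap.id_comp, map_smul,
      smul_eq_mul]

/-- the elements that are central modulo `N` -/
def zmod (N : Subgroup G) [hN : N.Normal] : Subgroup G where
  carrier := {x | ∀ g : G, ⁅x, g⁆ ∈ N}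
  one_mem' := fun g => by simp
  mul_mem' := by
    intro x y hx hy g
    have h : ⁅x * y, g⁆ = (x * ⁅y, g⁆ * x⁻¹) * ⁅x, g⁆ := by
      simp only [commutatorElement_def]; group
    rw [h]
    exact N.mul_mem (hN.conj_mem _ (hy g) x) (hx g)
  inv_mem' := by
    intro x hx g
    have h : ⁅x⁻¹, g⁆ = x⁻¹ * (⁅x, g⁆)⁻¹ * x⁻¹⁻¹ := by
      simp only [commutatorElement_def]; group
    rw [h]
    exact hN.conj_mem _ (N.inv_mem (hx g)) x⁻¹

theorem mem_zmod {N : Subgroup G} [N.Normal] {x : G} : x ∈ zmod N ↔ ∀ g : G, ⁅x, g⁆ ∈ N := Iff.rfl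

instance zmod_normal (N : Subgroup G) [hN : N.Normal] : (zmod N).Normal := by
  constructor
  intro x hx y g
  have h : ⁅y * x * y⁻¹, g⁆ = y * ⁅x, y⁻¹ * g * y⁆ * y⁻¹ := by
    simp only [commutatorElement_def]; group
  rw [h]
  exact hN.conj_mem _ (hx _) y

theorem norm_of_zmod {χ : G → ℂ} (h : IsIrrChar χ) (N : Subgroup G) [hN : N.Normal]
    (hN' : Triv N χ) {x : G} (hx : x ∈ zmod N) : ‖χ x‖ = dg χ := by
  obtain ⟨V, _, _, _, ρ, hρ, rfl⟩ := h
  have h1 := (triv_iff_rep ρ hρ N).mp hN'
  obtain ⟨c, -, hc, hc2⟩ := central_scalar ρ hρ x (by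
    intro g
    rw [← map_mul, ← map_mul]
    have h2 : x * g = ⁅x, g⁆ * (g * x) := by simp only [commutatorElement_def]; group
    rw [h2, map_mul, h1 _ (hx g), one_mul])
  have h3 := hc2 1
  rw [mul_one] at h3
  rw [h3, norm_mul, hc, one_mul, norm_deg ⟨V, inferInstance, inferInstance, inferInstance, ρ, hρ, rfl⟩]

end Run7.h528
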