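import Mathlib
import Pool.Agent.Run7.h528.Norm

/-!
# The group of a bilinear map: class sizes and character degrees
-/

set_option autoImplicit false
set_option linter.unusedSectionVars false
set_option linter.style.haveILetI false

open scoped BigOperators Classical ComplexConjugate commutatorElement
open Pool.Agent.Helper884.IC

noncomputable section

namespace Run7.h528

variable {p : ℕ} [Fact p.Prime] {V W : Type} [AddCommGroup V] [Module (ZMod p) V]
  [AddCommGroup W] [Module (ZMod p) W]

/-- the group of a bilinear map `b` -/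
@[ext] structure BG (b : V →ₗ[ZMod p] V →ₗ[ZMod p] W) where
  v : V
  w : W

namespace BG

variable (b : V →ₗ[ZMod p] V →ₗ[ZMod p] W)

instance : Mul (BG b) := ⟨fun x y => ⟨x.v + y.v, x.w + y.w + b x.v y.v⟩⟩
instance : One (BG b) := ⟨⟨0, 0⟩⟩
instance : Inv (BG b) := ⟨fun x => ⟨-x.v, -x.w + b x.v x.v⟩⟩

@[simp] theorem mul_v (x y : BG b) : (x * y).v = x.v + y.v := rfl
@[simp] theorem mul_w (x y : BG b) : (x * y).w = x.w + y.w + b x.v y.v := rfl
@[simp] theorem one_v : (1 : BG b).v = 0 := rfl
@[simp] theorem one_w : (1 : BG b).w = 0 := rfl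
@[simp] theorem inv_v (x : BG b) : (x⁻¹).v = -x.v := rfl
@[simp] theorem inv_w (x : BG b) : (x⁻¹).w = -x.w + b x.v x.v := rfl

instance : Group (BG b) := Group.ofLeftAxioms
  (by
    intro x y z
    ext
    · simp [add_assoc]
    · simp only [mul_w, mul_v, map_add, LinearMap.add_apply]
      abel)
  (by intro x; ext <;> simp)
  (by intro x; ext <;> simp)

/-- the underlying product -/
def equivProd : BG b ≃ V × W where
  toFun x := (x.v, x.w)
  invFun x := ⟨x.1, x.2⟩
  left_inv _ := rfl
  right_inv _ := rfl

instance [Fintype V] [Fintype W] : Fintype (BG b) := Fintype.ofEquiv _ (equivProd b).symm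

instance [Finite V] [Finite W] : Finite (BG b) := Finite.of_equiv _ (equivProd b).symm

theorem card_eq : Nat.card (BG b) = Nat.card V * Nat.card W := by
  rw [Nat.card_congr (equivProd b), Nat.card_prod]

/-- the alternating map of `b` -/
def br (x : V) : V →ₗ[ZMod p] W := b x - b.flip x

theorem br_apply (x y : V) : br b x y = b x y - b y x := rfl

theorem br_swap (x y : V) : br b x y = - br b y x := by
  rw [br_apply, br_apply, neg_sub]

theorem br_zero : br b (0 : V) = 0 := by
  ext y
  simp [br_apply]

theorem comm_eq (x y : BG b) : ⁅x, y⁆ = ⟨0, br b x.v y.v⟩ := by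
  rw [commutatorElement_def]
  ext
  · simp
  · simp only [mul_w, mul_v, inv_v, inv_w, map_add, map_neg, LinearMap.add_apply,
      LinearMap.neg_apply, br_apply]
    abel

theorem mem_centralizer (x y : BG b) :
    y ∈ Subgroup.centralizer ({x} : Set (BG b)) ↔ br b x.v y.v = 0 := by
  rw [Subgroup.mem_centralizer_singleton_iff]
  constructor
  · intro h
    have h1 : ⁅x, y⁆ = 1 := commutatorElement_eq_one_iff_mul_comm.mpr h.symm
    rw [comm_eq] at h1
    exact congrArg BG.w h1
  · intro h
    have h1 : ⁅x, y⁆ = 1 := by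
      rw [comm_eq, h]
      rfl
    exact (commutatorElement_eq_one_iff_mul_comm.mp h1).symm

/-- the commutator homomorphism -/
def brHom (x : BG b) : BG b →* Multiplicative W where
  toFun y := Multiplicative.ofAdd (br b x.v y.v)
  map_one' := by simp
  map_mul' y z := by simp [map_add, ofAdd_add]

theorem index_centralizer (x : BG b) :
    (Subgroup.centralizer ({x} : Set (BG b))).index = Nat.card (LinearMap.range (br b x.v)) := by
  have h1 : Subgroup.centralizer ({x} : Set (BG b)) = (brHom b x).ker := by
    ext y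
    rw [mem_centralizer, MonoidHom.mem_ker]
    exact Iff.rfl
  rw [h1, Subgroup.index_ker]
  refine Nat.card_congr ?_
  refine Multiplicative.toAdd.subtypeEquiv ?_
  intro z
  simp only [MonoidHom.mem_range, LinearMap.mem_range]
  constructor
  · rintro ⟨y, hy⟩
    exact ⟨y.v, by rw [← hy]; rfl⟩
  · rintro ⟨y, hy⟩
    exact ⟨⟨y, 0⟩, by rw [brHom]; exact congrArg Multiplicative.ofAdd hy⟩

/-- the radical of a linear form -/
def rad (ℓ : Module.Dual (ZMod p) W) : Submodule (ZMod p) V where
  carrier := {v | ∀ v', ℓ (br b v v') = 0}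
  zero_mem' := by
    intro v'
    rw [br_zero]
    simp
  add_mem' := by
    intro x y hx hy v'
    have h1 := hx v'
    have h2 := hy v'
    rw [br_swap, map_neg, neg_eq_zero] at h1 h2
    rw [br_swap, map_neg, map_add, map_add, h1, h2]
    simp
  smul_mem' := by
    intro c x hx v'
    have h1 := hx v'
    rw [br_swap, map_neg, neg_eq_zero] at h1
    rw [br_swap, map_smul, map_neg, map_smul, h1]
    simp

theorem mem_rad {ℓ : Module.Dual (ZMod p) W} {v : V} :
    v ∈ rad b ℓ ↔ ∀ v', ℓ (br b v v') = 0 := Iff.rfl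

theorem isPGroup : IsPGroup p (BG b) := by
  intro x
  have hp : ∀ v : V, (p : ℕ) • v = 0 := by
    intro v
    rw [← Nat.cast_smul_eq_nsmul (ZMod p), ZMod.natCast_self, zero_smul]
  have hp' : ∀ v : W, (p : ℕ) • v = 0 := by
    intro v
    rw [← Nat.cast_smul_eq_nsmul (ZMod p), ZMod.natCast_self, zero_smul]
  refine ⟨2, ?_⟩
  rw [pow_two, pow_mul]
  have h1 : ∀ (y : BG b) (n : ℕ), (y ^ n).v = n • y.v := by
    intro y n
    induction n with
    | zero => simp
    | succ n ih => rw [pow_succ, mul_v, ih, succ_nsmul]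
  have h2 : ∀ (y : BG b) (n : ℕ), y.v = 0 → (y ^ n).w = n • y.w := by
    intro y n hy
    induction n with
    | zero => simp
    | succ n ih => rw [pow_succ, mul_w, ih, succ_nsmul, hy]; simp
  ext
  · rw [h1, h1, hp]
    simp
  · rw [h2 _ _ (by rw [h1, hp]), hp']
    rfl

end BG

end Run7.h528
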