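import Mathlib
import Pool.Agent.Run7.h528.BG

/-!
# The irreducible characters of the group of a bilinear map
-/

set_option autoImplicit false
set_option linter.unusedSectionVars false
set_option linter.style.haveILetI false

open scoped BigOperators Classical ComplexConjugate commutatorElement
open Pool.Agent.Helper884.IC

noncomputable section

namespace Run7.h528

variable {p : ℕ} [Fact p.Prime] {V W : Type} [AddCommGroup V] [Module (ZMod p) V]
  [AddCommGroup W] [Module (ZMod p) W]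

/-- multiplicative functions on an additive group -/
structure IsLin (ψ : W → ℂ) : Prop where
  one : ψ 0 = 1
  mul : ∀ w w', ψ (w + w') = ψ w * ψ w'

namespace IsLin

theorem neg_mul {ψ : W → ℂ} (h : IsLin ψ) (w : W) : ψ (-w) * ψ w = 1 := by
  rw [← h.mul, neg_add_cancel, h.one]

theorem ne_zero {ψ : W → ℂ} (h : IsLin ψ) (w : W) : ψ w ≠ 0 := by
  intro h0
  have := h.neg_mul w
  rw [h0, mul_zero] at this
  exact zero_ne_one this

theorem neg_eq {ψ : W → ℂ} (h : IsLin ψ) (w : W) : ψ (-w) = (ψ w)⁻¹ :=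
  eq_inv_of_mul_eq_one_left (h.neg_mul w)

theorem nsmul {ψ : W → ℂ} (h : IsLin ψ) (n : ℕ) (w : W) : ψ (n • w) = ψ w ^ n := by
  induction n with
  | zero => rw [zero_smul, h.one, pow_zero]
  | succ n ih => rw [succ_nsmul, h.mul, ih, pow_succ]

end IsLin

namespace BG

variable (b : V →ₗ[ZMod p] V →ₗ[ZMod p] W) [Fintype V] [Fintype W]

theorem exists_lin {χ : BG b → ℂ} (h : IsIrrChar χ) :
    ∃ ψ : W → ℂ, IsLin ψ ∧ (∀ w g, χ (⟨0, w⟩ * g) = ψ w * χ g) ∧
      ∀ x : BG b, ‖χ x‖ = if (∀ v', ψ (br b x.v v') = 1) then (dg χ : ℝ) else 0 := by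
  have hχ := h
  obtain ⟨U, _, _, _, ρ, hρ, rfl⟩ := h
  haveI := Pool.Agent.H254R3.IN.irr_nontrivial ρ hρ
  have h1 : ∀ w : W, ∃ c : ℂ, ρ (⟨0, w⟩ : BG b) = c • LinearMap.id ∧ ‖c‖ = 1 ∧
      ∀ g, ρ.character (⟨0, w⟩ * g) = c * ρ.character g := by
    intro w
    apply central_scalar ρ hρ
    intro g
    rw [← map_mul, ← map_mul]
    congr 1
    ext
    · simp
    · simp [add_comm]
  choose ψ hψ1 hψ2 hψ3 using h1
  have hlin : IsLin ψ := by
    constructor
    · apply Pool.Agent.H254R3.IN.scalar_inj (V := U)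
      rw [← hψ1]
      have : (⟨0, 0⟩ : BG b) = 1 := rfl
      rw [this, map_one, one_smul]
      rfl
    · intro w w'
      apply Pool.Agent.H254R3.IN.scalar_inj (V := U)
      rw [← hψ1]
      have : (⟨0, w + w'⟩ : BG b) = ⟨0, w⟩ * ⟨0, w'⟩ := by ext <;> simp
      rw [this, map_mul, hψ1, hψ1]
      ext v
      simp only [Module.End.mul_apply, LinearMap.smul_apply, LinearMap.id_apply, mul_smul, map_smul]
      exact smul_comm _ _ _
  refine ⟨ψ, hlin, hψ3, ?_⟩
  intro x
  split_ifs with hx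
  · obtain ⟨c, -, hc, hc2⟩ := central_scalar ρ hρ x (by
      intro g
      rw [← map_mul, ← map_mul]
      have h2 : x * g = ⁅x, g⁆ * (g * x) := by simp only [commutatorElement_def]; group
      rw [h2, map_mul, comm_eq, hψ1, hx, one_smul]
      ext v
      rfl)
    have h3 := hc2 1
    rw [mul_one] at h3
    rw [h3, norm_mul, hc, one_mul, norm_deg hχ]
  · push Not at hx
    obtain ⟨v', hv'⟩ := hx
    have h2 : (⟨v', 0⟩ : BG b) * x * (⟨v', 0⟩)⁻¹ = ⟨0, br b v' x.v⟩ * x := by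
      have h3 := comm_eq b ⟨v', 0⟩ x
      rw [← h3, commutatorElement_def]
      group
    have h4 := hχ.isClass x ⟨v', 0⟩
    rw [h2, hψ3, br_swap, hlin.neg_eq] at h4
    rw [norm_eq_zero]
    by_contra h5
    have h6 : (ψ (br b x.v v'))⁻¹ = 1 := by
      apply mul_right_cancel₀ h5
      rw [h4, one_mul]
    exact hv' (inv_eq_one.mp h6)

theorem deg_formula {χ : BG b → ℂ} (h : IsIrrChar χ) {ψ : W → ℂ}
    (hx : ∀ x : BG b, ‖χ x‖ = if (∀ v', ψ (br b x.v v') = 1) then (dg χ : ℝ) else 0) :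
    (dg χ) ^ 2 * Nat.card {v : V // ∀ v', ψ (br b v v') = 1} = Nat.card V := by
  have h1 := orth1_norm h
  let F : V → ℝ := fun v => ((if (∀ v', ψ (br b v v') = 1) then (dg χ : ℝ) else 0)) ^ 2
  have h0 : ∀ g : BG b, ‖χ g‖ ^ 2 = F g.v := fun g => by rw [hx g]
  rw [Finset.sum_congr rfl (fun g _ => h0 g)] at h1
  have h2 : ∑ x : BG b, F x.v = ∑ x : V × W, F x.1 := by
    refine Fintype.sum_equiv (equivProd b) _ _ fun x => ?_
    rfl
  rw [h2, Fintype.sum_prod_type] at h1
  simp only [Finset.sum_const, Finset.card_univ, nsmul_eq_mul] at h1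
  rw [← Finset.mul_sum] at h1
  have h3 : ∑ v : V, F v =
      (dg χ : ℝ) ^ 2 * Nat.card {v : V // ∀ v', ψ (br b v v') = 1} := by
    simp only [F, ite_pow, ne_eq, OfNat.ofNat_ne_zero, not_false_eq_true, zero_pow]
    rw [← Finset.sum_filter, Finset.sum_const, nsmul_eq_mul, Nat.card_eq_fintype_card,
      Fintype.card_subtype, mul_comm]
  rw [h3, card_eq] at h1
  have h4 : (Fintype.card W : ℝ) * ((dg χ : ℝ) ^ 2 *
      Nat.card {v : V // ∀ v', ψ (br b v v') = 1}) = (Fintype.card W : ℝ) * Nat.card V := by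
    rw [h1, Nat.card_eq_fintype_card (α := W)]
    push_cast
    ring
  have h5 : (Fintype.card W : ℝ) ≠ 0 := by
    have : 0 < Fintype.card W := Fintype.card_pos_iff.mpr ⟨0⟩
    exact_mod_cast this.ne'
  exact_mod_cast mul_left_cancel₀ h5 h4

theorem exists_char {ψ : W → ℂ} (hψ : IsLin ψ) :
    ∃ χ : BG b → ℂ, IsIrrChar χ ∧
      (dg χ) ^ 2 * Nat.card {v : V // ∀ v', ψ (br b v v') = 1} = Nat.card V := by
  let f : BG b → ℂ := fun x => if x.v = 0 then ψ x.w else 0
  have hf : IsClass f := by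
    intro g z
    have h2 : z * g * z⁻¹ = ⟨0, br b z.v g.v⟩ * g := by
      rw [← comm_eq b z g, commutatorElement_def]
      group
    rw [h2]
    simp only [f, mul_v, zero_add]
    by_cases hg : g.v = 0
    · rw [if_pos hg, if_pos hg]
      simp [hg]
    · rw [if_neg hg, if_neg hg]
  have hne : f ≠ 0 := by
    intro h0
    have := congrFun h0 1
    simp only [f, one_v, if_true, one_w, Pi.zero_apply, hψ.one] at this
    exact one_ne_zero this
  obtain ⟨χ, hχ, hB⟩ : ∃ χ : BG b → ℂ, IsIrrChar χ ∧ B f χ ≠ 0 := by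
    by_contra hcon
    push Not at hcon
    exact hne (class_eq_zero f hf hcon)
  obtain ⟨φ, hφ, hφ2, hφ3⟩ := exists_lin b hχ
  refine ⟨χ, hχ, ?_⟩
  have hS : ∑ w : W, ψ w * φ (-w) ≠ 0 := by
    intro h0
    apply hB
    unfold B
    have h1 : ∑ g : BG b, f g * χ g⁻¹ = ∑ x : V × W, (if x.1 = 0 then ψ x.2 * (φ (-x.2) * χ 1) else 0) := by
      refine Fintype.sum_equiv (equivProd b) _ _ fun x => ?_
      simp only [f]
      change _ = if x.v = 0 then ψ x.w * (φ (-x.w) * χ 1) else 0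
      split_ifs with hx
      · rw [← hφ2]
        congr 2
        ext
        · simp [hx]
        · simp [hx]
      · rw [zero_mul]
    rw [h1, Fintype.sum_prod_type]
    have h2 : ∀ x : V, ∑ y : W, (if (x, y).1 = 0 then ψ (x, y).2 * (φ (-(x, y).2) * χ 1) else 0) = 0 := by
      intro x
      by_cases hx : x = 0
      · simp only [hx, if_true]
        have : ∑ y : W, ψ y * (φ (-y) * χ 1) = (∑ w : W, ψ w * φ (-w)) * χ 1 := by
          rw [Finset.sum_mul]
          exact Finset.sum_congr rfl fun y _ => by ring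
        rw [this, h0, zero_mul]
      · simp [hx]
    rw [Finset.sum_congr rfl (fun x _ => h2 x), Finset.sum_const_zero, mul_zero]
  have hφψ : φ = ψ := by
    funext w₀
    have h1 : ∑ w : W, ψ w * φ (-w) = (ψ w₀ * (φ w₀)⁻¹) * ∑ w : W, ψ w * φ (-w) := by
      rw [Finset.mul_sum]
      refine (Fintype.sum_equiv (Equiv.addRight w₀) _ _ fun w => ?_).symm
      simp only [Equiv.coe_addRight, neg_add_rev]
      rw [hψ.mul, hφ.mul, hφ.neg_eq w₀]
      ring
    have h2 : ψ w₀ * (φ w₀)⁻¹ = 1 := by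
      apply mul_right_cancel₀ hS
      rw [← h1, one_mul]
    have h3 := hφ.ne_zero w₀
    field_simp at h2
    exact h2.symm
  rw [hφψ] at hφ3
  exact deg_formula b hχ hφ3

/-- the multiplicative functions on `W` come from linear forms -/
theorem lin_dual {ψ : W → ℂ} (hψ : IsLin ψ) :
    ∃ ℓ : Module.Dual (ZMod p) W, ∀ w, ψ w = ZMod.stdAddChar (ℓ w) := by
  have hp0 : p ≠ 0 := (Fact.out : p.Prime).ne_zero
  have h1 : ∀ w : W, ∃ k : ZMod p, ψ w = ZMod.stdAddChar k := by
    intro w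
    have h2 : ψ w ^ p = 1 := by
      rw [← hψ.nsmul, ← Nat.cast_smul_eq_nsmul (ZMod p), ZMod.natCast_self, zero_smul, hψ.one]
    obtain ⟨i, -, hi⟩ := (Complex.isPrimitiveRoot_exp p hp0).eq_pow_of_pow_eq_one h2
    refine ⟨(i : ℕ), ?_⟩
    rw [← hi, ← Complex.exp_nat_mul]
    have h3 := ZMod.stdAddChar_coe (N := p) (i : ℤ)
    simp only [Int.cast_natCast] at h3
    rw [h3]
    congr 1
    ring
  choose k hk using h1
  have hinj := ZMod.injective_stdAddChar (N := p)
  let f : W →+ ZMod p :=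
    { toFun := k
      map_zero' := by
        apply hinj
        rw [← hk, hψ.one, AddChar.map_zero_eq_one]
      map_add' := by
        intro w w'
        apply hinj
        rw [← hk, hψ.mul, hk, hk, AddChar.map_add_eq_mul] }
  refine ⟨f.toZModLinearMap p, ?_⟩
  intro w
  exact hk w

theorem dual_lin (ℓ : Module.Dual (ZMod p) W) : IsLin (fun w : W => (ZMod.stdAddChar (ℓ w) : ℂ)) := by
  constructor
  · rw [map_zero, AddChar.map_zero_eq_one]
  · intro w w'
    rw [map_add, AddChar.map_add_eq_mul]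

theorem card_rad (ℓ : Module.Dual (ZMod p) W) :
    Nat.card {v : V // ∀ v', (ZMod.stdAddChar (ℓ (br b v v')) : ℂ) = 1} = Nat.card (rad b ℓ) := by
  refine Nat.card_congr (Equiv.subtypeEquivRight fun v => ?_)
  refine forall_congr' fun v' => ?_
  constructor
  · intro h
    apply ZMod.injective_stdAddChar (N := p)
    rw [h, AddChar.map_zero_eq_one]
  · intro h
    rw [h, AddChar.map_zero_eq_one]

/-- the degrees of the group of a bilinear map -/
theorem mem_cd (d : ℕ) :
    d ∈ cd (BG b) ↔ ∃ ℓ : Module.Dual (ZMod p) W, d ^ 2 * Nat.card (rad b ℓ) = Nat.card V := by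
  rw [mem_cd_iff]
  constructor
  · rintro ⟨χ, hχ, rfl⟩
    obtain ⟨ψ, hψ, -, hψ3⟩ := exists_lin b (mem_Irr.mp hχ)
    obtain ⟨ℓ, hℓ⟩ := lin_dual (p := p) hψ
    refine ⟨ℓ, ?_⟩
    rw [← deg_formula b (mem_Irr.mp hχ) hψ3, ← card_rad]
    simp only [hℓ]
  · rintro ⟨ℓ, hℓ⟩
    obtain ⟨χ, hχ, hd⟩ := exists_char b (dual_lin ℓ)
    refine ⟨χ, mem_Irr.mpr hχ, ?_⟩
    rw [card_rad, ← hℓ] at hd
    have h1 : 0 < Nat.card (rad b ℓ) := Nat.card_pos
    have h2 := Nat.eq_of_mul_eq_mul_right h1 hd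
    exact Nat.pow_left_injective (n := 2) (by norm_num) h2

theorem mem_cs (n : ℕ) :
    n ∈ cs (BG b) ↔ ∃ v : V, n = Nat.card (LinearMap.range (br b v)) := by
  constructor
  · rintro ⟨x, rfl⟩
    exact ⟨x.v, index_centralizer b x⟩
  · rintro ⟨v, rfl⟩
    exact ⟨⟨v, 0⟩, index_centralizer b ⟨v, 0⟩⟩

end BG

end Run7.h528
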