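import Mathlib
import Pool.Agent.Run7.h528.BGChar

/-!
# Orthogonal sums of bilinear maps
-/

set_option autoImplicit false
set_option linter.unusedSectionVars false
set_option linter.style.haveILetI false

open scoped BigOperators Classical

noncomputable section

namespace Run7.h528

variable {p : ℕ} [Fact p.Prime] {W : Type} [AddCommGroup W] [Module (ZMod p) W]

/-- There is a bilinear map `V × V → W` for which the spaces of commutators are those in `S` and
the half ranks of the forms are `r`. -/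
def Pc (S : Set (Submodule (ZMod p) W)) (r : Module.Dual (ZMod p) W → ℕ) : Prop :=
  ∃ (V : Type) (_ : AddCommGroup V) (_ : Module (ZMod p) V) (_ : Finite V)
    (b : V →ₗ[ZMod p] V →ₗ[ZMod p] W),
    (∀ U, U ∈ S ↔ ∃ v, LinearMap.range (BG.br b v) = U) ∧
      ∀ ℓ, p ^ (2 * r ℓ) * Nat.card (BG.rad b ℓ) = Nat.card V

namespace Pc

theorem congr {S S' : Set (Submodule (ZMod p) W)} {r r' : Module.Dual (ZMod p) W → ℕ}
    (h : Pc S r) (hS : ∀ U, U ∈ S' ↔ U ∈ S) (hr : ∀ ℓ, r' ℓ = r ℓ) : Pc S' r' := by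
  obtain ⟨V, i1, i2, i3, b, h1, h2⟩ := h
  exact ⟨V, i1, i2, i3, b, fun U => (hS U).trans (h1 U), fun ℓ => by rw [hr]; exact h2 ℓ⟩

theorem zero : Pc (p := p) ({⊥} : Set (Submodule (ZMod p) W)) (fun _ => 0) := by
  refine ⟨PUnit, inferInstance, inferInstance, inferInstance, 0, ?_, ?_⟩
  · intro U
    have h1 : ∀ v : PUnit, LinearMap.range (BG.br (0 : PUnit →ₗ[ZMod p] PUnit →ₗ[ZMod p] W) v) = ⊥ := by
      intro v
      rw [LinearMap.range_eq_bot]
      ext x
      rw [BG.br_apply]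
      simp
    simp only [h1, Set.mem_singleton_iff]
    constructor
    · intro h
      exact ⟨PUnit.unit, h.symm⟩
    · rintro ⟨-, h⟩
      exact h.symm
  · intro ℓ
    have h1 : Nat.card (BG.rad (0 : PUnit →ₗ[ZMod p] PUnit →ₗ[ZMod p] W) ℓ) = 1 :=
      Nat.card_eq_one_iff_unique.mpr ⟨inferInstance, ⟨0⟩⟩
    rw [h1]
    simp

theorem add {S₁ S₂ : Set (Submodule (ZMod p) W)} {r₁ r₂ : Module.Dual (ZMod p) W → ℕ}
    (h₁ : Pc S₁ r₁) (h₂ : Pc S₂ r₂) :
    Pc {U | ∃ U₁ ∈ S₁, ∃ U₂ ∈ S₂, U = U₁ ⊔ U₂} (fun ℓ => r₁ ℓ + r₂ ℓ) := by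
  obtain ⟨V₁, _, _, _, b₁, hS₁, hr₁⟩ := h₁
  obtain ⟨V₂, _, _, _, b₂, hS₂, hr₂⟩ := h₂
  let b : (V₁ × V₂) →ₗ[ZMod p] (V₁ × V₂) →ₗ[ZMod p] W :=
    b₁.compl₁₂ (LinearMap.fst _ _ _) (LinearMap.fst _ _ _) +
      b₂.compl₁₂ (LinearMap.snd _ _ _) (LinearMap.snd _ _ _)
  have hbr : ∀ v v', BG.br b v v' = BG.br b₁ v.1 v'.1 + BG.br b₂ v.2 v'.2 := by
    intro v v'
    simp only [BG.br_apply, b, LinearMap.add_apply, LinearMap.compl₁₂_apply, LinearMap.fst_apply,
      LinearMap.snd_apply]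
    abel
  have hrange : ∀ v, LinearMap.range (BG.br b v) =
      LinearMap.range (BG.br b₁ v.1) ⊔ LinearMap.range (BG.br b₂ v.2) := by
    intro v
    ext w
    rw [Submodule.mem_sup]
    constructor
    · rintro ⟨v', rfl⟩
      exact ⟨_, ⟨v'.1, rfl⟩, _, ⟨v'.2, rfl⟩, (hbr v v').symm⟩
    · rintro ⟨_, ⟨x, rfl⟩, _, ⟨y, rfl⟩, rfl⟩
      exact ⟨(x, y), hbr v (x, y)⟩
  refine ⟨V₁ × V₂, inferInstance, inferInstance, inferInstance, b, ?_, ?_⟩
  · intro U
    constructor
    · rintro ⟨U₁, hU₁, U₂, hU₂, rfl⟩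
      obtain ⟨x, rfl⟩ := (hS₁ U₁).mp hU₁
      obtain ⟨y, rfl⟩ := (hS₂ U₂).mp hU₂
      exact ⟨(x, y), hrange (x, y)⟩
    · rintro ⟨v, rfl⟩
      exact ⟨_, (hS₁ _).mpr ⟨v.1, rfl⟩, _, (hS₂ _).mpr ⟨v.2, rfl⟩, hrange v⟩
  · intro ℓ
    have hrad : ∀ v : V₁ × V₂, v ∈ BG.rad b ℓ ↔ v.1 ∈ BG.rad b₁ ℓ ∧ v.2 ∈ BG.rad b₂ ℓ := by
      intro v
      simp only [BG.mem_rad, hbr]
      constructor
      · intro h
        constructor
        · intro x
          have := h (x, 0)
          rwa [map_zero, add_zero] at this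
        · intro y
          have := h (0, y)
          rwa [map_zero, zero_add] at this
      · rintro ⟨h1, h2⟩ v'
        rw [map_add, h1, h2, add_zero]
    have hcard : Nat.card (BG.rad b ℓ) = Nat.card (BG.rad b₁ ℓ) * Nat.card (BG.rad b₂ ℓ) := by
      rw [← Nat.card_prod]
      refine Nat.card_congr ?_
      exact
        { toFun := fun v => (⟨v.1.1, ((hrad v.1).mp v.2).1⟩, ⟨v.1.2, ((hrad v.1).mp v.2).2⟩)
          invFun := fun v => ⟨(v.1.1, v.2.1), (hrad _).mpr ⟨v.1.2, v.2.2⟩⟩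
          left_inv := fun _ => rfl
          right_inv := fun _ => rfl }
    rw [hcard, Nat.card_prod, ← hr₁ ℓ, ← hr₂ ℓ, mul_add, pow_add]
    ring

/-- the Heisenberg piece -/
theorem heis [Finite W] (U : Submodule (ZMod p) W) (n : ℕ) (hn : 0 < n)
    (hU : Module.finrank (ZMod p) U ≤ n) :
    Pc {⊥, U} (fun ℓ => if U ≤ LinearMap.ker ℓ then 0 else n) := by
  let F := GaloisField p n
  have hF : Module.finrank (ZMod p) F = n := GaloisField.finrank p hn.ne'
  have hFc : Nat.card F = p ^ n := GaloisField.card p n hn.ne'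
  haveI : Finite F := Nat.finite_of_card_ne_zero (by
    rw [hFc]
    exact (pow_pos (Fact.out : p.Prime).pos n).ne')
  haveI : Module.Finite (ZMod p) W := Module.Finite.of_finite
  haveI : Module.Finite (ZMod p) F := Module.Finite.of_finite
  obtain ⟨T, hT⟩ : ∃ T : F →ₗ[ZMod p] W, LinearMap.range T = U := by
    obtain ⟨f, hf⟩ : ∃ f : U →ₗ[ZMod p] F, Function.Injective f := by
      rw [← finrank_le_iff_exists_linearMap, hF]
      exact hU
    obtain ⟨g, hg⟩ := f.exists_leftInverse_of_injective (LinearMap.ker_eq_bot.mpr hf)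
    refine ⟨U.subtype.comp g, ?_⟩
    rw [LinearMap.range_comp]
    have h1 : LinearMap.range g = ⊤ := by
      rw [LinearMap.range_eq_top]
      intro u
      exact ⟨f u, by
        have := LinearMap.congr_fun hg u
        simpa using this⟩
    rw [h1, Submodule.map_top, Submodule.range_subtype]
  let b : (F × F) →ₗ[ZMod p] (F × F) →ₗ[ZMod p] W :=
    ((LinearMap.mul (ZMod p) F).compl₁₂ (LinearMap.fst _ _ _) (LinearMap.snd _ _ _)).compr₂ T
  have hbr : ∀ v v', BG.br b v v' = T (v.1 * v'.2 - v'.1 * v.2) := by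
    intro v v'
    simp only [BG.br_apply, b, LinearMap.compr₂_apply, LinearMap.compl₁₂_apply,
      LinearMap.fst_apply, LinearMap.snd_apply, LinearMap.mul_apply', map_sub]
  have hsurj : ∀ v : F × F, v ≠ 0 → ∀ z : F, ∃ v' : F × F, v.1 * v'.2 - v'.1 * v.2 = z := by
    intro v hv z
    by_cases h1 : v.1 = 0
    · have h2 : v.2 ≠ 0 := by
        intro h2
        exact hv (Prod.ext h1 h2)
      refine ⟨(-z / v.2, 0), ?_⟩
      change v.1 * 0 - (-z / v.2) * v.2 = z
      rw [div_mul_cancel₀ _ h2, mul_zero, zero_sub, neg_neg]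
    · refine ⟨(0, z / v.1), ?_⟩
      change v.1 * (z / v.1) - 0 * v.2 = z
      rw [mul_div_cancel₀ _ h1, zero_mul, sub_zero]
  have hrange0 : LinearMap.range (BG.br b 0) = ⊥ := by
    rw [LinearMap.range_eq_bot]
    exact BG.br_zero b
  have hrange : ∀ v, v ≠ 0 → LinearMap.range (BG.br b v) = U := by
    intro v hv
    rw [← hT]
    ext w
    constructor
    · rintro ⟨v', rfl⟩
      exact ⟨_, (hbr v v').symm⟩
    · rintro ⟨z, rfl⟩
      obtain ⟨v', hv'⟩ := hsurj v hv z
      exact ⟨v', by rw [hbr, hv']⟩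
  refine ⟨F × F, inferInstance, inferInstance, inferInstance, b, ?_, ?_⟩
  · intro X
    simp only [Set.mem_insert_iff, Set.mem_singleton_iff]
    constructor
    · rintro (rfl | rfl)
      · exact ⟨0, hrange0⟩
      · exact ⟨(1, 0), hrange _ (by
          intro h
          exact one_ne_zero (congrArg Prod.fst h))⟩
    · rintro ⟨v, rfl⟩
      by_cases hv : v = 0
      · left
        rw [hv, hrange0]
      · right
        exact hrange v hv
  · intro ℓ
    by_cases hℓ : U ≤ LinearMap.ker ℓ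
    · have h1 : BG.rad b ℓ = ⊤ := by
        rw [eq_top_iff]
        intro v _
        rw [BG.mem_rad]
        intro v'
        rw [hbr]
        apply hℓ
        rw [← hT]
        exact ⟨_, rfl⟩
      simp only [if_pos hℓ, mul_zero, pow_zero, one_mul]
      rw [h1]
      exact Nat.card_congr (Equiv.Set.univ _)
    · have h1 : BG.rad b ℓ = ⊥ := by
        rw [eq_bot_iff]
        intro v hv
        rw [Submodule.mem_bot]
        by_contra hv0
        apply hℓ
        rw [← hT]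
        rintro _ ⟨z, rfl⟩
        obtain ⟨v', hv'⟩ := hsurj v hv0 z
        rw [LinearMap.mem_ker, ← hv', ← hbr]
        exact hv v'
      simp only [if_neg hℓ]
      rw [h1, Nat.card_prod, hFc, two_mul, pow_add]
      simp

/-- orthogonal sum of Heisenberg pieces -/
theorem sum [Finite W] {ι : Type} (s : Finset ι) (U : ι → Submodule (ZMod p) W) (n : ι → ℕ)
    (hn : ∀ i ∈ s, 0 < n i) (hU : ∀ i ∈ s, Module.finrank (ZMod p) (U i) ≤ n i) :
    Pc {X | ∃ J : Finset ι, J ⊆ s ∧ X = ⨆ i ∈ J, U i}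
      (fun ℓ => ∑ i ∈ s, if U i ≤ LinearMap.ker ℓ then 0 else n i) := by
  induction s using Finset.induction_on with
  | empty =>
    refine zero.congr ?_ ?_
    · intro X
      simp
    · intro ℓ
      simp
  | insert a s ha ih =>
    have h1 := (heis (U a) (n a) (hn a (Finset.mem_insert_self a s))
      (hU a (Finset.mem_insert_self a s))).add (ih (fun i hi => hn i (Finset.mem_insert_of_mem hi))
      (fun i hi => hU i (Finset.mem_insert_of_mem hi)))
    refine h1.congr ?_ ?_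
    · intro X
      simp only [Set.mem_ofPred_eq, Set.mem_insert_iff, Set.mem_singleton_iff]
      constructor
      · rintro ⟨J, hJ, rfl⟩
        by_cases haJ : a ∈ J
        · refine ⟨U a, Or.inr rfl, ⨆ i ∈ J.erase a, U i, ⟨J.erase a, ?_, rfl⟩, ?_⟩
          · intro i hi
            rw [Finset.mem_erase] at hi
            exact (Finset.mem_insert.mp (hJ hi.2)).resolve_left hi.1
          · have : J = insert a (J.erase a) := (Finset.insert_erase haJ).symm
            conv_lhs => rw [this]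
            rw [Finset.iSup_insert]
        · refine ⟨⊥, Or.inl rfl, ⨆ i ∈ J, U i, ⟨J, ?_, rfl⟩, ?_⟩
          · intro i hi
            refine (Finset.mem_insert.mp (hJ hi)).resolve_left ?_
            rintro rfl
            exact haJ hi
          · rw [bot_sup_eq]
      · rintro ⟨U₁, hU₁, U₂, ⟨J, hJ, rfl⟩, rfl⟩
        rcases hU₁ with rfl | rfl
        · exact ⟨J, hJ.trans (Finset.subset_insert a s), by rw [bot_sup_eq]⟩
        · exact ⟨insert a J, Finset.insert_subset_insert a hJ, by rw [Finset.iSup_insert]⟩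
    · intro ℓ
      rw [Finset.sum_insert ha]

/-- the group of a piece -/
theorem realizable [Finite W] {S : Set (Submodule (ZMod p) W)} {r : Module.Dual (ZMod p) W → ℕ}
    (h : Pc S r) (α β : Finset ℕ) (hα : ∀ a, a ∈ α ↔ ∃ ℓ, r ℓ = a)
    (hβ : ∀ c, c ∈ β ↔ ∃ U ∈ S, Module.finrank (ZMod p) U = c) : Realizable p α β := by
  obtain ⟨V, _, _, _, b, hS, hr⟩ := h
  haveI := Fintype.ofFinite V
  haveI := Fintype.ofFinite W
  have hp : p.Prime := Fact.out
  refine ⟨BG b, inferInstance, inferInstance, BG.isPGroup b, ?_, ?_⟩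
  · ext d
    rw [BG.mem_cd]
    simp only [Set.mem_image, SetLike.mem_coe, hα]
    constructor
    · rintro ⟨ℓ, hℓ⟩
      refine ⟨r ℓ, ⟨ℓ, rfl⟩, ?_⟩
      have h1 : 0 < Nat.card (BG.rad b ℓ) := Nat.card_pos
      rw [← hr ℓ] at hℓ
      have h2 := Nat.eq_of_mul_eq_mul_right h1 hℓ
      rw [mul_comm 2, pow_mul] at h2
      exact (Nat.pow_left_injective (n := 2) (by norm_num) h2).symm
    · rintro ⟨_, ⟨ℓ, rfl⟩, rfl⟩
      refine ⟨ℓ, ?_⟩
      rw [← hr ℓ, mul_comm 2, pow_mul]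
  · ext d
    rw [BG.mem_cs]
    simp only [Set.mem_image, SetLike.mem_coe, hβ]
    have hcard : ∀ U : Submodule (ZMod p) W, Nat.card U = p ^ Module.finrank (ZMod p) U := by
      intro U
      haveI : Module.Finite (ZMod p) U := Module.Finite.of_finite
      have := Module.natCard_eq_pow_finrank (K := ZMod p) (V := U)
      rwa [Nat.card_zmod] at this
    constructor
    · rintro ⟨v, rfl⟩
      exact ⟨_, ⟨_, (hS _).mpr ⟨v, rfl⟩, rfl⟩, (hcard _).symm⟩
    · rintro ⟨_, ⟨U, hU, rfl⟩, rfl⟩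
      obtain ⟨v, rfl⟩ := (hS _).mp hU
      exact ⟨v, (hcard _).symm⟩

end Pc

end Run7.h528
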