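import Mathlib
import Pool.Agent.Run7.h528.Pieces

/-!
# Two more pieces
-/

set_option autoImplicit false
set_option linter.unusedSectionVars false
set_option linter.style.haveILetI false

open scoped BigOperators Classical

noncomputable section

namespace Run7.h528

variable {p : ℕ} [Fact p.Prime] {W : Type} [AddCommGroup W] [Module (ZMod p) W]

namespace Pc

/-- the piece `W × F_p` -/
theorem kron1 [Finite W] :
    Pc {U : Submodule (ZMod p) W | (∃ w, U = Submodule.span (ZMod p) {w}) ∨ U = ⊤}
      (fun ℓ => if ℓ = 0 then 0 else 1) := by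
  haveI : Module.Finite (ZMod p) W := Module.Finite.of_finite
  let b : (W × ZMod p) →ₗ[ZMod p] (W × ZMod p) →ₗ[ZMod p] W :=
    LinearMap.mk₂ (ZMod p) (fun v v' => v'.2 • v.1)
      (fun a c d => by simp only [Prod.fst_add, smul_add])
      (fun a c d => by simp only [Prod.smul_fst]; rw [smul_comm])
      (fun a c d => by simp only [Prod.snd_add, add_smul])
      (fun a c d => by simp only [Prod.smul_snd, smul_eq_mul, mul_smul])
  have hbr : ∀ v v', BG.br b v v' = v'.2 • v.1 - v.2 • v'.1 := fun v v' => rfl
  refine ⟨W × ZMod p, inferInstance, inferInstance, inferInstance, b, ?_, ?_⟩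
  · intro U
    have h0 : ∀ w : W, LinearMap.range (BG.br b (w, 0)) = Submodule.span (ZMod p) {w} := by
      intro w
      ext u
      rw [Submodule.mem_span_singleton]
      constructor
      · rintro ⟨v', rfl⟩
        exact ⟨v'.2, by rw [hbr]; simp⟩
      · rintro ⟨c, rfl⟩
        exact ⟨(0, c), by rw [hbr]; simp⟩
    have h1 : ∀ (w : W) (t : ZMod p), t ≠ 0 → LinearMap.range (BG.br b (w, t)) = ⊤ := by
      intro w t ht
      rw [LinearMap.range_eq_top]
      intro u
      refine ⟨(-(t⁻¹ • u), 0), ?_⟩
      rw [hbr]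
      simp only [zero_smul, zero_sub, smul_neg, neg_neg]
      rw [smul_smul, mul_inv_cancel₀ ht, one_smul]
    constructor
    · rintro (⟨w, rfl⟩ | rfl)
      · exact ⟨(w, 0), h0 w⟩
      · exact ⟨(0, 1), h1 0 1 one_ne_zero⟩
    · rintro ⟨⟨w, t⟩, rfl⟩
      by_cases ht : t = 0
      · subst ht
        exact Or.inl ⟨w, h0 w⟩
      · exact Or.inr (h1 w t ht)
  · intro ℓ
    by_cases hℓ : ℓ = 0
    · have h1 : BG.rad b ℓ = ⊤ := by
        rw [eq_top_iff]
        intro v _
        rw [BG.mem_rad]
        intro v'
        rw [hℓ]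
        rfl
      simp only [if_pos hℓ, mul_zero, pow_zero, one_mul]
      rw [h1]
      exact Nat.card_congr (Equiv.Set.univ _)
    · have h1 : ∀ v : W × ZMod p, v ∈ BG.rad b ℓ ↔ v.2 = 0 ∧ ℓ v.1 = 0 := by
        intro v
        rw [BG.mem_rad]
        constructor
        · intro h
          have h2 : ℓ v.1 = 0 := by
            have := h (0, 1)
            rw [hbr] at this
            simpa using this
          refine ⟨?_, h2⟩
          by_contra h3
          apply hℓ
          ext w
          have := h (-(v.2⁻¹ • w), 0)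
          rw [hbr] at this
          simp only [zero_smul, zero_sub, smul_neg, neg_neg, smul_smul, mul_inv_cancel₀ h3,
            one_smul] at this
          exact this
        · rintro ⟨h2, h3⟩ v'
          rw [hbr, h2, zero_smul, sub_zero, map_smul, h3, smul_zero]
      have h2 : Nat.card (BG.rad b ℓ) = Nat.card (LinearMap.ker ℓ) := by
        refine Nat.card_congr ?_
        exact
          { toFun := fun v => ⟨v.1.1, ((h1 v.1).mp v.2).2⟩
            invFun := fun w => ⟨(w.1, 0), (h1 _).mpr ⟨rfl, w.2⟩⟩
            left_inv := fun v => Subtype.ext (Prod.ext rfl ((h1 v.1).mp v.2).1.symm)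
            right_inv := fun _ => rfl }
      have h3 : Nat.card (LinearMap.ker ℓ) * p = Nat.card W := by
        have h4 := LinearMap.finrank_range_add_finrank_ker ℓ
        have h5 : LinearMap.range ℓ = ⊤ := LinearMap.range_eq_top.mpr (LinearMap.surjective hℓ)
        rw [h5, finrank_top, Module.finrank_self] at h4
        have h6 := Module.natCard_eq_pow_finrank (K := ZMod p) (V := LinearMap.ker ℓ)
        have h7 := Module.natCard_eq_pow_finrank (K := ZMod p) (V := W)
        rw [Nat.card_zmod] at h6 h7
        rw [h6, h7, ← h4, add_comm, pow_succ]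
      simp only [if_neg hℓ]
      rw [h2, Nat.card_prod, Nat.card_zmod, ← h3]
      ring

theorem kron [Finite W] (n : ℕ) : ∃ S : Set (Submodule (ZMod p) W),
    Pc S (fun ℓ => if ℓ = 0 then 0 else n) ∧ ⊥ ∈ S ∧ (n ≠ 0 → ⊤ ∈ S) ∧
      (n ≠ 0 → ∀ w : W, Submodule.span (ZMod p) {w} ∈ S) := by
  induction n with
  | zero =>
    refine ⟨{⊥}, ?_, rfl, fun h => absurd rfl h, fun h => absurd rfl h⟩
    refine Pc.zero.congr (fun _ => Iff.rfl) ?_
    intro ℓ
    split_ifs <;> rfl
  | succ n ih =>
    obtain ⟨S, h1, h2, h3, h4⟩ := ih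
    refine ⟨_, (h1.add kron1).congr (fun _ => Iff.rfl) ?_, ?_, ?_, ?_⟩
    · intro ℓ
      split_ifs <;> rfl
    · exact ⟨⊥, h2, ⊥, Or.inl ⟨0, by simp⟩, by simp⟩
    · intro _
      exact ⟨⊥, h2, ⊤, Or.inr rfl, by simp⟩
    · intro _ w
      exact ⟨⊥, h2, _, Or.inl ⟨w, rfl⟩, by simp⟩

end Pc

section

variable {F : Type} [Field F] [Algebra (ZMod p) F]

/-- one half of the vector product -/
def crossB : (F × F × F) →ₗ[ZMod p] (F × F × F) →ₗ[ZMod p] (F × F × F) :=
  LinearMap.mk₂ (ZMod p) (fun v w => (v.2.1 * w.2.2, v.2.2 * w.1, v.1 * w.2.1))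
    (fun v v' w => by
      simp only [Prod.fst_add, Prod.snd_add, add_mul, Prod.mk_add_mk])
    (fun c v w => by
      simp only [Prod.smul_fst, Prod.smul_snd, smul_mul_assoc, Prod.smul_mk])
    (fun v w w' => by
      simp only [Prod.fst_add, Prod.snd_add, mul_add, Prod.mk_add_mk])
    (fun c v w => by
      simp only [Prod.smul_fst, Prod.smul_snd, mul_smul_comm, Prod.smul_mk])

theorem crossB_br (v w : F × F × F) : BG.br (p := p) (crossB (F := F)) v w =
    (v.2.1 * w.2.2 - v.2.2 * w.2.1, v.2.2 * w.1 - v.1 * w.2.2, v.1 * w.2.1 - v.2.1 * w.1) := by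
  have h1 : BG.br (p := p) (crossB (F := F)) v w =
    (v.2.1 * w.2.2, v.2.2 * w.1, v.1 * w.2.1) - (w.2.1 * v.2.2, w.2.2 * v.1, w.1 * v.2.1) := rfl
  rw [h1]
  simp only [Prod.mk_sub_mk]
  rw [mul_comm w.2.1, mul_comm w.2.2, mul_comm w.1]

/-- the dot product -/
def dotP (u w : F × F × F) : F := u.1 * w.1 + u.2.1 * w.2.1 + u.2.2 * w.2.2

theorem dot_cross (v w : F × F × F) : dotP v (BG.br (p := p) (crossB (F := F)) v w) = 0 := by
  rw [crossB_br]
  simp only [dotP]
  ring

/-- a vector orthogonal to `v ≠ 0` is a vector product -/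
theorem exists_cross {v u : F × F × F} (hv : v ≠ 0) (h : dotP v u = 0) :
    ∃ w, BG.br (p := p) (crossB (F := F)) v w = u := by
  obtain ⟨v1, v2, v3⟩ := v
  obtain ⟨u1, u2, u3⟩ := u
  simp only [dotP] at h
  by_cases h1 : v1 = 0
  · by_cases h2 : v2 = 0
    · have h3 : v3 ≠ 0 := by
        intro h3
        exact hv (by rw [h1, h2, h3]; rfl)
      -- `u3 = 0`
      have h4 : u3 = 0 := by
        rw [h1, h2] at h
        simpa [h3] using h
      refine ⟨(u2 / v3, -u1 / v3, 0), ?_⟩
      rw [crossB_br]
      simp only [h1, h2, h4]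
      refine Prod.ext ?_ (Prod.ext ?_ ?_)
      · simp only; field_simp; ring
      · simp only; field_simp; ring
      · simp
    · -- `v2 ≠ 0`
      refine ⟨(-u3 / v2, 0, u1 / v2), ?_⟩
      rw [crossB_br]
      have h4 : u2 = - (u3 * v3) / v2 := by
        rw [eq_div_iff h2]
        rw [h1] at h
        linear_combination h
      simp only [h1, h4]
      refine Prod.ext ?_ (Prod.ext ?_ ?_)
      · simp only; field_simp; ring
      · simp only; field_simp; ring
      · simp only; field_simp; ring
  · refine ⟨(0, u3 / v1, -u2 / v1), ?_⟩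
    rw [crossB_br]
    have h4 : u1 = - (u2 * v2 + u3 * v3) / v1 := by
      rw [eq_div_iff h1]
      linear_combination h
    simp only [h4]
    refine Prod.ext ?_ (Prod.ext ?_ ?_)
    · simp only; field_simp; ring
    · simp only; field_simp; ring
    · simp only; field_simp; ring

/-- the vectors orthogonal to `v` -/
def perpP (v : F × F × F) : Submodule F (F × F × F) where
  carrier := {u | dotP v u = 0}
  zero_mem' := by simp [dotP]
  add_mem' := by
    intro a c ha hc
    have : dotP v (a + c) = dotP v a + dotP v c := by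
      simp only [dotP, Prod.fst_add, Prod.snd_add]
      ring
    change dotP v (a + c) = 0
    rw [this, ha, hc, add_zero]
  smul_mem' := by
    intro t a ha
    have : dotP v (t • a) = t * dotP v a := by
      simp only [dotP, Prod.smul_fst, Prod.smul_snd, smul_eq_mul]
      ring
    change dotP v (t • a) = 0
    rw [this, ha, mul_zero]

/-- the dot product as a linear form -/
def dotL (v : F × F × F) : (F × F × F) →ₗ[F] F where
  toFun u := dotP v u
  map_add' a c := by
    simp only [dotP, Prod.fst_add, Prod.snd_add]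
    ring
  map_smul' t a := by
    simp only [dotP, Prod.smul_fst, Prod.smul_snd, smul_eq_mul, RingHom.id_apply]
    ring

theorem dotL_surj {v : F × F × F} (hv : v ≠ 0) : Function.Surjective (dotL v) := by
  apply LinearMap.surjective
  intro h
  apply hv
  have h1 := LinearMap.congr_fun h (1, 0, 0)
  have h2 := LinearMap.congr_fun h (0, 1, 0)
  have h3 := LinearMap.congr_fun h (0, 0, 1)
  simp [dotL, dotP] at h1 h2 h3
  exact Prod.ext h1 (Prod.ext h2 h3)

/-- every functional is given by a dot product -/
theorem exists_dot [Finite F] {φ : Module.Dual (ZMod p) F} (hφ : φ 1 ≠ 0)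
    (ℓ : Module.Dual (ZMod p) (F × F × F)) : ∃ u, ∀ w, ℓ w = φ (dotP u w) := by
  haveI : Module.Finite (ZMod p) F := Module.Finite.of_finite
  let Φ : (F × F × F) →ₗ[ZMod p] Module.Dual (ZMod p) (F × F × F) :=
    LinearMap.mk₂ (ZMod p) (fun u w => φ (dotP u w))
      (fun a c w => by
        rw [← map_add]
        congr 1
        simp only [dotP, Prod.fst_add, Prod.snd_add]
        ring)
      (fun c v w => by
        rw [← map_smul]
        congr 1
        simp only [dotP, Prod.smul_fst, Prod.smul_snd, smul_mul_assoc, smul_add])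
      (fun v a c => by
        rw [← map_add]
        congr 1
        simp only [dotP, Prod.fst_add, Prod.snd_add]
        ring)
      (fun c v w => by
        rw [← map_smul]
        congr 1
        simp only [dotP, Prod.smul_fst, Prod.smul_snd, mul_smul_comm, smul_add])
  have hΦ : ∀ u w, Φ u w = φ (dotP u w) := fun u w => rfl
  have hinj : Function.Injective Φ := by
    rw [← LinearMap.ker_eq_bot, LinearMap.ker_eq_bot']
    intro u hu
    by_contra hu0
    obtain ⟨w, hw⟩ := dotL_surj hu0 1
    apply hφ
    have h1 := LinearMap.congr_fun hu w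
    rw [hΦ] at h1
    have h2 : dotP u w = 1 := hw
    rw [h2] at h1
    exact h1
  have hsurj : Function.Surjective Φ := by
    rw [← LinearMap.injective_iff_surjective_of_finrank_eq_finrank (Subspace.dual_finrank_eq).symm]
    exact hinj
  obtain ⟨u, hu⟩ := hsurj ℓ
  exact ⟨u, fun w => by rw [← hu, hΦ]⟩

theorem exists_phi : ∃ φ : Module.Dual (ZMod p) F, φ 1 ≠ 0 := by
  by_contra h
  push Not at h
  exact one_ne_zero ((Module.forall_dual_apply_eq_zero_iff (ZMod p) (1 : F)).mp h)

theorem card_range_cross [Finite F] {q : ℕ} (hq : Nat.card F = q) {v : F × F × F} (hv : v ≠ 0) :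
    Nat.card (LinearMap.range (BG.br (p := p) (crossB (F := F)) v)) = q ^ 2 := by
  have h1 : (LinearMap.range (BG.br (p := p) (crossB (F := F)) v) : Set (F × F × F)) =
      (LinearMap.ker (dotL v) : Set (F × F × F)) := by
    ext u
    constructor
    · rintro ⟨w, rfl⟩
      exact dot_cross v w
    · intro hu
      exact exists_cross hv hu
  have h2 : Nat.card (LinearMap.range (BG.br (p := p) (crossB (F := F)) v)) =
      Nat.card (LinearMap.ker (dotL v)) := by
    refine Nat.card_congr (Equiv.setCongr h1)
  have h3 := LinearMap.finrank_range_add_finrank_ker (dotL v)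
  rw [LinearMap.range_eq_top.mpr (dotL_surj hv), finrank_top, Module.finrank_self] at h3
  have h4 : Module.finrank F (F × F × F) = 3 := by simp
  have h5 := Module.natCard_eq_pow_finrank (K := F) (V := LinearMap.ker (dotL v))
  rw [h2, h5, hq]
  congr 1
  omega

theorem rad_cross [Finite F] {φ : Module.Dual (ZMod p) F} (hφ : φ 1 ≠ 0)
    {ℓ : Module.Dual (ZMod p) (F × F × F)} {u : F × F × F} (hu : ∀ w, ℓ w = φ (dotP u w))
    (v : F × F × F) :
    v ∈ BG.rad (p := p) (crossB (F := F)) ℓ ↔ BG.br (p := p) (crossB (F := F)) u v = 0 := by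
  rw [BG.mem_rad]
  have h1 : ∀ w, dotP u (BG.br (p := p) (crossB (F := F)) v w) =
      dotP (BG.br (p := p) (crossB (F := F)) u v) w := by
    intro w
    rw [crossB_br, crossB_br]
    simp only [dotP]
    ring
  constructor
  · intro h
    by_contra h2
    obtain ⟨w, hw⟩ := dotL_surj h2 1
    apply hφ
    have h3 := h w
    rw [hu, h1] at h3
    have h4 : dotP (BG.br (p := p) (crossB (F := F)) u v) w = 1 := hw
    rw [h4] at h3
    exact h3
  · intro h w
    rw [hu, h1, h]
    simp [dotP]

end

theorem real_cross (a : ℕ) (ha : 0 < a) : Realizable p {0, a} {0, 2 * a} := by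
  let F := GaloisField p a
  have hFc : Nat.card F = p ^ a := GaloisField.card p a ha.ne'
  haveI : Finite F := Nat.finite_of_card_ne_zero (by
    rw [hFc]
    exact (pow_pos (Fact.out : p.Prime).pos a).ne')
  have hp : p.Prime := Fact.out
  obtain ⟨φ, hφ⟩ := exists_phi (p := p) (F := F)
  have hne : (1, 0, 0) ≠ (0 : F × F × F) := by
    intro h
    exact one_ne_zero (congrArg Prod.fst h)
  have hP : Pc (p := p) (W := F × F × F) {U | ∃ v, LinearMap.range (BG.br (p := p) (crossB (F := F)) v) = U}
      (fun ℓ => if ℓ = 0 then 0 else a) := by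
    refine ⟨F × F × F, inferInstance, inferInstance, inferInstance, crossB, fun U => Iff.rfl, ?_⟩
    intro ℓ
    by_cases hℓ : ℓ = 0
    · have h1 : BG.rad (p := p) (crossB (F := F)) ℓ = ⊤ := by
        rw [eq_top_iff]
        intro v _
        rw [BG.mem_rad]
        intro v'
        rw [hℓ]
        rfl
      simp only [if_pos hℓ, mul_zero, pow_zero, one_mul]
      rw [h1]
      exact Nat.card_congr (Equiv.Set.univ _)
    · obtain ⟨u, hu⟩ := exists_dot hφ ℓ
      have hu0 : u ≠ 0 := by
        rintro rfl
        apply hℓ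
        apply LinearMap.ext
        intro w
        rw [hu]
        simp [dotP]
      simp only [if_neg hℓ]
      have h1 : Nat.card (BG.rad (p := p) (crossB (F := F)) ℓ) =
          Nat.card (LinearMap.ker (BG.br (p := p) (crossB (F := F)) u)) := by
        refine Nat.card_congr (Equiv.subtypeEquivRight fun v => ?_)
        rw [rad_cross hφ hu v, LinearMap.mem_ker]
      have h2 := card_range_cross (p := p) hFc hu0
      have h3 : Nat.card (LinearMap.ker (BG.br (p := p) (crossB (F := F)) u)) *
          Nat.card (LinearMap.range (BG.br (p := p) (crossB (F := F)) u)) = Nat.card (F × F × F) := by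
        have h4 := (LinearMap.ker (BG.br (p := p) (crossB (F := F)) u)).toAddSubgroup.card_mul_index
        rw [← h4]
        congr 1
        have h5 := AddSubgroup.index_ker (BG.br (p := p) (crossB (F := F)) u).toAddMonoidHom
        exact h5.symm
      rw [h2, Nat.card_prod, Nat.card_prod, hFc] at h3
      rw [h1, Nat.card_prod, Nat.card_prod, hFc]
      have h6 : 0 < (p ^ a) ^ 2 := pow_pos (pow_pos hp.pos a) 2
      have h7 : p ^ (2 * a) = (p ^ a) ^ 2 := by
        rw [← pow_mul]
        congr 1
        ring
      rw [h7, mul_comm]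
      exact h3
  refine hP.realizable _ _ ?_ ?_
  · intro x
    simp only [Finset.mem_insert, Finset.mem_singleton]
    constructor
    · rintro (rfl | rfl)
      · exact ⟨0, by simp⟩
      · obtain ⟨ℓ, hℓ⟩ : ∃ ℓ : Module.Dual (ZMod p) (F × F × F), ℓ ≠ 0 := by
          refine ⟨φ.comp (LinearMap.fst _ _ _), ?_⟩
          intro h
          exact hφ (LinearMap.congr_fun h (1, 0, 0))
        exact ⟨ℓ, by rw [if_neg hℓ]⟩
    · rintro ⟨ℓ, rfl⟩
      split_ifs
      · exact Or.inl rfl
      · exact Or.inr rfl
  · have hfr : ∀ v : F × F × F, v ≠ 0 →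
        Module.finrank (ZMod p) (LinearMap.range (BG.br (p := p) (crossB (F := F)) v)) = 2 * a := by
      intro v hv
      have h1 := Module.natCard_eq_pow_finrank (K := ZMod p)
        (V := LinearMap.range (BG.br (p := p) (crossB (F := F)) v))
      rw [Nat.card_zmod, card_range_cross hFc hv, ← pow_mul] at h1
      have := Nat.pow_right_injective hp.two_le h1
      omega
    have hfr0 : Module.finrank (ZMod p) (LinearMap.range (BG.br (p := p) (crossB (F := F)) 0)) = 0 := by
      rw [BG.br_zero, LinearMap.range_zero, finrank_bot]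
    intro c
    simp only [Finset.mem_insert, Finset.mem_singleton]
    constructor
    · rintro (rfl | rfl)
      · exact ⟨_, ⟨0, rfl⟩, hfr0⟩
      · exact ⟨_, ⟨_, rfl⟩, hfr _ hne⟩
    · rintro ⟨_, ⟨v, rfl⟩, rfl⟩
      by_cases hv : v = 0
      · left
        rw [hv]
        exact hfr0
      · right
        exact hfr v hv

end Run7.h528
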