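import Mathlib
import Pool.Agent.Run7.h528.Norm

/-!
# Twisting with linear characters, Galois conjugation, restriction to the commutator subgroup
-/

set_option autoImplicit false
set_option linter.unusedSectionVars false
set_option linter.style.haveILetI false

open scoped BigOperators Classical ComplexConjugate commutatorElement
open Pool.Agent.Helper884.IC

noncomputable section

namespace Run7.h528

variable {G : Type} [Group G] [Fintype G]

/-- the representation of degree one -/
def linRep (l : G →* ℂˣ) : Representation ℂ G ℂ where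
  toFun c := ((l c : ℂˣ) : ℂ) • LinearMap.id
  map_one' := by
    rw [map_one, Units.val_one, one_smul]
    rfl
  map_mul' a b := by
    rw [map_mul, Units.val_mul]
    ext
    simp [mul_comm]

theorem linRep_char (l : G →* ℂˣ) (g : G) : (linRep l).character g = ((l g : ℂˣ) : ℂ) := by
  change LinearMap.trace ℂ ℂ (((l g : ℂˣ) : ℂ) • LinearMap.id) = _
  rw [map_smul, LinearMap.trace_id]
  simp

theorem irr_twist (l : G →* ℂˣ) {χ : G → ℂ} (h : IsIrrChar χ) :
    IsIrrChar (fun g => ((l g : ℂˣ) : ℂ) * χ g) := by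
  have hχ := h
  obtain ⟨V, _, _, _, ρ, hρ, rfl⟩ := h
  have hc : ((linRep l).tprod ρ).character = fun g => ((l g : ℂˣ) : ℂ) * ρ.character g := by
    rw [Representation.char_tensor]
    funext g
    rw [Pi.mul_apply, linRep_char]
  apply Pool.Agent.Q90.WR.irr_of_norm
  · rw [← hc]
    exact isClass_char _
  · intro φ hφ
    obtain ⟨U, _, _, _, σ, hσ, rfl⟩ := hφ
    obtain ⟨n, hn⟩ := Pool.Agent.Q90.WR.B_nat ((linRep l).tprod ρ) σ
    refine ⟨n, ?_⟩
    rw [← hc, hn]
    push_cast
    rfl
  · have h1 := B_irr hχ hχ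
    rw [if_pos rfl] at h1
    rw [← h1]
    unfold B
    congr 1
    refine Finset.sum_congr rfl fun g _ => ?_
    have h2 : ((l g : ℂˣ) : ℂ) * ((l g⁻¹ : ℂˣ) : ℂ) = 1 := by
      rw [← Units.val_mul, ← map_mul, mul_inv_cancel, map_one, Units.val_one]
    linear_combination (ρ.character g * ρ.character g⁻¹) * h2
  · refine ⟨dg ρ.character, ?_⟩
    rw [map_one, Units.val_one, one_mul, dg_spec hχ]

theorem dg_twist (l : G →* ℂˣ) {χ : G → ℂ} (h : IsIrrChar χ) :
    dg (fun g => ((l g : ℂˣ) : ℂ) * χ g) = dg χ := by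
  apply dg_eq
  rw [map_one, Units.val_one, one_mul, dg_spec h]

instance : Finite (Abelianization G) := by
  unfold Abelianization
  infer_instance

/-- the sum of the linear characters -/
theorem exists_sum_lin : ∃ (X : Type) (_ : Fintype X) (l : X → (G →* ℂˣ)), Nonempty X ∧
    ∀ g : G, ∑ x : X, ((l x g : ℂˣ) : ℂ) = if g ∈ commutator G then (Fintype.card X : ℂ) else 0 := by
  let X := Abelianization G →* ℂˣ
  haveI : Finite X := inferInstance
  haveI : Fintype X := Fintype.ofFinite X
  refine ⟨X, inferInstance, fun x => x.comp Abelianization.of, ⟨1⟩, ?_⟩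
  intro g
  split_ifs with hg
  · have h1 : Abelianization.of g = 1 := by
      rw [← MonoidHom.mem_ker, Abelianization.ker_of]
      exact hg
    have h2 : ∀ x : X, (((x.comp Abelianization.of) g : ℂˣ) : ℂ) = 1 := by
      intro x
      rw [MonoidHom.comp_apply, h1, map_one, Units.val_one]
    rw [Finset.sum_congr rfl (fun x _ => h2 x)]
    simp
  · have h1 : Abelianization.of g ≠ 1 := by
      rw [Ne, ← MonoidHom.mem_ker, Abelianization.ker_of]
      exact hg
    obtain ⟨y, hy⟩ := CommGroup.exists_apply_ne_one_of_hasEnoughRootsOfUnity (Abelianization G) ℂ h1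
    have h2 : ∑ x : X, (((x.comp Abelianization.of) g : ℂˣ) : ℂ) =
        ((y (Abelianization.of g) : ℂˣ) : ℂ) * ∑ x : X, (((x.comp Abelianization.of) g : ℂˣ) : ℂ) := by
      rw [Finset.mul_sum]
      refine (Fintype.sum_equiv (Equiv.mulLeft y) _ _ fun x => ?_).symm
      rw [← Units.val_mul]
      rfl
    have h3 : ((y (Abelianization.of g) : ℂˣ) : ℂ) ≠ 1 := by
      intro h
      exact hy (Units.ext h)
    have h4 : (1 - ((y (Abelianization.of g) : ℂˣ) : ℂ)) *
        ∑ x : X, (((x.comp Abelianization.of) g : ℂˣ) : ℂ) = 0 := by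
      linear_combination h2
    exact (mul_eq_zero.mp h4).resolve_left (sub_ne_zero.mpr h3.symm)

/-- characters of different degrees are orthogonal on the commutator subgroup -/
theorem orth_comm {χ φ : G → ℂ} (hχ : IsIrrChar χ) (hφ : IsIrrChar φ) (hne : dg χ ≠ dg φ) :
    ∑ n : commutator G, χ n * φ (n : G)⁻¹ = 0 := by
  obtain ⟨X, _, l, hX, hl⟩ := exists_sum_lin (G := G)
  have h1 : ∀ x : X, ∑ g : G, χ g * (((l x g⁻¹ : ℂˣ) : ℂ) * φ g⁻¹) = 0 := by
    intro x
    have h2 := B_irr hχ (irr_twist (l x) hφ)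
    rw [if_neg] at h2
    · unfold B at h2
      rcases mul_eq_zero.mp h2 with h3 | h3
      · exact absurd (inv_eq_zero.mp h3) cardG_ne
      · exact h3
    · intro h3
      apply hne
      rw [h3, dg_twist _ hφ]
  have h2 : ∑ g : G, χ g * φ g⁻¹ * ∑ x : X, ((l x g⁻¹ : ℂˣ) : ℂ) = 0 := by
    rw [Finset.sum_congr rfl (fun g _ => Finset.mul_sum _ _ _), Finset.sum_comm]
    apply Finset.sum_eq_zero
    intro x _
    rw [← h1 x]
    exact Finset.sum_congr rfl fun g _ => by ring
  simp only [hl, inv_mem_iff, mul_ite, mul_zero] at h2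
  rw [← Finset.sum_filter, ← Finset.sum_mul] at h2
  rcases mul_eq_zero.mp h2 with h3 | h3
  · rw [← h3]
    symm
    refine Finset.sum_subtype _ (fun g => ?_) (fun g => χ g * φ g⁻¹)
    simp
  · exfalso
    have : Fintype.card X ≠ 0 := Fintype.card_ne_zero
    exact this (by exact_mod_cast h3)

/-- an automorphism of `ℂ` that raises all `m`-th roots of unity to the `n`-th power -/
theorem exists_pow_aut (m n : ℕ) (hm : 0 < m) (hn : Nat.Coprime n m) :
    ∃ σ : ℂ ≃+* ℂ, ∀ z : ℂ, z ^ m = 1 → σ z = z ^ n := by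
  haveI : NeZero m := ⟨hm.ne'⟩
  haveI : NeZero ((m : ℕ) : ℚ) := ⟨by exact_mod_cast hm.ne'⟩
  haveI : IsCyclotomicExtension {m} ℚ (CyclotomicField m ℚ) :=
    CyclotomicField.isCyclotomicExtension m ℚ
  let j : CyclotomicField m ℚ →ₐ[ℚ] ℂ := IsAlgClosed.lift
  have hz : IsPrimitiveRoot (IsCyclotomicExtension.zeta m ℚ (CyclotomicField m ℚ)) m :=
    IsCyclotomicExtension.zeta_spec m ℚ (CyclotomicField m ℚ)
  have hμ : IsPrimitiveRoot ((IsCyclotomicExtension.zeta m ℚ (CyclotomicField m ℚ)) ^ n) m :=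
    hz.pow_of_coprime n hn
  have hirr : Irreducible (Polynomial.cyclotomic m ℚ) := Polynomial.cyclotomic.irreducible_rat hm
  let g := IsCyclotomicExtension.fromZetaAut hμ hirr
  have hg : g (IsCyclotomicExtension.zeta m ℚ (CyclotomicField m ℚ)) =
      (IsCyclotomicExtension.zeta m ℚ (CyclotomicField m ℚ)) ^ n :=
    IsCyclotomicExtension.fromZetaAut_spec hμ hirr
  obtain ⟨σ, hσ⟩ := Pool.Agent.H977R3.CM.exists_aut (j : CyclotomicField m ℚ →+* ℂ)
    (g : CyclotomicField m ℚ ≃+* CyclotomicField m ℚ)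
  refine ⟨σ, fun z hz1 => ?_⟩
  have hjz : IsPrimitiveRoot (j (IsCyclotomicExtension.zeta m ℚ (CyclotomicField m ℚ))) m :=
    hz.map_of_injective j.injective
  obtain ⟨i, -, rfl⟩ := hjz.eq_pow_of_pow_eq_one hz1
  have h1 : σ (j (IsCyclotomicExtension.zeta m ℚ (CyclotomicField m ℚ))) =
      j (IsCyclotomicExtension.zeta m ℚ (CyclotomicField m ℚ)) ^ n := by
    have := hσ (IsCyclotomicExtension.zeta m ℚ (CyclotomicField m ℚ))
    refine this.trans ?_
    change j (g _) = _
    rw [hg, map_pow]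
  rw [map_pow, h1, ← pow_mul, ← pow_mul, mul_comm]

theorem dg_gal {χ : G → ℂ} (h : IsIrrChar χ) (σ : ℂ ≃+* ℂ) : dg (fun g => σ (χ g)) = dg χ := by
  apply dg_eq
  rw [dg_spec h, map_natCast]

/-- the linear characters are those that are trivial on the commutator subgroup -/
theorem triv_comm_iff {χ : G → ℂ} (h : IsIrrChar χ) : Triv (commutator G) χ ↔ dg χ = 1 := by
  constructor
  · intro ht
    have h1 : ∀ x : G, ‖χ x‖ = dg χ := by
      intro x
      apply norm_of_zmod h (commutator G) ht
      rw [mem_zmod]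
      intro g
      exact Subgroup.commutator_mem_commutator (Subgroup.mem_top _) (Subgroup.mem_top _)
    have h2 := orth1_norm h
    rw [Finset.sum_congr rfl (fun g _ => by rw [h1 g]), Finset.sum_const, Finset.card_univ,
      nsmul_eq_mul, ← Nat.card_eq_fintype_card] at h2
    have h3 : (Nat.card G : ℝ) ≠ 0 := by exact_mod_cast Nat.card_pos.ne'
    have h4 : (dg χ : ℝ) ^ 2 = 1 := by
      apply mul_left_cancel₀ h3
      rw [h2, mul_one]
    have h5 : (dg χ) ^ 2 = 1 := by exact_mod_cast h4
    exact (pow_eq_one_iff.mp h5).resolve_right (by norm_num)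
  · intro hd
    obtain ⟨V, _, _, _, ρ, hρ, rfl⟩ := h
    have h1 : Module.finrank ℂ V = 1 := by
      rw [← hd]
      exact (dg_eq ρ.char_one).symm
    obtain ⟨v, hv0, hv⟩ := finrank_eq_one_iff'.mp h1
    have hcomm : ∀ f g : V →ₗ[ℂ] V, f * g = g * f := by
      intro f g
      obtain ⟨a, ha⟩ := hv (f v)
      obtain ⟨c, hc⟩ := hv (g v)
      ext w
      obtain ⟨d, rfl⟩ := hv w
      simp only [Module.End.mul_apply, map_smul, ← ha, ← hc]
      rw [smul_comm c a]
    have h2 : commutator G ≤ MonoidHom.ker ρ := by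
      rw [commutator_def, Subgroup.commutator_le]
      intro g₁ _ g₂ _
      rw [MonoidHom.mem_ker, commutatorElement_def, map_mul, map_mul, map_mul]
      rw [mul_assoc (ρ g₁), hcomm (ρ g₂) (ρ g₁⁻¹), ← mul_assoc (ρ g₁), ← map_mul,
        mul_inv_cancel, map_one, one_mul, ← map_mul, mul_inv_cancel, map_one]
    intro n hn g
    unfold Representation.character
    rw [map_mul, MonoidHom.mem_ker.mp (h2 hn), one_mul]

/-- the number of linear characters -/
theorem card_lin : ((Irr G).filter (fun χ => dg χ = 1)).card = (commutator G).index := by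
  have h1 := sum_sq_triv (commutator G)
  rw [← h1]
  have h2 : (Irr G).filter (Triv (commutator G)) = (Irr G).filter (fun χ => dg χ = 1) := by
    apply Finset.filter_congr
    intro χ hχ
    exact triv_comm_iff (mem_Irr.mp hχ)
  rw [h2, Finset.card_eq_sum_ones]
  refine Finset.sum_congr rfl fun χ hχ => ?_
  rw [(Finset.mem_filter.mp hχ).2]
  norm_num

end Run7.h528
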