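import Mathlib
import Pool.Agent.Run7.h528.Twist

/-!
# Two necessary conditions
-/

set_option autoImplicit false
set_option linter.unusedSectionVars false
set_option linter.style.haveILetI false

open scoped BigOperators Classical ComplexConjugate commutatorElement
open Pool.Agent.Helper884.IC

noncomputable section

namespace Run7.h528

variable {G : Type} [Group G] [Fintype G]

/-- If all class sizes are small and all nonlinear degrees are large then the commutator subgroup
is small. -/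
theorem comm_le {p : ℕ} (hp : p.Prime) (hG : IsPGroup p G) (b : ℕ)
    (hcs : ∀ x : G, (Subgroup.centralizer ({x} : Set G)).index ≤ p ^ b)
    (hcd : ∀ χ : G → ℂ, IsIrrChar χ → dg χ ≠ 1 → p ^ (b + 1) ≤ (dg χ) ^ 2) :
    Nat.card (commutator G) ≤ p ^ b := by
  by_contra hcon
  push Not at hcon
  haveI : Fact p.Prime := ⟨hp⟩
  have hpow : p ^ (b + 1) ≤ Nat.card (commutator G) := by
    obtain ⟨k, hk⟩ := (IsPGroup.iff_card (G := commutator G)).mp (hG.to_subgroup _)
    rw [hk] at hcon ⊢
    have h1 := (Nat.pow_lt_pow_iff_right hp.one_lt).mp hcon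
    exact Nat.pow_le_pow_right hp.pos h1
  set g := Nat.card G with hg
  have hgpos : 0 < g := Nat.card_pos
  set l := ((Irr G).filter (fun χ => dg χ = 1)).card with hl
  have h1 : (Irr G).card * g * p ^ b ≥ g * g := by
    rw [card_irr_mul, Finset.sum_mul]
    calc g * g = ∑ x : G, g := by
          rw [Finset.sum_const, Finset.card_univ, smul_eq_mul, hg, Nat.card_eq_fintype_card]
      _ ≤ _ := Finset.sum_le_sum fun x _ => by
          have h2 := (Subgroup.centralizer ({x} : Set G)).card_mul_index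
          rw [hg, ← h2]
          exact Nat.mul_le_mul_left _ (hcs x)
  have h2 : g ≤ (Irr G).card * p ^ b := by
    apply Nat.le_of_mul_le_mul_left _ hgpos
    calc g * g ≤ (Irr G).card * g * p ^ b := h1
      _ = g * ((Irr G).card * p ^ b) := by ring
  have h3 : l + p ^ (b + 1) * ((Irr G).card - l) ≤ g := by
    rw [hg, ← sum_sq, ← Finset.sum_filter_add_sum_filter_not (Irr G) (fun χ => dg χ = 1)]
    apply Nat.add_le_add
    · rw [hl, Finset.card_eq_sum_ones]
      apply Finset.sum_le_sum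
      intro χ hχ
      rw [(Finset.mem_filter.mp hχ).2]
      norm_num
    · have h4 : (Irr G).card - l = ((Irr G).filter (fun χ => ¬ dg χ = 1)).card := by
        have := Finset.card_filter_add_card_filter_not (s := Irr G) (fun χ => dg χ = 1)
        omega
      rw [h4, mul_comm, ← smul_eq_mul, ← Finset.sum_const]
      apply Finset.sum_le_sum
      intro χ hχ
      have h5 := Finset.mem_filter.mp hχ
      exact hcd χ (mem_Irr.mp h5.1) h5.2
  have h4 : p ^ (b + 1) * l ≤ g := by
    rw [hl, card_lin, hg, ← (commutator G).card_mul_index]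
    exact Nat.mul_le_mul_right _ hpow
  have h5 : 0 < l := by
    rw [hl, card_lin]
    exact Nat.pos_of_ne_zero Subgroup.index_ne_zero_of_finite
  have h6 : l ≤ (Irr G).card := Finset.card_le_card (Finset.filter_subset _ _)
  have h7 : 2 * g ≤ (Irr G).card * p ^ (b + 1) := by
    rw [pow_succ, ← mul_assoc]
    calc 2 * g = g * 2 := by ring
      _ ≤ ((Irr G).card * p ^ b) * p := Nat.mul_le_mul h2 hp.two_le
  have h8 : l + p ^ (b + 1) * (Irr G).card ≤ g + p ^ (b + 1) * l := by
    obtain ⟨m, hm⟩ := Nat.exists_eq_add_of_le h6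
    rw [hm] at h3 ⊢
    rw [Nat.add_sub_cancel_left] at h3
    rw [mul_add]
    omega
  have h9 : (Irr G).card * p ^ (b + 1) = p ^ (b + 1) * (Irr G).card := by ring
  omega

theorem exists_central_in_normal {p : ℕ} [Fact p.Prime] {S : Type} [Group S] [Finite S]
    (hS : IsPGroup p S) (N : Subgroup S) (hN : N.Normal) (hne : ∃ x ∈ N, x ≠ 1) :
    ∃ x ∈ N, x ≠ 1 ∧ ∀ s : S, s * x * s⁻¹ = x := by
  let act : MulAction S N :=
    { smul := fun s n => ⟨s * n * s⁻¹, hN.conj_mem n n.2 s⟩
      one_smul := fun n => Subtype.ext (show (1 : S) * n.1 * (1 : S)⁻¹ = n.1 by simp)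
      mul_smul := fun s t n => Subtype.ext
        (show (s * t) * n.1 * (s * t)⁻¹ = s * (t * n.1 * t⁻¹) * s⁻¹ by group) }
  have hdvd : p ∣ Nat.card N := by
    rcases (hS.to_subgroup N).card_eq_or_dvd with h | h
    · exfalso
      obtain ⟨x, hx, hx1⟩ := hne
      have := Nat.card_eq_one_iff_unique.1 h
      obtain ⟨h1, -⟩ := this
      exact hx1 (congrArg Subtype.val (h1.elim (⟨x, hx⟩ : N) 1))
    · exact h
  have h1 : (1 : N) ∈ MulAction.fixedPoints S N := by
    intro s
    apply Subtype.ext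
    show s * (1 : N).1 * s⁻¹ = (1 : N).1
    simp
  obtain ⟨b, hb, hb1⟩ := hS.exists_fixed_point_of_prime_dvd_card_of_fixed_point N hdvd h1
  refine ⟨b.1, b.2, fun h => hb1 (Subtype.ext h.symm), fun s => ?_⟩
  exact congrArg Subtype.val (hb s)

theorem exists_central_mod {p : ℕ} (hp : p.Prime) (hG : IsPGroup p G) (K N : Subgroup G)
    [hK : K.Normal] [hN : N.Normal] (h : ¬ N ≤ K) :
    ∃ z ∈ N, z ∉ K ∧ ∀ g : G, ⁅z, g⁆ ∈ K := by
  haveI : Fact p.Prime := ⟨hp⟩
  let Q := G ⧸ K
  let M : Subgroup Q := N.map (QuotientGroup.mk' K)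
  haveI hM : M.Normal := hN.map _ (QuotientGroup.mk'_surjective K)
  have hQ : IsPGroup p Q := hG.to_quotient K
  obtain ⟨x, hxN, hxK⟩ := Set.not_subset.mp h
  obtain ⟨_, ⟨z, hz, rfl⟩, hz1, hzc⟩ := exists_central_in_normal hQ M hM
    ⟨QuotientGroup.mk' K x, ⟨x, hxN, rfl⟩, fun h1 => hxK (by
      rwa [← MonoidHom.mem_ker, QuotientGroup.ker_mk'] at h1)⟩
  refine ⟨z, hz, ?_, ?_⟩
  · intro hzK
    apply hz1
    rwa [← MonoidHom.mem_ker, QuotientGroup.ker_mk']
  · intro g
    have h4 := hzc (QuotientGroup.mk' K g)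
    have h5 : QuotientGroup.mk' K ⁅z, g⁆ = 1 := by
      rw [map_commutatorElement, commutatorElement_eq_one_iff_mul_comm]
      rw [mul_inv_eq_iff_eq_mul] at h4
      exact h4.symm
    rwa [← MonoidHom.mem_ker, QuotientGroup.ker_mk'] at h5

/-- a nonlinear irreducible character of a `p`-group has a central scalar of order `p` coming from
the commutator subgroup -/
theorem exists_scalar {p : ℕ} (hp : p.Prime) (hG : IsPGroup p G) {χ : G → ℂ} (h : IsIrrChar χ)
    (hd : dg χ ≠ 1) :
    ∃ z ∈ commutator G, ∃ ω : ℂ, ω ≠ 1 ∧ ω ^ p = 1 ∧ ∀ g, χ (z * g) = ω * χ g := by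
  haveI : Fact p.Prime := ⟨hp⟩
  have hχ := h
  obtain ⟨V, _, _, _, ρ, hρ, rfl⟩ := h
  have h1 : ¬ commutator G ≤ MonoidHom.ker ρ := by
    intro h1
    apply hd
    rw [← triv_comm_iff hχ]
    intro n hn g
    unfold Representation.character
    rw [map_mul, MonoidHom.mem_ker.mp (h1 hn), one_mul]
  obtain ⟨z₀, hz₀, hz₀K, hz₀c⟩ := exists_central_mod hp hG (MonoidHom.ker ρ) (commutator G) h1
  obtain ⟨c, hc, -, hc2⟩ := central_scalar ρ hρ z₀ (by
    intro g
    rw [← map_mul, ← map_mul]
    have h2 : z₀ * g = ⁅z₀, g⁆ * (g * z₀) := by simp only [commutatorElement_def]; group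
    rw [h2, map_mul, MonoidHom.mem_ker.mp (hz₀c g), one_mul])
  have hpow : ∀ n : ℕ, ∀ g, ρ.character (z₀ ^ n * g) = c ^ n * ρ.character g := by
    intro n
    induction n with
    | zero => intro g; simp
    | succ n ih =>
      intro g
      rw [pow_succ, mul_assoc, ih, hc2, pow_succ, mul_assoc]
  have hχ1 : ρ.character 1 ≠ 0 := by
    rw [dg_spec hχ]
    exact_mod_cast (dg_pos hχ).ne'
  have hroot : ∀ n : ℕ, z₀ ^ n = 1 → c ^ n = 1 := by
    intro n hn
    have h2 := hpow n 1
    rw [hn, one_mul] at h2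
    apply mul_right_cancel₀ hχ1
    rw [← h2, one_mul]
  have hc1 : c ≠ 1 := by
    intro hc1
    apply hz₀K
    rw [MonoidHom.mem_ker, hc, hc1, one_smul]
    rfl
  obtain ⟨m, hm⟩ := hG z₀
  have hex : ∃ j : ℕ, c ^ (p ^ j) = 1 := ⟨m, hroot _ hm⟩
  have hj := Nat.find_spec hex
  have hj0 : Nat.find hex ≠ 0 := by
    intro h0
    rw [h0, pow_zero, pow_one] at hj
    exact hc1 hj
  obtain ⟨j, hjj⟩ := Nat.exists_eq_succ_of_ne_zero hj0
  refine ⟨z₀ ^ (p ^ j), Subgroup.pow_mem _ hz₀ _, c ^ (p ^ j), ?_, ?_, hpow _⟩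
  · exact Nat.find_min hex (by omega)
  · rw [← pow_mul, ← pow_succ]
    rw [hjj] at hj
    exact hj

theorem irr_linear (l : G →* ℂˣ) : IsIrrChar (fun g => ((l g : ℂˣ) : ℂ)) := by
  have hc : (linRep l).character = fun g => ((l g : ℂˣ) : ℂ) := by
    funext g
    exact linRep_char l g
  apply Pool.Agent.Q90.WR.irr_of_norm
  · rw [← hc]
    exact isClass_char _
  · intro φ hφ
    obtain ⟨U, _, _, _, σ, hσ, rfl⟩ := hφ
    obtain ⟨n, hn⟩ := Pool.Agent.Q90.WR.B_nat (linRep l) σ
    refine ⟨n, ?_⟩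
    rw [← hc, hn]
    push_cast
    rfl
  · unfold B
    have h2 : ∀ g : G, ((l g : ℂˣ) : ℂ) * ((l g⁻¹ : ℂˣ) : ℂ) = 1 := by
      intro g
      rw [← Units.val_mul, ← map_mul, mul_inv_cancel, map_one, Units.val_one]
    rw [Finset.sum_congr rfl (fun g _ => h2 g), Finset.sum_const, nsmul_eq_mul, mul_one,
      Finset.card_univ, ← Nat.card_eq_fintype_card]
    exact inv_mul_cancel₀ cardG_ne
  · exact ⟨1, by rw [map_one, Units.val_one, Nat.cast_one]⟩

theorem irr_one : IsIrrChar (fun _ : G => (1 : ℂ)) := by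
  have h := irr_linear (1 : G →* ℂˣ)
  have h2 : (fun g => (((1 : G →* ℂˣ) g : ℂˣ) : ℂ)) = fun _ : G => (1 : ℂ) := by
    funext g
    rw [MonoidHom.one_apply, Units.val_one]
  rwa [h2] at h

/-- a family of characters that are orthogonal on a subgroup is not larger than the subgroup -/
theorem card_le_of_orth (N : Subgroup G) {ι : Type} [Fintype ι] (F : ι → G → ℂ)
    (hF : ∀ i, IsIrrChar (F i)) (horth : ∀ i j, i ≠ j → ∑ n : N, F i n * F j (n : G)⁻¹ = 0) :
    Fintype.card ι ≤ Nat.card N := by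
  have hself : ∀ i, ∑ n : N, F i n * F i (n : G)⁻¹ ≠ 0 := by
    intro i
    rw [Finset.sum_congr rfl (fun (n : N) _ => mul_inv_norm (hF i) n)]
    have h1 : 0 < ∑ n : N, ‖F i n‖ ^ 2 := by
      apply Finset.sum_pos'
      · intro n _
        positivity
      · refine ⟨1, Finset.mem_univ _, ?_⟩
        change 0 < ‖F i 1‖ ^ 2
        rw [norm_deg (hF i)]
        have := dg_pos (hF i)
        positivity
    intro h0
    apply h1.ne'
    exact_mod_cast h0
  have hli : LinearIndependent ℂ (fun i => (fun n : N => F i n)) := by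
    rw [linearIndependent_iff']
    intro s c hc i hi
    have h1 : ∑ n : N, (∑ j ∈ s, c j * F j n) * F i (n : G)⁻¹ = 0 := by
      apply Finset.sum_eq_zero
      intro n _
      have h2 := congrFun hc n
      simp only [Finset.sum_apply, Pi.smul_apply, smul_eq_mul, Pi.zero_apply] at h2
      rw [h2, zero_mul]
    simp only [Finset.sum_mul] at h1
    rw [Finset.sum_comm] at h1
    have h2 : ∀ j ∈ s, ∑ n : N, c j * F j n * F i (n : G)⁻¹ =
        c j * ∑ n : N, F j n * F i (n : G)⁻¹ := by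
      intro j _
      rw [Finset.mul_sum]
      exact Finset.sum_congr rfl fun n _ => by ring
    rw [Finset.sum_congr rfl h2, Finset.sum_eq_single i] at h1
    · exact (mul_eq_zero.mp h1).resolve_right (hself i)
    · intro j _ hji
      rw [horth j i hji, mul_zero]
    · intro h
      exact absurd hi h
  have h2 := hli.fintype_card_le_finrank
  rw [Module.finrank_fintype_fun_eq_card] at h2
  rw [Nat.card_eq_fintype_card]
  exact h2

/-- Galois conjugates of characters of different degrees, orthogonal on the commutator subgroup -/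
theorem galois_family {p : ℕ} (hp : p.Prime) (hG : IsPGroup p G) (D : Finset ℕ)
    (χ : D → G → ℂ) (hχ : ∀ d, IsIrrChar (χ d)) (hχd : ∀ d, dg (χ d) = d.1)
    (hD1 : ∀ d ∈ D, d ≠ 1) :
    ∃ F : D × Fin (p - 1) → G → ℂ, (∀ x, ∃ σ : ℂ ≃+* ℂ, F x = fun g => σ (χ x.1 g)) ∧
      (∀ x, IsIrrChar (F x)) ∧ (∀ x, dg (F x) = x.1.1) ∧
      ∀ x y, x ≠ y → ∑ n : commutator G, F x n * F y (n : G)⁻¹ = 0 := by
  have hD2 : ∀ d : D, dg (χ d) ≠ 1 := fun d => by
    rw [hχd]
    exact hD1 d.1 d.2
  have hz := fun d => exists_scalar hp hG (hχ d) (hD2 d)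
  choose z hzc ω hω1 hωp hzω using hz
  have hgal : ∀ j : Fin (p - 1), ∃ σ : ℂ ≃+* ℂ, ∀ y : ℂ, y ^ p = 1 → σ y = y ^ (j.1 + 1) := by
    intro j
    have hcop : Nat.Coprime (j.1 + 1) p := by
      rw [Nat.coprime_comm, Nat.Prime.coprime_iff_not_dvd hp]
      intro hdvd
      have := Nat.le_of_dvd (Nat.succ_pos _) hdvd
      have := j.2
      omega
    exact exists_pow_aut p (j.1 + 1) hp.pos hcop
  choose σ hσ using hgal
  let F : D × Fin (p - 1) → (G → ℂ) := fun x => fun g => σ x.2 (χ x.1 g)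
  have hF : ∀ o, IsIrrChar (F o) := fun x => Pool.Agent.Q90.WR.irr_gal _ (hχ x.1)
  have hFd : ∀ x, dg (F x) = x.1.1 := by
    intro x
    change dg (fun g => σ x.2 (χ x.1 g)) = _
    rw [dg_gal (hχ x.1), hχd]
  refine ⟨F, fun x => ⟨σ x.2, rfl⟩, hF, hFd, ?_⟩
  intro i j hij
  by_cases hd : dg (F i) = dg (F j)
  · obtain ⟨d, x⟩ := i
    obtain ⟨e, y⟩ := j
    rw [hFd, hFd] at hd
    have hde : d = e := Subtype.ext hd
    subst hde
    have hxy : x ≠ y := by
      intro h
      exact hij (by rw [h])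
    have hx : ∀ g, F (d, x) (z d * g) = ω d ^ (x.1 + 1) * F (d, x) g := by
      intro g
      change σ x (χ d (z d * g)) = _ * σ x (χ d g)
      rw [hzω, map_mul, hσ _ _ (hωp d)]
    have hy : ∀ g, F (d, y) (z d * g) = ω d ^ (y.1 + 1) * F (d, y) g := by
      intro g
      change σ y (χ d (z d * g)) = _ * σ y (χ d g)
      rw [hzω, map_mul, hσ _ _ (hωp d)]
    have hy2 : ∀ g, ω d ^ (y.1 + 1) * F (d, y) ((z d)⁻¹ * g) = F (d, y) g := by
      intro g
      rw [← hy, mul_inv_cancel_left]
    have hω0 : ω d ≠ 0 := by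
      intro h0
      have := hωp d
      rw [h0, zero_pow hp.ne_zero] at this
      exact zero_ne_one this
    have key : ω d ^ (y.1 + 1) * ∑ n : commutator G, F (d, x) n * F (d, y) (n : G)⁻¹ =
        ω d ^ (x.1 + 1) * ∑ n : commutator G, F (d, x) n * F (d, y) (n : G)⁻¹ := by
      have h1 : ∑ n : commutator G, F (d, x) n * F (d, y) (n : G)⁻¹ =
          ∑ n : commutator G, F (d, x) (z d * n) * F (d, y) ((z d * n : G))⁻¹ := by
        refine (Fintype.sum_equiv (Equiv.mulLeft (⟨z d, hzc d⟩ : commutator G)) _ _ fun n => ?_).symm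
        rfl
      conv_lhs => rw [h1]
      rw [Finset.mul_sum, Finset.mul_sum]
      refine Finset.sum_congr rfl fun n _ => ?_
      rw [hx]
      have h2 : F (d, y) ((z d * n : G))⁻¹ = F (d, y) ((z d)⁻¹ * (n : G)⁻¹) := by
        have h3 := (hF (d, y)).isClass ((z d)⁻¹ * (n : G)⁻¹) ((n : G)⁻¹)
        rw [← h3]
        group
      rw [h2]
      have h4 := hy2 (n : G)⁻¹
      rw [← h4]
      ring
    have hne : ω d ^ (y.1 + 1) ≠ ω d ^ (x.1 + 1) := by
      have hprim : IsPrimitiveRoot (ω d) p := by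
        rw [IsPrimitiveRoot.iff_def]
        refine ⟨hωp d, ?_⟩
        intro l hl
        rcases (Nat.coprime_or_dvd_of_prime hp l) with h1 | h1
        · exfalso
          apply hω1 d
          have h2 : orderOf (ω d) ∣ Nat.gcd p l :=
            Nat.dvd_gcd (orderOf_dvd_of_pow_eq_one (hωp d)) (orderOf_dvd_of_pow_eq_one hl)
          rw [Nat.Coprime] at h1
          rw [h1, Nat.dvd_one] at h2
          exact orderOf_eq_one_iff.mp h2
        · exact h1
      intro h1
      rw [pow_succ, pow_succ] at h1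
      have h2 := mul_right_cancel₀ hω0 h1
      have h3 := hprim.pow_inj (by have := y.2; omega) (by have := x.2; omega) h2
      exact hxy (Fin.ext h3.symm)
    have h5 : (ω d ^ (y.1 + 1) - ω d ^ (x.1 + 1)) *
        ∑ n : commutator G, F (d, x) n * F (d, y) (n : G)⁻¹ = 0 := by
      rw [sub_mul, key, sub_self]
    exact (mul_eq_zero.mp h5).resolve_left (sub_ne_zero.mpr hne)
  · exact orth_comm (hF i) (hF j) hd

/-- The number of nonlinear degrees of a `p`-group is bounded by the commutator subgroup. -/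
theorem count_le {p : ℕ} (hp : p.Prime) (hG : IsPGroup p G) :
    (p - 1) * (((Irr G).image dg).erase 1).card + 1 ≤ Nat.card (commutator G) := by
  set D := ((Irr G).image dg).erase 1 with hD
  have hD1 : ∀ d : D, ∃ χ : G → ℂ, IsIrrChar χ ∧ dg χ = d.1 := by
    intro d
    have h1 := (Finset.mem_erase.mp d.2).2
    obtain ⟨χ, hχ, hd⟩ := Finset.mem_image.mp h1
    exact ⟨χ, mem_Irr.mp hχ, hd⟩
  choose χ hχ hχd using hD1
  obtain ⟨F, -, hF, hFd, horth⟩ := galois_family hp hG D χ hχ hχd
    (fun d hd => (Finset.mem_erase.mp hd).1)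
  let F' : Option (D × Fin (p - 1)) → (G → ℂ) := fun o =>
    match o with
    | none => fun _ => 1
    | some x => F x
  have hF' : ∀ o, IsIrrChar (F' o) := by
    intro o
    match o with
    | none => exact irr_one
    | some x => exact hF x
  have hFd0 : dg (F' none) = 1 := dg_eq (by simp [F'])
  have hFd' : ∀ x, dg (F' (some x)) = x.1.1 := fun x => hFd x
  have horth' : ∀ i j, i ≠ j → ∑ n : commutator G, F' i n * F' j (n : G)⁻¹ = 0 := by
    intro i j hij
    match i, j with
    | none, none => exact absurd rfl hij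
    | none, some y =>
      refine orth_comm (hF' none) (hF' (some y)) ?_
      rw [hFd0, hFd']
      exact (Finset.mem_erase.mp y.1.2).1.symm
    | some x, none =>
      refine orth_comm (hF' (some x)) (hF' none) ?_
      rw [hFd0, hFd']
      exact (Finset.mem_erase.mp x.1.2).1
    | some x, some y => exact horth x y (fun h => hij (by rw [h]))
  have hfin := card_le_of_orth (commutator G) F' hF' horth'
  rw [Fintype.card_option, Fintype.card_prod, Fintype.card_fin, Fintype.card_coe] at hfin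
  rw [mul_comm]
  exact hfin

end Run7.h528
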