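import Mathlib
import Pool.Agent.Run7.h528.Pieces

/-!
# Linear algebra over finite fields: chains, hyperplanes, projective points
-/

set_option autoImplicit false
set_option linter.unusedSectionVars false
set_option linter.style.haveILetI false

open scoped BigOperators Classical LinearAlgebra.Projectivization

noncomputable section

namespace Run7.h528

variable {p : ℕ} [Fact p.Prime]

/-- extension by zero -/
def ext0 (p b j : ℕ) : (Fin j → ZMod p) →ₗ[ZMod p] (Fin b → ZMod p) where
  toFun x i := if h : i.1 < j then x ⟨i.1, h⟩ else 0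
  map_add' x y := by
    funext i
    by_cases h : i.1 < j
    · simp [h]
    · simp [h]
  map_smul' c x := by
    funext i
    by_cases h : i.1 < j
    · simp [h]
    · simp [h]

theorem ext0_pos {b j : ℕ} (x : Fin j → ZMod p) {i : Fin b} (h : i.1 < j) :
    ext0 p b j x i = x ⟨i.1, h⟩ := dif_pos h

theorem ext0_neg {b j : ℕ} (x : Fin j → ZMod p) {i : Fin b} (h : ¬ i.1 < j) :
    ext0 p b j x i = 0 := dif_neg h

/-- a full chain of subspaces -/
def Ch (p b j : ℕ) : Submodule (ZMod p) (Fin b → ZMod p) := LinearMap.range (ext0 p b (min j b))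

theorem mem_Ch {b j : ℕ} {w : Fin b → ZMod p} : w ∈ Ch p b j ↔ ∀ i : Fin b, j ≤ i.1 → w i = 0 := by
  constructor
  · rintro ⟨x, rfl⟩ i hi
    have h : ¬ i.1 < min j b := by
      have := Nat.min_le_left j b
      omega
    exact ext0_neg x h
  · intro h
    refine ⟨fun i => w ⟨i.1, by have := i.2; have := Nat.min_le_right j b; omega⟩, ?_⟩
    funext i
    by_cases hi : i.1 < min j b
    · exact ext0_pos _ hi
    · have h1 : j ≤ i.1 := by
        have := i.2
        by_contra h2
        apply hi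
        rw [lt_min_iff]
        omega
      rw [h i h1]
      exact ext0_neg _ hi

theorem Ch_mono {b : ℕ} : Monotone (Ch p b) := by
  intro j k hjk w hw
  rw [mem_Ch] at hw ⊢
  intro i hi
  exact hw i (hjk.trans hi)

theorem finrank_Ch {b j : ℕ} (hj : j ≤ b) : Module.finrank (ZMod p) (Ch p b j) = j := by
  unfold Ch
  rw [Nat.min_eq_left hj, LinearMap.finrank_range_of_inj]
  · simp
  · intro x y hxy
    funext i
    have h1 := congrFun hxy ⟨i.1, lt_of_lt_of_le i.2 hj⟩
    simpa [ext0] using h1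

theorem Ch_zero {b : ℕ} : Ch p b 0 = ⊥ := by
  rw [eq_bot_iff]
  intro w hw
  rw [mem_Ch] at hw
  rw [Submodule.mem_bot]
  funext i
  exact hw i (Nat.zero_le _)

theorem Ch_top {b : ℕ} : Ch p b b = ⊤ := by
  rw [eq_top_iff]
  intro w _
  rw [mem_Ch]
  intro i hi
  exact absurd i.2 (by omega)

/-- suprema in a chain -/
theorem iSup_chain {W : Type} [AddCommGroup W] [Module (ZMod p) W]
    {C : ℕ → Submodule (ZMod p) W} (hC : Monotone C) (s : Finset ℕ) :
    (⨆ j ∈ s, C j) = ⊥ ∨ ∃ j ∈ s, (⨆ j ∈ s, C j) = C j := by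
  by_cases hs : s.Nonempty
  · right
    refine ⟨s.max' hs, s.max'_mem hs, le_antisymm ?_ ?_⟩
    · exact iSup₂_le fun j hj => hC (s.le_max' j hj)
    · exact le_iSup₂_of_le (s.max' hs) (s.max'_mem hs) le_rfl
  · left
    rw [Finset.not_nonempty_iff_eq_empty.mp hs]
    simp

variable {W : Type} [AddCommGroup W] [Module (ZMod p) W]

theorem ker_le_iff {μ ℓ : Module.Dual (ZMod p) W} :
    LinearMap.ker μ ≤ LinearMap.ker ℓ ↔ ∃ c : ZMod p, ℓ = c • μ := by
  constructor
  · intro h
    have h1 : ℓ ∈ Submodule.span (ZMod p) (Set.range (fun _ : Unit => μ)) := by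
      apply mem_span_of_iInf_ker_le_ker
      exact (iInf_le _ ()).trans h
    rw [Set.range_const, Submodule.mem_span_singleton] at h1
    obtain ⟨c, hc⟩ := h1
    exact ⟨c, hc.symm⟩
  · rintro ⟨c, rfl⟩ w hw
    rw [LinearMap.mem_ker] at hw ⊢
    rw [LinearMap.smul_apply, hw, smul_zero]

/-- the hyperplane of a point -/
def Hy (x : ℙ (ZMod p) (Module.Dual (ZMod p) W)) : Submodule (ZMod p) W := LinearMap.ker x.rep

theorem Hy_mk (ℓ : Module.Dual (ZMod p) W) (h : ℓ ≠ 0) :
    Hy (Projectivization.mk (ZMod p) ℓ h) = LinearMap.ker ℓ := by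
  obtain ⟨a, ha⟩ := Projectivization.exists_smul_eq_mk_rep (ZMod p) ℓ h
  unfold Hy
  rw [← ha]
  ext w
  rw [LinearMap.mem_ker, LinearMap.mem_ker, Units.smul_def, LinearMap.smul_apply, smul_eq_mul]
  constructor
  · intro h1
    exact (mul_eq_zero.mp h1).resolve_left a.ne_zero
  · intro h1
    rw [h1, mul_zero]

theorem Hy_le_iff (x : ℙ (ZMod p) (Module.Dual (ZMod p) W)) (ℓ : Module.Dual (ZMod p) W)
    (h : ℓ ≠ 0) : Hy x ≤ LinearMap.ker ℓ ↔ x = Projectivization.mk (ZMod p) ℓ h := by
  constructor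
  · intro h1
    obtain ⟨c, hc⟩ := ker_le_iff.mp h1
    have hc0 : c ≠ 0 := by
      rintro rfl
      rw [zero_smul] at hc
      exact h hc
    have h2 : Projectivization.mk (ZMod p) x.rep x.rep_nonzero = Projectivization.mk (ZMod p) ℓ h := by
      rw [Projectivization.mk_eq_mk_iff']
      refine ⟨c⁻¹, ?_⟩
      rw [hc, smul_smul, inv_mul_cancel₀ hc0, one_smul]
    rw [← h2, Projectivization.mk_rep]
  · rintro rfl
    rw [Hy_mk]

theorem finrank_Hy [Finite W] (x : ℙ (ZMod p) (Module.Dual (ZMod p) W)) :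
    Module.finrank (ZMod p) (Hy x) + 1 = Module.finrank (ZMod p) W := by
  haveI : Module.Finite (ZMod p) W := Module.Finite.of_finite
  have h1 := LinearMap.finrank_range_add_finrank_ker x.rep
  have h2 : LinearMap.range x.rep = ⊤ := by
    apply LinearMap.range_eq_top.mpr
    exact LinearMap.surjective x.rep_nonzero
  rw [h2, finrank_top, Module.finrank_self] at h1
  unfold Hy
  omega

theorem card_points (b : ℕ) :
    Nat.card (ℙ (ZMod p) (Module.Dual (ZMod p) (Fin b → ZMod p))) * (p - 1) + 1 = p ^ b := by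
  haveI : Finite (Module.Dual (ZMod p) (Fin b → ZMod p)) := Module.finite_of_finite (ZMod p)
  have h := Projectivization.card' (ZMod p) (Module.Dual (ZMod p) (Fin b → ZMod p))
  rw [Nat.card_zmod] at h
  rw [← h]
  have h2 := Module.natCard_eq_pow_finrank (K := ZMod p) (V := Module.Dual (ZMod p) (Fin b → ZMod p))
  rw [h2, Nat.card_zmod, Subspace.dual_finrank_eq]
  simp

end Run7.h528
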