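import Mathlib
import Pool.Agent.Run7.h528.Lin
import Pool.Agent.Run7.h528.Count

/-!
# The clustered case
-/

set_option autoImplicit false
set_option linter.unusedSectionVars false
set_option linter.style.haveILetI false

open scoped BigOperators Classical LinearAlgebra.Projectivization
open Pool.Agent.Helper884.IC

noncomputable section

namespace Run7.h528

variable {p : ℕ} [Fact p.Prime]

/-- sufficiency -/
theorem clus_suf {b : ℕ} (hb : 1 ≤ b) {α β : Finset ℕ} (hβ : ∀ x ∈ β, x ≤ b) (h0 : 0 ∈ β)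
    (h1 : b - 1 ∈ β) (h2 : b ∈ β) (hα0 : 0 ∈ α) {M : ℕ} (hM : M ∈ α) (hα : ∀ x ∈ α, x ≤ M)
    (N : ℕ) (hN : N * (p - 1) + 1 = p ^ b)
    (hsum : ∑ x ∈ α.erase 0, (M - x) + b ^ 2 * N ≤ M) (hcard : (α.erase 0).card ≤ N) :
    Realizable p α β := by
  have hp : p.Prime := Fact.out
  let W := Fin b → ZMod p
  let PP := ℙ (ZMod p) (Module.Dual (ZMod p) W)
  haveI : Finite (Module.Dual (ZMod p) W) := Module.finite_of_finite (ZMod p)
  haveI : Finite PP := inferInstance
  haveI : Fintype PP := Fintype.ofFinite PP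
  have hWb : Module.finrank (ZMod p) W = b := by simp [W]
  have hPP : Fintype.card PP = N := by
    have h3 := card_points (p := p) b
    rw [← hN] at h3
    rw [← Nat.card_eq_fintype_card]
    have h4 : 0 < p - 1 := by have := hp.two_le; omega
    exact Nat.eq_of_mul_eq_mul_right h4 (Nat.add_right_cancel h3)
  have hNpos : 0 < N := by
    rcases Nat.eq_zero_or_pos N with h3 | h3
    · rw [h3, zero_mul, zero_add] at hN
      have h4 : p ^ 1 ≤ p ^ b := Nat.pow_le_pow_right hp.pos hb
      rw [pow_one] at h4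
      have := hp.two_le
      omega
    · exact h3
  haveI : Nonempty PP := Fintype.card_pos_iff.mp (by rw [hPP]; exact hNpos)
  have hMpos : 0 < M := by
    have h3 : 1 ≤ b ^ 2 * N := Nat.mul_pos (pow_pos hb 2) hNpos
    omega
  have hMα : M ∈ α.erase 0 := Finset.mem_erase.mpr ⟨hMpos.ne', hM⟩
  -- the values at the points
  obtain ⟨a, ha1, ha2, ha3, ha4⟩ : ∃ a : PP → ℕ, (∀ x, a x ∈ α.erase 0) ∧
      (∀ y ∈ α.erase 0, ∃ x, a x = y) ∧ (∀ x, a x ≤ M) ∧
      ∑ x : PP, (M - a x) ≤ ∑ y ∈ α.erase 0, (M - y) := by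
    obtain ⟨f⟩ : Nonempty ((α.erase 0 : Finset ℕ) ↪ PP) := by
      apply Function.Embedding.nonempty_of_card_le
      rw [Fintype.card_coe, hPP]
      exact hcard
    let a : PP → ℕ := Function.extend f (fun y => y.1) (fun _ => M)
    have hf : ∀ y, a (f y) = y.1 := fun y => f.injective.extend_apply _ _ _
    have hf2 : ∀ x, (¬ ∃ y, f y = x) → a x = M := fun x hx => Function.extend_apply' _ _ _ hx
    refine ⟨a, ?_, ?_, ?_, ?_⟩
    · intro x
      by_cases hx : ∃ y, f y = x
      · obtain ⟨y, rfl⟩ := hx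
        rw [hf]
        exact y.2
      · rw [hf2 x hx]
        exact hMα
    · intro y hy
      exact ⟨f ⟨y, hy⟩, hf _⟩
    · intro x
      by_cases hx : ∃ y, f y = x
      · obtain ⟨y, rfl⟩ := hx
        rw [hf]
        exact hα _ (Finset.mem_of_mem_erase y.2)
      · rw [hf2 x hx]
    · have h3 : ∑ x : PP, (M - a x) = ∑ x ∈ Finset.univ.map f, (M - a x) := by
        symm
        apply Finset.sum_subset (Finset.subset_univ _)
        intro x _ hx
        rw [hf2 x, Nat.sub_self]
        rintro ⟨y, rfl⟩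
        exact hx (Finset.mem_map_of_mem _ (Finset.mem_univ _))
      rw [h3, Finset.sum_map]
      simp only [hf]
      rw [Finset.univ_eq_attach, Finset.sum_attach (α.erase 0) (fun y => M - y)]
  let J := β.filter (fun j => 1 ≤ j ∧ j + 2 ≤ b)
  let SJ := ∑ j ∈ J, j
  have hSJ : b + SJ ≤ b ^ 2 := by
    have h3 : J ⊆ Finset.Ico 1 (b - 1) := by
      intro j hj
      have := (Finset.mem_filter.mp hj).2
      rw [Finset.mem_Ico]
      omega
    have h4 : SJ ≤ ∑ j ∈ Finset.Ico 1 (b - 1), (b - 1) := by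
      calc SJ ≤ ∑ j ∈ Finset.Ico 1 (b - 1), j := Finset.sum_le_sum_of_subset h3
        _ ≤ _ := Finset.sum_le_sum fun j hj => by
            have := Finset.mem_Ico.mp hj
            omega
    rw [Finset.sum_const, Nat.card_Ico, smul_eq_mul] at h4
    obtain ⟨c, rfl⟩ : ∃ c, b = c + 1 := ⟨b - 1, by omega⟩
    rw [Nat.add_sub_cancel] at h4
    have h5 : (c - 1) * c ≤ c * c := Nat.mul_le_mul_right _ (Nat.sub_le _ _)
    nlinarith
  let cc : PP → ℕ := fun x => ∑ j ∈ J, if Ch p b j ≤ Hy x then j else 0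
  have hcc : ∀ x, cc x ≤ SJ := by
    intro x
    apply Finset.sum_le_sum
    intro j _
    split_ifs <;> omega
  let n : PP → ℕ := fun x => (M - a x) + (b + SJ - cc x)
  have hn : ∀ x, b ≤ n x := by
    intro x
    have := hcc x
    simp only [n]
    omega
  have hnsum : ∑ x : PP, n x ≤ M := by
    have h3 : ∑ x : PP, (b + SJ - cc x) ≤ b ^ 2 * N := by
      calc ∑ x : PP, (b + SJ - cc x) ≤ ∑ x : PP, b ^ 2 :=
            Finset.sum_le_sum fun x _ => by omega
        _ = b ^ 2 * N := by rw [Finset.sum_const, Finset.card_univ, hPP, smul_eq_mul, mul_comm]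
    simp only [n]
    rw [Finset.sum_add_distrib]
    omega
  let n₀ : ℕ := M + b - ∑ x : PP, n x
  have hn₀ : b ≤ n₀ := by
    simp only [n₀]
    omega
  have hP1 := Pc.sum (p := p) (W := W) (Finset.univ : Finset PP) Hy n
    (fun x _ => by have := hn x; omega)
    (fun x _ => by
      have h3 := finrank_Hy x
      have := hn x
      omega)
  have hP2 := Pc.sum (p := p) (W := W) J (Ch p b) (fun j => j)
    (fun j hj => (Finset.mem_filter.mp hj).2.1)
    (fun j hj => by
      have := (Finset.mem_filter.mp hj).2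
      rw [finrank_Ch (by omega)])
  have hP3 := Pc.heis (p := p) (W := W) ⊤ n₀ (by omega) (by
    rw [finrank_top, hWb]
    exact hn₀)
  have hP := hP1.add (hP2.add hP3)
  refine hP.realizable α β ?_ ?_
  · -- degrees
    have hzero : ∀ ℓ : Module.Dual (ZMod p) W, ℓ = 0 →
        ((∑ x : PP, if Hy x ≤ LinearMap.ker ℓ then 0 else n x) +
          ((∑ j ∈ J, if Ch p b j ≤ LinearMap.ker ℓ then 0 else j) +
            if (⊤ : Submodule (ZMod p) W) ≤ LinearMap.ker ℓ then 0 else n₀)) = 0 := by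
      rintro ℓ rfl
      simp [LinearMap.ker_zero]
    have hne : ∀ (ℓ : Module.Dual (ZMod p) W) (hℓ : ℓ ≠ 0),
        ((∑ x : PP, if Hy x ≤ LinearMap.ker ℓ then 0 else n x) +
          ((∑ j ∈ J, if Ch p b j ≤ LinearMap.ker ℓ then 0 else j) +
            if (⊤ : Submodule (ZMod p) W) ≤ LinearMap.ker ℓ then 0 else n₀)) =
          a (Projectivization.mk (ZMod p) ℓ hℓ) := by
      intro ℓ hℓ
      set x₀ := Projectivization.mk (ZMod p) ℓ hℓ with hx₀
      have e1 : (∑ x : PP, if Hy x ≤ LinearMap.ker ℓ then 0 else n x) + n x₀ = ∑ x : PP, n x := by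
        have h3 : ∀ x : PP, (if Hy x ≤ LinearMap.ker ℓ then 0 else n x) =
            if x = x₀ then 0 else n x := by
          intro x
          simp only [Hy_le_iff x ℓ hℓ, ← hx₀]
        rw [Finset.sum_congr rfl (fun x _ => h3 x)]
        rw [← Finset.sum_erase_add _ _ (Finset.mem_univ x₀)]
        rw [← Finset.sum_erase_add Finset.univ n (Finset.mem_univ x₀)]
        rw [if_pos rfl, add_zero]
        congr 1
        apply Finset.sum_congr rfl
        intro x hx
        rw [if_neg (Finset.mem_erase.mp hx).1]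
      have e2 : (∑ j ∈ J, if Ch p b j ≤ LinearMap.ker ℓ then 0 else j) + cc x₀ = SJ := by
        simp only [cc, SJ]
        rw [← Finset.sum_add_distrib]
        apply Finset.sum_congr rfl
        intro j _
        rw [hx₀, Hy_mk]
        split_ifs <;> omega
      have e3 : ¬ (⊤ : Submodule (ZMod p) W) ≤ LinearMap.ker ℓ := by
        intro h3
        apply hℓ
        rw [← LinearMap.ker_eq_top]
        exact top_le_iff.mp h3
      rw [if_neg e3]
      have h3 := hcc x₀
      have h4 := ha3 x₀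
      have h5 : n x₀ = (M - a x₀) + (b + SJ - cc x₀) := rfl
      have h6 : n₀ = M + b - ∑ x : PP, n x := rfl
      have h7 : n x₀ ≤ ∑ x : PP, n x := Finset.single_le_sum (fun _ _ => Nat.zero_le _) (Finset.mem_univ x₀)
      omega
    intro y
    constructor
    · intro hy
      by_cases hy0 : y = 0
      · exact ⟨0, by rw [hy0]; exact hzero 0 rfl⟩
      · obtain ⟨x, hx⟩ := ha2 y (Finset.mem_erase.mpr ⟨hy0, hy⟩)
        refine ⟨x.rep, ?_⟩
        rw [hne x.rep x.rep_nonzero, Projectivization.mk_rep, hx]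
    · rintro ⟨ℓ, hℓ⟩
      by_cases hℓ0 : ℓ = 0
      · rw [hzero ℓ hℓ0] at hℓ
        rwa [← hℓ]
      · rw [hne ℓ hℓ0] at hℓ
        rw [← hℓ]
        exact Finset.mem_of_mem_erase (ha1 _)
  · -- class sizes
    intro c
    constructor
    · intro hc
      have hcb := hβ c hc
      by_cases c1 : c = b
      · refine ⟨⊤, ⟨⊥, ⟨∅, by simp, by simp⟩, ⊤, ⟨⊥, ⟨∅, by simp, by simp⟩, ⊤, by simp, by simp⟩,
          by simp⟩, ?_⟩
        rw [finrank_top, hWb, c1]
      · by_cases c2 : c + 1 = b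
        · obtain ⟨x⟩ : Nonempty PP := inferInstance
          refine ⟨Hy x, ⟨Hy x, ⟨{x}, by simp, by simp⟩, ⊥, ⟨⊥, ⟨∅, by simp, by simp⟩, ⊥, by simp,
            by simp⟩, by simp⟩, ?_⟩
          have := finrank_Hy x
          omega
        · by_cases c3 : c = 0
          · refine ⟨⊥, ⟨⊥, ⟨∅, by simp, by simp⟩, ⊥, ⟨⊥, ⟨∅, by simp, by simp⟩, ⊥, by simp,
              by simp⟩, by simp⟩, ?_⟩
            rw [finrank_bot, c3]
          · refine ⟨Ch p b c, ⟨⊥, ⟨∅, by simp, by simp⟩, Ch p b c, ⟨Ch p b c, ⟨{c}, ?_, by simp⟩, ⊥,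
              by simp, by simp⟩, by simp⟩, finrank_Ch hcb⟩
            rw [Finset.singleton_subset_iff]
            exact Finset.mem_filter.mpr ⟨hc, by omega, by omega⟩
    · rintro ⟨_, ⟨X₁, ⟨J₁, -, rfl⟩, _, ⟨X₂, ⟨J₂, hJ₂, rfl⟩, X₃, hX₃, rfl⟩, rfl⟩, rfl⟩
      rcases hX₃ with rfl | rfl
      · by_cases hJ₁ : J₁.Nonempty
        · obtain ⟨x, hx⟩ := hJ₁
          set X : Submodule (ZMod p) W := (⨆ i ∈ J₁, Hy i) ⊔ ((⨆ i ∈ J₂, Ch p b i) ⊔ ⊥) with hX
          have h3 : Hy x ≤ X := le_sup_of_le_left (le_iSup₂_of_le x hx le_rfl)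
          have h4 := Submodule.finrank_mono h3
          have h5 := finrank_Hy x
          have h6 : Module.finrank (ZMod p) X ≤ Module.finrank (ZMod p) W := Submodule.finrank_le X
          have h7 : Module.finrank (ZMod p) X = b - 1 ∨ Module.finrank (ZMod p) X = b := by omega
          rcases h7 with h7 | h7
          · rw [h7]
            exact h1
          · rw [h7]
            exact h2
        · have h3 : (⨆ i ∈ J₁, Hy i) = (⊥ : Submodule (ZMod p) W) := by
            rw [Finset.not_nonempty_iff_eq_empty.mp hJ₁]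
            simp
          rw [h3, bot_sup_eq, sup_bot_eq]
          rcases iSup_chain (Ch_mono (p := p) (b := b)) J₂ with h3 | ⟨j, hj, h3⟩
          · rw [h3, finrank_bot]
            exact h0
          · have h4 := Finset.mem_filter.mp (hJ₂ hj)
            rw [h3, finrank_Ch (by omega)]
            exact h4.1
      · have h3 : (⨆ i ∈ J₁, Hy i) ⊔ ((⨆ i ∈ J₂, Ch p b i) ⊔ (⊤ : Submodule (ZMod p) W)) = ⊤ := by
          simp
        rw [h3, finrank_top, hWb]
        exact h2

/-- necessity -/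
theorem clus_nec {b : ℕ} {α β : Finset ℕ} (hβ : ∀ x ∈ β, x ≤ b)
    (hα : ∀ x ∈ α, x ≠ 0 → b + 1 ≤ 2 * x) (N : ℕ) (hN : N * (p - 1) + 1 = p ^ b)
    (h : Realizable p α β) : (α.erase 0).card ≤ N := by
  have hp : p.Prime := Fact.out
  obtain ⟨P, _, _, hP, hcd, hcs⟩ := h
  haveI : Fintype P := Fintype.ofFinite P
  have h1 : Nat.card (commutator P) ≤ p ^ b := by
    apply comm_le hp hP b
    · intro x
      have h2 : (Subgroup.centralizer ({x} : Set P)).index ∈ cs P := ⟨x, rfl⟩
      rw [hcs] at h2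
      obtain ⟨c, hc, hc2⟩ := h2
      rw [← hc2]
      exact Nat.pow_le_pow_right hp.pos (hβ c hc)
    · intro χ hχ hd
      have h2 : dg χ ∈ cd P := (mem_cd_iff _).mpr ⟨χ, mem_Irr.mpr hχ, rfl⟩
      rw [hcd] at h2
      obtain ⟨c, hc, hc2⟩ := h2
      have hc3 : p ^ c = dg χ := hc2
      rw [← hc3, ← pow_mul]
      apply Nat.pow_le_pow_right hp.pos
      have hc0 : c ≠ 0 := by
        rintro rfl
        exact hd (by rw [← hc3, pow_zero])
      have := hα c hc hc0
      omega
  have h2 := count_le hp hP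
  have h3 : (α.erase 0).card ≤ (((Irr P).image dg).erase 1).card := by
    apply Finset.card_le_card_of_injOn (fun a => p ^ a)
    · intro a ha
      rw [Finset.mem_coe, Finset.mem_erase] at ha
      have h4 : p ^ a ∈ cd P := by
        rw [hcd]
        exact ⟨a, ha.2, rfl⟩
      obtain ⟨χ, hχ, hχd⟩ := (mem_cd_iff _).mp h4
      rw [Finset.mem_coe, Finset.mem_erase]
      refine ⟨?_, Finset.mem_image.mpr ⟨χ, hχ, hχd⟩⟩
      change p ^ a ≠ 1
      rw [Ne, Nat.pow_eq_one]
      have := hp.one_lt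
      omega
    · intro a _ c _ hac
      exact Nat.pow_right_injective hp.two_le hac
  have h4 : 0 < p - 1 := by have := hp.two_le; omega
  have h5 : (p - 1) * (α.erase 0).card ≤ (p - 1) * N := by
    have h6 := Nat.mul_le_mul_left (p - 1) h3
    have h7 : (p - 1) * N = N * (p - 1) := mul_comm _ _
    omega
  exact Nat.le_of_mul_le_mul_left h5 h4

theorem clus {b : ℕ} (hb : 1 ≤ b) {α β : Finset ℕ} (hβ : ∀ x ∈ β, x ≤ b) (h0 : 0 ∈ β)
    (h1 : b - 1 ∈ β) (h2 : b ∈ β) (hα0 : 0 ∈ α) {M : ℕ} (hM : M ∈ α) (hα : ∀ x ∈ α, x ≤ M)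
    (hsum : ∑ x ∈ α.erase 0, (M - x) + b ^ 2 * ((p ^ b - 1) / (p - 1)) ≤ M) :
    Realizable p α β ↔ α.card ≤ (p ^ b - 1) / (p - 1) + 1 := by
  have hp : p.Prime := Fact.out
  have hp1 : 0 < p - 1 := by have := hp.two_le; omega
  set N := (p ^ b - 1) / (p - 1) with hN
  have hN2 : N * (p - 1) + 1 = p ^ b := by
    have h3 : p - 1 ∣ p ^ b - 1 := by
      have := Nat.sub_dvd_pow_sub_pow p 1 b
      rwa [one_pow] at this
    rw [hN, Nat.div_mul_cancel h3]
    have := Nat.one_le_pow b p hp.pos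
    omega
  have hNpos : 0 < N := by
    rcases Nat.eq_zero_or_pos N with h3 | h3
    · rw [h3, zero_mul, zero_add] at hN2
      have h4 : p ^ 1 ≤ p ^ b := Nat.pow_le_pow_right hp.pos hb
      rw [pow_one] at h4
      have := hp.two_le
      omega
    · exact h3
  have hcard : (α.erase 0).card + 1 = α.card := Finset.card_erase_add_one hα0
  constructor
  · intro h
    have h3 := clus_nec (p := p) hβ ?_ N hN2 h
    · omega
    · intro x hx hx0
      have h4 : M - x ≤ ∑ x ∈ α.erase 0, (M - x) :=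
        Finset.single_le_sum (f := fun x => M - x) (fun _ _ => Nat.zero_le _)
          (Finset.mem_erase.mpr ⟨hx0, hx⟩)
      have h5 : b ^ 2 ≤ b ^ 2 * N := Nat.le_mul_of_pos_right _ hNpos
      have h6 := hα x hx
      have h7 : b ^ 2 ≤ x := by omega
      nlinarith
  · intro h
    exact clus_suf hb hβ h0 h1 h2 hα0 hM hα N hN2 hsum (by omega)

end Run7.h528
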