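import Mathlib
import Pool.Agent.Run7.h528.Pieces

/-!
# Lifting bilinear maps
-/

set_option autoImplicit false
set_option linter.unusedSectionVars false
set_option linter.style.haveILetI false

open scoped BigOperators Classical

noncomputable section

namespace Run7.h528

variable {p : ℕ} [Fact p.Prime] {W W' : Type} [AddCommGroup W] [Module (ZMod p) W]
  [AddCommGroup W'] [Module (ZMod p) W']

/-- as `Pc`, with a space of dimension `d` -/
def Pd (S : Set (Submodule (ZMod p) W)) (r : Module.Dual (ZMod p) W → ℕ) (d : ℕ) : Prop :=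
  ∃ (V : Type) (_ : AddCommGroup V) (_ : Module (ZMod p) V) (_ : Finite V)
    (b : V →ₗ[ZMod p] V →ₗ[ZMod p] W),
    (∀ U, U ∈ S ↔ ∃ v, LinearMap.range (BG.br b v) = U) ∧
      (∀ ℓ, p ^ (2 * r ℓ) * Nat.card (BG.rad b ℓ) = Nat.card V) ∧ Nat.card V = p ^ d

namespace Pd

theorem toPc {S : Set (Submodule (ZMod p) W)} {r : Module.Dual (ZMod p) W → ℕ} {d : ℕ}
    (h : Pd S r d) : Pc S r := by
  obtain ⟨V, i1, i2, i3, b, h1, h2, -⟩ := h
  exact ⟨V, i1, i2, i3, b, h1, h2⟩

theorem congr {S S' : Set (Submodule (ZMod p) W)} {r r' : Module.Dual (ZMod p) W → ℕ} {d : ℕ}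
    (h : Pd S r d) (hS : ∀ U, U ∈ S' ↔ U ∈ S) (hr : ∀ ℓ, r' ℓ = r ℓ) : Pd S' r' d := by
  obtain ⟨V, i1, i2, i3, b, h1, h2, h3⟩ := h
  exact ⟨V, i1, i2, i3, b, fun U => (hS U).trans (h1 U), fun ℓ => by rw [hr]; exact h2 ℓ, h3⟩

theorem zero : Pd (p := p) ({⊥} : Set (Submodule (ZMod p) W)) (fun _ => 0) 0 := by
  refine ⟨PUnit, inferInstance, inferInstance, inferInstance, 0, ?_, ?_, by simp⟩
  · intro U
    have h1 : ∀ v : PUnit, LinearMap.range (BG.br (0 : PUnit →ₗ[ZMod p] PUnit →ₗ[ZMod p] W) v) = ⊥ := by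
      intro v
      rw [LinearMap.range_eq_bot]
      ext x
      rw [BG.br_apply]
      simp
    simp only [h1, Set.mem_singleton_iff]
    constructor
    · intro h
      exact ⟨PUnit.unit, h.symm⟩
    · rintro ⟨-, h⟩
      exact h.symm
  · intro ℓ
    have h1 : Nat.card (BG.rad (0 : PUnit →ₗ[ZMod p] PUnit →ₗ[ZMod p] W) ℓ) = 1 :=
      Nat.card_eq_one_iff_unique.mpr ⟨inferInstance, ⟨0⟩⟩
    rw [h1]
    simp

theorem add {S₁ S₂ : Set (Submodule (ZMod p) W)} {r₁ r₂ : Module.Dual (ZMod p) W → ℕ} {d₁ d₂ : ℕ}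
    (h₁ : Pd S₁ r₁ d₁) (h₂ : Pd S₂ r₂ d₂) :
    Pd {U | ∃ U₁ ∈ S₁, ∃ U₂ ∈ S₂, U = U₁ ⊔ U₂} (fun ℓ => r₁ ℓ + r₂ ℓ) (d₁ + d₂) := by
  obtain ⟨V₁, _, _, _, b₁, hS₁, hr₁, hd₁⟩ := h₁
  obtain ⟨V₂, _, _, _, b₂, hS₂, hr₂, hd₂⟩ := h₂
  let b : (V₁ × V₂) →ₗ[ZMod p] (V₁ × V₂) →ₗ[ZMod p] W :=
    b₁.compl₁₂ (LinearMap.fst _ _ _) (LinearMap.fst _ _ _) +
      b₂.compl₁₂ (LinearMap.snd _ _ _) (LinearMap.snd _ _ _)
  have hbr : ∀ v v', BG.br b v v' = BG.br b₁ v.1 v'.1 + BG.br b₂ v.2 v'.2 := by
    intro v v'
    simp only [BG.br_apply, b, LinearMap.add_apply, LinearMap.compl₁₂_apply, LinearMap.fst_apply,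
      LinearMap.snd_apply]
    abel
  have hrange : ∀ v, LinearMap.range (BG.br b v) =
      LinearMap.range (BG.br b₁ v.1) ⊔ LinearMap.range (BG.br b₂ v.2) := by
    intro v
    ext w
    rw [Submodule.mem_sup]
    constructor
    · rintro ⟨v', rfl⟩
      exact ⟨_, ⟨v'.1, rfl⟩, _, ⟨v'.2, rfl⟩, (hbr v v').symm⟩
    · rintro ⟨_, ⟨x, rfl⟩, _, ⟨y, rfl⟩, rfl⟩
      exact ⟨(x, y), hbr v (x, y)⟩
  refine ⟨V₁ × V₂, inferInstance, inferInstance, inferInstance, b, ?_, ?_, ?_⟩
  · intro U
    constructor
    · rintro ⟨U₁, hU₁, U₂, hU₂, rfl⟩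
      obtain ⟨x, rfl⟩ := (hS₁ U₁).mp hU₁
      obtain ⟨y, rfl⟩ := (hS₂ U₂).mp hU₂
      exact ⟨(x, y), hrange (x, y)⟩
    · rintro ⟨v, rfl⟩
      exact ⟨_, (hS₁ _).mpr ⟨v.1, rfl⟩, _, (hS₂ _).mpr ⟨v.2, rfl⟩, hrange v⟩
  · intro ℓ
    have hrad : ∀ v : V₁ × V₂, v ∈ BG.rad b ℓ ↔ v.1 ∈ BG.rad b₁ ℓ ∧ v.2 ∈ BG.rad b₂ ℓ := by
      intro v
      simp only [BG.mem_rad, hbr]
      constructor
      · intro h
        constructor
        · intro x
          have := h (x, 0)
          rwa [map_zero, add_zero] at this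
        · intro y
          have := h (0, y)
          rwa [map_zero, zero_add] at this
      · rintro ⟨h1, h2⟩ v'
        rw [map_add, h1, h2, add_zero]
    have hcard : Nat.card (BG.rad b ℓ) = Nat.card (BG.rad b₁ ℓ) * Nat.card (BG.rad b₂ ℓ) := by
      rw [← Nat.card_prod]
      refine Nat.card_congr ?_
      exact
        { toFun := fun v => (⟨v.1.1, ((hrad v.1).mp v.2).1⟩, ⟨v.1.2, ((hrad v.1).mp v.2).2⟩)
          invFun := fun v => ⟨(v.1.1, v.2.1), (hrad _).mpr ⟨v.1.2, v.2.2⟩⟩
          left_inv := fun _ => rfl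
          right_inv := fun _ => rfl }
    rw [hcard, Nat.card_prod, ← hr₁ ℓ, ← hr₂ ℓ, mul_add, pow_add]
    ring
  · rw [Nat.card_prod, hd₁, hd₂, pow_add]

/-- push forward along an injection -/
theorem map {S : Set (Submodule (ZMod p) W')} {r : Module.Dual (ZMod p) W' → ℕ} {d : ℕ}
    (h : Pd S r d) (f : W' →ₗ[ZMod p] W) :
    Pd {U | ∃ X ∈ S, U = Submodule.map f X} (fun ℓ => r (ℓ.comp f)) d := by
  obtain ⟨V, _, _, _, b, hS, hr, hd⟩ := h
  have hbr : ∀ v v', BG.br (b.compr₂ f) v v' = f (BG.br b v v') := by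
    intro v v'
    simp only [BG.br_apply, LinearMap.compr₂_apply, map_sub]
  refine ⟨V, inferInstance, inferInstance, inferInstance, b.compr₂ f, ?_, ?_, hd⟩
  · have hrange : ∀ v, LinearMap.range (BG.br (b.compr₂ f) v) =
        Submodule.map f (LinearMap.range (BG.br b v)) := by
      intro v
      ext w
      constructor
      · rintro ⟨v', rfl⟩
        exact ⟨_, ⟨v', rfl⟩, (hbr v v').symm⟩
      · rintro ⟨_, ⟨v', rfl⟩, rfl⟩
        exact ⟨v', hbr v v'⟩
    intro U
    constructor
    · rintro ⟨X, hX, rfl⟩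
      obtain ⟨v, rfl⟩ := (hS X).mp hX
      exact ⟨v, hrange v⟩
    · rintro ⟨v, rfl⟩
      exact ⟨_, (hS _).mpr ⟨v, rfl⟩, hrange v⟩
  · intro ℓ
    have h1 : BG.rad (b.compr₂ f) ℓ = BG.rad b (ℓ.comp f) := by
      ext v
      simp only [BG.mem_rad, hbr, LinearMap.comp_apply]
    rw [h1]
    exact hr _

/-- a surjection from a large field -/
theorem exists_surj {X : Type} [AddCommGroup X] [Module (ZMod p) X] [Finite X] {F : Type}
    [AddCommGroup F] [Module (ZMod p) F] [Finite F]
    (h : Module.finrank (ZMod p) X ≤ Module.finrank (ZMod p) F) :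
    ∃ T : F →ₗ[ZMod p] X, Function.Surjective T := by
  haveI : Module.Finite (ZMod p) X := Module.Finite.of_finite
  haveI : Module.Finite (ZMod p) F := Module.Finite.of_finite
  obtain ⟨f, hf⟩ := finrank_le_iff_exists_linearMap.mp h
  obtain ⟨g, hg⟩ := f.exists_leftInverse_of_injective (LinearMap.ker_eq_bot.mpr hf)
  exact ⟨g, fun u => ⟨f u, by
    have := LinearMap.congr_fun hg u
    simpa using this⟩⟩

theorem card_eq_pow {X : Type} [AddCommGroup X] [Module (ZMod p) X] [Finite X] :
    Nat.card X = p ^ Module.finrank (ZMod p) X := by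
  haveI : Module.Finite (ZMod p) X := Module.Finite.of_finite
  have := Module.natCard_eq_pow_finrank (K := ZMod p) (V := X)
  rwa [Nat.card_zmod] at this

/-- the lifting lemma -/
theorem lift [Finite W] [Finite W'] {S : Set (Submodule (ZMod p) W)}
    {r : Module.Dual (ZMod p) W → ℕ} {d : ℕ} (h : Pd S r d) (n : ℕ) (hn : 0 < n) (hd : d ≤ n)
    (hW' : Module.finrank (ZMod p) W' ≤ n) :
    Pd (W := W × W') {U | U = ⊥ ∨ ∃ X ∈ S, U = X.prod ⊤}
      (fun ℓ => if ℓ.comp (LinearMap.inr (ZMod p) W W') = 0 then r (ℓ.comp (LinearMap.inl (ZMod p) W W'))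
        else n) (2 * n) := by
  obtain ⟨V, _, _, _, b, hS, hr, hcard⟩ := h
  let F := GaloisField p n
  have hF : Module.finrank (ZMod p) F = n := GaloisField.finrank p hn.ne'
  have hFc : Nat.card F = p ^ n := GaloisField.card p n hn.ne'
  haveI : Finite F := Nat.finite_of_card_ne_zero (by
    rw [hFc]
    exact (pow_pos (Fact.out : p.Prime).pos n).ne')
  have hV : Module.finrank (ZMod p) V = d := by
    rw [card_eq_pow (p := p)] at hcard
    exact Nat.pow_right_injective (Fact.out : p.Prime).two_le hcard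
  obtain ⟨T, hT⟩ := exists_surj (p := p) (X := W') (F := F) (by rw [hF]; exact hW')
  obtain ⟨s, hs⟩ := exists_surj (p := p) (X := V) (F := F) (by rw [hF, hV]; exact hd)
  let b₁ : (F × F) →ₗ[ZMod p] (F × F) →ₗ[ZMod p] W :=
    b.compl₁₂ (s.comp (LinearMap.snd _ _ _)) (s.comp (LinearMap.snd _ _ _))
  let b₂ : (F × F) →ₗ[ZMod p] (F × F) →ₗ[ZMod p] W' :=
    ((LinearMap.mul (ZMod p) F).compl₁₂ (LinearMap.fst _ _ _) (LinearMap.snd _ _ _)).compr₂ T
  let c : (F × F) →ₗ[ZMod p] (F × F) →ₗ[ZMod p] (W × W') :=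
    b₁.compr₂ (LinearMap.inl (ZMod p) W W') + b₂.compr₂ (LinearMap.inr (ZMod p) W W')
  have hbr : ∀ v v', BG.br c v v' = (BG.br b (s v.2) (s v'.2), T (v.1 * v'.2 - v'.1 * v.2)) := by
    intro v v'
    rw [BG.br_apply, BG.br_apply]
    simp only [c, b₁, b₂, LinearMap.add_apply, LinearMap.compr₂_apply, LinearMap.compl₁₂_apply,
      LinearMap.comp_apply, LinearMap.fst_apply, LinearMap.snd_apply, LinearMap.mul_apply',
      LinearMap.inl_apply, LinearMap.inr_apply, map_sub]
    ext <;> simp
  have hrange0 : LinearMap.range (BG.br c 0) = ⊥ := by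
    rw [LinearMap.range_eq_bot]
    exact BG.br_zero c
  have hrange : ∀ v, v ≠ 0 → LinearMap.range (BG.br c v) =
      (LinearMap.range (BG.br b (s v.2))).prod ⊤ := by
    intro v hv
    ext ⟨w, w'⟩
    rw [Submodule.mem_prod]
    constructor
    · rintro ⟨v', hv'⟩
      rw [hbr] at hv'
      refine ⟨⟨s v'.2, ?_⟩, Submodule.mem_top⟩
      exact congrArg Prod.fst hv'
    · rintro ⟨⟨u, hu⟩, -⟩
      obtain ⟨z, hz⟩ := hT w'
      by_cases h2 : v.2 = 0
      · have h1 : v.1 ≠ 0 := fun h1 => hv (Prod.ext h1 h2)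
        refine ⟨(0, z / v.1), ?_⟩
        rw [hbr]
        ext
        · change BG.br b (s v.2) (s (z / v.1)) = w
          change BG.br b (s v.2) u = w at hu
          rw [← hu, h2, map_zero, BG.br_zero, LinearMap.zero_apply, LinearMap.zero_apply]
        · change T (v.1 * (z / v.1) - 0 * v.2) = w'
          rw [mul_div_cancel₀ _ h1, zero_mul, sub_zero, hz]
      · obtain ⟨y, hy⟩ := hs u
        refine ⟨((v.1 * y - z) / v.2, y), ?_⟩
        rw [hbr]
        ext
        · change BG.br b (s v.2) (s y) = w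
          rw [hy]
          exact hu
        · change T (v.1 * y - ((v.1 * y - z) / v.2) * v.2) = w'
          rw [div_mul_cancel₀ _ h2, sub_sub_cancel, hz]
  refine ⟨F × F, inferInstance, inferInstance, inferInstance, c, ?_, ?_, ?_⟩
  · intro U
    constructor
    · rintro (rfl | ⟨X, hX, rfl⟩)
      · exact ⟨0, hrange0⟩
      · obtain ⟨u, rfl⟩ := (hS X).mp hX
        obtain ⟨y, hy⟩ := hs u
        refine ⟨(1, y), ?_⟩
        rw [hrange _ (by
          intro h
          exact one_ne_zero (congrArg Prod.fst h))]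
        change (LinearMap.range (BG.br b (s y))).prod ⊤ = _
        rw [hy]
    · rintro ⟨v, rfl⟩
      by_cases hv : v = 0
      · left
        rw [hv, hrange0]
      · right
        exact ⟨_, (hS _).mpr ⟨s v.2, rfl⟩, hrange v hv⟩
  · intro ℓ
    have hℓ : ∀ w w', ℓ (w, w') = ℓ.comp (LinearMap.inl (ZMod p) W W') w +
        ℓ.comp (LinearMap.inr (ZMod p) W W') w' := by
      intro w w'
      rw [LinearMap.comp_apply, LinearMap.comp_apply, ← map_add, LinearMap.inl_apply,
        LinearMap.inr_apply]
      simp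
    by_cases h0 : ℓ.comp (LinearMap.inr (ZMod p) W W') = 0
    · simp only [if_pos h0]
      have hrad : ∀ v, v ∈ BG.rad c ℓ ↔ s v.2 ∈ BG.rad b (ℓ.comp (LinearMap.inl (ZMod p) W W')) := by
        intro v
        simp only [BG.mem_rad, hbr, hℓ, h0, LinearMap.zero_apply, add_zero]
        constructor
        · intro h u
          obtain ⟨y, rfl⟩ := hs u
          exact h (0, y)
        · intro h v'
          exact h _
      have h1 := hr (ℓ.comp (LinearMap.inl (ZMod p) W W'))
      set R := BG.rad b (ℓ.comp (LinearMap.inl (ZMod p) W W')) with hR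
      -- the cardinality of the preimage
      have h2 : Nat.card (BG.rad c ℓ) = Nat.card F * Nat.card (Submodule.comap s R) := by
        rw [← Nat.card_prod]
        refine Nat.card_congr ?_
        exact
          { toFun := fun v => (v.1.1, ⟨v.1.2, (hrad v.1).mp v.2⟩)
            invFun := fun v => ⟨(v.1, v.2.1), (hrad _).mpr v.2.2⟩
            left_inv := fun _ => rfl
            right_inv := fun _ => rfl }
      have h3 : Nat.card (Submodule.comap s R) * Nat.card V = Nat.card R * Nat.card F := by
        have h4 : Module.finrank (ZMod p) (Submodule.comap s R) + Module.finrank (ZMod p) V =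
            Module.finrank (ZMod p) R + Module.finrank (ZMod p) F := by
          haveI : Module.Finite (ZMod p) V := Module.Finite.of_finite
          haveI : Module.Finite (ZMod p) F := Module.Finite.of_finite
          let q : Submodule.comap s R →ₗ[ZMod p] R := s.restrict (fun x hx => hx)
          have hq : Function.Surjective q := by
            rintro ⟨u, hu⟩
            obtain ⟨y, rfl⟩ := hs u
            exact ⟨⟨y, hu⟩, rfl⟩
          have h5 := LinearMap.finrank_range_add_finrank_ker q
          have h6 := LinearMap.finrank_range_add_finrank_ker s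
          rw [LinearMap.range_eq_top.mpr hq, finrank_top] at h5
          rw [LinearMap.range_eq_top.mpr hs, finrank_top] at h6
          have h7 : Module.finrank (ZMod p) (LinearMap.ker q) =
              Module.finrank (ZMod p) (LinearMap.ker s) := by
            refine LinearEquiv.finrank_eq ?_
            exact
              { toFun := fun x => ⟨x.1.1, by
                  have := x.2
                  rw [LinearMap.mem_ker] at this ⊢
                  exact congrArg Subtype.val this⟩
                map_add' := fun _ _ => rfl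
                map_smul' := fun _ _ => rfl
                invFun := fun x => ⟨⟨x.1, by
                  have := x.2
                  rw [LinearMap.mem_ker] at this
                  rw [Submodule.mem_comap, this]
                  exact R.zero_mem⟩, by
                  have := x.2
                  rw [LinearMap.mem_ker] at this ⊢
                  exact Subtype.ext this⟩
                left_inv := fun _ => rfl
                right_inv := fun _ => rfl }
          omega
        rw [card_eq_pow (p := p) (X := Submodule.comap s R), card_eq_pow (p := p) (X := V),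
          card_eq_pow (p := p) (X := R), card_eq_pow (p := p) (X := F), ← pow_add, ← pow_add, h4]
      have hV0 : 0 < Nat.card V := Nat.card_pos
      apply Nat.eq_of_mul_eq_mul_right hV0
      rw [h2, Nat.card_prod]
      calc p ^ (2 * r (ℓ.comp (LinearMap.inl (ZMod p) W W'))) *
            (Nat.card F * Nat.card (Submodule.comap s R)) * Nat.card V =
            p ^ (2 * r (ℓ.comp (LinearMap.inl (ZMod p) W W'))) * Nat.card F *
              (Nat.card (Submodule.comap s R) * Nat.card V) := by ring
        _ = (p ^ (2 * r (ℓ.comp (LinearMap.inl (ZMod p) W W'))) * Nat.card R) *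
              (Nat.card F * Nat.card F) := by rw [h3]; ring
        _ = Nat.card F * Nat.card F * Nat.card V := by rw [h1]; ring
    · simp only [if_neg h0]
      have h1 : BG.rad c ℓ = ⊥ := by
        rw [eq_bot_iff]
        intro v hv
        rw [Submodule.mem_bot]
        by_contra hv0
        apply h0
        ext w'
        have h2 : ((0 : W), w') ∈ LinearMap.range (BG.br c v) := by
          rw [hrange v hv0, Submodule.mem_prod]
          exact ⟨Submodule.zero_mem _, Submodule.mem_top⟩
        obtain ⟨v', hv'⟩ := h2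
        have h3 := hv v'
        rw [hv'] at h3
        rw [LinearMap.comp_apply, LinearMap.inr_apply, h3, LinearMap.zero_apply]
      rw [h1, Nat.card_prod, hFc, two_mul, pow_add]
      simp
  · rw [Nat.card_prod, hFc, two_mul, pow_add]

/-- the rectangular piece -/
theorem rect [Finite W] (f g : ℕ) (hf : Module.finrank (ZMod p) W = f) (hg : 0 < g) (hgf : g < f) :
    ∃ S : Set (Submodule (ZMod p) W),
      (∀ U ∈ S, U = ⊥ ∨ U = ⊤ ∨ Module.finrank (ZMod p) U = g) ∧ ⊥ ∈ S ∧
      (∃ U ∈ S, Module.finrank (ZMod p) U = g) ∧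
      Pd S (fun ℓ => if ℓ = 0 then 0 else g) (f + g) := by
  have hf0 : 0 < f := by omega
  let F := GaloisField p f
  have hF : Module.finrank (ZMod p) F = f := GaloisField.finrank p hf0.ne'
  have hFc : Nat.card F = p ^ f := GaloisField.card p f hf0.ne'
  haveI : Finite F := Nat.finite_of_card_ne_zero (by
    rw [hFc]
    exact (pow_pos (Fact.out : p.Prime).pos f).ne')
  haveI : Module.Finite (ZMod p) W := Module.Finite.of_finite
  haveI : Module.Finite (ZMod p) F := Module.Finite.of_finite
  let Y := Fin g → ZMod p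
  have hY : Module.finrank (ZMod p) Y = g := by simp [Y]
  obtain ⟨T, hT⟩ := exists_surj (p := p) (X := W) (F := F) (by rw [hF, hf])
  have hTi : Function.Injective T := by
    rw [LinearMap.injective_iff_surjective_of_finrank_eq_finrank (by rw [hF, hf])]
    exact hT
  obtain ⟨i, hi⟩ : ∃ i : Y →ₗ[ZMod p] F, Function.Injective i := by
    rw [← finrank_le_iff_exists_linearMap, hF, hY]
    omega
  let b : (F × Y) →ₗ[ZMod p] (F × Y) →ₗ[ZMod p] W :=
    ((LinearMap.mul (ZMod p) F).compl₁₂ (LinearMap.fst _ _ _)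
      (i.comp (LinearMap.snd _ _ _))).compr₂ T
  have hbr : ∀ v v', BG.br b v v' = T (v.1 * i v'.2 - v'.1 * i v.2) := by
    intro v v'
    simp only [BG.br_apply, b, LinearMap.compr₂_apply, LinearMap.compl₁₂_apply,
      LinearMap.comp_apply, LinearMap.fst_apply, LinearMap.snd_apply, LinearMap.mul_apply', map_sub]
  have hrange0 : LinearMap.range (BG.br b 0) = ⊥ := by
    rw [LinearMap.range_eq_bot]
    exact BG.br_zero b
  have hrange1 : ∀ v, v.2 ≠ 0 → LinearMap.range (BG.br b v) = ⊤ := by
    intro v hv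
    rw [LinearMap.range_eq_top]
    intro w
    obtain ⟨z, hz⟩ := hT w
    have h1 : i v.2 ≠ 0 := by
      intro h
      apply hv
      apply hi
      rw [h, map_zero]
    refine ⟨(-z / i v.2, 0), ?_⟩
    rw [hbr]
    change T (v.1 * i 0 - (-z / i v.2) * i v.2) = w
    rw [map_zero, mul_zero, div_mul_cancel₀ _ h1, zero_sub, neg_neg, hz]
  have hrange2 : ∀ v : F × Y, v.2 = 0 → v.1 ≠ 0 →
      Module.finrank (ZMod p) (LinearMap.range (BG.br b v)) = g := by
    intro v hv hv1
    let q : Y →ₗ[ZMod p] W := T.comp ((LinearMap.mul (ZMod p) F v.1).comp i)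
    have hq : Function.Injective q := by
      intro a c hac
      have h1 := hTi hac
      exact hi (mul_left_cancel₀ hv1 h1)
    have h1 : LinearMap.range (BG.br b v) = LinearMap.range q := by
      ext w
      constructor
      · rintro ⟨v', rfl⟩
        refine ⟨v'.2, ?_⟩
        rw [hbr, hv, map_zero, mul_zero, sub_zero]
        rfl
      · rintro ⟨y, rfl⟩
        refine ⟨(0, y), ?_⟩
        rw [hbr, hv, map_zero, mul_zero, sub_zero]
        rfl
    rw [h1, LinearMap.finrank_range_of_inj hq, hY]
  refine ⟨{U | ∃ v, LinearMap.range (BG.br b v) = U}, ?_, ⟨0, hrange0⟩, ?_, F × Y, inferInstance,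
    inferInstance, inferInstance, b, fun U => Iff.rfl, ?_, ?_⟩
  · rintro _ ⟨v, rfl⟩
    by_cases h2 : v.2 = 0
    · by_cases h1 : v.1 = 0
      · left
        rw [← hrange0]
        congr 2
        exact Prod.ext h1 h2
      · exact Or.inr (Or.inr (hrange2 v h2 h1))
    · exact Or.inr (Or.inl (hrange1 v h2))
  · exact ⟨_, ⟨(1, 0), rfl⟩, hrange2 (1, 0) rfl one_ne_zero⟩
  · intro ℓ
    by_cases hℓ : ℓ = 0
    · have h1 : BG.rad b ℓ = ⊤ := by
        rw [eq_top_iff]
        intro v _ v'
        rw [hℓ, LinearMap.zero_apply]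
      simp only [if_pos hℓ, mul_zero, pow_zero, one_mul]
      rw [h1]
      exact Nat.card_congr (Equiv.Set.univ _)
    · simp only [if_neg hℓ]
      -- the pairing
      let ψ : Y →ₗ[ZMod p] Module.Dual (ZMod p) F :=
        LinearMap.mk₂ (ZMod p) (fun y x => ℓ (T (x * i y)))
          (by intro a c x; simp [mul_add])
          (by intro a c x; simp)
          (by intro a c x; simp [add_mul])
          (by intro a c x; simp)
      have hψ : ∀ y x, ψ y x = ℓ (T (x * i y)) := fun y x => rfl
      have hψi : Function.Injective ψ := by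
        rw [← LinearMap.ker_eq_bot, eq_bot_iff]
        intro y hy
        rw [Submodule.mem_bot]
        by_contra hy0
        apply hℓ
        ext w
        obtain ⟨z, rfl⟩ := hT w
        have h1 : i y ≠ 0 := by
          intro h
          apply hy0
          apply hi
          rw [h, map_zero]
        have h2 := LinearMap.congr_fun (LinearMap.mem_ker.mp hy) (z / i y)
        rw [hψ, div_mul_cancel₀ _ h1] at h2
        rw [h2]
        rfl
      let φ : F →ₗ[ZMod p] Module.Dual (ZMod p) Y := ψ.dualMap.comp (Module.Dual.eval (ZMod p) F)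
      have hφ : ∀ x y, φ x y = ℓ (T (x * i y)) := fun x y => rfl
      have hφs : Function.Surjective φ := by
        have h1 : Function.Surjective ψ.dualMap := LinearMap.dualMap_surjective_iff.mpr hψi
        have h2 : Function.Surjective (Module.Dual.eval (ZMod p) F) :=
          (Module.bijective_dual_eval (ZMod p) F).2
        exact h1.comp h2
      have h3 := LinearMap.finrank_range_add_finrank_ker φ
      rw [LinearMap.range_eq_top.mpr hφs, finrank_top, Subspace.dual_finrank_eq, hY, hF] at h3
      have h4 : Nat.card (BG.rad b ℓ) = Nat.card (LinearMap.ker φ) := by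
        refine Nat.card_congr ?_
        have hrad : ∀ v : F × Y, v ∈ BG.rad b ℓ ↔ v.2 = 0 ∧ v.1 ∈ LinearMap.ker φ := by
          intro v
          rw [BG.mem_rad, LinearMap.mem_ker]
          simp only [hbr]
          constructor
          · intro h
            have h5 : v.2 = 0 := by
              apply hψi
              rw [map_zero]
              ext x
              rw [hψ, LinearMap.zero_apply]
              have h6 := h (x, 0)
              simp only [map_zero, mul_zero, zero_sub, map_neg, neg_eq_zero] at h6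
              exact h6
            refine ⟨h5, LinearMap.ext fun y => ?_⟩
            rw [hφ, LinearMap.zero_apply]
            have h6 := h (0, y)
            simp only [zero_mul, sub_zero] at h6
            exact h6
          · rintro ⟨h5, h6⟩ v'
            have h7 := LinearMap.congr_fun h6 v'.2
            rw [hφ, LinearMap.zero_apply] at h7
            rw [h5, map_zero, mul_zero, sub_zero]
            exact h7
        exact
          { toFun := fun v => ⟨v.1.1, ((hrad v.1).mp v.2).2⟩
            invFun := fun x => ⟨(x.1, 0), (hrad _).mpr ⟨rfl, x.2⟩⟩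
            left_inv := fun v => by
              apply Subtype.ext
              exact Prod.ext rfl ((hrad v.1).mp v.2).1.symm
            right_inv := fun _ => rfl }
      rw [h4, card_eq_pow (p := p), Nat.card_prod, hFc, card_eq_pow (p := p) (X := Y), hY,
        ← pow_add, ← pow_add]
      congr 1
      omega
  · rw [Nat.card_prod, hFc, card_eq_pow (p := p) (X := Y), hY, ← pow_add]

end Pd

end Run7.h528
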