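import Mathlib
import Pool.Agent.Run7.h528.Count

/-!
# Sets of characters that are closed under products
-/

set_option autoImplicit false
set_option linter.unusedSectionVars false
set_option linter.style.haveILetI false

open scoped BigOperators Classical ComplexConjugate commutatorElement
open Pool.Agent.Helper884.IC

noncomputable section

namespace Run7.h528

/-- a central element on which a character takes the value of its degree -/
theorem irr_central_one {Z : Type} [CommGroup Z] [Fintype Z] {l : Z → ℂ} (hl : IsIrrChar l) (y : Z) :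
    ∃ c : ℂ, ‖c‖ = 1 ∧ ∀ g, l (y * g) = c * l g := by
  obtain ⟨V, _, _, _, ρ, hρ, rfl⟩ := hl
  obtain ⟨c, -, hc, hc2⟩ := central_scalar ρ hρ y (by
    intro g
    rw [← map_mul, ← map_mul, mul_comm])
  exact ⟨c, hc, hc2⟩

theorem comm_char_one {Z : Type} [CommGroup Z] [Fintype Z] {V : Type} [AddCommGroup V] [Module ℂ V]
    [FiniteDimensional ℂ V] (ρ : Representation ℂ Z V) (y : Z)
    (hy : ρ.character y = ρ.character 1) : ∀ g, ρ.character (y * g) = ρ.character g := by
  have hcl : IsClass ρ.character := isClass_char ρ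
  have hexp := expand ρ.character hcl
  have hnat : ∀ l : Z → ℂ, IsIrrChar l → ∃ n : ℕ, B ρ.character l = n := by
    intro l hl
    obtain ⟨U, _, _, _, σ, hσ, rfl⟩ := hl
    exact Pool.Agent.Q90.WR.B_nat ρ σ
  choose! n hn using hnat
  have hc := fun (l : Z → ℂ) (hl : IsIrrChar l) => irr_central_one hl y
  choose! c hc1 hc2 using hc
  have hval : ∀ g, ρ.character g = ∑ l ∈ Irr Z, (n l : ℂ) * l g := by
    intro g
    have h1 := congrFun hexp g
    simp only [Finset.sum_apply, Pi.smul_apply, smul_eq_mul] at h1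
    rw [h1]
    exact Finset.sum_congr rfl fun l hl => by rw [hn l (mem_Irr.mp hl)]
  have h1 : ∑ l ∈ Irr Z, (n l : ℂ) * (dg l : ℂ) * (1 - c l) = 0 := by
    have h2 : ρ.character y = ∑ l ∈ Irr Z, (n l : ℂ) * (dg l : ℂ) * c l := by
      rw [hval]
      refine Finset.sum_congr rfl fun l hl => ?_
      have h3 := hc2 l (mem_Irr.mp hl) 1
      rw [mul_one] at h3
      rw [h3, dg_spec (mem_Irr.mp hl)]
      ring
    have h4 : ρ.character 1 = ∑ l ∈ Irr Z, (n l : ℂ) * (dg l : ℂ) := by
      rw [hval]
      exact Finset.sum_congr rfl fun l hl => by rw [dg_spec (mem_Irr.mp hl)]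
    simp only [mul_sub, mul_one, Finset.sum_sub_distrib]
    rw [← h2, ← h4, hy, sub_self]
  have h2 : ∑ l ∈ Irr Z, ((n l : ℝ) * (dg l : ℝ) * (1 - (c l).re)) = 0 := by
    have h3 := congrArg Complex.re h1
    rw [Complex.re_sum, Complex.zero_re] at h3
    rw [← h3]
    refine Finset.sum_congr rfl fun l _ => ?_
    have h4 : (n l : ℂ) * (dg l : ℂ) * (1 - c l) = (((n l : ℝ) * (dg l : ℝ) : ℝ) : ℂ) * (1 - c l) := by
      push_cast
      ring
    rw [h4, Complex.re_ofReal_mul, Complex.sub_re, Complex.one_re]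
  have h3 : ∀ l ∈ Irr Z, (n l : ℝ) * (dg l : ℝ) * (1 - (c l).re) = 0 := by
    refine (Finset.sum_eq_zero_iff_of_nonneg ?_).mp h2
    intro l hl
    have h4 : (c l).re ≤ 1 := (Complex.re_le_norm _).trans_eq (hc1 l (mem_Irr.mp hl))
    have h5 : 0 ≤ 1 - (c l).re := by linarith
    positivity
  have h4 : ∀ l ∈ Irr Z, (n l : ℂ) = 0 ∨ c l = 1 := by
    intro l hl
    rcases mul_eq_zero.mp (h3 l hl) with h5 | h5
    · left
      rcases mul_eq_zero.mp h5 with h6 | h6
      · exact_mod_cast h6
      · exfalso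
        have := dg_pos (mem_Irr.mp hl)
        have h7 : dg l = 0 := by exact_mod_cast h6
        omega
    · right
      have h6 : (c l).re = 1 := by linarith
      have h7 := hc1 l (mem_Irr.mp hl)
      have h8 : (c l).re ^ 2 + (c l).im ^ 2 = 1 := by
        have := Complex.sq_norm (c l)
        rw [h7, Complex.normSq_apply] at this
        nlinarith
      have h9 : (c l).im = 0 := by
        rw [h6] at h8
        nlinarith
      exact Complex.ext h6 h9
  intro g
  rw [hval, hval]
  refine Finset.sum_congr rfl fun l hl => ?_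
  rw [hc2 l (mem_Irr.mp hl)]
  rcases h4 l hl with h5 | h5
  · rw [h5, zero_mul, zero_mul]
  · rw [h5, one_mul]

variable {G : Type} [Group G] [Fintype G]

/-- an element on which a character takes the value of its degree acts trivially -/
theorem rep_triv {V : Type} [AddCommGroup V] [Module ℂ V] [FiniteDimensional ℂ V]
    (ρ : Representation ℂ G V) {y : G} (hy : ρ.character y = ρ.character 1) : ρ y = 1 := by
  let Z := Subgroup.zpowers y
  letI : CommGroup Z :=
    { (inferInstance : Group Z) with
      mul_comm := by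
        rintro ⟨a, ha⟩ ⟨c, hc⟩
        obtain ⟨i, rfl⟩ := Subgroup.mem_zpowers_iff.mp ha
        obtain ⟨j, rfl⟩ := Subgroup.mem_zpowers_iff.mp hc
        apply Subtype.ext
        change y ^ i * y ^ j = y ^ j * y ^ i
        rw [← zpow_add, ← zpow_add, add_comm] }
  let σ : Representation ℂ Z V := ρ.comp Z.subtype
  let y' : Z := ⟨y, Subgroup.mem_zpowers y⟩
  have h1 := comm_char_one σ y' hy
  have hall : ∀ z : Z, σ.character z = σ.character 1 := by
    rintro ⟨z, hz⟩
    have h2 : z ∈ Submonoid.powers y := by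
      rw [← mem_powers_iff_mem_zpowers] at hz
      exact hz
    obtain ⟨k, rfl⟩ := h2
    have h3 : ∀ k : ℕ, σ.character (y' ^ k) = σ.character 1 := by
      intro k
      induction k with
      | zero => rw [pow_zero]
      | succ k ih => rw [pow_succ', h1, ih]
    exact h3 k
  have hinv : Invertible (Nat.card Z : ℂ) := invertibleOfNonzero (by
    exact_mod_cast Nat.card_pos.ne')
  have h1 := Representation.card_inv_mul_sum_char_eq_finrank (ρ := σ)
  rw [Finset.sum_congr rfl (fun z _ => hall z), Finset.sum_const, Finset.card_univ, nsmul_eq_mul,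
    ← Nat.card_eq_fintype_card, ← mul_assoc, inv_mul_cancel₀ (by exact_mod_cast Nat.card_pos.ne'),
    one_mul, Representation.char_one] at h1
  have h2 : Module.finrank ℂ (Representation.invariants σ) = Module.finrank ℂ V := by
    exact_mod_cast h1.symm
  have h3 : Representation.invariants σ = ⊤ := Submodule.eq_top_of_finrank_eq h2
  refine LinearMap.ext fun v => ?_
  have h4 : v ∈ Representation.invariants σ := by rw [h3]; exact Submodule.mem_top
  rw [Representation.mem_invariants] at h4
  exact h4 ⟨y, Subgroup.mem_zpowers y⟩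

theorem char_triv {χ : G → ℂ} (h : IsIrrChar χ) {y : G} (hy : χ y = χ 1) (g : G) :
    χ (y * g) = χ g := by
  obtain ⟨V, _, _, _, ρ, hρ, rfl⟩ := h
  have h1 := rep_triv ρ hy
  unfold Representation.character
  rw [map_mul, h1, one_mul]

/-- products of characters have constituents of small degree -/
theorem dg_le_of_triple {a b c : G → ℂ} (ha : IsIrrChar a) (hb : IsIrrChar b) (hc : IsIrrChar c)
    (h : B (fun g => a g * b g) c ≠ 0) : dg c ≤ dg a * dg b := by
  have hA := ha
  have hB := hb
  obtain ⟨V, _, _, _, ρ, hρ, rfl⟩ := ha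
  obtain ⟨U, _, _, _, σ, hσ, rfl⟩ := hb
  have hch : (ρ.tprod σ).character = fun g => ρ.character g * σ.character g := by
    rw [Representation.char_tensor]
    rfl
  have hnat : ∀ l : G → ℂ, IsIrrChar l → ∃ n : ℕ, B (fun g => ρ.character g * σ.character g) l = n := by
    intro l hl
    obtain ⟨U, _, _, _, τ, hτ, rfl⟩ := hl
    rw [← hch]
    exact Pool.Agent.Q90.WR.B_nat _ τ
  choose! n hn using hnat
  have hcl : IsClass (fun g => ρ.character g * σ.character g) := by
    rw [← hch]
    exact isClass_char _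
  have hexp := congrFun (expand _ hcl) 1
  simp only [Finset.sum_apply, Pi.smul_apply, smul_eq_mul] at hexp
  rw [Finset.sum_congr rfl (fun l hl => by rw [hn l (mem_Irr.mp hl), dg_spec (mem_Irr.mp hl)]),
    dg_spec hA, dg_spec hB] at hexp
  have h1 : dg ρ.character * dg σ.character = ∑ l ∈ Irr G, n l * dg l := by exact_mod_cast hexp
  rw [h1]
  have h2 : n c * dg c ≤ ∑ l ∈ Irr G, n l * dg l :=
    Finset.single_le_sum (f := fun l => n l * dg l) (fun _ _ => Nat.zero_le _) (mem_Irr.mpr hc)
  have h3 : 1 ≤ n c := by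
    rw [Nat.one_le_iff_ne_zero]
    intro h0
    apply h
    rw [hn c hc, h0, Nat.cast_zero]
  calc dg c = 1 * dg c := (one_mul _).symm
    _ ≤ n c * dg c := Nat.mul_le_mul_right _ h3
    _ ≤ _ := h2

/-- the common kernel of the characters of degree at most `D` -/
def KD (G : Type) [Group G] [Fintype G] (D : ℕ) : Subgroup G where
  carrier := {x | ∀ χ : G → ℂ, IsIrrChar χ → dg χ ≤ D → ∀ g, χ (x * g) = χ g}
  one_mem' := by
    intro χ _ _ g
    rw [one_mul]
  mul_mem' := by
    intro x y hx hy χ hχ hd g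
    rw [mul_assoc, hx χ hχ hd, hy χ hχ hd]
  inv_mem' := by
    intro x hx χ hχ hd g
    rw [← hx χ hχ hd (x⁻¹ * g), mul_inv_cancel_left]

theorem mem_KD {D : ℕ} {x : G} :
    x ∈ KD G D ↔ ∀ χ : G → ℂ, IsIrrChar χ → dg χ ≤ D → ∀ g, χ (x * g) = χ g := Iff.rfl

instance KD_normal (D : ℕ) : (KD G D).Normal := by
  constructor
  intro x hx y χ hχ hd g
  have h1 : y * x * y⁻¹ * g = y * (x * (y⁻¹ * g * y)) * y⁻¹ := by group
  rw [h1, hχ.isClass, hx χ hχ hd]
  have h2 : y⁻¹ * g * y = y⁻¹ * g * (y⁻¹)⁻¹ := by rw [inv_inv]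
  rw [h2, hχ.isClass]

/-- If there is a gap in the degrees then the characters of small degree are the characters of a
quotient group. -/
theorem triv_KD_iff {D : ℕ} (hD : 1 ≤ D) (hgap : ∀ χ : G → ℂ, IsIrrChar χ → dg χ ≤ D ∨ D * D < dg χ)
    {χ : G → ℂ} (hχ : IsIrrChar χ) : Triv (KD G D) χ ↔ dg χ ≤ D := by
  constructor
  swap
  · intro hd n hn g
    exact hn χ hχ hd g
  intro ht
  by_contra hcon
  set S := (Irr G).filter (fun φ => dg φ ≤ D) with hS
  have hSmem : ∀ φ, φ ∈ S ↔ IsIrrChar φ ∧ dg φ ≤ D := by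
    intro φ
    rw [hS, Finset.mem_filter, mem_Irr]
  let ψ : G → ℂ := ∑ φ ∈ S, (dg φ : ℂ) • φ
  have hψ : ∀ g, ψ g = ∑ φ ∈ S, (dg φ : ℂ) * φ g := by
    intro g
    simp [ψ, Finset.sum_apply]
  have key : ∀ a ∈ S, ∀ g, a g * ψ g = dg a * ψ g := by
    intro a ha
    have ha' := (hSmem a).mp ha
    have hgal : IsIrrChar (fun g => conj (a g)) :=
      Pool.Agent.Q90.WR.irr_gal (starRingAut (R := ℂ)) ha'.1
    have hgald : dg (fun g => conj (a g)) = dg a := dg_gal ha'.1 (starRingAut (R := ℂ))
    have hcl : IsClass (fun g => a g * ψ g) := by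
      intro g y
      change a (y * g * y⁻¹) * ψ (y * g * y⁻¹) = a g * ψ g
      rw [ha'.1.isClass, hψ, hψ]
      congr 1
      exact Finset.sum_congr rfl fun φ hφ => by rw [((hSmem φ).mp hφ).1.isClass]
    have hsw : ∀ (c φ : G → ℂ), B (fun g => a g * c g) φ = B c (fun g => conj (a g) * φ g) := by
      intro c φ
      unfold B
      congr 1
      refine Finset.sum_congr rfl fun g _ => ?_
      change a g * c g * φ g⁻¹ = c g * (conj (a g⁻¹) * φ g⁻¹)
      rw [← char_conj_inv ha'.1 g⁻¹, inv_inv]
      ring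
    have hBf : ∀ φ ∈ Irr G, B (fun g => a g * ψ g) φ = if dg φ ≤ D then (dg a : ℂ) * dg φ else 0 := by
      intro φ hφ
      have hφ' := mem_Irr.mp hφ
      have h1 : B (fun g => a g * ψ g) φ =
          ∑ c ∈ S, (dg c : ℂ) * B (fun g => a g * c g) φ := by
        have h2 : (fun g => a g * ψ g) = ∑ c ∈ S, ((dg c : ℂ) • (fun g => a g * c g)) := by
          funext g
          rw [Finset.sum_apply, hψ, Finset.mul_sum]
          refine Finset.sum_congr rfl fun c _ => ?_
          simp only [Pi.smul_apply, smul_eq_mul]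
          ring
        rw [h2, B_sum_left]
        exact Finset.sum_congr rfl fun c _ => B_smul_left _ _ _
      rw [h1]
      split_ifs with hφD
      · have h3 : ∑ c ∈ S, (dg c : ℂ) * B (fun g => a g * c g) φ =
            ∑ c ∈ Irr G, (dg c : ℂ) * B (fun g => a g * c g) φ := by
          apply Finset.sum_subset (Finset.filter_subset _ _)
          intro c hc hcS
          have hc' := mem_Irr.mp hc
          have h4 : D * D < dg c := by
            rcases hgap c hc' with h5 | h5
            · exact absurd ((hSmem c).mpr ⟨hc', h5⟩) hcS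
            · exact h5
          have h5 : B (fun g => a g * c g) φ = 0 := by
            by_contra h6
            rw [hsw, B_comm] at h6
            have h7 := dg_le_of_triple hgal hφ' hc' h6
            rw [hgald] at h7
            have h8 : dg a * dg φ ≤ D * D := Nat.mul_le_mul ha'.2 hφD
            omega
          rw [h5, mul_zero]
        rw [h3]
        have h4 : ∀ c ∈ Irr G, (dg c : ℂ) * B (fun g => a g * c g) φ =
            B (fun g => conj (a g) * φ g) c * c 1 := by
          intro c hc
          rw [hsw, B_comm, dg_spec (mem_Irr.mp hc)]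
          ring
        rw [Finset.sum_congr rfl h4]
        have hcl2 : IsClass (fun g => conj (a g) * φ g) := by
          intro g y
          change conj (a (y * g * y⁻¹)) * φ (y * g * y⁻¹) = conj (a g) * φ g
          rw [ha'.1.isClass, hφ'.isClass]
        have h5 := congrFun (expand _ hcl2) 1
        simp only [Finset.sum_apply, Pi.smul_apply, smul_eq_mul] at h5
        rw [← h5, dg_spec ha'.1, dg_spec hφ', map_natCast]
      · apply Finset.sum_eq_zero
        intro c hc
        have hc' := (hSmem c).mp hc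
        have h5 : B (fun g => a g * c g) φ = 0 := by
          by_contra h6
          have h7 := dg_le_of_triple ha'.1 hc'.1 hφ' h6
          have h8 : dg a * dg c ≤ D * D := Nat.mul_le_mul ha'.2 hc'.2
          rcases hgap φ hφ' with h9 | h9
          · exact hφD h9
          · omega
        rw [h5, mul_zero]
    intro g
    have h1 := congrFun (expand _ hcl) g
    simp only [Finset.sum_apply, Pi.smul_apply, smul_eq_mul] at h1
    rw [h1, hψ, Finset.mul_sum, hS, Finset.sum_filter]
    refine Finset.sum_congr rfl fun φ hφ => ?_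
    rw [hBf φ hφ]
    split_ifs <;> ring
  have hker : ∀ g, ψ g ≠ 0 → g ∈ KD G D := by
    intro g hg a ha hd h
    apply char_triv ha
    rw [dg_spec ha]
    exact mul_right_cancel₀ hg (key a ((hSmem a).mpr ⟨ha, hd⟩) g)
  have hψ1 : ∀ g, g ∈ KD G D → ψ g = ((∑ φ ∈ S, (dg φ) ^ 2 : ℕ) : ℂ) := by
    intro g hg
    rw [hψ]
    push_cast
    refine Finset.sum_congr rfl fun φ hφ => ?_
    have hφ' := (hSmem φ).mp hφ
    have h1 := hg φ hφ'.1 hφ'.2 1
    rw [mul_one] at h1
    rw [h1, dg_spec hφ'.1]
    ring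
  have hone : (fun _ : G => (1 : ℂ)) ∈ S := by
    rw [hSmem]
    refine ⟨irr_one, ?_⟩
    have : dg (fun _ : G => (1 : ℂ)) = 1 := dg_eq (by simp)
    rw [this]
    exact hD
  have hsumpos : 0 < ∑ φ ∈ S, (dg φ) ^ 2 := by
    apply Finset.sum_pos
    · intro φ hφ
      have := dg_pos ((hSmem φ).mp hφ).1
      positivity
    · exact ⟨_, hone⟩
  -- the inner product of `ψ` and `χ`
  have hB0 : B ψ χ = 0 := by
    change B (∑ φ ∈ S, (dg φ : ℂ) • φ) χ = 0
    rw [B_sum_left]
    apply Finset.sum_eq_zero
    intro φ hφ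
    have hφ' := (hSmem φ).mp hφ
    rw [B_smul_left, B_irr hφ'.1 hχ, if_neg, mul_zero]
    rintro rfl
    exact hcon hφ'.2
  have hterm : ∀ g, ψ g * χ g⁻¹ =
      if g ∈ KD G D then ((∑ φ ∈ S, (dg φ) ^ 2 : ℕ) : ℂ) * dg χ else 0 := by
    intro g
    split_ifs with hg
    · rw [hψ1 g hg]
      have h1 := ht g⁻¹ ((KD G D).inv_mem hg) 1
      rw [mul_one] at h1
      rw [h1, dg_spec hχ]
    · by_cases h0 : ψ g = 0
      · rw [h0, zero_mul]
      · exact absurd (hker g h0) hg
  unfold B at hB0
  rw [Finset.sum_congr rfl (fun g _ => hterm g), ← Finset.sum_filter, Finset.sum_const,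
    nsmul_eq_mul] at hB0
  rcases mul_eq_zero.mp hB0 with h1 | h1
  · exact cardG_ne (inv_eq_zero.mp h1)
  · rcases mul_eq_zero.mp h1 with h2 | h2
    · have h3 : (1 : G) ∈ Finset.univ.filter (fun g => g ∈ KD G D) := by
        rw [Finset.mem_filter]
        exact ⟨Finset.mem_univ _, (KD G D).one_mem⟩
      have h4 := Finset.card_pos.mpr ⟨_, h3⟩
      have h5 : (Finset.univ.filter (fun g => g ∈ KD G D)).card = 0 := by exact_mod_cast h2
      omega
    · rcases mul_eq_zero.mp h2 with h3 | h3
      · have h4 : ∑ φ ∈ S, (dg φ) ^ 2 = 0 := by exact_mod_cast h3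
        omega
      · have h4 : dg χ = 0 := by exact_mod_cast h3
        have := dg_pos hχ
        omega

end Run7.h528
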