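import Mathlib
import Pool.Agent.Run7.h528.Ker

/-!
# Normal subgroups, central quotients and class sizes
-/

set_option autoImplicit false
set_option linter.unusedSectionVars false
set_option linter.style.haveILetI false

open scoped BigOperators Classical ComplexConjugate commutatorElement
open Pool.Agent.Helper884.IC

noncomputable section

namespace Run7.h528

variable {G : Type} [Group G] [Fintype G]

/-- the norm of the restriction to a subgroup -/
theorem card_le_sum_norm {χ : G → ℂ} (h : IsIrrChar χ) (M : Subgroup G) :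
    (Nat.card M : ℝ) ≤ ∑ x : M, ‖χ x‖ ^ 2 := by
  have hχ := h
  obtain ⟨V, _, _, _, ρ, hρ, rfl⟩ := h
  let σ : Representation ℂ M V := ρ.comp M.subtype
  obtain ⟨n, hn⟩ := Pool.Agent.Q90.WR.B_nat σ σ
  have h1 : B σ.character σ.character =
      (Nat.card M : ℂ)⁻¹ * ((∑ x : M, ‖ρ.character x‖ ^ 2 : ℝ) : ℂ) := by
    unfold B
    congr 1
    push_cast
    refine Finset.sum_congr rfl fun x _ => ?_
    have := mul_inv_norm hχ (x : G)
    push_cast at this
    exact this
  have hM : (Nat.card M : ℂ) ≠ 0 := cardG_ne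
  have h2 : ((∑ x : M, ‖ρ.character x‖ ^ 2 : ℝ) : ℂ) = (Nat.card M : ℂ) * n := by
    rw [← hn, h1, ← mul_assoc, mul_inv_cancel₀ hM, one_mul]
  have h3 : (∑ x : M, ‖ρ.character x‖ ^ 2 : ℝ) = (Nat.card M : ℝ) * n := by exact_mod_cast h2
  have h4 : 0 < ∑ x : M, ‖ρ.character x‖ ^ 2 := by
    apply Finset.sum_pos'
    · intro x _
      positivity
    · refine ⟨1, Finset.mem_univ _, ?_⟩
      change 0 < ‖ρ.character 1‖ ^ 2
      rw [norm_deg hχ]
      have := dg_pos hχ
      positivity
  rw [h3]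
  have h5 : 1 ≤ n := by
    rw [Nat.one_le_iff_ne_zero]
    rintro rfl
    rw [h3] at h4
    simp at h4
  have h6 : (1 : ℝ) ≤ n := by exact_mod_cast h5
  have h7 : (0 : ℝ) < Nat.card M := by exact_mod_cast Nat.card_pos
  nlinarith

theorem le_zmod (K : Subgroup G) [hK : K.Normal] : K ≤ zmod K := by
  intro x hx g
  rw [commutatorElement_def]
  have h1 : x * g * x⁻¹ * g⁻¹ = x * (g * x⁻¹ * g⁻¹) := by group
  rw [h1]
  exact K.mul_mem hx (hK.conj_mem _ (K.inv_mem hx) g)

/-- minimal normal subgroups over `K` are central modulo `K` -/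
theorem exists_min_normal {p : ℕ} (hp : p.Prime) (hG : IsPGroup p G) (K N : Subgroup G)
    [hK : K.Normal] [hN : N.Normal] (hKN : K ≤ N) (hne : K ≠ N) :
    ∃ (L : Subgroup G) (_ : L.Normal), K ≤ L ∧ L ≤ N ∧ L ≤ zmod K ∧ p * Nat.card K ≤ Nat.card L ∧
      ∀ H : Subgroup G, H.Normal → K ≤ H → H ≤ L → H ≠ L → H = K := by
  let P : Set (Subgroup G) := {L | L.Normal ∧ K ≤ L ∧ L ≤ N ∧ L ≠ K}
  have hP : P.Nonempty := ⟨N, hN, hKN, le_rfl, hne.symm⟩
  obtain ⟨L, hL, hmin⟩ := (Set.toFinite P).exists_minimal hP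
  obtain ⟨hLn, hKL, hLN, hLK⟩ := hL
  have hmin2 : ∀ H : Subgroup G, H.Normal → K ≤ H → H ≤ L → H ≠ L → H = K := by
    intro H hH hKH hHL hHL2
    by_contra hHK
    exact hHL2 (le_antisymm hHL (hmin ⟨hH, hKH, hHL.trans hLN, hHK⟩ hHL))
  have hnle : ¬ L ≤ K := fun h => hLK (le_antisymm h hKL)
  obtain ⟨z, hz, hzK, hzc⟩ := exists_central_mod hp hG K L hnle
  refine ⟨L, hLn, hKL, hLN, ?_, ?_, hmin2⟩
  · have h1 : (L ⊓ zmod K).Normal := inferInstance
    have h2 : L ⊓ zmod K = L := by
      by_contra h3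
      have h4 := hmin2 (L ⊓ zmod K) h1 (le_inf hKL (le_zmod K)) inf_le_left h3
      apply hzK
      rw [← h4]
      exact ⟨hz, hzc⟩
    rw [← h2]
    exact inf_le_right
  · have h1 : Nat.card K ∣ Nat.card L := Subgroup.card_dvd_of_le hKL
    obtain ⟨m, hm⟩ := h1
    haveI : Fact p.Prime := ⟨hp⟩
    have h2 : m ∣ Nat.card L := ⟨Nat.card K, by rw [hm, mul_comm]⟩
    obtain ⟨k, hk⟩ := (IsPGroup.iff_card (G := L)).mp (hG.to_subgroup _)
    rw [hk] at h2
    obtain ⟨j, -, hj⟩ := (Nat.dvd_prime_pow hp).mp h2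
    have h3 : j ≠ 0 := by
      rintro rfl
      rw [pow_zero] at hj
      rw [hj, mul_one] at hm
      apply hLK
      exact (Subgroup.eq_of_le_of_card_ge hKL hm.le).symm
    rw [hm, mul_comm]
    apply Nat.mul_le_mul_left
    rw [hj]
    calc p = p ^ 1 := (pow_one p).symm
      _ ≤ p ^ j := Nat.pow_le_pow_right hp.pos (Nat.one_le_iff_ne_zero.mpr h3)

/-- normal subgroups are intersections of kernels -/
theorem exists_not_triv (K L : Subgroup G) [hK : K.Normal] [hL : L.Normal] (hKL : K ≤ L)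
    (hne : K ≠ L) : ∃ χ : G → ℂ, IsIrrChar χ ∧ Triv K χ ∧ ¬ Triv L χ := by
  by_contra hcon
  push Not at hcon
  have h1 := sum_sq_triv K
  have h2 := sum_sq_triv L
  have h3 : (Irr G).filter (Triv K) = (Irr G).filter (Triv L) := by
    apply Finset.filter_congr
    intro χ hχ
    exact ⟨fun h => hcon χ (mem_Irr.mp hχ) h, fun h n hn g => h n (hKL hn) g⟩
  rw [h3, h2] at h1
  have h4 := K.card_mul_index
  have h5 := L.card_mul_index
  rw [← h1] at h4
  have h6 : 0 < L.index := Nat.pos_of_ne_zero Subgroup.index_ne_zero_of_finite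
  have h7 : Nat.card K = Nat.card L := Nat.eq_of_mul_eq_mul_right h6 (h4.trans h5.symm)
  exact hne (Subgroup.eq_of_le_of_card_ge hKL h7.ge)

/-- the step for the centres -/
theorem card_zmod_le {K L : Subgroup G} [hK : K.Normal] [hL : L.Normal] (hKL : K ≤ L)
    (hLz : L ≤ zmod K) (hmin : ∀ H : Subgroup G, H.Normal → K ≤ H → H ≤ L → H ≠ L → H = K)
    {χ : G → ℂ} (h : IsIrrChar χ) (hK1 : Triv K χ) (hL1 : ¬ Triv L χ) :
    Nat.card (zmod L) ≤ Nat.card (zmod K) * (dg χ) ^ 2 := by
  have hχ := h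
  obtain ⟨V, _, _, _, ρ, hρ, rfl⟩ := h
  have hK2 := (triv_iff_rep ρ hρ K).mp hK1
  have hL2 : ¬ ∀ n ∈ L, ρ n = 1 := fun h => hL1 ((triv_iff_rep ρ hρ L).mpr h)
  -- the kernel on `L` is `K`
  have hker : ∀ n ∈ L, ρ n = 1 → n ∈ K := by
    have h1 : L ⊓ MonoidHom.ker ρ = K := by
      apply hmin
      · infer_instance
      · intro n hn
        exact ⟨hKL hn, hK2 n hn⟩
      · exact inf_le_left
      · intro h2
        apply hL2
        intro n hn
        rw [← h2] at hn
        exact hn.2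
    intro n hn hn2
    rw [← h1]
    exact ⟨hn, hn2⟩
  have hvan : ∀ x ∈ zmod L, x ∉ zmod K → ρ.character x = 0 := by
    intro x hx hxK
    have hxK2 : ∃ g : G, ⁅x, g⁆ ∉ K := by
      by_contra hcon
      push Not at hcon
      exact hxK hcon
    obtain ⟨g, hg⟩ := hxK2
    have hgL : ⁅x, g⁆ ∈ L := hx g
    have hgz : ⁅x, g⁆ ∈ zmod K := hLz hgL
    obtain ⟨c, hc, -, hc2⟩ := central_scalar ρ hρ ⁅x, g⁆ (by
      intro y
      rw [← map_mul, ← map_mul]
      have h2 : ⁅x, g⁆ * y = ⁅⁅x, g⁆, y⁆ * (y * ⁅x, g⁆) := by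
        rw [commutatorElement_def ⁅x, g⁆ y]
        group
      rw [h2, map_mul, hK2 _ (hgz y), one_mul])
    have hc1 : c ≠ 1 := by
      intro h1
      apply hg
      apply hker _ hgL
      rw [hc, h1, one_smul]
      rfl
    have h3 : x = ⁅x, g⁆ * (g * x * g⁻¹) := by
      rw [commutatorElement_def]
      group
    have h4 : ρ.character x = c * ρ.character x := by
      conv_lhs => rw [h3]
      rw [hc2, hχ.isClass]
    have h5 : (1 - c) * ρ.character x = 0 := by linear_combination h4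
    exact (mul_eq_zero.mp h5).resolve_left (sub_ne_zero.mpr hc1.symm)
  have hzz : zmod K ≤ zmod L := fun x hx g => hKL (hx g)
  have h1 := card_le_sum_norm hχ (zmod L)
  have h2 : ∑ x : zmod L, ‖ρ.character x‖ ^ 2 = ∑ x : zmod K, ‖ρ.character x‖ ^ 2 := by
    symm
    refine Fintype.sum_of_injective (fun x : zmod K => (⟨x.1, hzz x.2⟩ : zmod L)) ?_ _ _ ?_ ?_
    · intro a b hab
      exact Subtype.ext (congrArg (fun t : zmod L => t.1) hab)
    · intro x hx
      rw [hvan x.1 x.2, norm_zero]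
      · norm_num
      · intro h3
        exact hx ⟨⟨x.1, h3⟩, rfl⟩
    · intro x
      rfl
  rw [h2, Finset.sum_congr rfl (fun (x : zmod K) _ => by rw [norm_of_zmod hχ K hK1 x.2]),
    Finset.sum_const, nsmul_eq_mul, Finset.card_univ, ← Nat.card_eq_fintype_card] at h1
  exact_mod_cast h1

/-- the index of the centre modulo `K` -/
theorem index_zmod_le {p : ℕ} (hp : p.Prime) (hG : IsPGroup p G) (N : Subgroup G) [hN : N.Normal]
    (hNz : zmod N = ⊤) (D : ℕ) (hD : 1 ≤ D) (n : ℕ) :
    ∀ (K : Subgroup G) [K.Normal], K ≤ N → Nat.card N ≤ p ^ n * Nat.card K →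
      (∀ χ : G → ℂ, IsIrrChar χ → Triv K χ → dg χ ≤ D) → (zmod K).index ≤ (D ^ 2) ^ n := by
  induction n with
  | zero =>
    intro K _ hKN hcard _
    have h1 : K = N := Subgroup.eq_of_le_of_card_ge hKN (by simpa using hcard)
    have h2 : zmod K = ⊤ := by
      rw [eq_top_iff]
      intro x _ g
      rw [h1]
      have : x ∈ zmod N := by rw [hNz]; exact Subgroup.mem_top x
      exact this g
    rw [h2, Subgroup.index_top, pow_zero]
  | succ n ih =>
    intro K hK hKN hcard hdeg
    by_cases hne : K = N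
    · have h2 : zmod K = ⊤ := by
        rw [eq_top_iff]
        intro x _ g
        rw [hne]
        have : x ∈ zmod N := by rw [hNz]; exact Subgroup.mem_top x
        exact this g
      rw [h2, Subgroup.index_top]
      exact Nat.one_le_pow _ _ (by positivity)
    · obtain ⟨L, hL, hKL, hLN, hLz, hLc, hmin⟩ := exists_min_normal hp hG K N hKN hne
      have hKL2 : K ≠ L := by
        rintro rfl
        have h1 : 0 < Nat.card K := Nat.card_pos
        have := hp.two_le
        nlinarith
      obtain ⟨χ, hχ, hχK, hχL⟩ := exists_not_triv K L hKL hKL2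
      have h1 := ih L hLN (by
        calc Nat.card N ≤ p ^ (n + 1) * Nat.card K := hcard
          _ = p ^ n * (p * Nat.card K) := by ring
          _ ≤ p ^ n * Nat.card L := Nat.mul_le_mul_left _ hLc)
        (fun φ hφ hφL => hdeg φ hφ (fun x hx g => hφL x (hKL hx) g))
      have h2 := card_zmod_le hKL hLz hmin hχ hχK hχL
      have h3 := hdeg χ hχ hχK
      have h4 := (zmod K).card_mul_index
      have h5 := (zmod L).card_mul_index
      have h6 : 0 < Nat.card (zmod K) := Nat.card_pos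
      apply Nat.le_of_mul_le_mul_left _ h6
      calc Nat.card (zmod K) * (zmod K).index = Nat.card (zmod L) * (zmod L).index := by
            rw [h4, h5]
        _ ≤ (Nat.card (zmod K) * (dg χ) ^ 2) * (D ^ 2) ^ n := Nat.mul_le_mul h2 h1
        _ ≤ (Nat.card (zmod K) * D ^ 2) * (D ^ 2) ^ n := by
            apply Nat.mul_le_mul_right
            apply Nat.mul_le_mul_left
            exact Nat.pow_le_pow_left h3 2
        _ = Nat.card (zmod K) * (D ^ 2) ^ (n + 1) := by ring

/-- the orders of certain normal subgroups are class sizes -/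
theorem exists_class {p : ℕ} (hp : p.Prime) (hG : IsPGroup p G) (K : Subgroup G) [hK : K.Normal]
    (E : ℕ) (hE : ∀ χ : G → ℂ, IsIrrChar χ → ¬ Triv K χ → E ≤ dg χ)
    (hind : (zmod K).index * Nat.card K ≤ (p - 1) * E ^ 2) :
    ∃ x : G, (Subgroup.centralizer ({x} : Set G)).index = Nat.card K := by
  by_contra hcon
  push Not at hcon
  haveI : Fact p.Prime := ⟨hp⟩
  have hgpos : 0 < Nat.card G := Nat.card_pos
  have hipos : 0 < K.index := Nat.pos_of_ne_zero Subgroup.index_ne_zero_of_finite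
  have hkpos : 0 < Nat.card K := Nat.card_pos
  have hzpos : 0 < Nat.card (zmod K) := Nat.card_pos
  -- every element of `zmod K` has a large centralizer
  have h1 : ∀ x ∈ zmod K, (p : ℝ) * K.index ≤ Nat.card (Subgroup.centralizer ({x} : Set G)) := by
    intro x hx
    have h2 := orth2_norm x
    have h3 : (K.index : ℝ) ≤ ∑ χ ∈ Irr G, ‖χ x‖ ^ 2 := by
      rw [← sum_sq_triv K]
      push_cast
      calc ∑ χ ∈ (Irr G).filter (Triv K), (dg χ : ℝ) ^ 2 =
            ∑ χ ∈ (Irr G).filter (Triv K), ‖χ x‖ ^ 2 := by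
            refine Finset.sum_congr rfl fun χ hχ => ?_
            have h4 := Finset.mem_filter.mp hχ
            rw [norm_of_zmod (mem_Irr.mp h4.1) K h4.2 hx]
        _ ≤ _ := Finset.sum_le_sum_of_subset_of_nonneg (Finset.filter_subset _ _)
            fun _ _ _ => by positivity
    rw [h2] at h3
    have h4 : K.index ≤ Nat.card (Subgroup.centralizer ({x} : Set G)) := by exact_mod_cast h3
    have h5 := (Subgroup.centralizer ({x} : Set G)).card_mul_index
    have h6 := K.card_mul_index
    -- both are powers of `p`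
    obtain ⟨g, hg⟩ := (IsPGroup.iff_card (G := G)).mp hG
    obtain ⟨i, -, hi⟩ := (Nat.dvd_prime_pow hp).mp (hg ▸ Subgroup.index_dvd_card K)
    obtain ⟨j, hj⟩ := (IsPGroup.iff_card (G := (Subgroup.centralizer ({x} : Set G)))).mp
      (hG.to_subgroup _)
    have h7 : K.index ≠ Nat.card (Subgroup.centralizer ({x} : Set G)) := by
      intro h7
      apply hcon x
      rw [← h7, mul_comm] at h5
      exact Nat.eq_of_mul_eq_mul_right hipos (h5.trans h6.symm)
    rw [hi, hj] at h4 h7
    have h8 : i < j := by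
      rcases lt_trichotomy i j with h9 | h9 | h9
      · exact h9
      · exact absurd (by rw [h9]) h7
      · have := Nat.pow_lt_pow_right hp.one_lt h9
        omega
    have h9 : p * K.index ≤ Nat.card (Subgroup.centralizer ({x} : Set G)) := by
      rw [hi, hj]
      calc p * p ^ i = p ^ (i + 1) := by ring
        _ ≤ p ^ j := Nat.pow_le_pow_right hp.pos h8
    exact_mod_cast h9
  -- the characters that are not trivial on `K`
  set T := (Irr G).filter (fun χ => ¬ Triv K χ) with hT
  have h2 : ∀ x ∈ zmod K, ((p : ℝ) - 1) * K.index ≤ ∑ χ ∈ T, ‖χ x‖ ^ 2 := by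
    intro x hx
    have h3 := h1 x hx
    rw [← orth2_norm x, ← Finset.sum_filter_add_sum_filter_not (Irr G) (Triv K)] at h3
    have h4 : ∑ χ ∈ (Irr G).filter (Triv K), ‖χ x‖ ^ 2 = (K.index : ℝ) := by
      rw [← sum_sq_triv K]
      push_cast
      refine Finset.sum_congr rfl fun χ hχ => ?_
      have h4 := Finset.mem_filter.mp hχ
      rw [norm_of_zmod (mem_Irr.mp h4.1) K h4.2 hx]
    rw [h4] at h3
    rw [hT]
    linarith
  have h3 : (Nat.card (zmod K) : ℝ) * (((p : ℝ) - 1) * K.index) ≤ (T.card : ℝ) * Nat.card G := by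
    calc (Nat.card (zmod K) : ℝ) * (((p : ℝ) - 1) * K.index)
          = ∑ x : zmod K, (((p : ℝ) - 1) * K.index) := by
          rw [Finset.sum_const, nsmul_eq_mul, Finset.card_univ, ← Nat.card_eq_fintype_card]
      _ ≤ ∑ x : zmod K, ∑ χ ∈ T, ‖χ x‖ ^ 2 := Finset.sum_le_sum fun x _ => h2 x x.2
      _ = ∑ χ ∈ T, ∑ x : zmod K, ‖χ x‖ ^ 2 := Finset.sum_comm
      _ ≤ ∑ χ ∈ T, (Nat.card G : ℝ) := by
          refine Finset.sum_le_sum fun χ hχ => ?_
          rw [← orth1_norm (mem_Irr.mp (Finset.mem_filter.mp hχ).1)]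
          have h4 : ∑ x : zmod K, ‖χ x‖ ^ 2 = ∑ x ∈ Finset.univ.filter (fun x => x ∈ zmod K), ‖χ x‖ ^ 2 := by
            symm
            refine Finset.sum_subtype _ (fun g => ?_) (fun g => ‖χ g‖ ^ 2)
            simp
          rw [h4]
          exact Finset.sum_le_sum_of_subset_of_nonneg (Finset.filter_subset _ _)
            fun _ _ _ => by positivity
      _ = (T.card : ℝ) * Nat.card G := by rw [Finset.sum_const, nsmul_eq_mul]
  have h4 : T.card * E ^ 2 + K.index ≤ Nat.card G := by
    rw [← sum_sq, ← Finset.sum_filter_add_sum_filter_not (Irr G) (Triv K), sum_sq_triv K, add_comm]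
    apply Nat.add_le_add_left
    rw [← smul_eq_mul, ← Finset.sum_const]
    apply Finset.sum_le_sum
    intro χ hχ
    have h5 := Finset.mem_filter.mp hχ
    exact Nat.pow_le_pow_left (hE χ (mem_Irr.mp h5.1) h5.2) 2
  have h5 : Nat.card (zmod K) * ((p - 1) * K.index) ≤ T.card * Nat.card G := by
    have h6 : ((p - 1 : ℕ) : ℝ) = (p : ℝ) - 1 := by
      rw [Nat.cast_sub hp.one_le]
      simp
    have h7 : ((Nat.card (zmod K) * ((p - 1) * K.index) : ℕ) : ℝ) ≤ ((T.card * Nat.card G : ℕ) : ℝ) := by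
      push_cast
      rw [h6]
      exact h3
    exact_mod_cast h7
  have h6 := K.card_mul_index
  have h7 := (zmod K).card_mul_index
  -- combine
  have h8 : Nat.card (zmod K) * ((p - 1) * K.index) * E ^ 2 < Nat.card G * Nat.card G := by
    calc Nat.card (zmod K) * ((p - 1) * K.index) * E ^ 2 ≤ T.card * Nat.card G * E ^ 2 :=
          Nat.mul_le_mul_right _ h5
      _ = (T.card * E ^ 2) * Nat.card G := by ring
      _ < Nat.card G * Nat.card G := by
          apply Nat.mul_lt_mul_of_pos_right _ hgpos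
          omega
  have h9 : Nat.card G * Nat.card G ≤ Nat.card (zmod K) * ((p - 1) * K.index) * E ^ 2 := by
    calc Nat.card G * Nat.card G = (Nat.card (zmod K) * (zmod K).index) * (Nat.card K * K.index) := by
          rw [h6, h7]
      _ = (Nat.card (zmod K) * K.index) * ((zmod K).index * Nat.card K) := by ring
      _ ≤ (Nat.card (zmod K) * K.index) * ((p - 1) * E ^ 2) := Nat.mul_le_mul_left _ hind
      _ = _ := by ring
  omega

end Run7.h528
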