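import Mathlib
import Pool.Agent.Run7.h528.Chain

/-!
# Counting the degrees of the characters between two normal subgroups
-/

set_option autoImplicit false
set_option linter.unusedSectionVars false
set_option linter.style.haveILetI false

open scoped BigOperators Classical ComplexConjugate commutatorElement
open Pool.Agent.Helper884.IC

noncomputable section

namespace Run7.h528

/-- an orthogonal family of functions -/
theorem card_le_of_orthogonal {T ι : Type} [Fintype T] [Fintype ι] (F : ι → T → ℂ)
    (hF : ∀ i, F i ≠ 0) (horth : ∀ i j, i ≠ j → ∑ t, F i t * conj (F j t) = 0) :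
    Fintype.card ι ≤ Fintype.card T := by
  have hself : ∀ i, ∑ t, F i t * conj (F i t) ≠ 0 := by
    intro i h0
    apply hF i
    have h1 : ∀ t, F i t * conj (F i t) = ((Complex.normSq (F i t) : ℝ) : ℂ) := fun t =>
      Complex.mul_conj _
    rw [Finset.sum_congr rfl (fun t _ => h1 t)] at h0
    have h2 : ∑ t, Complex.normSq (F i t) = 0 := by exact_mod_cast h0
    funext t
    have h3 := (Finset.sum_eq_zero_iff_of_nonneg (fun t _ => Complex.normSq_nonneg _)).mp h2 t
      (Finset.mem_univ t)
    exact Complex.normSq_eq_zero.mp h3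
  have hli : LinearIndependent ℂ F := by
    rw [linearIndependent_iff']
    intro s c hc i hi
    have h1 : ∑ t, (∑ j ∈ s, c j * F j t) * conj (F i t) = 0 := by
      apply Finset.sum_eq_zero
      intro t _
      have h2 := congrFun hc t
      simp only [Finset.sum_apply, Pi.smul_apply, smul_eq_mul, Pi.zero_apply] at h2
      rw [h2, zero_mul]
    simp only [Finset.sum_mul] at h1
    rw [Finset.sum_comm] at h1
    have h2 : ∀ j ∈ s, ∑ t, c j * F j t * conj (F i t) = c j * ∑ t, F j t * conj (F i t) := by
      intro j _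
      rw [Finset.mul_sum]
      exact Finset.sum_congr rfl fun t _ => by ring
    rw [Finset.sum_congr rfl h2, Finset.sum_eq_single i] at h1
    · exact (mul_eq_zero.mp h1).resolve_right (hself i)
    · intro j _ hji
      rw [horth j i hji, mul_zero]
    · intro h
      exact absurd hi h
  have h2 := hli.fintype_card_le_finrank
  rwa [Module.finrank_fintype_fun_eq_card] at h2

/-- sums of invariant functions -/
theorem sum_quot {N : Type} [Group N] [Fintype N] (K : Subgroup N) (f : N → ℂ)
    (hf : ∀ n, ∀ k ∈ K, f (n * k) = f n) :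
    ∑ n : N, f n = (Nat.card K : ℂ) * ∑ t : N ⧸ K, f t.out := by
  let e : (N ⧸ K) × K ≃ N :=
    { toFun := fun x => x.1.out * x.2
      invFun := fun n => (QuotientGroup.mk n, ⟨(QuotientGroup.mk n : N ⧸ K).out⁻¹ * n, by
        rw [← QuotientGroup.eq, QuotientGroup.out_eq']⟩)
      left_inv := by
        rintro ⟨t, k⟩
        have h1 : (QuotientGroup.mk (t.out * (k : N)) : N ⧸ K) = t := by
          rw [QuotientGroup.mk_mul_of_mem _ k.2, QuotientGroup.out_eq']
        apply Prod.ext
        · exact h1
        · apply Subtype.ext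
          change (QuotientGroup.mk (t.out * (k : N)) : N ⧸ K).out⁻¹ * (t.out * k) = k
          rw [h1, inv_mul_cancel_left]
      right_inv := by
        intro n
        exact mul_inv_cancel_left _ _ }
  rw [← Fintype.sum_equiv e (fun x => f x.1.out) f (fun x => (hf _ _ x.2.2).symm),
    Fintype.sum_prod_type]
  simp only [Finset.sum_const, Finset.card_univ, nsmul_eq_mul]
  rw [← Finset.mul_sum, Nat.card_eq_fintype_card]

variable {G : Type} [Group G] [Fintype G]

/-- The number of the degrees of the characters that are trivial on `K` but not on `L`. -/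
theorem count_level {p : ℕ} (hp : p.Prime) (hG : IsPGroup p G) (K L : Subgroup G) [hK : K.Normal]
    [hL : L.Normal] (hKL : K ≤ L) (hLN : L ≤ commutator G) (D : Finset ℕ)
    (hD : ∀ d ∈ D, ∃ χ : G → ℂ, IsIrrChar χ ∧ dg χ = d ∧ Triv K χ ∧ ¬ Triv L χ) :
    (p - 1) * D.card + L.relIndex (commutator G) ≤ K.relIndex (commutator G) := by
  choose! χ₀ hχ₀ using hD
  let χ : D → G → ℂ := fun d => χ₀ d.1
  have hχ : ∀ d, IsIrrChar (χ d) := fun d => (hχ₀ d.1 d.2).1
  have hχd : ∀ d, dg (χ d) = d.1 := fun d => (hχ₀ d.1 d.2).2.1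
  have hχK : ∀ d, Triv K (χ d) := fun d => (hχ₀ d.1 d.2).2.2.1
  have hχL : ∀ d, ¬ Triv L (χ d) := fun d => (hχ₀ d.1 d.2).2.2.2
  have hD1 : ∀ d ∈ D, d ≠ 1 := by
    intro d hd h1
    apply hχL ⟨d, hd⟩
    have h2 : Triv (commutator G) (χ ⟨d, hd⟩) := by
      rw [triv_comm_iff (hχ _), hχd]
      exact h1
    intro n hn g
    exact h2 n (hLN hn) g
  obtain ⟨F, hFσ, hF, hFd, horth⟩ := galois_family hp hG D χ hχ hχd hD1
  have hFK : ∀ x, Triv K (F x) := by
    intro x n hn g
    obtain ⟨σ, hσ⟩ := hFσ x
    rw [hσ]
    change σ (χ x.1 (n * g)) = σ (χ x.1 g)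
    rw [hχK x.1 n hn g]
  have hFL : ∀ x, ¬ Triv L (F x) := by
    intro x h
    apply hχL x.1
    intro n hn g
    obtain ⟨σ, hσ⟩ := hFσ x
    have h1 := h n hn g
    rw [hσ] at h1
    exact σ.injective h1
  have hFsum : ∀ x g, ∑ n : L, F x (n * g) = 0 := fun x =>
    (triv_or (hF x) L).resolve_left (hFL x)
  let N := commutator G
  let K' := K.subgroupOf N
  let L' := L.subgroupOf N
  -- the family of functions on `N`
  let H : (D × Fin (p - 1)) ⊕ (N ⧸ L') → N → ℂ := fun i =>
    match i with
    | Sum.inl x => fun n => F x n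
    | Sum.inr q => fun n => if (QuotientGroup.mk n : N ⧸ L') = q then 1 else 0
  have hHK : ∀ i n, ∀ k ∈ K', H i (n * k) = H i n := by
    intro i n k hk
    match i with
    | Sum.inl x =>
      change F x ((n : G) * (k : G)) = F x n
      have h1 : (n : G) * (k : G) = (n * k * (n : G)⁻¹) * n := by group
      rw [h1]
      exact hFK x _ (hK.conj_mem _ hk _) _
    | Sum.inr q =>
      change (if (QuotientGroup.mk (n * k) : N ⧸ L') = q then (1 : ℂ) else 0) =
        if (QuotientGroup.mk n : N ⧸ L') = q then 1 else 0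
      rw [QuotientGroup.mk_mul_of_mem]
      exact hKL hk
  have hconj : ∀ x (n : N), conj (H (Sum.inl x) n) = F x (n : G)⁻¹ := fun x n =>
    (char_conj_inv (hF x) n).symm
  -- the sum over a coset of `L`
  have hcoset : ∀ x q, ∑ n : N, H (Sum.inl x) n * H (Sum.inr q) n = 0 := by
    intro x q
    have h1 : ∑ n : N, H (Sum.inl x) n * H (Sum.inr q) n =
        ∑ n : N, F x (q.out * n) * (if n ∈ L' then 1 else 0) := by
      refine (Fintype.sum_equiv (Equiv.mulLeft q.out) _ _ fun n => ?_).symm
      change F x ((q.out : G) * (n : G)) * (if n ∈ L' then 1 else 0) =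
        F x (((q.out * n : N) : G)) * (if (QuotientGroup.mk (q.out * n) : N ⧸ L') = q then 1 else 0)
      have h2 : (QuotientGroup.mk (q.out * n) : N ⧸ L') = q ↔ n ∈ L' := by
        conv_lhs => rw [← QuotientGroup.out_eq' q, eq_comm, QuotientGroup.out_eq' q]
        conv_lhs => lhs; rw [← QuotientGroup.out_eq' q]
        rw [QuotientGroup.eq, inv_mul_cancel_left]
      rw [if_congr h2 rfl rfl]
      rfl
    rw [h1]
    simp only [mul_ite, mul_one, mul_zero]
    rw [← Finset.sum_filter]
    have h2 : ∑ n ∈ Finset.univ.filter (fun n : N => n ∈ L'), F x ((q.out : G) * (n : G)) =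
        ∑ n : L', F x ((q.out : G) * (n : N)) := by
      refine Finset.sum_subtype _ (fun g => ?_) (fun n : N => F x ((q.out : G) * (n : G)))
      simp
    rw [h2, ← hFsum x (q.out : G)]
    refine Fintype.sum_equiv (Subgroup.subgroupOfEquivOfLe hLN).toEquiv _ _ fun n => ?_
    have h3 := (hF x).isClass (((n : N) : G) * (q.out : G)) (q.out : G)
    have h4 : (q.out : G) * (((n : N) : G) * (q.out : G)) * (q.out : G)⁻¹ = (q.out : G) * ((n : N) : G) := by
      group
    rw [h4] at h3
    rw [h3]
    rfl
  have hreal : ∀ q (n : N), conj (H (Sum.inr q) n) = H (Sum.inr q) n := by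
    intro q n
    change conj (if (QuotientGroup.mk n : N ⧸ L') = q then (1 : ℂ) else 0) =
      if (QuotientGroup.mk n : N ⧸ L') = q then 1 else 0
    split_ifs <;> simp
  have hHorth : ∀ i j, i ≠ j → ∑ n : N, H i n * conj (H j n) = 0 := by
    intro i j hij
    match i, j with
    | Sum.inl x, Sum.inl y =>
      simp only [hconj]
      exact horth x y (fun h => hij (by rw [h]))
    | Sum.inl x, Sum.inr q =>
      simp only [hreal]
      exact hcoset x q
    | Sum.inr q, Sum.inl x =>
      have h1 := congrArg conj (hcoset x q)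
      rw [map_sum, map_zero] at h1
      rw [← h1]
      refine Finset.sum_congr rfl fun n _ => ?_
      rw [map_mul, hreal, mul_comm]
    | Sum.inr q, Sum.inr q' =>
      apply Finset.sum_eq_zero
      intro n _
      rw [hreal]
      change (if (QuotientGroup.mk n : N ⧸ L') = q then (1 : ℂ) else 0) *
        (if (QuotientGroup.mk n : N ⧸ L') = q' then 1 else 0) = 0
      by_cases h1 : (QuotientGroup.mk n : N ⧸ L') = q
      · by_cases h2 : (QuotientGroup.mk n : N ⧸ L') = q'
        · exact absurd (congrArg Sum.inr (h1.symm.trans h2)) hij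
        · rw [if_neg h2, mul_zero]
      · rw [if_neg h1, zero_mul]
  -- descend to the quotient
  let H' : (D × Fin (p - 1)) ⊕ (N ⧸ L') → (N ⧸ K') → ℂ := fun i t => H i t.out
  have hK'0 : (Nat.card K' : ℂ) ≠ 0 := by exact_mod_cast Nat.card_pos.ne'
  have hout : ∀ i (n : N), H i (QuotientGroup.mk n : N ⧸ K').out = H i n := by
    intro i n
    have h1 : (QuotientGroup.mk n : N ⧸ K').out⁻¹ * n ∈ K' := by
      rw [← QuotientGroup.eq, QuotientGroup.out_eq']
    have h2 := hHK i (QuotientGroup.mk n : N ⧸ K').out _ h1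
    rw [mul_inv_cancel_left] at h2
    exact h2.symm
  have hfin := card_le_of_orthogonal H' (by
    intro i h0
    have h1 : ∀ n : N, H i n = 0 := by
      intro n
      rw [← hout]
      exact congrFun h0 _
    match i with
    | Sum.inl x =>
      have h2 : F x 1 = 0 := h1 1
      rw [dg_spec (hF x)] at h2
      have := dg_pos (hF x)
      have h3 : dg (F x) = 0 := by exact_mod_cast h2
      omega
    | Sum.inr q =>
      have h2 := h1 q.out
      change (if (QuotientGroup.mk q.out : N ⧸ L') = q then (1 : ℂ) else 0) = 0 at h2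
      rw [if_pos (QuotientGroup.out_eq' q)] at h2
      exact one_ne_zero h2) (by
    intro i j hij
    have h1 := hHorth i j hij
    rw [sum_quot K' (fun n => H i n * conj (H j n)) (fun n k hk => by
      simp only [hHK i n k hk, hHK j n k hk])] at h1
    exact (mul_eq_zero.mp h1).resolve_left hK'0)
  rw [Fintype.card_sum, Fintype.card_prod, Fintype.card_fin, Fintype.card_coe,
    ← Nat.card_eq_fintype_card (α := N ⧸ L'), ← Nat.card_eq_fintype_card (α := N ⧸ K')] at hfin
  rw [mul_comm]
  exact hfin

end Run7.h528
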