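import Mathlib
import Pool.Agent.Run7.h528.Level

/-!
# The necessary condition for degrees in clusters
-/

set_option autoImplicit false
set_option linter.unusedSectionVars false
set_option linter.style.haveILetI false

open scoped BigOperators Classical ComplexConjugate commutatorElement
open Pool.Agent.Helper884.IC

noncomputable section

namespace Run7.h528

variable {G : Type} [Group G] [Fintype G]

theorem zmod_comm : zmod (commutator G) = ⊤ := by
  rw [eq_top_iff]
  intro x _ g
  exact Subgroup.commutator_mem_commutator (Subgroup.mem_top _) (Subgroup.mem_top _)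

/-- class sizes are bounded by the order of the commutator subgroup -/
theorem index_centralizer_le (x : G) :
    (Subgroup.centralizer ({x} : Set G)).index ≤ Nat.card (commutator G) := by
  have h2 := orth2_norm x
  have h3 : ((commutator G).index : ℝ) ≤ ∑ χ ∈ Irr G, ‖χ x‖ ^ 2 := by
    rw [← sum_sq_triv (commutator G)]
    push_cast
    calc ∑ χ ∈ (Irr G).filter (Triv (commutator G)), (dg χ : ℝ) ^ 2 =
          ∑ χ ∈ (Irr G).filter (Triv (commutator G)), ‖χ x‖ ^ 2 := by
          refine Finset.sum_congr rfl fun χ hχ => ?_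
          have h4 := Finset.mem_filter.mp hχ
          rw [norm_of_zmod (mem_Irr.mp h4.1) (commutator G) h4.2 (by rw [zmod_comm]; trivial)]
      _ ≤ _ := Finset.sum_le_sum_of_subset_of_nonneg (Finset.filter_subset _ _)
          fun _ _ _ => by positivity
  rw [h2] at h3
  have h4 : (commutator G).index ≤ Nat.card (Subgroup.centralizer ({x} : Set G)) := by
    exact_mod_cast h3
  have h5 := (Subgroup.centralizer ({x} : Set G)).card_mul_index
  have h6 := (commutator G).card_mul_index
  have h7 : 0 < (commutator G).index := Nat.pos_of_ne_zero Subgroup.index_ne_zero_of_finite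
  by_contra h8
  push Not at h8
  have h9 : Nat.card G < Nat.card G := by
    calc Nat.card G = Nat.card (commutator G) * (commutator G).index := h6.symm
      _ < (Subgroup.centralizer ({x} : Set G)).index * (commutator G).index :=
          Nat.mul_lt_mul_of_pos_right h8 h7
      _ ≤ (Subgroup.centralizer ({x} : Set G)).index *
            Nat.card (Subgroup.centralizer ({x} : Set G)) := Nat.mul_le_mul_left _ h4
      _ = Nat.card G := by rw [mul_comm]; exact h5
  omega

theorem KD_anti {D D' : ℕ} (h : D ≤ D') : KD G D' ≤ KD G D :=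
  fun _ hx χ hχ hd g => hx χ hχ (hd.trans h) g

theorem eq_of_triv {K L : Subgroup G} [K.Normal] [L.Normal] (hKL : K ≤ L)
    (h : ∀ χ : G → ℂ, IsIrrChar χ → Triv K χ → Triv L χ) : K = L := by
  by_contra hne
  obtain ⟨χ, hχ, h1, h2⟩ := exists_not_triv K L hKL hne
  exact h2 (h χ hχ h1)

theorem KD_one : KD G 1 = commutator G := by
  symm
  apply eq_of_triv
  · intro x hx χ hχ hd g
    have h1 : dg χ = 1 := le_antisymm hd (dg_pos hχ)
    exact (triv_comm_iff hχ).mpr h1 x hx g
  · intro χ hχ h1 x hx g
    rw [triv_comm_iff hχ] at h1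
    exact hx χ hχ h1.le g

end Run7.h528

namespace Run7.h528

/-- the necessary condition -/
theorem nec_chain {p : ℕ} [Fact p.Prime] {b : ℕ} (hb : 2 ≤ b) {β : Finset ℕ}
    (hβ : ∀ x ∈ β, x ≤ b) (hbβ : b ∈ β) {k : ℕ} (C : Fin (k + 1) → Finset ℕ) (M : Fin (k + 1) → ℕ)
    (hM : ∀ i, M i ∈ C i) (hCM : ∀ i, ∀ x ∈ C i, x ≤ M i) (hlow : ∀ i, ∀ x ∈ C i, b + 1 ≤ 2 * x)
    (hgap : ∀ i j, i < j → ∀ x ∈ C j, b * M i < x)
    (h : Realizable p (insert 0 (Finset.univ.biUnion C)) β) :
    ∃ κ : Fin (k + 2) → ℕ, κ 0 = b ∧ κ (Fin.last _) = 0 ∧ StrictAnti κ ∧ (∀ i, κ i ∈ β) ∧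
      ∀ i : Fin (k + 1), (p - 1) * (C i).card + p ^ (b - κ i.castSucc) ≤ p ^ (b - κ i.succ) := by
  have hp : p.Prime := Fact.out
  obtain ⟨P, _, _, hP, hcd, hcs⟩ := h
  haveI : Fintype P := Fintype.ofFinite P
  have hpp := hp.pos
  -- degrees
  have hdeg : ∀ χ : P → ℂ, IsIrrChar χ → dg χ = 1 ∨ ∃ i, ∃ x ∈ C i, dg χ = p ^ x := by
    intro χ hχ
    have h2 : dg χ ∈ cd P := (mem_cd_iff _).mpr ⟨χ, mem_Irr.mpr hχ, rfl⟩
    rw [hcd] at h2
    obtain ⟨c, hc, hc2⟩ := h2
    have hc3 : p ^ c = dg χ := hc2
    rw [Finset.mem_coe, Finset.mem_insert, Finset.mem_biUnion] at hc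
    rcases hc with rfl | ⟨i, -, hi⟩
    · left
      rw [← hc3, pow_zero]
    · right
      exact ⟨i, c, hi, hc3.symm⟩
  have hex : ∀ i, ∀ x ∈ C i, ∃ χ : P → ℂ, IsIrrChar χ ∧ dg χ = p ^ x := by
    intro i x hx
    have h2 : p ^ x ∈ cd P := by
      rw [hcd]
      refine ⟨x, ?_, rfl⟩
      rw [Finset.mem_coe, Finset.mem_insert, Finset.mem_biUnion]
      exact Or.inr ⟨i, Finset.mem_univ _, hx⟩
    obtain ⟨χ, hχ, hd⟩ := (mem_cd_iff _).mp h2
    exact ⟨χ, mem_Irr.mp hχ, hd⟩
  have hM1 : ∀ i, 1 ≤ M i := by
    intro i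
    have := hlow i _ (hM i)
    omega
  have hMmono : ∀ i j, i ≤ j → M i ≤ M j := by
    intro i j hij
    rcases hij.lt_or_eq with h1 | rfl
    · have h2 := hgap i j h1 _ (hM j)
      nlinarith
    · exact le_rfl
  have hclass : ∀ x : P, ∃ c ∈ β, (Subgroup.centralizer ({x} : Set P)).index = p ^ c := by
    intro x
    have h2 : (Subgroup.centralizer ({x} : Set P)).index ∈ cs P := ⟨x, rfl⟩
    rw [hcs] at h2
    obtain ⟨c, hc, hc2⟩ := h2
    exact ⟨c, hc, hc2.symm⟩
  -- the commutator subgroup
  have hN : Nat.card (commutator P) ≤ p ^ b := by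
    apply comm_le hp hP b
    · intro x
      obtain ⟨c, hc, hc2⟩ := hclass x
      rw [hc2]
      exact Nat.pow_le_pow_right hp.pos (hβ c hc)
    · intro χ hχ hd
      rcases hdeg χ hχ with h1 | ⟨i, x, hx, h1⟩
      · exact absurd h1 hd
      · rw [h1, ← pow_mul]
        apply Nat.pow_le_pow_right hp.pos
        have := hlow i x hx
        omega
  -- the thresholds
  let D : Fin (k + 2) → ℕ := Fin.cons 1 (fun i => p ^ M i)
  have hD0 : D 0 = 1 := rfl
  have hDs : ∀ i : Fin (k + 1), D i.succ = p ^ M i := fun i => rfl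
  have hD1 : ∀ i, 1 ≤ D i := by
    intro i
    refine Fin.cases ?_ (fun j => ?_) i
    · rw [hD0]
    · rw [hDs]
      exact Nat.one_le_pow _ _ hp.pos
  have hDlt : ∀ i : Fin (k + 1), ∀ x ∈ C i, D i.castSucc < p ^ x := by
    intro i
    refine Fin.cases ?_ (fun j => ?_) i
    · intro x hx
      rw [Fin.castSucc_zero, hD0]
      apply Nat.one_lt_pow _ hp.one_lt
      have := hlow _ x hx
      omega
    · intro x hx
      rw [← Fin.succ_castSucc, hDs]
      apply Nat.pow_lt_pow_right hp.one_lt
      have h1 := hgap j.castSucc j.succ (Fin.castSucc_lt_succ) x hx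
      nlinarith
  have hDmono : Monotone D := by
    rw [Fin.monotone_iff_le_succ]
    intro i
    have h1 := hDlt i _ (hM i)
    rw [hDs]
    exact h1.le
  have hDgap : ∀ i, ∀ χ : P → ℂ, IsIrrChar χ → dg χ ≤ D i ∨ D i * D i < dg χ := by
    intro i
    refine Fin.cases ?_ (fun j => ?_) i
    · intro χ hχ
      rw [hD0]
      omega
    · intro χ hχ
      rw [hDs]
      rcases hdeg χ hχ with h1 | ⟨i, x, hx, h1⟩
      · left
        rw [h1]
        exact Nat.one_le_pow _ _ hp.pos
      · rw [h1]
        rcases le_or_gt i j with h2 | h2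
        · left
          exact Nat.pow_le_pow_right hp.pos ((hCM i x hx).trans (hMmono i j h2))
        · right
          rw [← pow_add]
          apply Nat.pow_lt_pow_right hp.one_lt
          have h3 := hgap j i h2 x hx
          nlinarith
  let K : Fin (k + 2) → Subgroup P := fun i => KD P (D i)
  have hKn : ∀ i, (K i).Normal := fun i => KD_normal _
  have hK0 : K 0 = commutator P := by
    change KD P (D 0) = _
    rw [hD0]
    exact KD_one
  have hKtriv : ∀ i, ∀ χ : P → ℂ, IsIrrChar χ → (Triv (K i) χ ↔ dg χ ≤ D i) := fun i χ hχ =>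
    triv_KD_iff (hD1 i) (hDgap i) hχ
  have hKanti : Antitone K := fun i j hij => KD_anti (hDmono hij)
  have hKle : ∀ i, K i ≤ commutator P := by
    intro i
    rw [← hK0]
    exact hKanti (Fin.zero_le i)
  have hKlast : K (Fin.last _) = ⊥ := by
    symm
    apply eq_of_triv bot_le
    intro χ hχ _
    rw [hKtriv _ χ hχ, ← Fin.succ_last, hDs]
    rcases hdeg χ hχ with h1 | ⟨i, x, hx, h1⟩
    · rw [h1]
      exact Nat.one_le_pow _ _ hp.pos
    · rw [h1]
      exact Nat.pow_le_pow_right hp.pos ((hCM i x hx).trans (hMmono i _ (Fin.le_last i)))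
  have hcard : ∀ i, ∃ c, Nat.card (K i) = p ^ c := fun i =>
    (IsPGroup.iff_card (G := K i)).mp (hP.to_subgroup _)
  choose κ hκ using hcard
  have hκ0b : κ 0 ≤ b := by
    have h1 := hκ 0
    rw [hK0] at h1
    rw [h1] at hN
    exact (Nat.pow_le_pow_iff_right hp.one_lt).mp hN
  have hstrict : StrictAnti κ := by
    rw [Fin.strictAnti_iff_succ_lt]
    intro i
    obtain ⟨χ, hχ, hχd⟩ := hex i _ (hM i)
    have h1 : K i.succ ≤ K i.castSucc := hKanti (Fin.castSucc_lt_succ).le
    have h2 : K i.succ ≠ K i.castSucc := by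
      intro h2
      have h3 : Triv (K i.succ) χ := by
        rw [hKtriv _ χ hχ, hDs, hχd]
      rw [h2, hKtriv _ χ hχ, hχd] at h3
      have := hDlt i _ (hM i)
      omega
    have h3 : Nat.card (K i.succ) < Nat.card (K i.castSucc) := by
      rcases (Nat.le_of_dvd Nat.card_pos (Subgroup.card_dvd_of_le h1)).lt_or_eq with h4 | h4
      · exact h4
      · exact absurd (Subgroup.eq_of_le_of_card_ge h1 h4.ge) h2
    rw [hκ, hκ] at h3
    exact (Nat.pow_lt_pow_iff_right hp.one_lt).mp h3
  have hκlast : κ (Fin.last _) = 0 := by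
    have h1 := hκ (Fin.last _)
    rw [hKlast, Subgroup.card_bot] at h1
    have h2 : p ^ 0 = p ^ κ (Fin.last (k + 1)) := by rw [pow_zero, ← h1]
    exact (Nat.pow_right_injective hp.two_le h2).symm
  have hκ0 : κ 0 = b := by
    apply le_antisymm hκ0b
    have h2 : p ^ b ∈ cs P := by
      rw [hcs]
      exact ⟨b, hbβ, rfl⟩
    obtain ⟨x, hx⟩ := h2
    have h3 := index_centralizer_le x
    rw [hx] at h3
    have h1 := hκ 0
    rw [hK0] at h1
    rw [h1] at h3
    exact (Nat.pow_le_pow_iff_right hp.one_lt).mp h3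
  -- class sizes
  have hp1 : 1 ≤ p - 1 := by
    have := hp.two_le
    omega
  have hκβ : ∀ i, κ i ∈ β := by
    intro i
    have h1 : ∃ x : P, (Subgroup.centralizer ({x} : Set P)).index = Nat.card (K i) := by
      refine Fin.cases ?_ (fun j => ?_) i
      · -- the commutator subgroup
        apply exists_class hp hP (K 0) (p ^ ((b + 2) / 2))
        · intro χ hχ ht
          rcases hdeg χ hχ with h1 | ⟨i, x, hx, h1⟩
          · exfalso
            apply ht
            rw [hKtriv _ χ hχ, hD0, h1]
          · rw [h1]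
            apply Nat.pow_le_pow_right hp.pos
            have := hlow i x hx
            omega
        · have h1 : (zmod (K 0)).index = 1 := by
            rw [Subgroup.index_eq_one]
            have h2 : ∀ L : Subgroup P, ∀ hL : L.Normal, L = commutator P → zmod L = ⊤ := by
              rintro L hL rfl
              exact zmod_comm
            exact h2 _ _ hK0
          rw [h1, one_mul, hκ, ← pow_mul]
          calc p ^ κ 0 ≤ p ^ ((b + 2) / 2 * 2) := by
                apply Nat.pow_le_pow_right hp.pos
                omega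
            _ = 1 * p ^ ((b + 2) / 2 * 2) := (one_mul _).symm
            _ ≤ (p - 1) * p ^ ((b + 2) / 2 * 2) := Nat.mul_le_mul_right _ hp1
      · by_cases hj : κ j.succ = 0
        · refine ⟨1, ?_⟩
          rw [hκ, hj, pow_zero, Subgroup.index_eq_one, eq_top_iff]
          intro y _
          rw [Subgroup.mem_centralizer_singleton_iff]
          simp
        · apply exists_class hp hP (K j.succ) (p ^ (b * M j + 1))
          · intro χ hχ ht
            rw [hKtriv _ χ hχ, hDs] at ht
            rcases hdeg χ hχ with h1 | ⟨i, x, hx, h1⟩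
            · exfalso
              apply ht
              rw [h1]
              exact Nat.one_le_pow _ _ hp.pos
            · rw [h1] at ht ⊢
              apply Nat.pow_le_pow_right hp.pos
              have h2 : j < i := by
                by_contra h2
                push Not at h2
                apply ht
                exact Nat.pow_le_pow_right hp.pos ((hCM i x hx).trans (hMmono i j h2))
              have h3 := hgap j i h2 x hx
              omega
          · have hn : κ j.succ ≤ b := by
              have h2 : κ j.succ < κ 0 := hstrict (Fin.succ_pos j)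
              omega
            have h1 := index_zmod_le hp hP (commutator P) zmod_comm (p ^ M j)
              (Nat.one_le_pow _ _ hp.pos) (b - κ j.succ) (K j.succ) (hKle _) (by
                have h2 := hκ 0
                rw [hK0] at h2
                rw [h2, hκ, ← pow_add, hκ0, Nat.sub_add_cancel hn]) (by
                intro χ hχ ht
                rw [hKtriv _ χ hχ, hDs] at ht
                exact ht)
            rw [hκ]
            calc (zmod (K j.succ)).index * p ^ κ j.succ ≤
                  ((p ^ M j) ^ 2) ^ (b - κ j.succ) * p ^ κ j.succ := Nat.mul_le_mul_right _ h1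
              _ = p ^ (M j * 2 * (b - κ j.succ) + κ j.succ) := by
                  rw [← pow_mul, ← pow_mul, ← pow_add, mul_assoc]
              _ ≤ p ^ ((b * M j + 1) * 2) := by
                  apply Nat.pow_le_pow_right hp.pos
                  obtain ⟨c, hc⟩ := Nat.exists_eq_add_of_le hn
                  have h3 : b - κ j.succ = c := by omega
                  rw [h3, hc]
                  have h4 := hM1 j
                  nlinarith
              _ = 1 * (p ^ (b * M j + 1)) ^ 2 := by rw [one_mul, ← pow_mul]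
              _ ≤ (p - 1) * (p ^ (b * M j + 1)) ^ 2 := Nat.mul_le_mul_right _ hp1
    obtain ⟨x, hx⟩ := h1
    obtain ⟨c, hc, hc2⟩ := hclass x
    rw [hc2, hκ] at hx
    rwa [← Nat.pow_right_injective hp.two_le hx]
  refine ⟨κ, hκ0, hκlast, hstrict, hκβ, ?_⟩
  intro i
  have h1 := count_level hp hP (K i.succ) (K i.castSucc) (hKanti (Fin.castSucc_lt_succ).le)
    (hKle _) ((C i).image (fun x => p ^ x)) (by
      intro d hd
      obtain ⟨x, hx, rfl⟩ := Finset.mem_image.mp hd
      obtain ⟨χ, hχ, hχd⟩ := hex i x hx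
      refine ⟨χ, hχ, hχd, ?_, ?_⟩
      · rw [hKtriv _ χ hχ, hDs, hχd]
        exact Nat.pow_le_pow_right hp.pos (hCM i x hx)
      · rw [hKtriv _ χ hχ, hχd]
        have := hDlt i x hx
        omega)
  rw [Finset.card_image_of_injective _ (Nat.pow_right_injective hp.two_le)] at h1
  have hrel : ∀ i, (K i).relIndex (commutator P) = p ^ (b - κ i) := by
    intro i
    have h2 : (K i).relIndex (commutator P) * Nat.card (K i) = Nat.card (commutator P) := by
      have h5 := Subgroup.relIndex_mul_index (hKle i)
      have h6 := (K i).card_mul_index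
      have h7 := (commutator P).card_mul_index
      have h8 : 0 < (commutator P).index := Nat.pos_of_ne_zero Subgroup.index_ne_zero_of_finite
      apply Nat.eq_of_mul_eq_mul_right h8
      rw [h7, ← h6, ← h5]
      ring
    have h3 := hκ 0
    rw [hK0] at h3
    have h4 : κ i ≤ b := by
      rw [← hκ0]
      exact hstrict.antitone (Fin.zero_le i)
    rw [hκ, h3, hκ0] at h2
    have h5 : p ^ b = p ^ (b - κ i) * p ^ κ i := by
      rw [← pow_add, Nat.sub_add_cancel h4]
    rw [h5] at h2
    exact Nat.eq_of_mul_eq_mul_right (pow_pos hp.pos _) h2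
  rw [hrel, hrel] at h1
  exact h1

end Run7.h528
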