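import Mathlib
import Pool.Agent.Run7.h528.Lift
import Pool.Agent.Run7.h528.NecU
import Pool.Agent.Run7.h528.Clus

/-!
# Lacunary sets of degrees
-/

set_option autoImplicit false
set_option linter.unusedSectionVars false
set_option linter.style.haveILetI false

open scoped BigOperators Classical

noncomputable section

namespace Run7.h528

/-- realization by a bilinear map with a space of dimension `d` and values in dimension `b` -/
def RD (p : ℕ) [Fact p.Prime] (α β : Finset ℕ) (d b : ℕ) : Prop :=
  ∃ (W : Type) (_ : AddCommGroup W) (_ : Module (ZMod p) W) (_ : Finite W)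
    (S : Set (Submodule (ZMod p) W)) (r : Module.Dual (ZMod p) W → ℕ),
    Module.finrank (ZMod p) W = b ∧ Pd S r d ∧ (∀ a, a ∈ α ↔ ∃ ℓ, r ℓ = a) ∧
      ∀ c, c ∈ β ↔ ∃ U ∈ S, Module.finrank (ZMod p) U = c

variable {p : ℕ} [Fact p.Prime]

namespace RD

theorem real {α β : Finset ℕ} {d b : ℕ} (h : RD p α β d b) : Realizable p α β := by
  obtain ⟨W, _, _, _, S, r, -, h1, h2, h3⟩ := h
  exact h1.toPc.realizable α β h2 h3

theorem zero : RD p {0} {0} 0 0 := by
  refine ⟨PUnit, inferInstance, inferInstance, inferInstance, _, _,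
    Module.finrank_zero_of_subsingleton, Pd.zero, ?_, ?_⟩
  · intro a
    rw [Finset.mem_singleton]
    exact ⟨fun h => ⟨0, h.symm⟩, fun ⟨_, h⟩ => h.symm⟩
  · intro c
    rw [Finset.mem_singleton]
    constructor
    · intro h
      exact ⟨⊥, rfl, by rw [h]; simp⟩
    · rintro ⟨U, hU, hc⟩
      rw [Set.mem_singleton_iff] at hU
      rw [← hc, hU]
      simp

theorem finrank_prod_top {W W' : Type} [AddCommGroup W] [Module (ZMod p) W] [Finite W]
    [AddCommGroup W'] [Module (ZMod p) W'] [Finite W'] (X : Submodule (ZMod p) W) :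
    Module.finrank (ZMod p) (X.prod (⊤ : Submodule (ZMod p) W')) =
      Module.finrank (ZMod p) X + Module.finrank (ZMod p) W' := by
  have h1 : Nat.card (X.prod (⊤ : Submodule (ZMod p) W')) = Nat.card X * Nat.card W' := by
    rw [← Nat.card_prod]
    refine Nat.card_congr ?_
    exact
      { toFun := fun v => (⟨v.1.1, v.2.1⟩, v.1.2)
        invFun := fun v => ⟨(v.1.1, v.2), v.1.2, Submodule.mem_top⟩
        left_inv := fun _ => rfl
        right_inv := fun _ => rfl }
  rw [Pd.card_eq_pow (p := p), Pd.card_eq_pow (p := p) (X := X), Pd.card_eq_pow (p := p) (X := W'),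
    ← pow_add] at h1
  exact Nat.pow_right_injective (Fact.out : p.Prime).two_le h1

theorem zero_mem {α β : Finset ℕ} {d b : ℕ} (h : RD p α β d b) : 0 ∈ β := by
  obtain ⟨W, _, _, _, S, r, -, h1, h2, h3⟩ := h
  obtain ⟨V, _, _, _, c, hS, -⟩ := h1
  rw [h3]
  refine ⟨⊥, (hS ⊥).mpr ⟨0, ?_⟩, finrank_bot _ _⟩
  rw [LinearMap.range_eq_bot]
  exact BG.br_zero c

theorem single {α β : Finset ℕ} {d b : ℕ} (h : RD p α β d b) {n f : ℕ} (hf : 0 < f) (hd : d ≤ n)
    (hfn : f ≤ n) : RD p (insert n α) (insert 0 (β.image (· + f))) (2 * n) (b + f) := by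
  obtain ⟨W, _, _, _, S, r, hW, h1, h2, h3⟩ := h
  let W' := Fin f → ZMod p
  have hW' : Module.finrank (ZMod p) W' = f := by simp [W']
  refine ⟨W × W', inferInstance, inferInstance, inferInstance, _, _, ?_,
    h1.lift (W' := W') n (by omega) hd (by rw [hW']; exact hfn), ?_, ?_⟩
  · haveI : Module.Finite (ZMod p) W := Module.Finite.of_finite
    rw [Module.finrank_prod, hW, hW']
  · intro a
    rw [Finset.mem_insert]
    constructor
    · rintro (rfl | ha)
      · let ℓ : Module.Dual (ZMod p) (W × W') := (LinearMap.proj (⟨0, hf⟩ : Fin f)).comp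
          (LinearMap.snd (ZMod p) W W')
        refine ⟨ℓ, if_neg ?_⟩
        intro h0
        have h4 := LinearMap.congr_fun h0 (fun _ => (1 : ZMod p))
        simp [ℓ] at h4
      · obtain ⟨ℓ₀, rfl⟩ := (h2 a).mp ha
        refine ⟨ℓ₀.comp (LinearMap.fst (ZMod p) W W'), ?_⟩
        have h4 : (ℓ₀.comp (LinearMap.fst (ZMod p) W W')).comp (LinearMap.inr (ZMod p) W W') = 0 := by
          apply LinearMap.ext
          intro x
          simp
        have h5 : (ℓ₀.comp (LinearMap.fst (ZMod p) W W')).comp (LinearMap.inl (ZMod p) W W') = ℓ₀ := by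
          apply LinearMap.ext
          intro x
          simp
        rw [if_pos h4, h5]
    · rintro ⟨ℓ, rfl⟩
      by_cases h4 : ℓ.comp (LinearMap.inr (ZMod p) W W') = 0
      · right
        rw [if_pos h4]
        exact (h2 _).mpr ⟨_, rfl⟩
      · left
        exact if_neg h4
  · intro c
    rw [Finset.mem_insert, Finset.mem_image]
    constructor
    · rintro (rfl | ⟨y, hy, rfl⟩)
      · exact ⟨⊥, Or.inl rfl, finrank_bot _ _⟩
      · obtain ⟨U, hU, hUc⟩ := (h3 y).mp hy
        refine ⟨U.prod ⊤, Or.inr ⟨U, hU, rfl⟩, ?_⟩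
        rw [finrank_prod_top, hUc, hW']
    · rintro ⟨_, rfl | ⟨X, hX, rfl⟩, rfl⟩
      · left
        exact finrank_bot _ _
      · right
        refine ⟨Module.finrank (ZMod p) X, (h3 _).mpr ⟨X, hX, rfl⟩, ?_⟩
        rw [finrank_prod_top, hW']

theorem double {α β : Finset ℕ} {d b : ℕ} (h : RD p α β d b) {n f g : ℕ} (hg : 0 < g) (hgf : g < f)
    (hd : d ≤ n) (hfn : f ≤ n) :
    RD p (insert (n + g) α) (insert 0 (insert g (β.image (· + f)))) (2 * n + (f + g)) (b + f) := by
  have h0β := h.zero_mem
  obtain ⟨W, _, _, _, S, r, hW, h1, h2, h3⟩ := h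
  let W' := Fin f → ZMod p
  have hW' : Module.finrank (ZMod p) W' = f := by simp [W']
  obtain ⟨S₂, hS₂, hS₂0, ⟨U₂, hU₂, hU₂g⟩, hP₂⟩ := Pd.rect (p := p) (W := W') f g hW' hg hgf
  have hP := (h1.lift (W' := W') n (by omega) hd (by rw [hW']; exact hfn)).add
    (hP₂.map (LinearMap.inr (ZMod p) W W'))
  have hinr : Function.Injective (LinearMap.inr (ZMod p) W W') := LinearMap.inr_injective
  have hmapf : ∀ U : Submodule (ZMod p) W',
      Module.finrank (ZMod p) (Submodule.map (LinearMap.inr (ZMod p) W W') U) =
        Module.finrank (ZMod p) U := fun U =>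
    (LinearEquiv.finrank_eq (Submodule.equivMapOfInjective _ hinr U)).symm
  refine ⟨W × W', inferInstance, inferInstance, inferInstance, _, _, ?_, hP, ?_, ?_⟩
  · haveI : Module.Finite (ZMod p) W := Module.Finite.of_finite
    rw [Module.finrank_prod, hW, hW']
  · intro a
    rw [Finset.mem_insert]
    constructor
    · rintro (rfl | ha)
      · let ℓ : Module.Dual (ZMod p) (W × W') := (LinearMap.proj (⟨0, by omega⟩ : Fin f)).comp
          (LinearMap.snd (ZMod p) W W')
        have h0 : ℓ.comp (LinearMap.inr (ZMod p) W W') ≠ 0 := by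
          intro h0
          have h4 := LinearMap.congr_fun h0 (fun _ => (1 : ZMod p))
          simp [ℓ] at h4
        refine ⟨ℓ, ?_⟩
        rw [if_neg h0, if_neg h0]
      · obtain ⟨ℓ₀, rfl⟩ := (h2 a).mp ha
        refine ⟨ℓ₀.comp (LinearMap.fst (ZMod p) W W'), ?_⟩
        have h4 : (ℓ₀.comp (LinearMap.fst (ZMod p) W W')).comp (LinearMap.inr (ZMod p) W W') = 0 := by
          apply LinearMap.ext
          intro x
          simp
        have h5 : (ℓ₀.comp (LinearMap.fst (ZMod p) W W')).comp (LinearMap.inl (ZMod p) W W') = ℓ₀ := by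
          apply LinearMap.ext
          intro x
          simp
        rw [if_pos h4, if_pos h4, h5, add_zero]
    · rintro ⟨ℓ, rfl⟩
      by_cases h4 : ℓ.comp (LinearMap.inr (ZMod p) W W') = 0
      · right
        rw [if_pos h4, if_pos h4, add_zero]
        exact (h2 _).mpr ⟨_, rfl⟩
      · left
        rw [if_neg h4, if_neg h4]
  · intro c
    rw [Finset.mem_insert, Finset.mem_insert, Finset.mem_image]
    constructor
    · rintro (rfl | rfl | ⟨y, hy, rfl⟩)
      · exact ⟨⊥, ⟨⊥, Or.inl rfl, ⊥, ⟨⊥, hS₂0, by simp⟩, by simp⟩, finrank_bot _ _⟩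
      · refine ⟨Submodule.map (LinearMap.inr (ZMod p) W W') U₂,
          ⟨⊥, Or.inl rfl, _, ⟨U₂, hU₂, rfl⟩, by simp⟩, ?_⟩
        rw [hmapf, hU₂g]
      · obtain ⟨U, hU, hUc⟩ := (h3 y).mp hy
        refine ⟨U.prod ⊤, ⟨U.prod ⊤, Or.inr ⟨U, hU, rfl⟩, ⊥, ⟨⊥, hS₂0, by simp⟩, by simp⟩, ?_⟩
        rw [finrank_prod_top, hUc, hW']
    · rintro ⟨_, ⟨U₁, hU₁, _, ⟨X₂, hX₂, rfl⟩, rfl⟩, rfl⟩
      rcases hU₁ with rfl | ⟨X, hX, rfl⟩
      · rw [bot_sup_eq, hmapf]
        rcases hS₂ X₂ hX₂ with rfl | rfl | h5
        · left
          exact finrank_bot _ _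
        · right
          right
          refine ⟨0, h0β, ?_⟩
          rw [finrank_top, hW', zero_add]
        · right
          left
          exact h5
      · right
        right
        have h5 : X.prod ⊤ ⊔ Submodule.map (LinearMap.inr (ZMod p) W W') X₂ = X.prod ⊤ := by
          rw [sup_eq_left]
          rintro _ ⟨x, -, rfl⟩
          rw [Submodule.mem_prod]
          exact ⟨X.zero_mem, Submodule.mem_top⟩
        rw [h5]
        refine ⟨Module.finrank (ZMod p) X, (h3 _).mpr ⟨X, hX, rfl⟩, ?_⟩
        rw [finrank_prod_top, hW']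

end RD

/-- sufficiency -/
theorem lac_suf (m : ℕ) : ∀ (α β : Finset ℕ) (b : ℕ), α.card = m + 1 → 0 ∈ α → 0 ∈ β → b ∈ β →
    (∀ y ∈ β, y ≤ b) → α.card ≤ β.card → β.card + 1 ≤ 2 * α.card →
    (∀ x ∈ α, x ≠ 0 → 2 * b ≤ x) → (∀ x ∈ α, ∀ y ∈ α, x ≠ 0 → x < y → 2 * x + b ≤ y) →
    ∃ d, RD p α β d b ∧ (d = 0 ∨ ∃ x ∈ α, x ≠ 0 ∧ d ≤ 2 * x + b) := by
  induction m with
  | zero =>
    intro α β b hm hα0 hβ0 hbβ hβ hle hle2 _ _
    have h1 : α = {0} := by
      rw [Finset.card_eq_one] at hm
      obtain ⟨a, rfl⟩ := hm
      rw [Finset.mem_singleton] at hα0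
      rw [← hα0]
    have h2 : β.card = 1 := by omega
    have h3 : β = {0} := by
      rw [Finset.card_eq_one] at h2
      obtain ⟨a, rfl⟩ := h2
      rw [Finset.mem_singleton] at hβ0
      rw [← hβ0]
    have h4 : b = 0 := by
      rw [h3, Finset.mem_singleton] at hbβ
      exact hbβ
    rw [h1, h3, h4]
    exact ⟨0, RD.zero, Or.inl rfl⟩
  | succ m ih =>
    intro α β b hm hα0 hβ0 hbβ hβ hle hle2 hlow hlac
    have hne : α.Nonempty := ⟨0, hα0⟩
    set M := α.max' hne with hM
    have hMα : M ∈ α := α.max'_mem hne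
    have hMmax : ∀ x ∈ α, x ≤ M := fun x hx => α.le_max' x hx
    have hMpos : M ≠ 0 := by
      intro h0
      have h1 : α ⊆ {0} := by
        intro x hx
        rw [Finset.mem_singleton]
        have := hMmax x hx
        omega
      have h2 := Finset.card_le_card h1
      rw [hm, Finset.card_singleton] at h2
      omega
    set α' := α.erase M with hα'
    have hα'card : α'.card = m + 1 := by
      rw [hα', Finset.card_erase_of_mem hMα, hm]
      rfl
    have hα'0 : 0 ∈ α' := Finset.mem_erase.mpr ⟨hMpos.symm, hα0⟩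
    have hαins : insert M α' = α := Finset.insert_erase hMα
    have hMb : 2 * b ≤ M := hlow M hMα hMpos
    -- the smallest nonzero element of `β`
    have hβne : (β.erase 0).Nonempty := by
      rw [← Finset.card_pos, Finset.card_erase_of_mem hβ0]
      omega
    set e := (β.erase 0).min' hβne with he
    have heβ : e ∈ β.erase 0 := Finset.min'_mem _ _
    have hemin : ∀ y ∈ β.erase 0, e ≤ y := fun y hy => Finset.min'_le _ y hy
    have he0 : 0 < e := Nat.pos_of_ne_zero (Finset.mem_erase.mp heβ).1
    have heb : e ≤ b := hβ e (Finset.mem_erase.mp heβ).2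
    have hb0 : b ∈ β.erase 0 := Finset.mem_erase.mpr ⟨by omega, hbβ⟩
    by_cases hcase : α.card = β.card
    · -- one element
      set β' := (β.erase 0).image (· - e) with hβ'
      have hinj : Set.InjOn (fun y => y - e) (β.erase 0 : Finset ℕ) := by
        intro x hx y hy hxy
        have h1 := hemin x hx
        have h2 := hemin y hy
        simp only at hxy
        omega
      have hβ'card : β'.card + 1 = β.card := by
        rw [hβ', Finset.card_image_of_injOn hinj, Finset.card_erase_add_one hβ0]
      have hβins : insert 0 (β'.image (· + e)) = β := by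
        have h1 : β'.image (· + e) = β.erase 0 := by
          rw [hβ', Finset.image_image]
          ext y
          simp only [Finset.mem_image, Function.comp]
          constructor
          · rintro ⟨x, hx, rfl⟩
            have := hemin x hx
            rwa [Nat.sub_add_cancel this]
          · intro hy
            exact ⟨y, hy, Nat.sub_add_cancel (hemin y hy)⟩
        rw [h1, Finset.insert_erase hβ0]
      obtain ⟨d, hd, hdb⟩ := ih α' β' (b - e) hα'card hα'0
        (Finset.mem_image.mpr ⟨e, heβ, by omega⟩) (Finset.mem_image.mpr ⟨b, hb0, rfl⟩)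
        (by
          intro y hy
          obtain ⟨x, hx, rfl⟩ := Finset.mem_image.mp hy
          have := hβ x (Finset.mem_erase.mp hx).2
          omega)
        (by omega) (by omega)
        (by
          intro x hx hx0
          have := hlow x (Finset.mem_erase.mp hx).2 hx0
          omega)
        (by
          intro x hx y hy hx0 hxy
          have := hlac x (Finset.mem_erase.mp hx).2 y (Finset.mem_erase.mp hy).2 hx0 hxy
          omega)
      have hdM : d ≤ M := by
        rcases hdb with h1 | ⟨x, hx, hx0, h1⟩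
        · omega
        · have h2 := Finset.mem_erase.mp hx
          have h3 := hMmax x h2.2
          have h4 := hlac x h2.2 M hMα hx0 (by omega)
          omega
      have h1 := hd.single (n := M) (f := e) he0 hdM (by omega)
      rw [hαins, hβins, Nat.sub_add_cancel heb] at h1
      exact ⟨_, h1, Or.inr ⟨M, hMα, hMpos, by omega⟩⟩
    · -- two elements
      have hβne2 : ((β.erase 0).erase e).Nonempty := by
        rw [← Finset.card_pos, Finset.card_erase_of_mem heβ, Finset.card_erase_of_mem hβ0]
        omega
      set f := ((β.erase 0).erase e).min' hβne2 with hf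
      have hfβ : f ∈ (β.erase 0).erase e := Finset.min'_mem _ _
      have hfmin : ∀ y ∈ (β.erase 0).erase e, f ≤ y := fun y hy => Finset.min'_le _ y hy
      have hfe : e < f := by
        have h1 := Finset.mem_erase.mp hfβ
        have h2 := hemin f h1.2
        omega
      have hfb : f ≤ b := hβ f (Finset.mem_erase.mp (Finset.mem_erase.mp hfβ).2).2
      have hb1 : b ∈ (β.erase 0).erase e := Finset.mem_erase.mpr ⟨by omega, hb0⟩
      set β' := ((β.erase 0).erase e).image (· - f) with hβ'
      have hinj : Set.InjOn (fun y => y - f) ((β.erase 0).erase e : Finset ℕ) := by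
        intro x hx y hy hxy
        have h1 := hfmin x hx
        have h2 := hfmin y hy
        simp only at hxy
        omega
      have hβ'card : β'.card + 2 = β.card := by
        have h1 := Finset.card_erase_add_one hβ0
        have h2 := Finset.card_erase_add_one heβ
        rw [hβ', Finset.card_image_of_injOn hinj]
        omega
      have hβins : insert 0 (insert e (β'.image (· + f))) = β := by
        have h1 : β'.image (· + f) = (β.erase 0).erase e := by
          rw [hβ', Finset.image_image]
          ext y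
          simp only [Finset.mem_image, Function.comp]
          constructor
          · rintro ⟨x, hx, rfl⟩
            have := hfmin x hx
            rwa [Nat.sub_add_cancel this]
          · intro hy
            exact ⟨y, hy, Nat.sub_add_cancel (hfmin y hy)⟩
        rw [h1, Finset.insert_erase heβ, Finset.insert_erase hβ0]
      obtain ⟨d, hd, hdb⟩ := ih α' β' (b - f) hα'card hα'0
        (Finset.mem_image.mpr ⟨f, hfβ, by omega⟩) (Finset.mem_image.mpr ⟨b, hb1, rfl⟩)
        (by
          intro y hy
          obtain ⟨x, hx, rfl⟩ := Finset.mem_image.mp hy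
          have := hβ x (Finset.mem_erase.mp (Finset.mem_erase.mp hx).2).2
          omega)
        (by omega) (by omega)
        (by
          intro x hx hx0
          have := hlow x (Finset.mem_erase.mp hx).2 hx0
          omega)
        (by
          intro x hx y hy hx0 hxy
          have := hlac x (Finset.mem_erase.mp hx).2 y (Finset.mem_erase.mp hy).2 hx0 hxy
          omega)
      have hdM : d ≤ M - e := by
        rcases hdb with h1 | ⟨x, hx, hx0, h1⟩
        · omega
        · have h2 := Finset.mem_erase.mp hx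
          have h3 := hMmax x h2.2
          have h4 := hlac x h2.2 M hMα hx0 (by omega)
          omega
      have h1 := hd.double (n := M - e) (f := f) (g := e) he0 hfe hdM (by omega)
      have h2 : M - e + e = M := by omega
      rw [h2, hαins, hβins, Nat.sub_add_cancel hfb] at h1
      exact ⟨_, h1, Or.inr ⟨M, hMα, hMpos, by omega⟩⟩

/-- necessity -/
theorem lac_nec {α β : Finset ℕ} {b : ℕ} (hα0 : 0 ∈ α) (hβ0 : 0 ∈ β) (hbβ : b ∈ β)
    (hβ : ∀ y ∈ β, y ≤ b) (hlow : ∀ x ∈ α, x ≠ 0 → b + 1 ≤ 2 * x)
    (hlac : ∀ x ∈ α, ∀ y ∈ α, x ≠ 0 → x < y → b * x < y) (h : Realizable p α β) :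
    α.card ≤ β.card := by
  have hp : p.Prime := Fact.out
  have h1 := Finset.card_erase_add_one hα0
  rcases Nat.lt_or_ge b 2 with hb | hb
  · rcases Nat.eq_zero_or_pos b with hb0 | hb0
    · have h2 := clus_nec (p := p) hβ hlow 0 (by rw [hb0, pow_zero, zero_mul, zero_add]) h
      have h3 : 0 < β.card := Finset.card_pos.mpr ⟨0, hβ0⟩
      omega
    · have hb1 : b = 1 := by omega
      subst hb1
      have h2 := clus_nec (p := p) hβ hlow 1 (by
        rw [pow_one, one_mul]
        have := hp.two_le
        omega) h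
      have h3 : 1 < β.card := Finset.one_lt_card.mpr ⟨0, hβ0, 1, hbβ, by norm_num⟩
      omega
  · by_cases hcase : (α.erase 0).card = 0
    · have h3 : 0 < β.card := Finset.card_pos.mpr ⟨0, hβ0⟩
      omega
    · obtain ⟨k, hk⟩ := Nat.exists_eq_succ_of_ne_zero hcase
      let a : Fin (k + 1) ↪o ℕ := (α.erase 0).orderEmbOfFin hk
      have ha : ∀ i, a i ∈ α.erase 0 := fun i => Finset.orderEmbOfFin_mem _ hk i
      have hrange : ∀ x ∈ α.erase 0, ∃ i, a i = x := by
        intro x hx
        have h4 : x ∈ Set.range a := by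
          rw [Finset.range_orderEmbOfFin]
          exact hx
        exact h4
      have hαeq : insert 0 (Finset.univ.biUnion (fun i => ({a i} : Finset ℕ))) = α := by
        ext x
        simp only [Finset.mem_insert, Finset.mem_biUnion, Finset.mem_univ, true_and,
          Finset.mem_singleton]
        constructor
        · rintro (rfl | ⟨i, rfl⟩)
          · exact hα0
          · exact (Finset.mem_erase.mp (ha i)).2
        · intro hx
          by_cases hx0 : x = 0
          · exact Or.inl hx0
          · obtain ⟨i, hi⟩ := hrange x (Finset.mem_erase.mpr ⟨hx0, hx⟩)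
            exact Or.inr ⟨i, hi.symm⟩
      rw [← hαeq] at h
      obtain ⟨κ, -, -, hκ, hκβ, -⟩ := nec_chain hb hβ hbβ (fun i => ({a i} : Finset ℕ)) a
        (fun i => Finset.mem_singleton_self _)
        (fun i x hx => by rw [Finset.mem_singleton] at hx; exact hx.le)
        (fun i x hx => by
          rw [Finset.mem_singleton] at hx
          subst hx
          exact hlow _ (Finset.mem_erase.mp (ha i)).2 (Finset.mem_erase.mp (ha i)).1)
        (fun i j hij x hx => by
          rw [Finset.mem_singleton] at hx
          subst hx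
          exact hlac _ (Finset.mem_erase.mp (ha i)).2 _ (Finset.mem_erase.mp (ha j)).2
            (Finset.mem_erase.mp (ha i)).1 (a.strictMono hij)) h
      have h4 : (Finset.univ.image κ).card ≤ β.card := by
        apply Finset.card_le_card
        intro x hx
        obtain ⟨i, -, rfl⟩ := Finset.mem_image.mp hx
        exact hκβ i
      rw [Finset.card_image_of_injective _ hκ.injective, Finset.card_univ, Fintype.card_fin] at h4
      omega

/-- the lacunary theorem -/
theorem lac {α β : Finset ℕ} {b : ℕ} (hα0 : 0 ∈ α) (hβ0 : 0 ∈ β) (hbβ : b ∈ β)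
    (hβ : ∀ y ∈ β, y ≤ b) (hlow : ∀ x ∈ α, x ≠ 0 → 2 * b ≤ x)
    (hlac : ∀ x ∈ α, ∀ y ∈ α, x ≠ 0 → x < y → (b + 1) * x ≤ y)
    (hcard : β.card + 1 ≤ 2 * α.card) : Realizable p α β ↔ α.card ≤ β.card := by
  constructor
  · intro h
    refine lac_nec hα0 hβ0 hbβ hβ ?_ ?_ h
    · intro x hx hx0
      have := hlow x hx hx0
      omega
    · intro x hx y hy hx0 hxy
      have h1 := hlac x hx y hy hx0 hxy
      have h2 : 0 < x := Nat.pos_of_ne_zero hx0
      nlinarith
  · intro h
    have hpos : 0 < α.card := Finset.card_pos.mpr ⟨0, hα0⟩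
    have hlac2 : ∀ x ∈ α, ∀ y ∈ α, x ≠ 0 → x < y → 2 * x + b ≤ y := by
      intro x hx y hy hx0 hxy
      have h1 := hlac x hx y hy hx0 hxy
      have h2 := hlow x hx hx0
      have h3 := hlow y hy (by omega)
      rcases Nat.lt_or_ge b 2 with hb | hb
      · rcases Nat.eq_zero_or_pos b with hb0 | hb0
        · -- `β = {0}`
          exfalso
          have h4 : β ⊆ {0} := by
            intro z hz
            rw [Finset.mem_singleton]
            have := hβ z hz
            omega
          have h5 := Finset.card_le_card h4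
          rw [Finset.card_singleton] at h5
          have h6 : 1 < α.card := Finset.one_lt_card.mpr ⟨x, hx, y, hy, by omega⟩
          omega
        · exfalso
          have h4 : β ⊆ {0, 1} := by
            intro z hz
            rw [Finset.mem_insert, Finset.mem_singleton]
            have := hβ z hz
            omega
          have h5 := Finset.card_le_card h4
          have h6 : ({0, 1} : Finset ℕ).card = 2 := by decide
          rw [h6] at h5
          have h7 : 2 < α.card := by
            rw [Finset.two_lt_card]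
            exact ⟨0, hα0, x, hx, y, hy, by omega, by omega, by omega⟩
          omega
      · nlinarith
    obtain ⟨d, hd, -⟩ := lac_suf (p := p) (α.card - 1) α β b (by omega) hα0 hβ0 hbβ hβ h hcard
      hlow hlac2
    exact hd.real

end Run7.h528
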