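import Mathlib
import Pool.Agent.Run7.h528.NecU

/-!
# Groups in which all classes have at most `p ^ 2` elements
-/

set_option autoImplicit false
set_option linter.unusedSectionVars false
set_option linter.style.haveILetI false

open scoped Classical commutatorElement Pointwise

noncomputable section

namespace Run7.h528

section

variable {G : Type} [Group G] [Finite G]

theorem index_centralizer_sub (H : Subgroup G) (y : H) :
    (Subgroup.centralizer ({y} : Set H)).index =
      (Subgroup.centralizer ({(y : G)} : Set G)).relIndex H := by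
  rw [Subgroup.relIndex]
  congr 1
  ext h
  rw [Subgroup.mem_subgroupOf, Subgroup.mem_centralizer_singleton_iff,
    Subgroup.mem_centralizer_singleton_iff, Subtype.ext_iff]
  rfl

theorem pgroup_normal {p : ℕ} (hp : p.Prime) (hG : IsPGroup p G) {H : Subgroup G}
    (hH : H.index = p) : H.Normal := by
  haveI : Fact p.Prime := ⟨hp⟩
  apply Subgroup.normal_of_index_eq_minFac_card
  rw [hH]
  obtain ⟨n, hn⟩ := IsPGroup.iff_card.mp hG
  have h0 : n ≠ 0 := by
    rintro rfl
    have h1 : H.index ∣ Nat.card G := H.index_dvd_card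
    rw [hH, hn, pow_zero, Nat.dvd_one] at h1
    exact hp.one_lt.ne' h1
  rw [hn, Nat.pow_minFac h0, hp.minFac_eq]

theorem pgroup_index {p : ℕ} (hp : p.Prime) (hG : IsPGroup p G) (H : Subgroup G) :
    ∃ n, H.index = p ^ n := by
  haveI : Fact p.Prime := ⟨hp⟩
  exact hG.index H

/-- a subgroup of index at least `p` lies in a subgroup of index `p` -/
theorem exists_max {p : ℕ} (hp : p.Prime) (hG : IsPGroup p G) {C : Subgroup G}
    (hC : C ≠ ⊤) : ∃ H : Subgroup G, H.index = p ∧ C ≤ H := by
  haveI : Fact p.Prime := ⟨hp⟩
  obtain ⟨n, hn⟩ := IsPGroup.iff_card.mp hG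
  obtain ⟨m, hm⟩ := IsPGroup.iff_card.mp (hG.to_subgroup C)
  have hmn : m < n := by
    rw [← Nat.pow_lt_pow_iff_right hp.one_lt, ← hn, ← hm]
    refine lt_of_le_of_ne (Subgroup.card_le_card_group C) ?_
    intro h
    exact hC (Subgroup.card_eq_iff_eq_top C |>.mp h)
  obtain ⟨k, rfl⟩ : ∃ k, n = k + 1 := ⟨n - 1, by omega⟩
  obtain ⟨K, hK, hCK⟩ := Sylow.exists_subgroup_card_pow_prime_le p (n := m) (m := k) (by
    rw [hn]
    exact pow_dvd_pow p (Nat.le_succ k)) C hm (by omega)
  refine ⟨K, ?_, hCK⟩
  have h1 := K.card_mul_index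
  rw [hK, hn, pow_succ] at h1
  exact Nat.eq_of_mul_eq_mul_left (pow_pos hp.pos k) h1

theorem cyclic_quot {p : ℕ} (hp : p.Prime) {H : Subgroup G} [H.Normal] (hH : H.index = p) :
    IsCyclic (G ⧸ H) := by
  haveI : Fact p.Prime := ⟨hp⟩
  exact isCyclic_of_prime_card (p := p) hH

/-- an abelian subgroup of index `p` -/
theorem comm_card_le {p : ℕ} (hp : p.Prime) {A : Subgroup G} [hAn : A.Normal] (hA : A.index = p)
    (hcomm : ∀ a ∈ A, ∀ b ∈ A, a * b = b * a) {t : G} (ht : t ∉ A) :
    Nat.card (commutator G) ≤ (Subgroup.centralizer ({t} : Set G)).index := by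
  haveI := cyclic_quot hp hA
  have hmem : ∀ a ∈ A, t * a * t⁻¹ ∈ A := fun a ha => hAn.conj_mem a ha t
  have hmem' : ∀ a ∈ A, t⁻¹ * a * t ∈ A := fun a ha => by
    have := hAn.conj_mem a ha t⁻¹
    rwa [inv_inv] at this
  let φ : A →* G :=
    { toFun := fun a => ⁅(a : G), t⁆
      map_one' := by simp
      map_mul' := by
        intro a b
        have h1 : t * (b : G)⁻¹ * t⁻¹ ∈ A := hmem _ (A.inv_mem b.2)
        have h2 : t * (a : G)⁻¹ * t⁻¹ ∈ A := hmem _ (A.inv_mem a.2)
        have h3 := hcomm _ b.2 _ h2
        have h4 := hcomm _ h1 _ h2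
        have h5 := hcomm _ b.2 _ h1
        calc ⁅((a * b : A) : G), t⁆ = (a : G) * b * ((t * (b : G)⁻¹ * t⁻¹) * (t * (a : G)⁻¹ * t⁻¹)) := by
              rw [commutatorElement_def, Subgroup.coe_mul]
              group
          _ = (a : G) * (b * (t * (a : G)⁻¹ * t⁻¹)) * (t * (b : G)⁻¹ * t⁻¹) := by
              rw [h4]
              group
          _ = ⁅(a : G), t⁆ * ⁅(b : G), t⁆ := by
              rw [h3, commutatorElement_def, commutatorElement_def]
              group }
  have hφ : ∀ a : A, φ a = ⁅(a : G), t⁆ := fun a => rfl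
  have hφA : ∀ a : A, φ a ∈ A := by
    intro a
    rw [hφ, commutatorElement_def, mul_assoc, mul_assoc]
    apply A.mul_mem a.2
    rw [← mul_assoc]
    exact hmem _ (A.inv_mem a.2)
  set I := φ.range with hI
  have hle : A ≤ Subgroup.normalizer (I : Set G) := by
    intro b hb
    rw [Subgroup.mem_normalizer_iff]
    intro h
    have h1 : h ∈ I → b * h * b⁻¹ = h := by
      rintro ⟨a, rfl⟩
      rw [hcomm b hb _ (hφA a), mul_inv_cancel_right]
    constructor
    · intro hh
      rw [h1 hh]
      exact hh
    · intro hh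
      have hhA : b * h * b⁻¹ ∈ A := by
        obtain ⟨a, ha⟩ := hh
        rw [← ha]
        exact hφA a
      have hhA' : h ∈ A := by
        have := A.mul_mem (A.mul_mem (A.inv_mem hb) hhA) hb
        have h2 : b⁻¹ * (b * h * b⁻¹) * b = h := by group
        rwa [h2] at this
      have h3 : b * h * b⁻¹ = h := by rw [hcomm b hb _ hhA', mul_inv_cancel_right]
      rwa [h3] at hh
  have htn : t ∈ Subgroup.normalizer (I : Set G) := by
    rw [Subgroup.mem_normalizer_iff]
    intro h
    constructor
    · rintro ⟨a, rfl⟩
      refine ⟨⟨t * a * t⁻¹, hmem _ a.2⟩, ?_⟩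
      rw [hφ, hφ, commutatorElement_def, commutatorElement_def]
      simp only
      group
    · rintro ⟨a, ha⟩
      refine ⟨⟨t⁻¹ * a * t, hmem' _ a.2⟩, ?_⟩
      have h1 : h = t⁻¹ * φ a * t := by
        rw [ha]
        group
      rw [h1, hφ, hφ, commutatorElement_def, commutatorElement_def]
      simp only
      group
  have htop : Subgroup.normalizer (I : Set G) = ⊤ := by
    have h1 : A.relIndex (Subgroup.normalizer (I : Set G)) * (Subgroup.normalizer (I : Set G)).index = p := by
      rw [Subgroup.relIndex_mul_index hle, hA]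
    have h2 : A.relIndex (Subgroup.normalizer (I : Set G)) ≠ 1 := by
      intro h3
      rw [Subgroup.relIndex_eq_one] at h3
      exact ht (h3 htn)
    have h3 : (Subgroup.normalizer (I : Set G)).index = 1 := by
      have h4 : (Subgroup.normalizer (I : Set G)).index ∣ p := Dvd.intro_left _ h1
      rcases (Nat.dvd_prime hp).mp h4 with h5 | h5
      · exact h5
      · exfalso
        rw [h5] at h1
        exact h2 (Nat.eq_of_mul_eq_mul_right hp.pos (by rw [h1, one_mul]))
    exact Subgroup.index_eq_one.mp h3
  haveI hIn : I.Normal := Subgroup.normalizer_eq_top_iff.mp htop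
  -- the quotient by `I` is abelian
  have hcenter : ∀ a ∈ A, ∀ g : G, ⁅a, g⁆ ∈ I := by
    intro a ha
    -- the set of `g` commuting with `a` modulo `I`
    let K : Subgroup G := (Subgroup.centralizer ({((a : G) : G ⧸ I)} : Set (G ⧸ I))).comap
      (QuotientGroup.mk' I)
    have hK : ∀ g, g ∈ K ↔ ⁅a, g⁆ ∈ I := by
      intro g
      rw [Subgroup.mem_comap, Subgroup.mem_centralizer_singleton_iff,
        ← QuotientGroup.eq_one_iff]
      rw [commutatorElement_def]
      simp only [QuotientGroup.mk'_apply, QuotientGroup.mk_mul, QuotientGroup.mk_inv]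
      rw [mul_inv_eq_one, mul_inv_eq_iff_eq_mul]
      exact eq_comm
    have hAK : A ≤ K := by
      intro b hb
      rw [hK, commutatorElement_def, hcomm a ha b hb, mul_inv_cancel_right, mul_inv_cancel]
      exact I.one_mem
    have htK : t ∈ K := by
      rw [hK]
      exact ⟨⟨a, ha⟩, rfl⟩
    have h1 : A.relIndex K * K.index = p := by
      rw [Subgroup.relIndex_mul_index hAK, hA]
    have h2 : A.relIndex K ≠ 1 := by
      intro h3
      rw [Subgroup.relIndex_eq_one] at h3
      exact ht (h3 htK)
    have h3 : K.index = 1 := by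
      have h4 : K.index ∣ p := Dvd.intro_left _ h1
      rcases (Nat.dvd_prime hp).mp h4 with h5 | h5
      · exact h5
      · exfalso
        rw [h5] at h1
        exact h2 (Nat.eq_of_mul_eq_mul_right hp.pos (by rw [h1, one_mul]))
    have h4 := Subgroup.index_eq_one.mp h3
    intro g
    rw [← hK, h4]
    exact Subgroup.mem_top g
  have hIA : I ≤ A := by
    rintro _ ⟨a, rfl⟩
    exact hφA a
  have hab : ∀ x y : G ⧸ I, x * y = y * x := by
    let f : G ⧸ I →* G ⧸ A := QuotientGroup.map I A (MonoidHom.id G) (by simpa using hIA)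
    refine fun x y => (MonoidHom.isMulCommutative_of_isCyclic_of_ker_le_center f ?_).is_comm.comm x y
    intro x hx
    obtain ⟨a, rfl⟩ := QuotientGroup.mk_surjective x
    have ha : a ∈ A := by
      rw [MonoidHom.mem_ker] at hx
      simpa [f] using hx
    rw [Subgroup.mem_center_iff]
    intro y
    obtain ⟨g, rfl⟩ := QuotientGroup.mk_surjective y
    have h1 := hcenter a ha g
    rw [← QuotientGroup.eq_one_iff, commutatorElement_def] at h1
    simp only [QuotientGroup.mk_mul, QuotientGroup.mk_inv] at h1
    rw [mul_inv_eq_one, mul_inv_eq_iff_eq_mul] at h1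
    exact h1.symm
  have hcI : commutator G ≤ I := by
    rw [commutator_def, Subgroup.commutator_le]
    intro g _ h _
    rw [← QuotientGroup.eq_one_iff, commutatorElement_def]
    simp only [QuotientGroup.mk_mul, QuotientGroup.mk_inv]
    rw [hab (g : G ⧸ I) h]
    group
  have hcard : Nat.card I = (Subgroup.centralizer ({t} : Set G)).relIndex A := by
    have h1 : φ.ker = (Subgroup.centralizer ({t} : Set G)).subgroupOf A := by
      ext a
      rw [MonoidHom.mem_ker, hφ, Subgroup.mem_subgroupOf, Subgroup.mem_centralizer_singleton_iff,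
        commutatorElement_eq_one_iff_mul_comm]
    rw [Subgroup.relIndex, ← h1, Subgroup.index_ker]
  calc Nat.card (commutator G) ≤ Nat.card I := Subgroup.card_le_of_le hcI
    _ = (Subgroup.centralizer ({t} : Set G)).relIndex A := hcard
    _ ≤ (Subgroup.centralizer ({t} : Set G)).relIndex ⊤ :=
        Subgroup.relIndex_le_of_le_right le_top (by
          rw [Subgroup.relIndex_top_right]
          exact Subgroup.index_ne_zero_of_finite)
    _ = _ := Subgroup.relIndex_top_right _

/-- mutual commutation modulo a normal subgroup `N ≤ H` forces the commutator subgroup into `N`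
when `G / H` is cyclic of order `p` -/
theorem comm_le_of_le {p : ℕ} (hp : p.Prime) {H N : Subgroup G} [hHn : H.Normal] [hN : N.Normal]
    (hNH : N ≤ H) (hH : H.index = p) (h : ∀ x ∈ H, ∀ g : G, ⁅x, g⁆ ∈ N) : commutator G ≤ N := by
  haveI := cyclic_quot hp hH
  have hab : ∀ x y : G ⧸ N, x * y = y * x := by
    let f : G ⧸ N →* G ⧸ H := QuotientGroup.map N H (MonoidHom.id G) (by simpa using hNH)
    refine fun x y => (MonoidHom.isMulCommutative_of_isCyclic_of_ker_le_center f ?_).is_comm.comm x y
    intro x hx
    obtain ⟨a, rfl⟩ := QuotientGroup.mk_surjective x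
    have ha : a ∈ H := by
      rw [MonoidHom.mem_ker] at hx
      simpa [f] using hx
    rw [Subgroup.mem_center_iff]
    intro y
    obtain ⟨g, rfl⟩ := QuotientGroup.mk_surjective y
    have h1 := h a ha g
    rw [← QuotientGroup.eq_one_iff, commutatorElement_def] at h1
    simp only [QuotientGroup.mk_mul, QuotientGroup.mk_inv] at h1
    rw [mul_inv_eq_one, mul_inv_eq_iff_eq_mul] at h1
    exact h1.symm
  rw [commutator_def, Subgroup.commutator_le]
  intro g _ h _
  rw [← QuotientGroup.eq_one_iff, commutatorElement_def]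
  simp only [QuotientGroup.mk_mul, QuotientGroup.mk_inv]
  rw [hab (g : G ⧸ N) h]
  group

/-- if the class of `y` does not grow from `H` to `G` then `[y, G] ⊆ [H, H]` -/
theorem mem_of_class {p : ℕ} (hp : p.Prime) {H : Subgroup G} [hHn : H.Normal] (hH : H.index = p)
    {y : G} (hy : y ∈ H) (hcl : (Subgroup.centralizer ({y} : Set G)).index ≤
      (Subgroup.centralizer ({y} : Set G)).relIndex H) (g : G) : ⁅y, g⁆ ∈ ⁅H, H⁆ := by
  set C := Subgroup.centralizer ({y} : Set G) with hC
  have hne : ¬ C ≤ H := by
    intro hCH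
    have h1 := Subgroup.relIndex_mul_index hCH
    rw [hH] at h1
    have h2 : 0 < C.relIndex H := by
      rcases Nat.eq_zero_or_pos (C.relIndex H) with h3 | h3
      · rw [h3, zero_mul] at h1
        exact absurd h1.symm Subgroup.index_ne_zero_of_finite
      · exact h3
    rw [← h1] at hcl
    have h3 := hp.two_le
    nlinarith
  have hsup : C ⊔ H = ⊤ := by
    have h1 : H.relIndex (C ⊔ H) * (C ⊔ H).index = p := by
      rw [Subgroup.relIndex_mul_index le_sup_right, hH]
    have h2 : H.relIndex (C ⊔ H) ≠ 1 := by
      intro h3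
      rw [Subgroup.relIndex_eq_one] at h3
      exact hne (le_sup_left.trans h3)
    have h4 : (C ⊔ H).index ∣ p := Dvd.intro_left _ h1
    rcases (Nat.dvd_prime hp).mp h4 with h5 | h5
    · exact Subgroup.index_eq_one.mp h5
    · exfalso
      rw [h5] at h1
      exact h2 (Nat.eq_of_mul_eq_mul_right hp.pos (by rw [h1, one_mul]))
  have hg : g ∈ ((H : Set G) * (C : Set G)) := by
    rw [← Subgroup.normal_mul, sup_comm, hsup]
    exact Set.mem_univ g
  obtain ⟨h, hh, c, hc, rfl⟩ := hg
  have hc2 : c * y = y * c := by
    have := (Subgroup.mem_centralizer_singleton_iff.mp hc)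
    exact this
  have h1 : ⁅y, h * c⁆ = ⁅y, h⁆ := by
    rw [commutatorElement_def, commutatorElement_def, mul_inv_rev]
    calc y * (h * c) * y⁻¹ * (c⁻¹ * h⁻¹) = y * h * (c * y⁻¹ * c⁻¹) * h⁻¹ := by group
      _ = y * h * y⁻¹ * h⁻¹ := by
        have : c * y⁻¹ * c⁻¹ = y⁻¹ := by
          rw [mul_inv_eq_iff_eq_mul, eq_inv_mul_iff_mul_eq, ← mul_assoc, ← hc2, mul_assoc,
            mul_inv_cancel, mul_one]
        rw [this]
  rw [h1]
  exact Subgroup.commutator_mem_commutator hy hh

theorem relIndex_le_index (C H : Subgroup G) : C.relIndex H ≤ C.index := by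
  rw [← Subgroup.relIndex_top_right]
  exact Subgroup.relIndex_le_of_le_right le_top (by
    rw [Subgroup.relIndex_top_right]
    exact Subgroup.index_ne_zero_of_finite)

theorem card_comm_sub (H : Subgroup G) : Nat.card (commutator H) = Nat.card (⁅H, H⁆ : Subgroup G) := by
  rw [← Subgroup.map_subtype_commutator]
  exact (Nat.card_congr (Subgroup.equivMapOfInjective _ _ H.subtype_injective).toEquiv)

end

/-- groups in which all classes have at most `p` elements -/
theorem breadth_one {p : ℕ} (hp : p.Prime) (n : ℕ) :
    ∀ (G : Type) [Group G] [Finite G], IsPGroup p G → Nat.card G ≤ n →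
      (∀ x : G, (Subgroup.centralizer ({x} : Set G)).index ≤ p) → Nat.card (commutator G) ≤ p := by
  induction n with
  | zero =>
    intro G _ _ _ h
    have : 0 < Nat.card G := Nat.card_pos
    omega
  | succ n ih =>
    intro G _ _ hG hn hcl
    by_cases hab : ∀ x y : G, x * y = y * x
    · have h1 : commutator G = ⊥ := by
        rw [eq_bot_iff, commutator_def, Subgroup.commutator_le]
        intro g _ h _
        rw [Subgroup.mem_bot, commutatorElement_eq_one_iff_mul_comm]
        exact hab g h
      rw [h1, Subgroup.card_bot]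
      exact hp.pos
    push Not at hab
    obtain ⟨x, y, hxy⟩ := hab
    have hx : Subgroup.centralizer ({x} : Set G) ≠ ⊤ := by
      intro h
      have h1 : y ∈ Subgroup.centralizer ({x} : Set G) := by
        rw [h]
        exact Subgroup.mem_top y
      rw [Subgroup.mem_centralizer_singleton_iff] at h1
      exact hxy h1.symm
    obtain ⟨H, hH, hCH⟩ := exists_max hp hG hx
    haveI hHn := pgroup_normal hp hG hH
    have hHlt : Nat.card H ≤ n := by
      have h1 := H.card_mul_index
      rw [hH] at h1
      have h2 : 0 < Nat.card H := Nat.card_pos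
      have h3 := hp.two_le
      nlinarith
    have hHp : IsPGroup p H := hG.to_subgroup H
    have hHcl : ∀ y : H, (Subgroup.centralizer ({y} : Set H)).index ≤ p := by
      intro y
      rw [index_centralizer_sub]
      exact (relIndex_le_index _ _).trans (hcl y)
    have hH' := ih H hHp hHlt hHcl
    obtain ⟨t, ht⟩ : ∃ t, t ∉ H := by
      by_contra h
      push Not at h
      have h1 : H = ⊤ := by
        rw [Subgroup.eq_top_iff']
        exact h
      rw [h1, Subgroup.index_top] at hH
      exact hp.one_lt.ne hH
    by_cases hHab : ∀ a ∈ H, ∀ b ∈ H, a * b = b * a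
    · exact (comm_card_le hp hH hHab ht).trans (hcl t)
    · -- `[H, H]` is nontrivial
      by_cases hY : ∀ x ∈ H, ∀ g : G, ⁅x, g⁆ ∈ ⁅H, H⁆
      · have h1 := comm_le_of_le hp (Subgroup.commutator_le_right H H) hH hY
        calc Nat.card (commutator G) ≤ Nat.card (⁅H, H⁆ : Subgroup G) := Subgroup.card_le_of_le h1
          _ = Nat.card (commutator H) := (card_comm_sub H).symm
          _ ≤ p := hH'
      · exfalso
        push Not at hY
        obtain ⟨h, hh, g, hg⟩ := hY
        -- elements outside `zmod [H, H]` are central in `H`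
        have key : ∀ y ∈ H, (∃ g, ⁅y, g⁆ ∉ ⁅H, H⁆) → ∀ z ∈ H, y * z = z * y := by
          intro y hy hg
          obtain ⟨g, hg⟩ := hg
          have h1 : ¬ (Subgroup.centralizer ({y} : Set G)).index ≤
              (Subgroup.centralizer ({y} : Set G)).relIndex H := by
            intro h2
            exact hg (mem_of_class hp hH hy h2 g)
          have h2 := hcl y
          have h3 : (Subgroup.centralizer ({y} : Set G)).relIndex H < p := by omega
          have h4 : (Subgroup.centralizer ({y} : Set G)).relIndex H = 1 := by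
            obtain ⟨m, hm⟩ := pgroup_index hp hHp ((Subgroup.centralizer ({y} : Set G)).subgroupOf H)
            rw [← Subgroup.relIndex] at hm
            rw [hm] at h3 ⊢
            rcases Nat.eq_zero_or_pos m with h5 | h5
            · rw [h5, pow_zero]
            · exfalso
              have := Nat.pow_le_pow_right hp.pos h5
              rw [pow_one] at this
              omega
          rw [Subgroup.relIndex_eq_one] at h4
          intro z hz
          exact (Subgroup.mem_centralizer_singleton_iff.mp (h4 hz)).symm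
        apply hHab
        -- every element of `H` is central in `H`
        intro a ha b hb
        by_cases ha2 : ∃ g, ⁅a, g⁆ ∉ ⁅H, H⁆
        · exact key a ha ha2 b hb
        · push Not at ha2
          have h5 : ∃ g, ⁅h * a, g⁆ ∉ ⁅H, H⁆ := by
            refine ⟨g, ?_⟩
            intro h6
            apply hg
            have h7 : h = (h * a) * a⁻¹ := by group
            have h8 : h * a ∈ {x : G | ⁅x, g⁆ ∈ ⁅H, H⁆} := h6
            -- `⁅h a, g⁆ = h ⁅a, g⁆ h⁻¹ ⁅h, g⁆`
            have h9 : ⁅h * a, g⁆ = h * ⁅a, g⁆ * h⁻¹ * ⁅h, g⁆ := by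
              rw [commutatorElement_def, commutatorElement_def, commutatorElement_def]
              group
            rw [h9] at h6
            have h10 : h * ⁅a, g⁆ * h⁻¹ ∈ ⁅H, H⁆ :=
              (inferInstance : (⁅H, H⁆ : Subgroup G).Normal).conj_mem _ (ha2 g) h
            exact (Subgroup.mul_mem_cancel_left _ h10).mp h6
          have h6 := key _ (H.mul_mem hh ha) h5 b hb
          have h7 := key h hh ⟨g, hg⟩ b hb
          have h8 : h * (a * b) = h * (b * a) := by
            rw [← mul_assoc, h6, ← mul_assoc, ← mul_assoc, h7]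
          exact mul_left_cancel h8

section

variable {G : Type} [Group G] [Finite G]

theorem pow_of_le {p : ℕ} (hp : p.Prime) (hG : IsPGroup p G) (H : Subgroup G) {k : ℕ}
    (h : H.index < p ^ (k + 1)) : H.index ≤ p ^ k := by
  obtain ⟨n, hn⟩ := pgroup_index hp hG H
  rw [hn] at h ⊢
  exact Nat.pow_le_pow_right hp.pos (by
    have := (Nat.pow_lt_pow_iff_right hp.one_lt).mp h
    omega)

/-- a group with an element of class size at most `p`, center of index at most `p ^ 3` and
commutator subgroup of order more than `p ^ 2` -/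
theorem central_of_small {p : ℕ} (hp : p.Prime) (hG : IsPGroup p G)
    (hcl : ∀ x : G, (Subgroup.centralizer ({x} : Set G)).index ≤ p ^ 2)
    (hZ : (Subgroup.center G).index ≤ p ^ 3) (hG' : p ^ 2 < Nat.card (commutator G)) {x : G}
    (hx : (Subgroup.centralizer ({x} : Set G)).index ≤ p) : x ∈ Subgroup.center G := by
  by_contra hxZ
  set A := Subgroup.centralizer ({x} : Set G) with hA
  set Z := Subgroup.center G with hZdef
  have hZA : Z ≤ A := by
    intro z hz
    rw [hA, Subgroup.mem_centralizer_singleton_iff]
    exact (Subgroup.mem_center_iff.mp hz x).symm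
  have hxA : x ∈ A := by
    rw [hA, Subgroup.mem_centralizer_singleton_iff]
  have hAtop : A ≠ ⊤ := by
    intro h
    apply hxZ
    rw [Subgroup.mem_center_iff]
    intro g
    have h1 : g ∈ A := by
      rw [h]
      exact Subgroup.mem_top g
    exact Subgroup.mem_centralizer_singleton_iff.mp h1
  have hAidx : A.index = p := by
    obtain ⟨n, hn⟩ := pgroup_index hp hG A
    have h1 : n ≠ 0 := by
      rintro rfl
      rw [pow_zero, Subgroup.index_eq_one] at hn
      exact hAtop hn
    have h2 : n ≤ 1 := by
      rw [hn] at hx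
      have h3 : p ^ n ≤ p ^ 1 := by rwa [pow_one]
      exact (Nat.pow_le_pow_iff_right hp.one_lt).mp h3
    have h3 : n = 1 := by omega
    rw [hn, h3, pow_one]
  haveI hAn := pgroup_normal hp hG hAidx
  have hAp : IsPGroup p A := hG.to_subgroup A
  -- `A` is abelian
  have hAab : ∀ a ∈ A, ∀ b ∈ A, a * b = b * a := by
    have h1 : (Z.subgroupOf A).index ≤ p ^ 2 := by
      have h2 := Subgroup.relIndex_mul_index hZA
      rw [hAidx] at h2
      rw [← Subgroup.relIndex]
      have h3 : Z.relIndex A * p ≤ p ^ 2 * p := by
        rw [h2]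
        exact hZ.trans (by rw [pow_succ])
      exact Nat.le_of_mul_le_mul_right h3 hp.pos
    have h2 : Z.subgroupOf A ≤ Subgroup.center A := by
      intro z hz
      rw [Subgroup.mem_subgroupOf] at hz
      rw [Subgroup.mem_center_iff]
      intro a
      ext
      exact Subgroup.mem_center_iff.mp hz a
    have hxc : (⟨x, hxA⟩ : A) ∈ Subgroup.center A := by
      rw [Subgroup.mem_center_iff]
      intro a
      ext
      exact Subgroup.mem_centralizer_singleton_iff.mp a.2
    have h3 : (Z.subgroupOf A).relIndex (Subgroup.center A) ≠ 1 := by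
      intro h4
      rw [Subgroup.relIndex_eq_one] at h4
      have := h4 hxc
      rw [Subgroup.mem_subgroupOf] at this
      exact hxZ this
    have h4 := Subgroup.relIndex_mul_index h2
    obtain ⟨i, hi⟩ : ∃ i, (Z.subgroupOf A).relIndex (Subgroup.center A) = p ^ i := by
      rw [Subgroup.relIndex]
      exact pgroup_index hp (hAp.to_subgroup _) _
    obtain ⟨j, hj⟩ := pgroup_index hp hAp (Subgroup.center A)
    have h5 : i ≠ 0 := by
      rintro rfl
      exact h3 hi
    have h6 : i + j ≤ 2 := by
      rw [hi, hj, ← pow_add] at h4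
      rw [← h4] at h1
      exact (Nat.pow_le_pow_iff_right hp.one_lt).mp h1
    have hcyc : IsCyclic (A ⧸ Subgroup.center A) := by
      rcases Nat.eq_zero_or_pos j with h7 | h7
      · have h8 : Nat.card (A ⧸ Subgroup.center A) = 1 := by
          rw [← Subgroup.index_eq_card, hj, h7, pow_zero]
        haveI : Subsingleton (A ⧸ Subgroup.center A) := (Nat.card_eq_one_iff_unique.mp h8).1
        infer_instance
      · have h8 : j = 1 := by omega
        rw [h8, pow_one] at hj
        exact cyclic_quot hp hj
    have hcomm := (MonoidHom.isMulCommutative_of_isCyclic_of_ker_le_center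
      (QuotientGroup.mk' (Subgroup.center A)) (by simp)).is_comm.comm
    intro a ha b hb
    have := hcomm ⟨a, ha⟩ ⟨b, hb⟩
    exact congrArg Subtype.val this
  obtain ⟨t, ht⟩ : ∃ t, t ∉ A := by
    by_contra h
    push Not at h
    exact hAtop ((Subgroup.eq_top_iff' A).mpr h)
  have := (comm_card_le hp hAidx hAab ht).trans (hcl t)
  omega

/-- the case of a subgroup `H` of index `p` with `|[H, H]| = p` -/
theorem center_of_breadth_one {p : ℕ} (hp : p.Prime) (hG : IsPGroup p G) {H : Subgroup G}
    (hH : H.index = p) (hcl : ∀ x : G, (Subgroup.centralizer ({x} : Set G)).index ≤ p ^ 2)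
    (hH' : Nat.card (⁅H, H⁆ : Subgroup G) ≤ p) (hG' : p ^ 2 < Nat.card (commutator G)) :
    (Subgroup.center G).index ≤ p ^ 3 := by
  haveI hHn := pgroup_normal hp hG hH
  set N : Subgroup G := ⁅H, H⁆ with hN
  haveI hNn : N.Normal := by
    rw [hN]
    infer_instance
  have hNH : N ≤ H := Subgroup.commutator_le_right H H
  obtain ⟨t, ht⟩ : ∃ t, t ∉ H := by
    by_contra h
    push Not at h
    have h1 : H = ⊤ := by
      rw [Subgroup.eq_top_iff']
      exact h
    rw [h1, Subgroup.index_top] at hH
    exact hp.one_lt.ne hH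
  -- the quotient `G / N`
  set Hq : Subgroup (G ⧸ N) := H.map (QuotientGroup.mk' N) with hHq
  have hmemHq : ∀ g : G, (g : G ⧸ N) ∈ Hq ↔ g ∈ H := by
    intro g
    constructor
    · rintro ⟨h, hh, h1⟩
      rw [QuotientGroup.mk'_apply, QuotientGroup.eq] at h1
      have := H.mul_mem hh (hNH h1)
      rwa [mul_inv_cancel_left] at this
    · intro h
      exact ⟨g, h, rfl⟩
  haveI hHqn : Hq.Normal := hHn.map _ (QuotientGroup.mk'_surjective N)
  have hHqi : Hq.index = p := by
    have h1 : Hq.comap (QuotientGroup.mk' N) = H := by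
      ext g
      rw [Subgroup.mem_comap]
      exact hmemHq g
    have h2 := Subgroup.index_comap_of_surjective Hq (QuotientGroup.mk'_surjective N)
    rw [h1, hH] at h2
    exact h2.symm
  have hHqab : ∀ a ∈ Hq, ∀ b ∈ Hq, a * b = b * a := by
    rintro _ ⟨a, ha, rfl⟩ _ ⟨b, hb, rfl⟩
    have h1 : ⁅a, b⁆ ∈ N := Subgroup.commutator_mem_commutator ha hb
    rw [← QuotientGroup.eq_one_iff, commutatorElement_def] at h1
    simp only [QuotientGroup.mk_mul, QuotientGroup.mk_inv] at h1
    rw [mul_inv_eq_one, mul_inv_eq_iff_eq_mul] at h1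
    exact h1
  -- the centralizer modulo `N`
  let D : G → Subgroup G := fun t =>
    (Subgroup.centralizer ({((t : G) : G ⧸ N)} : Set (G ⧸ N))).comap (QuotientGroup.mk' N)
  have hD : ∀ t g, g ∈ D t ↔ ⁅g, t⁆ ∈ N := by
    intro t g
    rw [Subgroup.mem_comap, Subgroup.mem_centralizer_singleton_iff, ← QuotientGroup.eq_one_iff]
    rw [commutatorElement_def]
    simp only [QuotientGroup.mk'_apply, QuotientGroup.mk_mul, QuotientGroup.mk_inv]
    rw [mul_inv_eq_one, mul_inv_eq_iff_eq_mul]
  have hDi : ∀ t, (D t).index = (Subgroup.centralizer ({((t : G) : G ⧸ N)} : Set (G ⧸ N))).index :=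
    fun t => Subgroup.index_comap_of_surjective _ (QuotientGroup.mk'_surjective N)
  have hCD : ∀ t, Subgroup.centralizer ({t} : Set G) ≤ D t := by
    intro t g hg
    rw [hD, (commutatorElement_eq_one_iff_mul_comm).mpr (Subgroup.mem_centralizer_singleton_iff.mp hg)]
    exact N.one_mem
  have hcardq : p < Nat.card (commutator (G ⧸ N)) := by
    have h1 : (commutator G).map (QuotientGroup.mk' N) = commutator (G ⧸ N) := by
      rw [commutator_def, commutator_def, Subgroup.map_commutator,
        Subgroup.map_top_of_surjective _ (QuotientGroup.mk'_surjective N)]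
    have h2 : Nat.card (commutator G) ≤
        Nat.card ((commutator G).map (QuotientGroup.mk' N)) * Nat.card N := by
      have h3 : N.relIndex (commutator G) = Nat.card ((commutator G).map (QuotientGroup.mk' N)) := by
        have := Subgroup.relIndex_ker (commutator G) (QuotientGroup.mk' N)
        rwa [QuotientGroup.ker_mk'] at this
      rw [← h3]
      have h4 := Subgroup.card_mul_index (N.subgroupOf (commutator G))
      rw [← Subgroup.relIndex] at h4
      rw [← h4, mul_comm]
      apply Nat.mul_le_mul_left
      exact Nat.card_le_card_of_injective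
        (fun x : N.subgroupOf (commutator G) => (⟨x.1.1, x.2⟩ : N)) (by
          intro x y hxy
          have := congrArg Subtype.val hxy
          exact Subtype.ext (Subtype.ext this))
    rw [h1] at h2
    by_contra h3
    push Not at h3
    have h4 := Nat.mul_le_mul h3 hH'
    rw [← pow_two] at h4
    omega
  haveI : Finite (G ⧸ N) := inferInstance
  have hCeq : ∀ t, t ∉ H → D t ≤ Subgroup.centralizer ({t} : Set G) := by
    intro t ht
    have h1 := comm_card_le hp hHqi hHqab (t := (t : G ⧸ N)) (fun h => ht ((hmemHq t).mp h))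
    rw [← hDi] at h1
    have h2 : ¬ (D t).index < p ^ (1 + 1) := by
      intro h3
      have := pow_of_le hp hG (D t) h3
      rw [pow_one] at this
      omega
    have h3 := hcl t
    have h4 := Subgroup.relIndex_mul_index (hCD t)
    have h5 : 0 < (D t).index := Nat.pos_of_ne_zero Subgroup.index_ne_zero_of_finite
    have h6 : (Subgroup.centralizer ({t} : Set G)).relIndex (D t) ≤ 1 := by
      by_contra h7
      push Not at h7
      norm_num at h2
      nlinarith
    have h7 : (Subgroup.centralizer ({t} : Set G)).relIndex (D t) ≠ 0 := by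
      intro h8
      rw [h8, zero_mul] at h4
      exact Subgroup.index_ne_zero_of_finite h4.symm
    have h8 : (Subgroup.centralizer ({t} : Set G)).relIndex (D t) = 1 := by omega
    exact Subgroup.relIndex_eq_one.mp h8
  set Z₀ : Subgroup G := Subgroup.centralizer ({t} : Set G) ⊓ H with hZ₀
  have hZc : Z₀ ≤ Subgroup.center G := by
    intro z hz
    have hzt : z * t = t * z := Subgroup.mem_centralizer_singleton_iff.mp hz.1
    have hzH : ∀ y ∈ H, z * y = y * z := by
      intro y hy
      have h1 : t * y ∉ H := by
        intro h2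
        exact ht ((Subgroup.mul_mem_cancel_right H hy).mp h2)
      have h2 : z ∈ D (t * y) := by
        rw [hD]
        have h3 : ⁅z, t * y⁆ = t * ⁅z, y⁆ * t⁻¹ := by
          rw [commutatorElement_def, commutatorElement_def, mul_inv_rev]
          calc z * (t * y) * z⁻¹ * (y⁻¹ * t⁻¹) = (z * t) * y * z⁻¹ * y⁻¹ * t⁻¹ := by group
            _ = (t * z) * y * z⁻¹ * y⁻¹ * t⁻¹ := by rw [hzt]
            _ = t * (z * y * z⁻¹ * y⁻¹) * t⁻¹ := by group
        rw [h3]
        exact hNn.conj_mem _ (Subgroup.commutator_mem_commutator hz.2 hy) t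
      have h4 := Subgroup.mem_centralizer_singleton_iff.mp (hCeq _ h1 h2)
      have h5 : t * (z * y) = t * (y * z) := by
        rw [← mul_assoc, ← hzt, mul_assoc, h4, mul_assoc]
      exact mul_left_cancel h5
    have h1 : H ≤ Subgroup.centralizer ({z} : Set G) := by
      intro y hy
      rw [Subgroup.mem_centralizer_singleton_iff]
      exact (hzH y hy).symm
    have h2 := Subgroup.relIndex_mul_index h1
    rw [hH] at h2
    have h3 : (Subgroup.centralizer ({z} : Set G)).index = 1 := by
      have h4 : (Subgroup.centralizer ({z} : Set G)).index ∣ p := Dvd.intro_left _ h2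
      rcases (Nat.dvd_prime hp).mp h4 with h5 | h5
      · exact h5
      · exfalso
        rw [h5] at h2
        have h6 : H.relIndex (Subgroup.centralizer ({z} : Set G)) = 1 :=
          Nat.eq_of_mul_eq_mul_right hp.pos (by rw [h2, one_mul])
        rw [Subgroup.relIndex_eq_one] at h6
        apply ht
        apply h6
        rw [Subgroup.mem_centralizer_singleton_iff]
        exact hzt.symm
    rw [Subgroup.mem_center_iff]
    intro g
    have h4 : g ∈ Subgroup.centralizer ({z} : Set G) := by
      rw [Subgroup.index_eq_one.mp h3]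
      exact Subgroup.mem_top g
    exact Subgroup.mem_centralizer_singleton_iff.mp h4
  have hZ₀i : Z₀.index ≤ p ^ 3 := by
    have h1 : Z₀ ≤ H := inf_le_right
    rw [← Subgroup.relIndex_mul_index h1, hH, pow_succ]
    apply Nat.mul_le_mul_right
    rw [hZ₀, Subgroup.inf_relIndex_right]
    exact (relIndex_le_index _ _).trans (hcl t)
  have h1 := Subgroup.relIndex_mul_index hZc
  have h2 : 0 < Z₀.relIndex (Subgroup.center G) := by
    rcases Nat.eq_zero_or_pos (Z₀.relIndex (Subgroup.center G)) with h3 | h3
    · rw [h3, zero_mul] at h1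
      exact absurd h1.symm Subgroup.index_ne_zero_of_finite
    · exact h3
  calc (Subgroup.center G).index ≤ Z₀.relIndex (Subgroup.center G) * (Subgroup.center G).index :=
        Nat.le_mul_of_pos_left _ h2
    _ = Z₀.index := h1
    _ ≤ p ^ 3 := hZ₀i

end

/-- groups in which all classes have at most `p ^ 2` elements -/
theorem breadth_two {p : ℕ} (hp : p.Prime) (n : ℕ) :
    ∀ (G : Type) [Group G] [Finite G], IsPGroup p G → Nat.card G ≤ n →
      (∀ x : G, (Subgroup.centralizer ({x} : Set G)).index ≤ p ^ 2) →
      Nat.card (commutator G) ≤ p ^ 2 ∨ (Subgroup.center G).index ≤ p ^ 3 := by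
  induction n with
  | zero =>
    intro G _ _ _ h
    have : 0 < Nat.card G := Nat.card_pos
    omega
  | succ n ih =>
    intro G _ _ hG hn hcl
    by_cases hle : ∀ x : G, (Subgroup.centralizer ({x} : Set G)).index ≤ p
    · left
      refine (breadth_one hp _ G hG le_rfl hle).trans ?_
      rw [pow_two]
      exact Nat.le_mul_of_pos_left _ hp.pos
    push Not at hle
    obtain ⟨x, hx⟩ := hle
    have hxtop : Subgroup.centralizer ({x} : Set G) ≠ ⊤ := by
      intro h
      rw [h, Subgroup.index_top] at hx
      exact absurd hx (by have := hp.two_le; omega)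
    obtain ⟨H, hH, hCH⟩ := exists_max hp hG hxtop
    haveI hHn := pgroup_normal hp hG hH
    have hHlt : Nat.card H ≤ n := by
      have h1 := H.card_mul_index
      rw [hH] at h1
      have h2 : 0 < Nat.card H := Nat.card_pos
      have h3 := hp.two_le
      nlinarith
    have hHp : IsPGroup p H := hG.to_subgroup H
    have hHcl : ∀ y : H, (Subgroup.centralizer ({y} : Set H)).index ≤ p ^ 2 := by
      intro y
      rw [index_centralizer_sub]
      exact (relIndex_le_index _ _).trans (hcl y)
    by_contra hcon
    push Not at hcon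
    obtain ⟨hG', hZ⟩ := hcon
    by_cases hH1 : ∀ y : H, (Subgroup.centralizer ({y} : Set H)).index ≤ p
    · have h1 := breadth_one hp _ H hHp le_rfl hH1
      rw [card_comm_sub] at h1
      have := center_of_breadth_one hp hG hH hcl h1 hG'
      omega
    push Not at hH1
    obtain ⟨y₀, hy₀⟩ := hH1
    -- `[H, G] ≤ [H, H]`
    have hY : ∀ x ∈ H, ∀ g : G, ⁅x, g⁆ ∈ ⁅H, H⁆ := by
      by_contra hY
      push Not at hY
      obtain ⟨h, hh, g, hg⟩ := hY
      -- elements outside `zmod [H, H]` have small classes in `H`
      have key : ∀ y : H, (∃ g : G, ⁅(y : G), g⁆ ∉ ⁅H, H⁆) →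
          (Subgroup.centralizer ({y} : Set H)).index ≤ p := by
        intro y hg
        obtain ⟨g, hg⟩ := hg
        have h1 : ¬ (Subgroup.centralizer ({(y : G)} : Set G)).index ≤
            (Subgroup.centralizer ({(y : G)} : Set G)).relIndex H := by
          intro h2
          exact hg (mem_of_class hp hH y.2 h2 g)
        have h2 := hcl y
        have h3 : (Subgroup.centralizer ({y} : Set H)).index < p ^ (1 + 1) := by
          rw [index_centralizer_sub]
          norm_num
          omega
        have := pow_of_le hp hHp _ h3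
        rwa [pow_one] at this
      have hsm : ∀ y : G, y ∈ H → (∃ g : G, ⁅y, g⁆ ∉ ⁅H, H⁆) → ∀ a ∈ H, (∀ g : G, ⁅a, g⁆ ∈ ⁅H, H⁆) →
          ∃ g : G, ⁅y * a, g⁆ ∉ ⁅H, H⁆ := by
        intro y hy hg a ha ha2
        obtain ⟨g, hg⟩ := hg
        refine ⟨g, ?_⟩
        intro h6
        apply hg
        have h9 : ⁅y * a, g⁆ = y * ⁅a, g⁆ * y⁻¹ * ⁅y, g⁆ := by
          rw [commutatorElement_def, commutatorElement_def, commutatorElement_def]
          group
        rw [h9] at h6
        have h10 : y * ⁅a, g⁆ * y⁻¹ ∈ ⁅H, H⁆ :=
          (inferInstance : (⁅H, H⁆ : Subgroup G).Normal).conj_mem _ (ha2 g) y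
        exact (Subgroup.mul_mem_cancel_left _ h10).mp h6
      have hy₀2 : ∀ g : G, ⁅(y₀ : G), g⁆ ∈ ⁅H, H⁆ := by
        by_contra h1
        push Not at h1
        have := key y₀ h1
        omega
      -- the centralizer of `y₀` in `H` centralizes the elements outside `zmod [H, H]`
      have hcen : ∀ h : H, (∃ g : G, ⁅(h : G), g⁆ ∉ ⁅H, H⁆) →
          Subgroup.centralizer ({y₀} : Set H) ≤ Subgroup.centralizer ({h} : Set H) := by
        intro h hg
        have h1 := key h hg
        have h2 := key (h * y₀) (hsm h h.2 hg y₀ y₀.2 hy₀2)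
        set C₁ := Subgroup.centralizer ({h} : Set H) with hC₁
        set C₂ := Subgroup.centralizer ({h * y₀} : Set H) with hC₂
        have h3 : C₁ ⊓ C₂ ≤ Subgroup.centralizer ({y₀} : Set H) := by
          intro c hc
          have h4 := Subgroup.mem_centralizer_singleton_iff.mp hc.1
          have h5 := Subgroup.mem_centralizer_singleton_iff.mp hc.2
          rw [Subgroup.mem_centralizer_singleton_iff]
          have h6 : h * (c * y₀) = h * (y₀ * c) := by
            rw [← mul_assoc, ← h4, mul_assoc, h5, mul_assoc]
          exact mul_left_cancel h6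
        have h4 : (C₁ ⊓ C₂).index ≤ p ^ 2 := by
          refine (Subgroup.index_inf_le).trans ?_
          rw [pow_two]
          exact Nat.mul_le_mul h1 h2
        have h5 : ¬ (Subgroup.centralizer ({y₀} : Set H)).index < p ^ (1 + 1) := by
          intro h6
          have := pow_of_le hp hHp _ h6
          rw [pow_one] at this
          omega
        have h6 := Subgroup.relIndex_mul_index h3
        have h7 : (C₁ ⊓ C₂).relIndex (Subgroup.centralizer ({y₀} : Set H)) ≤ 1 := by
          by_contra h8
          push Not at h8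
          have h9 : 0 < p ^ 2 := pow_pos hp.pos 2
          norm_num at h5
          nlinarith
        have h8 : (C₁ ⊓ C₂).relIndex (Subgroup.centralizer ({y₀} : Set H)) ≠ 0 := by
          intro h9
          rw [h9, zero_mul] at h6
          exact Subgroup.index_ne_zero_of_finite h6.symm
        have h9 : (C₁ ⊓ C₂).relIndex (Subgroup.centralizer ({y₀} : Set H)) = 1 := by omega
        rw [Subgroup.relIndex_eq_one] at h9
        exact h9.trans inf_le_left
      -- hence `y₀` is central in `H`
      have hcenall : ∀ a : H, a * y₀ = y₀ * a := by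
        intro a
        have hy₀c : y₀ ∈ Subgroup.centralizer ({y₀} : Set H) := by
          rw [Subgroup.mem_centralizer_singleton_iff]
        by_cases ha : ∃ g : G, ⁅(a : G), g⁆ ∉ ⁅H, H⁆
        · exact (Subgroup.mem_centralizer_singleton_iff.mp (hcen a ha hy₀c)).symm
        · push Not at ha
          have h1 := Subgroup.mem_centralizer_singleton_iff.mp (hcen ⟨h, hh⟩ ⟨g, hg⟩ hy₀c)
          have h2 := Subgroup.mem_centralizer_singleton_iff.mp
            (hcen (⟨h, hh⟩ * a) (hsm h hh ⟨g, hg⟩ a a.2 ha) hy₀c)
          have h3 : (⟨h, hh⟩ : H) * (y₀ * a) = ⟨h, hh⟩ * (a * y₀) := by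
            rw [← mul_assoc, ← h1, mul_assoc, h2, mul_assoc]
          exact (mul_left_cancel h3).symm
      have : (Subgroup.centralizer ({y₀} : Set H)).index = 1 := by
        rw [Subgroup.index_eq_one, Subgroup.eq_top_iff']
        intro a
        rw [Subgroup.mem_centralizer_singleton_iff]
        exact hcenall a
      rw [this] at hy₀
      have := hp.two_le
      omega
    have hcomm := comm_le_of_le hp (Subgroup.commutator_le_right H H) hH hY
    have hcard : Nat.card (commutator G) ≤ Nat.card (commutator H) := by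
      rw [card_comm_sub]
      exact Subgroup.card_le_of_le hcomm
    rcases ih H hHp hHlt hHcl with h1 | h1
    · omega
    · have hxH : x ∈ H := hCH (by rw [Subgroup.mem_centralizer_singleton_iff])
      have h2 : (Subgroup.centralizer ({(⟨x, hxH⟩ : H)} : Set H)).index ≤ p := by
        rw [index_centralizer_sub]
        have h3 := Subgroup.relIndex_mul_index hCH
        rw [hH] at h3
        have h4 := hcl x
        rw [← h3, pow_two] at h4
        exact Nat.le_of_mul_le_mul_right h4 hp.pos
      have h3 := central_of_small hp hHp hHcl h1 (by omega) h2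
      -- then `H` centralizes `x`, so `|G : C(x)| ≤ p`
      have h4 : H ≤ Subgroup.centralizer ({x} : Set G) := by
        intro a ha
        rw [Subgroup.mem_centralizer_singleton_iff]
        exact congrArg Subtype.val (Subgroup.mem_center_iff.mp h3 ⟨a, ha⟩)
      have h5 := Subgroup.relIndex_mul_index h4
      rw [hH] at h5
      have h6 : (Subgroup.centralizer ({x} : Set G)).index ∣ p := Dvd.intro_left _ h5
      have := Nat.le_of_dvd hp.pos h6
      omega

end Run7.h528
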