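import Mathlib

/-!
# A rank inequality for pencils
-/

set_option autoImplicit false
set_option linter.unusedSectionVars false

open scoped BigOperators Classical

noncomputable section

namespace Run7.h528

variable {F : Type} [Field F] {V U : Type} [AddCommGroup V] [Module F V] [FiniteDimensional F V]
  [AddCommGroup U] [Module F U]

/-- vectors from different members of the pencil are independent modulo the kernel of `B₀` -/
theorem pencil_indep (B₀ B₁ : V →ₗ[F] U) (V' : Submodule F V)
    (hV' : Disjoint V' (LinearMap.ker B₀)) {ι : Type} (s : Finset ι) (t : ι → F) :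
    ∀ (_ : ∀ i ∈ s, ∀ j ∈ s, t i = t j → i = j) (k : ι → V),
      (∀ i ∈ s, k i ∈ V' ∧ B₁ (k i) = t i • B₀ (k i)) → ∑ i ∈ s, k i = 0 → ∀ i ∈ s, k i = 0 := by
  induction s using Finset.induction_on with
  | empty => simp
  | insert a s ha ih =>
    intro ht k hk hsum
    have h1 : ∑ i ∈ insert a s, t i • k i = 0 := by
      have h2 : ∑ i ∈ insert a s, t i • k i ∈ V' :=
        Submodule.sum_mem _ fun i hi => V'.smul_mem _ (hk i hi).1
      have h3 : ∑ i ∈ insert a s, t i • k i ∈ LinearMap.ker B₀ := by
        rw [LinearMap.mem_ker, map_sum]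
        have h4 : ∑ i ∈ insert a s, B₀ (t i • k i) = B₁ (∑ i ∈ insert a s, k i) := by
          rw [map_sum]
          refine Finset.sum_congr rfl fun i hi => ?_
          rw [map_smul, (hk i hi).2]
        rw [h4, hsum, map_zero]
      exact (Submodule.disjoint_def.mp hV') _ h2 h3
    have h5 : ∑ i ∈ s, (t i - t a) • k i = 0 := by
      have h6 : ∑ i ∈ insert a s, (t i - t a) • k i = 0 := by
        simp only [sub_smul, Finset.sum_sub_distrib]
        rw [h1, ← Finset.smul_sum, hsum, smul_zero, sub_zero]
      rw [Finset.sum_insert ha, sub_self, zero_smul, zero_add] at h6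
      exact h6
    have h7 := ih (fun i hi j hj => ht i (Finset.mem_insert_of_mem hi) j (Finset.mem_insert_of_mem hj))
      (fun i => (t i - t a) • k i) (fun i hi => by
        obtain ⟨h8, h9⟩ := hk i (Finset.mem_insert_of_mem hi)
        refine ⟨V'.smul_mem _ h8, ?_⟩
        simp only [map_smul]
        rw [h9, smul_comm]) h5
    have h8 : ∀ i ∈ s, k i = 0 := by
      intro i hi
      have h9 := h7 i hi
      refine (smul_eq_zero.mp h9).resolve_left ?_
      intro h10
      have h11 := ht i (Finset.mem_insert_of_mem hi) a (Finset.mem_insert_self a s)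
        (sub_eq_zero.mp h10)
      rw [h11] at hi
      exact ha hi
    intro i hi
    rcases Finset.mem_insert.mp hi with rfl | hi
    · rw [Finset.sum_insert ha, Finset.sum_eq_zero h8, add_zero] at hsum
      exact hsum
    · exact h8 i hi

/-- the rank drops of the members of a pencil add up to at most the rank of `B₀` -/
theorem pencil_rank (B₀ B₁ : V →ₗ[F] U) {ι : Type} (s : Finset ι) (t : ι → F)
    (ht : ∀ i ∈ s, ∀ j ∈ s, t i = t j → i = j) :
    ∑ i ∈ s, (Module.finrank F (LinearMap.range B₀) -
      Module.finrank F (LinearMap.range (B₁ - t i • B₀))) ≤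
        Module.finrank F (LinearMap.range B₀) := by
  obtain ⟨V', hV'⟩ := Submodule.exists_isCompl (LinearMap.ker B₀)
  have hdim : Module.finrank F V' = Module.finrank F (LinearMap.range B₀) := by
    have h1 := Submodule.finrank_add_eq_of_isCompl hV'
    have h2 := LinearMap.finrank_range_add_finrank_ker B₀
    omega
  let K : s → Submodule F V := fun i => V' ⊓ LinearMap.ker (B₁ - t i • B₀)
  have hK : ∀ i : s, Module.finrank F (LinearMap.range B₀) -
      Module.finrank F (LinearMap.range (B₁ - t i • B₀)) ≤ Module.finrank F (K i) := by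
    intro i
    have h1 := Submodule.finrank_sup_add_finrank_inf_eq V' (LinearMap.ker (B₁ - t i • B₀))
    have h2 := LinearMap.finrank_range_add_finrank_ker (B₁ - t i • B₀)
    have h3 := Submodule.finrank_le (V' ⊔ LinearMap.ker (B₁ - t i • B₀))
    rw [← hdim]
    change _ ≤ Module.finrank F ((V' ⊓ LinearMap.ker (B₁ - t i • B₀) : Submodule F V))
    omega
  let Ψ : (∀ i : s, K i) →ₗ[F] V' :=
    { toFun := fun k => ∑ i : s, (⟨(k i : V), (k i).2.1⟩ : V')
      map_add' := by
        intro x y
        rw [← Finset.sum_add_distrib]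
        rfl
      map_smul' := by
        intro c x
        rw [RingHom.id_apply, Finset.smul_sum]
        rfl }
  have hinj : Function.Injective Ψ := by
    rw [← LinearMap.ker_eq_bot, LinearMap.ker_eq_bot']
    intro k hk
    have h1 : ∑ i : s, (k i : V) = 0 := by
      have := congrArg Subtype.val hk
      simpa [Ψ] using this
    have h2 := pencil_indep B₀ B₁ V' hV'.symm.disjoint (Finset.univ : Finset s) (fun i => t i)
      (by
        intro i _ j _ hij
        exact Subtype.ext (ht i i.2 j j.2 hij)) (fun i => (k i : V)) (by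
        intro i _
        refine ⟨(k i).2.1, ?_⟩
        have h3 : (k i : V) ∈ LinearMap.ker (B₁ - t i • B₀) := (k i).2.2
        rw [LinearMap.mem_ker, LinearMap.sub_apply, LinearMap.smul_apply, sub_eq_zero] at h3
        exact h3) h1
    funext i
    exact Subtype.ext (h2 i (Finset.mem_univ i))
  have h1 := LinearMap.finrank_le_finrank_of_injective hinj
  rw [Module.finrank_pi_fintype, hdim] at h1
  calc ∑ i ∈ s, (Module.finrank F (LinearMap.range B₀) -
      Module.finrank F (LinearMap.range (B₁ - t i • B₀)))
      = ∑ i : s, (Module.finrank F (LinearMap.range B₀) -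
      Module.finrank F (LinearMap.range (B₁ - t i • B₀))) := by
        rw [← Finset.sum_coe_sort]
    _ ≤ ∑ i : s, Module.finrank F (K i) := Finset.sum_le_sum fun i _ => hK i
    _ ≤ _ := h1

end Run7.h528
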