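import Mathlib
import Pool.Agent.Run7.h528.Breadth
import Pool.Agent.Run7.h528.PencilLA

/-!
# Groups with a commutator subgroup of order at most `p ^ 2`
-/

set_option autoImplicit false
set_option linter.unusedSectionVars false
set_option linter.style.haveILetI false

open scoped BigOperators Classical ComplexConjugate commutatorElement
open Pool.Agent.Helper884.IC

noncomputable section

namespace Run7.h528

variable {G : Type} [Group G] [Fintype G]

/-- the elements of the commutator subgroup in the kernel of `χ` -/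
def kerc (χ : G → ℂ) : Subgroup G where
  carrier := {n | n ∈ commutator G ∧ ∀ g, χ (n * g) = χ g}
  one_mem' := ⟨Subgroup.one_mem _, fun g => by rw [one_mul]⟩
  mul_mem' := by
    rintro x y ⟨hx, hx2⟩ ⟨hy, hy2⟩
    exact ⟨Subgroup.mul_mem _ hx hy, fun g => by rw [mul_assoc, hx2, hy2]⟩
  inv_mem' := by
    rintro x ⟨hx, hx2⟩
    exact ⟨Subgroup.inv_mem _ hx, fun g => by
      have := hx2 (x⁻¹ * g)
      rw [mul_inv_cancel_left] at this
      exact this.symm⟩

theorem mem_kerc {χ : G → ℂ} {n : G} :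
    n ∈ kerc χ ↔ n ∈ commutator G ∧ ∀ g, χ (n * g) = χ g := Iff.rfl

theorem kerc_le (χ : G → ℂ) : kerc χ ≤ commutator G := fun _ h => h.1

theorem kerc_normal {χ : G → ℂ} (h : IsIrrChar χ) : (kerc χ).Normal := by
  constructor
  rintro n ⟨hn, hn2⟩ y
  refine ⟨(inferInstance : (commutator G).Normal).conj_mem n hn y, ?_⟩
  intro g
  have h1 := h.isClass (n * (y⁻¹ * g * y)) y
  have h2 := h.isClass (y⁻¹ * g * y) y
  have h3 : y * (n * (y⁻¹ * g * y)) * y⁻¹ = y * n * y⁻¹ * g := by group
  have h4 : y * (y⁻¹ * g * y) * y⁻¹ = g := by group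
  rw [h3, hn2] at h1
  rw [h4] at h2
  rw [h1, h2]

theorem kerc_triv (χ : G → ℂ) : Triv (kerc χ) χ := fun _ hn g => hn.2 g

theorem kerc_ne {χ : G → ℂ} (h : IsIrrChar χ) (hd : dg χ ≠ 1) : kerc χ ≠ commutator G := by
  intro h1
  apply hd
  rw [← triv_comm_iff h]
  intro n hn g
  rw [← h1] at hn
  exact hn.2 g

/-- an element that is central modulo `K` acts as a scalar -/
theorem scalar_of_zmod {χ : G → ℂ} (h : IsIrrChar χ) (K : Subgroup G) [hK : K.Normal]
    (hT : Triv K χ) {x : G} (hx : x ∈ zmod K) :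
    ∃ c : ℂ, ‖c‖ = 1 ∧ ∀ g, χ (x * g) = c * χ g := by
  obtain ⟨V, _, _, _, ρ, hρ, rfl⟩ := h
  have h1 := (triv_iff_rep ρ hρ K).mp hT
  obtain ⟨c, -, hc, hc2⟩ := central_scalar ρ hρ x (by
    intro g
    rw [← map_mul, ← map_mul]
    have h2 : x * g = ⁅x, g⁆ * (g * x) := by simp only [commutatorElement_def]; group
    rw [h2, map_mul, h1 _ (hx g), one_mul])
  exact ⟨c, hc, hc2⟩

/-- the values off `zmod (kerc χ)` vanish when the commutator subgroup is central modulo `kerc χ` -/
theorem zero_off {χ : G → ℂ} (h : IsIrrChar χ) (K : Subgroup G) [hK : K.Normal] (hT : Triv K χ)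
    {x y : G} (hc : ⁅x, y⁆ ∈ zmod K) (hn : ⁅x, y⁆ ∉ kerc χ) : χ x = 0 := by
  obtain ⟨c, -, hc2⟩ := scalar_of_zmod h K hT hc
  have hc1 : c ≠ 1 := by
    rintro rfl
    apply hn
    refine ⟨?_, fun g => by rw [hc2, one_mul]⟩
    rw [commutator_def]
    exact Subgroup.commutator_mem_commutator (Subgroup.mem_top x) (Subgroup.mem_top y)
  have h1 : ⁅x, y⁆ * (y * x * y⁻¹) = x := by
    rw [commutatorElement_def]
    group
  have h2 := hc2 (y * x * y⁻¹)
  rw [h1, h.isClass x y] at h2
  have h3 : (c - 1) * χ x = 0 := by rw [sub_mul, one_mul, ← h2, sub_self]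
  exact (mul_eq_zero.mp h3).resolve_left (sub_ne_zero.mpr hc1)

theorem dg_sq {χ : G → ℂ} (h : IsIrrChar χ) [hK : (kerc χ).Normal]
    (hcen : commutator G ≤ zmod (kerc χ)) : (dg χ) ^ 2 = (zmod (kerc χ)).index := by
  have h1 := orth1_norm h
  have h2 : ∀ x, ‖χ x‖ ^ 2 = if x ∈ zmod (kerc χ) then ((dg χ : ℝ)) ^ 2 else 0 := by
    intro x
    by_cases hx : x ∈ zmod (kerc χ)
    · rw [if_pos hx, norm_of_zmod h _ (kerc_triv χ) hx]
    · rw [if_neg hx]
      rw [mem_zmod] at hx
      push Not at hx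
      obtain ⟨y, hy⟩ := hx
      have h3 : ⁅x, y⁆ ∈ commutator G := by
        rw [commutator_def]
        exact Subgroup.commutator_mem_commutator (Subgroup.mem_top x) (Subgroup.mem_top y)
      rw [zero_off h _ (kerc_triv χ) (hcen h3) hy, norm_zero]
      norm_num
  rw [Finset.sum_congr rfl (fun x _ => h2 x), Finset.sum_ite, Finset.sum_const, Finset.sum_const_zero,
    add_zero, nsmul_eq_mul] at h1
  have h3 : (Finset.univ.filter (fun x => x ∈ zmod (kerc χ))).card = Nat.card (zmod (kerc χ)) := by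
    rw [Nat.card_eq_fintype_card, Fintype.card_subtype]
  rw [h3] at h1
  have h4 : Nat.card (zmod (kerc χ)) * (dg χ) ^ 2 = Nat.card G := by exact_mod_cast h1
  have h5 := (zmod (kerc χ)).card_mul_index
  rw [← h5] at h4
  exact Nat.eq_of_mul_eq_mul_left Nat.card_pos h4

/-- a normal subgroup `K` of index `p` in the commutator subgroup -/
theorem central_of_relIndex {p : ℕ} (hp : p.Prime) (hG : IsPGroup p G) (K : Subgroup G)
    [hK : K.Normal] (hKc : K ≤ commutator G) (h : K.relIndex (commutator G) = p) :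
    commutator G ≤ zmod K := by
  have h1 : ¬ commutator G ≤ K := by
    intro h1
    rw [Subgroup.relIndex_eq_one.mpr h1] at h
    exact hp.one_lt.ne h
  obtain ⟨z, hz, hzK, hzc⟩ := exists_central_mod hp hG K (commutator G) h1
  set Q : Subgroup G := zmod K ⊓ commutator G with hQ
  have hKQ : K ≤ Q := le_inf (le_zmod K) hKc
  have h2 := Subgroup.relIndex_mul_relIndex K Q (commutator G) hKQ inf_le_right
  rw [h] at h2
  have h3 : K.relIndex Q ≠ 1 := by
    intro h4
    rw [Subgroup.relIndex_eq_one] at h4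
    exact hzK (h4 ⟨hzc, hz⟩)
  have h4 : Q.relIndex (commutator G) = 1 := by
    have h5 : Q.relIndex (commutator G) ∣ p := Dvd.intro_left _ h2
    rcases (Nat.dvd_prime hp).mp h5 with h6 | h6
    · exact h6
    · exfalso
      rw [h6] at h2
      exact h3 (Nat.eq_of_mul_eq_mul_right hp.pos (by rw [h2, one_mul]))
  exact (Subgroup.relIndex_eq_one.mp h4).trans inf_le_left

theorem zmod_bot : zmod (⊥ : Subgroup G) = Subgroup.center G := by
  ext x
  rw [mem_zmod, Subgroup.mem_center_iff]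
  refine forall_congr' fun g => ?_
  rw [Subgroup.mem_bot, commutatorElement_eq_one_iff_mul_comm]
  exact eq_comm

theorem dg_sq_le {χ : G → ℂ} (h : IsIrrChar χ) : (dg χ) ^ 2 ≤ (Subgroup.center G).index := by
  have h1 := orth1_norm h
  have hT : Triv (⊥ : Subgroup G) χ := by
    intro n hn g
    rw [Subgroup.mem_bot] at hn
    rw [hn, one_mul]
  have h2 : ∀ x, (if x ∈ Subgroup.center G then ((dg χ : ℝ)) ^ 2 else 0) ≤ ‖χ x‖ ^ 2 := by
    intro x
    by_cases hx : x ∈ Subgroup.center G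
    · rw [if_pos hx]
      rw [← zmod_bot] at hx
      rw [norm_of_zmod h _ hT hx]
    · rw [if_neg hx]
      positivity
  have h3 := Finset.sum_le_sum (fun x (_ : x ∈ Finset.univ) => h2 x)
  rw [h1, Finset.sum_ite, Finset.sum_const, Finset.sum_const_zero, add_zero, nsmul_eq_mul] at h3
  have h4 : (Finset.univ.filter (fun x => x ∈ Subgroup.center G)).card =
      Nat.card (Subgroup.center G) := by
    rw [Nat.card_eq_fintype_card, Fintype.card_subtype]
  rw [h4] at h3
  have h5 : Nat.card (Subgroup.center G) * (dg χ) ^ 2 ≤ Nat.card G := by exact_mod_cast h3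
  have h6 := (Subgroup.center G).card_mul_index
  rw [← h6] at h5
  exact Nat.le_of_mul_le_mul_left h5 Nat.card_pos

theorem card_kerc {p : ℕ} (hp : p.Prime) (hG : IsPGroup p G)
    (hcard : Nat.card (commutator G) ≤ p ^ 2) {χ : G → ℂ} (h : IsIrrChar χ) (hd : dg χ ≠ 1) :
    (kerc χ).relIndex (commutator G) = p ∨
      (kerc χ = ⊥ ∧ Nat.card (commutator G) = p ^ 2) := by
  have h1 : (kerc χ).relIndex (commutator G) ≠ 1 := by
    intro h2
    rw [Subgroup.relIndex_eq_one] at h2
    exact kerc_ne h hd (le_antisymm (kerc_le χ) h2)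
  obtain ⟨i, hi⟩ : ∃ i, (kerc χ).relIndex (commutator G) = p ^ i := by
    rw [Subgroup.relIndex]
    exact pgroup_index hp (hG.to_subgroup _) _
  have h2 : (kerc χ).relIndex (commutator G) ∣ Nat.card (commutator G) :=
    Subgroup.relIndex_dvd_card _ _
  have h3 : p ^ i ≤ p ^ 2 := by
    rw [← hi]
    exact (Nat.le_of_dvd Nat.card_pos h2).trans hcard
  have h4 : i ≤ 2 := (Nat.pow_le_pow_iff_right hp.one_lt).mp h3
  have h5 : i ≠ 0 := by
    rintro rfl
    exact h1 hi
  have h6 : i = 1 ∨ i = 2 := by omega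
  rcases h6 with rfl | rfl
  · left
    rw [hi, pow_one]
  · right
    have h7 : Nat.card (commutator G) = p ^ 2 := by
      apply le_antisymm hcard
      rw [← hi]
      exact Nat.le_of_dvd Nat.card_pos h2
    refine ⟨?_, h7⟩
    have h8 := Subgroup.card_mul_index ((kerc χ).subgroupOf (commutator G))
    rw [← Subgroup.relIndex, hi, h7] at h8
    have h9 : Nat.card ((kerc χ).subgroupOf (commutator G)) = 1 :=
      Nat.eq_of_mul_eq_mul_right (pow_pos hp.pos 2) (by rw [h8, one_mul])
    have h10 := Subgroup.card_eq_one.mp h9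
    rw [Subgroup.subgroupOf_eq_bot] at h10
    exact h10.eq_bot_of_le (kerc_le χ)

theorem relIndex_of_ne {p : ℕ} (hp : p.Prime) (hG : IsPGroup p G)
    (hcard : Nat.card (commutator G) = p ^ 2) {N : Subgroup G} (hN : N ≤ commutator G)
    (h1 : N ≠ ⊥) (h2 : N ≠ commutator G) : Nat.card N = p ∧ N.relIndex (commutator G) = p := by
  haveI : Fact p.Prime := ⟨hp⟩
  have h3 : Nat.card N * N.relIndex (commutator G) = p ^ 2 := by
    rw [← hcard, ← Subgroup.card_mul_index (N.subgroupOf (commutator G)), ← Subgroup.relIndex]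
    congr 1
    exact (Nat.card_congr (Subgroup.subgroupOfEquivOfLe hN).toEquiv).symm
  obtain ⟨m, hm⟩ := IsPGroup.iff_card.mp (hG.to_subgroup N)
  have h4 : m ≠ 0 := by
    rintro rfl
    rw [pow_zero] at hm
    exact h1 (Subgroup.card_eq_one.mp hm)
  have h5 : N.relIndex (commutator G) ≠ 1 := by
    intro h6
    rw [Subgroup.relIndex_eq_one] at h6
    exact h2 (le_antisymm hN h6)
  have h6 : m < 2 := by
    by_contra h7
    push Not at h7
    have h8 : p ^ 2 ≤ p ^ m := Nat.pow_le_pow_right hp.pos h7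
    rw [hm] at h3
    have h9 : 0 < N.relIndex (commutator G) := by
      rcases Nat.eq_zero_or_pos (N.relIndex (commutator G)) with h10 | h10
      · rw [h10, mul_zero] at h3
        exact absurd h3.symm (pow_pos hp.pos 2).ne'
      · exact h10
    have h10 : 2 ≤ N.relIndex (commutator G) := by omega
    have := pow_pos hp.pos 2
    nlinarith
  have h7 : m = 1 := by omega
  rw [h7, pow_one] at hm
  refine ⟨hm, ?_⟩
  rw [hm, pow_two] at h3
  exact Nat.eq_of_mul_eq_mul_left hp.pos h3

theorem dg_eq_noncentral {p : ℕ} (hp : p.Prime) (hG : IsPGroup p G)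
    (hcard : Nat.card (commutator G) = p ^ 2) (hnc : ¬ commutator G ≤ Subgroup.center G)
    {χ φ : G → ℂ} (hχ : IsIrrChar χ) (hφ : IsIrrChar φ) (hkχ : kerc χ = ⊥) (hkφ : kerc φ = ⊥) :
    dg χ = dg φ := by
  haveI : Fact p.Prime := ⟨hp⟩
  set N : Subgroup G := commutator G ⊓ Subgroup.center G with hN
  haveI hNn : N.Normal := by
    rw [hN]
    infer_instance
  have hcne : ∃ x ∈ commutator G, x ≠ 1 := by
    by_contra h
    push Not at h
    apply hnc
    intro x hx
    rw [h x hx]
    exact Subgroup.one_mem _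
  obtain ⟨z, hz, hz1, hzc⟩ := exists_central_in_normal hG (commutator G) inferInstance hcne
  have hzZ : z ∈ Subgroup.center G := by
    rw [Subgroup.mem_center_iff]
    intro g
    have := hzc g
    rw [mul_inv_eq_iff_eq_mul] at this
    exact this
  have hzN : z ∈ N := ⟨hz, hzZ⟩
  obtain ⟨hNc, hNi⟩ := relIndex_of_ne hp hG hcard (N := N) inf_le_left (by
    intro h
    rw [h, Subgroup.mem_bot] at hzN
    exact hz1 hzN) (by
    intro h
    exact hnc (by
      rw [← h]
      exact inf_le_right))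
  have hcen := central_of_relIndex hp hG N inf_le_left hNi
  have hTχ : Triv (⊥ : Subgroup G) χ := by
    rw [← hkχ]
    exact kerc_triv χ
  have hTφ : Triv (⊥ : Subgroup G) φ := by
    rw [← hkφ]
    exact kerc_triv φ
  have hgen : Subgroup.zpowers z = N := by
    apply Subgroup.eq_of_le_of_card_ge
    · rw [Subgroup.zpowers_le]
      exact hzN
    · rw [hNc]
      have h1 : Nat.card (Subgroup.zpowers z) ∣ Nat.card N :=
        Subgroup.card_dvd_of_le (by rw [Subgroup.zpowers_le]; exact hzN)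
      rw [hNc] at h1
      rcases (Nat.dvd_prime hp).mp h1 with h2 | h2
      · exfalso
        rw [Subgroup.card_eq_one, Subgroup.zpowers_eq_bot] at h2
        exact hz1 h2
      · exact h2.ge
  have hzp : z ^ p = 1 := by
    have h1 := pow_card_eq_one' (x := (⟨z, hzN⟩ : N))
    rw [hNc] at h1
    exact congrArg Subtype.val h1
  -- the scalars of `z`
  have hscal : ∀ θ : G → ℂ, IsIrrChar θ → kerc θ = ⊥ → Triv (⊥ : Subgroup G) θ →
      ∃ ω : ℂ, ω ≠ 1 ∧ ω ^ p = 1 ∧ ∀ g, θ (z * g) = ω * θ g := by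
    intro θ hθ hk hT
    obtain ⟨ω, hω, hω2⟩ := scalar_of_zmod hθ ⊥ hT (x := z) (by rw [zmod_bot]; exact hzZ)
    refine ⟨ω, ?_, ?_, hω2⟩
    · rintro rfl
      have h1 : z ∈ kerc θ := ⟨hz, fun g => by rw [hω2, one_mul]⟩
      rw [hk, Subgroup.mem_bot] at h1
      exact hz1 h1
    · have hpow : ∀ n : ℕ, ∀ g, θ (z ^ n * g) = ω ^ n * θ g := by
        intro n
        induction n with
        | zero => intro g; simp
        | succ n ih =>
          intro g
          rw [pow_succ, mul_assoc, ih, hω2, pow_succ, mul_assoc]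
      have h2 := hpow p 1
      rw [hzp, one_mul] at h2
      have h3 : θ 1 ≠ 0 := by
        rw [dg_spec hθ]
        exact_mod_cast (dg_pos hθ).ne'
      apply mul_right_cancel₀ h3
      rw [← h2, one_mul]
  obtain ⟨ω, hω1, hωp, hω⟩ := hscal χ hχ hkχ hTχ
  obtain ⟨ω', hω'1, hω'p, hω'⟩ := hscal φ hφ hkφ hTφ
  have hprim : IsPrimitiveRoot ω' p := by
    rw [IsPrimitiveRoot.iff_def]
    refine ⟨hω'p, ?_⟩
    intro l hl
    rcases (Nat.coprime_or_dvd_of_prime hp l) with h1 | h1
    · exfalso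
      apply hω'1
      have h2 : orderOf ω' ∣ Nat.gcd p l :=
        Nat.dvd_gcd (orderOf_dvd_of_pow_eq_one hω'p) (orderOf_dvd_of_pow_eq_one hl)
      rw [Nat.Coprime] at h1
      rw [h1, Nat.dvd_one] at h2
      exact orderOf_eq_one_iff.mp h2
    · exact h1
  haveI : NeZero p := ⟨hp.ne_zero⟩
  obtain ⟨k, hk, hkω⟩ := hprim.eq_pow_of_pow_eq_one hωp
  have hk0 : k ≠ 0 := by
    rintro rfl
    rw [pow_zero] at hkω
    exact hω1 hkω.symm
  obtain ⟨σ, hσ⟩ := exists_pow_aut p k hp.pos (by
    rw [Nat.coprime_comm, Nat.Prime.coprime_iff_not_dvd hp]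
    intro hdvd
    have := Nat.le_of_dvd (Nat.pos_of_ne_zero hk0) hdvd
    omega)
  set ψ : G → ℂ := fun g => σ (φ g) with hψdef
  have hψ : IsIrrChar ψ := Pool.Agent.Q90.WR.irr_gal _ hφ
  have hψd : dg ψ = dg φ := dg_gal hφ σ
  have hψz : ∀ g, ψ (z * g) = ω * ψ g := by
    intro g
    change σ (φ (z * g)) = ω * σ (φ g)
    rw [hω', map_mul, hσ _ hω'p, hkω]
  rw [← hψd]
  by_contra hne
  have horth := orth_comm hχ hψ hne
  -- zero off `N`
  have hzero : ∀ n : commutator G, (n : G) ∉ N → χ n = 0 := by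
    intro n hn
    have h1 : (n : G) ∉ Subgroup.center G := fun h => hn ⟨n.2, h⟩
    rw [Subgroup.mem_center_iff] at h1
    push Not at h1
    obtain ⟨g, hg⟩ := h1
    have h2 : ⁅(n : G), g⁆ ∈ N := hcen n.2 g
    apply zero_off hχ ⊥ hTχ (x := n) (y := g)
    · rw [zmod_bot]
      exact h2.2
    · rw [hkχ, Subgroup.mem_bot, commutatorElement_eq_one_iff_mul_comm]
      exact fun h => hg h.symm
  have hval : ∀ n : G, n ∈ N → χ n * ψ n⁻¹ = χ 1 * ψ 1 := by
    intro n hn
    rw [← hgen, Subgroup.mem_zpowers_iff] at hn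
    obtain ⟨j, rfl⟩ := hn
    have hω0 : ω ≠ 0 := by
      rintro rfl
      rw [zero_pow hp.ne_zero] at hωp
      exact zero_ne_one hωp
    have hzz : ∀ θ : G → ℂ, (∀ g, θ (z * g) = ω * θ g) → ∀ j : ℤ, θ (z ^ j) = ω ^ j * θ 1 := by
      intro θ hθ j
      induction j using Int.induction_on with
      | zero => simp
      | succ i ih =>
        rw [add_comm, zpow_add, zpow_one, hθ, ih, zpow_add₀ hω0, zpow_one]
        ring
      | pred i ih =>
        have h1 := hθ (z ^ (-(i : ℤ) - 1))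
        have h2 : z * z ^ (-(i : ℤ) - 1) = z ^ (-(i : ℤ)) := by
          rw [← zpow_one_add]
          congr 1
          ring
        rw [h2, ih] at h1
        rw [zpow_sub₀ hω0, zpow_one]
        field_simp
        rw [h1]
        ring
    rw [hzz χ hω, ← zpow_neg, hzz ψ hψz, zpow_neg]
    have : ω ^ j ≠ 0 := zpow_ne_zero _ hω0
    field_simp
  have hterm : ∀ n : commutator G, χ n * ψ (n : G)⁻¹ = if (n : G) ∈ N then χ 1 * ψ 1 else 0 := by
    intro n
    by_cases hn : (n : G) ∈ N
    · rw [if_pos hn, hval _ hn]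
    · rw [if_neg hn, hzero n hn, zero_mul]
  rw [Finset.sum_congr rfl (fun n _ => hterm n), Finset.sum_ite, Finset.sum_const,
    Finset.sum_const_zero, add_zero, nsmul_eq_mul] at horth
  have h1 : (Finset.univ.filter (fun n : commutator G => (n : G) ∈ N)).card ≠ 0 := by
    rw [Finset.card_ne_zero]
    exact ⟨1, Finset.mem_filter.mpr ⟨Finset.mem_univ _, N.one_mem⟩⟩
  have h2 : χ 1 ≠ 0 := by
    rw [dg_spec hχ]
    exact_mod_cast (dg_pos hχ).ne'
  have h3 : ψ 1 ≠ 0 := by
    rw [dg_spec hψ]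
    exact_mod_cast (dg_pos hψ).ne'
  exact (mul_ne_zero (by exact_mod_cast h1) (mul_ne_zero h2 h3)) horth

/-- characters with the same kernel in the commutator subgroup -/
theorem dg_eq_of_kerc {p : ℕ} (hp : p.Prime) (hG : IsPGroup p G)
    (hcard : Nat.card (commutator G) ≤ p ^ 2) {χ φ : G → ℂ} (hχ : IsIrrChar χ) (hφ : IsIrrChar φ)
    (hdχ : dg χ ≠ 1) (hk : kerc χ = kerc φ) : dg χ = dg φ := by
  haveI := kerc_normal hχ
  haveI := kerc_normal hφ
  by_cases hcen : commutator G ≤ zmod (kerc χ)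
  · have h1 := dg_sq hχ hcen
    have h2 := dg_sq hφ (by
      intro x hx
      rw [mem_zmod, ← hk]
      exact hcen hx)
    have h3 : zmod (kerc χ) = zmod (kerc φ) := by
      ext x
      rw [mem_zmod, mem_zmod, hk]
    rw [h3, ← h2] at h1
    exact Nat.pow_left_injective (n := 2) (by norm_num) h1
  · rcases card_kerc hp hG hcard hχ hdχ with h1 | ⟨h1, h2⟩
    · exact absurd (central_of_relIndex hp hG _ (kerc_le χ) h1) hcen
    · apply dg_eq_noncentral hp hG h2 ?_ hχ hφ h1 (hk ▸ h1)
      intro h3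
      apply hcen
      rw [← zmod_bot] at h3
      intro x hx
      rw [mem_zmod]
      intro g
      have := h3 hx g
      rw [Subgroup.mem_bot] at this
      rw [this]
      exact Subgroup.one_mem _

end Run7.h528
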