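import Mathlib
import Pool.Agent.Run7.h528.Small
import Pool.Agent.Run7.h528.BGChar

/-!
# The rank inequality for groups with a central commutator subgroup of order `p ^ 2`
-/

set_option autoImplicit false
set_option linter.unusedSectionVars false
set_option linter.style.haveILetI false

open scoped BigOperators Classical ComplexConjugate commutatorElement
open Pool.Agent.Helper884.IC

noncomputable section

namespace Run7.h528

variable {p : ℕ} [Fact p.Prime] {G : Type} [Group G] [Fintype G]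

/-- the commutator subgroup as a vector space over `ZMod p` -/
structure CW (G : Type) [Group G] : Type where
  /-- the element -/
  val : commutator G

namespace CW

theorem ext' {x y : CW G} (h : x.val = y.val) : x = y := by
  cases x; cases y; cases h; rfl

/-- the group of values -/
def equiv : CW G ≃ commutator G where
  toFun := CW.val
  invFun := CW.mk
  left_inv := fun _ => rfl
  right_inv := fun _ => rfl

instance : Finite (CW G) := Finite.of_equiv _ (equiv (G := G)).symm

/-- the additive group structure -/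
@[instance_reducible] def grp (hc : commutator G ≤ Subgroup.center G) : AddCommGroup (CW G) where
  add x y := ⟨x.val * y.val⟩
  zero := ⟨1⟩
  neg x := ⟨x.val⁻¹⟩
  add_assoc x y z := ext' (mul_assoc _ _ _)
  zero_add x := ext' (one_mul _)
  add_zero x := ext' (mul_one _)
  neg_add_cancel x := ext' (inv_mul_cancel _)
  add_comm x y := ext' (Subtype.ext (Subgroup.mem_center_iff.mp (hc y.val.2) x.val))
  nsmul n x := ⟨x.val ^ n⟩
  nsmul_zero x := ext' (pow_zero _)
  nsmul_succ n x := ext' (pow_succ _ _)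
  zsmul n x := ⟨x.val ^ n⟩
  zsmul_zero' x := ext' (zpow_zero _)
  zsmul_succ' n x := ext' (by
    change x.val ^ (Int.ofNat n.succ) = x.val ^ (Int.ofNat n) * x.val
    rw [Int.ofNat_eq_natCast, Int.ofNat_eq_natCast, zpow_natCast, zpow_natCast, pow_succ])
  zsmul_neg' n x := ext' (by
    change x.val ^ (Int.negSucc n) = (x.val ^ ((n.succ : ℕ) : ℤ))⁻¹
    rw [zpow_negSucc, zpow_natCast])

end CW

/-- commutators with brackets in the commutator subgroup -/
def cm (x y : G) : commutator G := ⟨⁅x, y⁆, by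
  rw [commutator_def]
  exact Subgroup.commutator_mem_commutator (Subgroup.mem_top x) (Subgroup.mem_top y)⟩

theorem cm_mul (hc : commutator G ≤ Subgroup.center G) (x x' y : G) :
    cm (x * x') y = cm x y * cm x' y := by
  apply Subtype.ext
  change ⁅x * x', y⁆ = ⁅x, y⁆ * ⁅x', y⁆
  have h1 : ⁅x * x', y⁆ = x * ⁅x', y⁆ * x⁻¹ * ⁅x, y⁆ := by
    simp only [commutatorElement_def]; group
  have h2 := Subgroup.mem_center_iff.mp (hc (cm x' y).2)
  have h3 : x * ⁅x', y⁆ * x⁻¹ = ⁅x', y⁆ := by
    have := h2 x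
    change x * ⁅x', y⁆ = ⁅x', y⁆ * x at this
    rw [this, mul_inv_cancel_right]
  rw [h1, h3]
  exact (h2 _).symm

section

variable {W : Type} [AddCommGroup W] [Module (ZMod p) W] (e : commutator G ≃ W)
  (he : ∀ x y, e (x * y) = e x + e y) (hc : commutator G ≤ Subgroup.center G)

include he hc in
/-- the central character of an irreducible character -/
theorem exists_form {χ : G → ℂ} (h : IsIrrChar χ) :
    ∃ ℓ : Module.Dual (ZMod p) W, ∀ n : commutator G, ∀ g,
      χ (n * g) = ZMod.stdAddChar (ℓ (e n)) * χ g := by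
  have hT : Triv (⊥ : Subgroup G) χ := by
    intro n hn g
    rw [Subgroup.mem_bot] at hn
    rw [hn, one_mul]
  have h1 : ∀ n : commutator G, ∃ c : ℂ, ∀ g, χ (n * g) = c * χ g := by
    intro n
    obtain ⟨c, -, hc2⟩ := scalar_of_zmod h ⊥ hT (x := n) (by rw [zmod_bot]; exact hc n.2)
    exact ⟨c, hc2⟩
  choose c hc2 using h1
  have hχ1 : χ 1 ≠ 0 := by
    rw [dg_spec h]
    exact_mod_cast (dg_pos h).ne'
  have he0 : e 1 = 0 := by
    have := he 1 1
    rw [mul_one] at this
    simpa using this.symm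
  have hlin : IsLin (fun w : W => c (e.symm w)) := by
    constructor
    · have h2 : e.symm 0 = 1 := by rw [← he0, Equiv.symm_apply_apply]
      change c (e.symm 0) = 1
      rw [h2]
      have h3 := hc2 1 1
      rw [Subgroup.coe_one, one_mul] at h3
      apply mul_right_cancel₀ hχ1
      rw [← h3, one_mul]
    · intro w w'
      have h2 : e.symm (w + w') = e.symm w * e.symm w' := by
        apply e.injective
        rw [Equiv.apply_symm_apply, he, Equiv.apply_symm_apply, Equiv.apply_symm_apply]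
      change c (e.symm (w + w')) = c (e.symm w) * c (e.symm w')
      rw [h2]
      have h3 := hc2 (e.symm w * e.symm w') 1
      rw [Subgroup.coe_mul, mul_assoc, hc2, hc2] at h3
      apply mul_right_cancel₀ hχ1
      rw [← h3, mul_assoc]
  haveI : Fintype W := Fintype.ofEquiv _ e
  obtain ⟨ℓ, hℓ⟩ := BG.lin_dual (p := p) hlin
  refine ⟨ℓ, ?_⟩
  intro n g
  rw [← hℓ, Equiv.symm_apply_apply]
  exact hc2 n g

/-- the form attached to a linear functional -/
def bt (ℓ : Module.Dual (ZMod p) W) (x : G) : G → ZMod p := fun y => ℓ (e (cm x y))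

include he hc in
theorem bt_mul (ℓ : Module.Dual (ZMod p) W) (x x' : G) :
    bt e ℓ (x * x') = bt e ℓ x + bt e ℓ x' := by
  funext y
  change ℓ (e (cm (x * x') y)) = ℓ (e (cm x y)) + ℓ (e (cm x' y))
  rw [cm_mul hc, he, map_add]

include he hc in
/-- the degree of a character in terms of its form -/
theorem dg_form {χ : G → ℂ} (h : IsIrrChar χ) {ℓ : Module.Dual (ZMod p) W}
    (hℓ : ∀ n : commutator G, ∀ g, χ (n * g) = ZMod.stdAddChar (ℓ (e n)) * χ g) :
    (dg χ) ^ 2 * Nat.card {x : G // bt e ℓ x = 0} = Nat.card G := by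
  haveI := kerc_normal h
  have hcen : commutator G ≤ zmod (kerc χ) := by
    intro x hx g
    have h1 := Subgroup.mem_center_iff.mp (hc hx) g
    have h2 : ⁅x, g⁆ = 1 := by
      rw [commutatorElement_eq_one_iff_mul_comm]
      exact h1.symm
    rw [h2]
    exact Subgroup.one_mem _
  have hχ1 : χ 1 ≠ 0 := by
    rw [dg_spec h]
    exact_mod_cast (dg_pos h).ne'
  have hk : ∀ n : commutator G, (n : G) ∈ kerc χ ↔ ℓ (e n) = 0 := by
    intro n
    constructor
    · rintro ⟨-, h2⟩
      have h3 := h2 1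
      rw [hℓ] at h3
      have h4 : (ZMod.stdAddChar (ℓ (e n)) : ℂ) = 1 := by
        apply mul_right_cancel₀ hχ1
        rw [h3, one_mul]
      apply ZMod.injective_stdAddChar (N := p)
      rw [h4, AddChar.map_zero_eq_one]
    · intro h2
      refine ⟨n.2, fun g => ?_⟩
      rw [hℓ, h2, AddChar.map_zero_eq_one, one_mul]
  have h1 := dg_sq h hcen
  have h2 : Nat.card {x : G // bt e ℓ x = 0} = Nat.card (zmod (kerc χ)) := by
    refine Nat.card_congr (Equiv.subtypeEquivRight fun x => ?_)
    rw [mem_zmod, funext_iff]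
    refine forall_congr' fun y => ?_
    exact (hk (cm x y)).symm
  rw [h1, h2, mul_comm]
  exact (zmod (kerc χ)).card_mul_index

include he hc in
theorem bt_zero (ℓ : Module.Dual (ZMod p) W) : bt e ℓ 1 = 0 := by
  have h1 := bt_mul e he hc ℓ 1 1
  rw [mul_one] at h1
  simpa using h1.symm

/-- the form as a homomorphism -/
def btHom (ℓ : Module.Dual (ZMod p) W) : G →* Multiplicative (G → ZMod p) where
  toFun x := Multiplicative.ofAdd (bt e ℓ x)
  map_one' := by rw [bt_zero e he hc, ofAdd_zero]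
  map_mul' x y := by rw [bt_mul e he hc, ofAdd_add]

include he hc in
theorem card_bt (ℓ : Module.Dual (ZMod p) W) :
    Nat.card (Set.range (bt e ℓ)) * Nat.card {x : G // bt e ℓ x = 0} = Nat.card G := by
  have h1 := (btHom e he hc ℓ).ker.card_mul_index
  rw [Subgroup.index_ker, mul_comm] at h1
  have h2 : Nat.card (btHom e he hc ℓ).ker = Nat.card {x : G // bt e ℓ x = 0} := by
    refine Nat.card_congr (Equiv.subtypeEquivRight fun x => ?_)
    rw [MonoidHom.mem_ker]
    exact Iff.rfl
  have h3 : Nat.card (btHom e he hc ℓ).range = Nat.card (Set.range (bt e ℓ)) := rfl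
  rw [h2, h3] at h1
  exact h1

/-- the space of pairs of forms -/
def pairSpace (ℓ₀ ℓ₁ : Module.Dual (ZMod p) W) : Submodule (ZMod p) ((G → ZMod p) × (G → ZMod p)) :=
  AddSubgroup.toZModSubmodule p
    { carrier := {v | ∃ x : G, v = (bt e ℓ₀ x, bt e ℓ₁ x)}
      zero_mem' := ⟨1, by rw [bt_zero e he hc, bt_zero e he hc]; rfl⟩
      add_mem' := by
        rintro _ _ ⟨x, rfl⟩ ⟨y, rfl⟩
        exact ⟨x * y, by rw [bt_mul e he hc, bt_mul e he hc]; rfl⟩
      neg_mem' := by
        rintro _ ⟨x, rfl⟩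
        refine ⟨x⁻¹, ?_⟩
        have h1 : ∀ ℓ : Module.Dual (ZMod p) W, bt e ℓ x⁻¹ = - bt e ℓ x := by
          intro ℓ
          have h2 := bt_mul e he hc ℓ x⁻¹ x
          rw [inv_mul_cancel, bt_zero e he hc] at h2
          exact eq_neg_of_add_eq_zero_left h2.symm
        rw [h1, h1]
        rfl }

theorem mem_pairSpace {ℓ₀ ℓ₁ : Module.Dual (ZMod p) W} {v : (G → ZMod p) × (G → ZMod p)} :
    v ∈ pairSpace e he hc ℓ₀ ℓ₁ ↔ ∃ x : G, v = (bt e ℓ₀ x, bt e ℓ₁ x) := Iff.rfl

include he hc in
/-- degrees as ranks -/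
theorem pow_finrank {χ : G → ℂ} (h : IsIrrChar χ) {ℓ : Module.Dual (ZMod p) W}
    (hℓ : ∀ n : commutator G, ∀ g, χ (n * g) = ZMod.stdAddChar (ℓ (e n)) * χ g)
    {V : Type} [AddCommGroup V] [Module (ZMod p) V] (f : V →ₗ[ZMod p] (G → ZMod p))
    {c : ZMod p} (hcc : c ≠ 0)
    (hf : ∀ u, u ∈ LinearMap.range f ↔ ∃ x, u = c • bt e ℓ x) :
    p ^ Module.finrank (ZMod p) (LinearMap.range f) = (dg χ) ^ 2 := by
  have h1 : Nat.card (LinearMap.range f) = p ^ Module.finrank (ZMod p) (LinearMap.range f) := by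
    have := Module.natCard_eq_pow_finrank (K := ZMod p) (V := LinearMap.range f)
    rwa [Nat.card_zmod] at this
  have h2 : Nat.card (LinearMap.range f) = Nat.card (Set.range (bt e ℓ)) := by
    refine Nat.card_congr ?_
    exact
      { toFun := fun u => ⟨c⁻¹ • u.1, by
          obtain ⟨x, hx⟩ := (hf _).mp u.2
          refine ⟨x, ?_⟩
          rw [hx, smul_smul, inv_mul_cancel₀ hcc, one_smul]⟩
        invFun := fun u => ⟨c • u.1, by
          obtain ⟨x, hx⟩ := u.2
          exact (hf _).mpr ⟨x, by rw [hx]⟩⟩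
        left_inv := fun u => Subtype.ext (by
          change c • c⁻¹ • u.1 = u.1
          rw [smul_smul, mul_inv_cancel₀ hcc, one_smul])
        right_inv := fun u => Subtype.ext (by
          change c⁻¹ • c • u.1 = u.1
          rw [smul_smul, inv_mul_cancel₀ hcc, one_smul]) }
  have h3 := card_bt e he hc ℓ
  have h4 := dg_form e he hc h hℓ
  rw [← h4] at h3
  have h5 : 0 < Nat.card {x : G // bt e ℓ x = 0} := by
    haveI : Nonempty {x : G // bt e ℓ x = 0} := ⟨⟨1, bt_zero e he hc ℓ⟩⟩
    exact Nat.card_pos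
  rw [← h1, h2]
  exact Nat.eq_of_mul_eq_mul_right h5 h3

include he hc in
/-- the rank inequality for a central commutator subgroup of order `p ^ 2` -/
theorem pencil_group (hW : Nat.card W = p ^ 2) (D : Finset ℕ) (hD0 : ∀ x ∈ D, x ≠ 0)
    (hD : ∀ x ∈ D, ∃ χ : G → ℂ, IsIrrChar χ ∧ dg χ = p ^ x) {M : ℕ} (hM : M ∈ D) :
    ∑ x ∈ D, (M - x) ≤ M := by
  have hp : p.Prime := Fact.out
  haveI : Fintype W := Fintype.ofEquiv _ e
  haveI : Module.Finite (ZMod p) W := Module.Finite.of_finite
  have hfr : Module.finrank (ZMod p) W = 2 := by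
    have h1 := Module.natCard_eq_pow_finrank (K := ZMod p) (V := W)
    rw [Nat.card_zmod, hW] at h1
    exact (Nat.pow_right_injective hp.two_le h1).symm
  choose χ hχ hχd using hD
  have hform := fun x hx => exists_form (p := p) e he hc (hχ x hx)
  choose ℓ hℓ using hform
  -- forms of different degrees are not proportional
  have hprop : ∀ x hx y hy, x ≠ y → ∀ c : ZMod p, c ≠ 0 → ℓ x hx ≠ c • ℓ y hy := by
    intro x hx y hy hxy c hcc h
    have h1 := dg_form e he hc (hχ x hx) (hℓ x hx)
    have h2 := dg_form e he hc (hχ y hy) (hℓ y hy)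
    have h3 : Nat.card {g : G // bt e (ℓ x hx) g = 0} = Nat.card {g : G // bt e (ℓ y hy) g = 0} := by
      refine Nat.card_congr (Equiv.subtypeEquivRight fun g => ?_)
      rw [h]
      constructor
      · intro h4
        funext z
        have h5 := congrFun h4 z
        change c • ℓ y hy (e (cm g z)) = 0 at h5
        exact (smul_eq_zero.mp h5).resolve_left hcc
      · intro h4
        funext z
        have h5 := congrFun h4 z
        change ℓ y hy (e (cm g z)) = 0 at h5
        change c • ℓ y hy (e (cm g z)) = 0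
        rw [h5, smul_zero]
    have h4 : 0 < Nat.card {g : G // bt e (ℓ y hy) g = 0} := by
      haveI : Nonempty {g : G // bt e (ℓ y hy) g = 0} := ⟨⟨1, bt_zero e he hc _⟩⟩
      exact Nat.card_pos
    rw [h3, ← h2] at h1
    have h5 := Nat.eq_of_mul_eq_mul_right h4 h1
    rw [hχd, hχd] at h5
    have h6 := Nat.pow_left_injective (n := 2) (by norm_num) h5
    exact hxy (Nat.pow_right_injective hp.two_le h6)
  have hne : ∀ x hx, ℓ x hx ≠ 0 := by
    intro x hx h
    have h1 := dg_form e he hc (hχ x hx) (hℓ x hx)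
    have h2 : Nat.card {g : G // bt e (ℓ x hx) g = 0} = Nat.card G := by
      refine Nat.card_congr ?_
      refine Equiv.subtypeUnivEquiv ?_
      intro g
      rw [h]
      rfl
    rw [h2] at h1
    have h3 : (dg (χ x hx)) ^ 2 = 1 :=
      Nat.eq_of_mul_eq_mul_right Nat.card_pos (by rw [h1, one_mul])
    rw [hχd, ← pow_mul] at h3
    have h4 := hD0 x hx
    have h5 : 1 < p ^ (x * 2) := Nat.one_lt_pow (by omega) hp.one_lt
    omega
  -- the other degrees
  rcases (D.erase M).eq_empty_or_nonempty with hemp | ⟨x₁, hx₁⟩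
  · have h1 : D = {M} := by
      rw [← Finset.insert_erase hM, hemp]
      rfl
    rw [h1, Finset.sum_singleton]
    omega
  have hx₁D : x₁ ∈ D := Finset.mem_of_mem_erase hx₁
  have hx₁M : x₁ ≠ M := Finset.ne_of_mem_erase hx₁
  set ℓ₀ := ℓ M hM with hℓ₀
  set ℓ₁ := ℓ x₁ hx₁D with hℓ₁
  have hli : LinearIndependent (ZMod p) ![ℓ₀, ℓ₁] := by
    rw [LinearIndependent.pair_iff' (hne M hM)]
    intro a ha
    by_cases ha0 : a = 0
    · rw [ha0, zero_smul] at ha
      exact hne x₁ hx₁D ha.symm
    · exact hprop x₁ hx₁D M hM hx₁M a ha0 ha.symm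
  have hspan : ∀ m : Module.Dual (ZMod p) W, ∃ a c : ZMod p, a • ℓ₀ + c • ℓ₁ = m := by
    intro m
    have h1 : Submodule.span (ZMod p) (Set.range ![ℓ₀, ℓ₁]) = ⊤ := by
      apply LinearIndependent.span_eq_top_of_card_eq_finrank hli
      rw [Subspace.dual_finrank_eq, hfr, Fintype.card_fin]
    have h2 : m ∈ Submodule.span (ZMod p) (Set.range ![ℓ₀, ℓ₁]) := by
      rw [h1]
      exact Submodule.mem_top
    rw [Matrix.range_cons, Matrix.range_cons, Matrix.range_empty, Set.union_empty,
      Set.singleton_union] at h2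
    exact Submodule.mem_span_pair.mp h2
  -- parameters
  have hpar : ∀ x : ℕ, ∃ t : ZMod p, ∀ hx : x ∈ D.erase M,
      ∃ c : ZMod p, c ≠ 0 ∧ ℓ₁ - t • ℓ₀ = c • ℓ x (Finset.mem_of_mem_erase hx) := by
    intro x
    by_cases hx : x ∈ D.erase M
    · obtain ⟨a, c, hac⟩ := hspan (ℓ x (Finset.mem_of_mem_erase hx))
      have hc0 : c ≠ 0 := by
        rintro rfl
        rw [zero_smul, add_zero] at hac
        by_cases ha0 : a = 0
        · rw [ha0, zero_smul] at hac
          exact hne x _ hac.symm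
        · exact hprop x _ M hM (Finset.ne_of_mem_erase hx) a ha0 hac.symm
      refine ⟨-(c⁻¹ * a), fun _ => ⟨c⁻¹, inv_ne_zero hc0, ?_⟩⟩
      rw [← hac, smul_add, smul_smul, smul_smul, inv_mul_cancel₀ hc0, one_smul]
      ext w
      simp only [LinearMap.sub_apply, LinearMap.add_apply, LinearMap.smul_apply, smul_eq_mul]
      ring
    · exact ⟨0, fun h => absurd h hx⟩
  choose t ht using hpar
  let P := pairSpace e he hc ℓ₀ ℓ₁
  let B₀ : P →ₗ[ZMod p] (G → ZMod p) := (LinearMap.fst _ _ _).comp P.subtype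
  let B₁ : P →ₗ[ZMod p] (G → ZMod p) := (LinearMap.snd _ _ _).comp P.subtype
  have hr0 : 2 * M = Module.finrank (ZMod p) (LinearMap.range B₀) := by
    have h1 := pow_finrank e he hc (hχ M hM) (hℓ M hM) B₀ (c := 1) one_ne_zero (by
      intro u
      constructor
      · rintro ⟨⟨v, x, rfl⟩, rfl⟩
        exact ⟨x, by rw [one_smul]; rfl⟩
      · rintro ⟨x, rfl⟩
        exact ⟨⟨_, x, rfl⟩, by rw [one_smul]; rfl⟩)
    rw [hχd, ← pow_mul] at h1
    have := Nat.pow_right_injective hp.two_le h1
    omega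
  have hr1 : ∀ x ∈ D.erase M, 2 * x = Module.finrank (ZMod p) (LinearMap.range (B₁ - t x • B₀)) := by
    intro x hx
    obtain ⟨c, hc0, hcl⟩ := ht x hx
    have hbt : ∀ g, bt e ℓ₁ g - t x • bt e ℓ₀ g = c • bt e (ℓ x (Finset.mem_of_mem_erase hx)) g := by
      intro g
      funext y
      have h1 := LinearMap.congr_fun hcl (e (cm g y))
      exact h1
    have h1 := pow_finrank e he hc (hχ x (Finset.mem_of_mem_erase hx))
      (hℓ x (Finset.mem_of_mem_erase hx)) (B₁ - t x • B₀) (c := c) hc0 (by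
      intro u
      constructor
      · rintro ⟨⟨v, g, rfl⟩, rfl⟩
        exact ⟨g, by rw [← hbt]; rfl⟩
      · rintro ⟨g, rfl⟩
        exact ⟨⟨_, g, rfl⟩, by rw [← hbt]; rfl⟩)
    rw [hχd, ← pow_mul] at h1
    have := Nat.pow_right_injective hp.two_le h1
    omega
  have hkey := pencil_rank B₀ B₁ (D.erase M) t (by
    intro x hx y hy hxy
    by_contra hne2
    obtain ⟨c, hc0, hcl⟩ := ht x hx
    obtain ⟨d, hd0, hdl⟩ := ht y hy
    rw [hxy, hdl] at hcl
    apply hprop x (Finset.mem_of_mem_erase hx) y (Finset.mem_of_mem_erase hy) hne2 (c⁻¹ * d)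
      (mul_ne_zero (inv_ne_zero hc0) hd0)
    rw [mul_smul, hcl, smul_smul, inv_mul_cancel₀ hc0, one_smul])
  rw [← hr0] at hkey
  have h1 : ∑ x ∈ D.erase M, (2 * M - Module.finrank (ZMod p) (LinearMap.range (B₁ - t x • B₀))) =
      2 * ∑ x ∈ D.erase M, (M - x) := by
    rw [Finset.mul_sum]
    refine Finset.sum_congr rfl fun x hx => ?_
    rw [← hr1 x hx]
    omega
  rw [h1] at hkey
  have h2 : ∑ x ∈ D, (M - x) = ∑ x ∈ D.erase M, (M - x) := by
    rw [← Finset.add_sum_erase _ _ hM]
    simp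
  rw [h2]
  omega

end

end Run7.h528
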