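import Mathlib
import Pool.Agent.Run7.h528.PencilG
import Pool.Agent.Run7.h528.Clus

/-!
# Necessary conditions when all classes have at most `p ^ 2` elements
-/

set_option autoImplicit false
set_option linter.unusedSectionVars false
set_option linter.style.haveILetI false

open scoped BigOperators Classical ComplexConjugate commutatorElement
open Pool.Agent.Helper884.IC

noncomputable section

namespace Run7.h528

section

variable {G : Type} [Group G] [Fintype G]

/-- nonlinear characters vanish on elements with the largest possible class -/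
theorem zero_of_index {x : G}
    (hx : (Subgroup.centralizer ({x} : Set G)).index = Nat.card (commutator G))
    {χ : G → ℂ} (h : IsIrrChar χ) (hd : dg χ ≠ 1) : χ x = 0 := by
  have h1 := orth2_norm x
  have h2 : ∑ χ ∈ (Irr G).filter (Triv (commutator G)), ‖χ x‖ ^ 2 = ((commutator G).index : ℝ) := by
    rw [← sum_sq_triv (commutator G)]
    push_cast
    refine Finset.sum_congr rfl fun χ hχ => ?_
    have h4 := Finset.mem_filter.mp hχ
    rw [norm_of_zmod (mem_Irr.mp h4.1) (commutator G) h4.2 (by rw [zmod_comm]; trivial)]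
  have h3 : Nat.card (Subgroup.centralizer ({x} : Set G)) = (commutator G).index := by
    have h5 := (Subgroup.centralizer ({x} : Set G)).card_mul_index
    have h6 := (commutator G).card_mul_index
    rw [hx, ← h6, mul_comm] at h5
    exact Nat.eq_of_mul_eq_mul_left Nat.card_pos h5
  rw [h3, ← h2, ← Finset.sum_filter_add_sum_filter_not (Irr G) (Triv (commutator G))] at h1
  have h4 : ∑ χ ∈ (Irr G).filter (fun χ => ¬ Triv (commutator G) χ), ‖χ x‖ ^ 2 = 0 := by
    linarith
  rw [Finset.sum_eq_zero_iff_of_nonneg (fun _ _ => by positivity)] at h4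
  have h5 := h4 χ (Finset.mem_filter.mpr ⟨mem_Irr.mpr h, by rwa [triv_comm_iff h]⟩)
  have h6 : ‖χ x‖ = 0 := by
    exact pow_eq_zero_iff (two_ne_zero) |>.mp h5
  exact norm_eq_zero.mp h6

/-- a character that vanishes off the center -/
theorem dg_sq_center {χ : G → ℂ} (h : IsIrrChar χ) (hz : ∀ x, x ∉ Subgroup.center G → χ x = 0) :
    (dg χ) ^ 2 = (Subgroup.center G).index := by
  have h1 := orth1_norm h
  have hT : Triv (⊥ : Subgroup G) χ := by
    intro n hn g
    rw [Subgroup.mem_bot] at hn
    rw [hn, one_mul]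
  have h2 : ∀ x, ‖χ x‖ ^ 2 = if x ∈ Subgroup.center G then ((dg χ : ℝ)) ^ 2 else 0 := by
    intro x
    by_cases hx : x ∈ Subgroup.center G
    · rw [if_pos hx]
      rw [← zmod_bot] at hx
      rw [norm_of_zmod h _ hT hx]
    · rw [if_neg hx, hz x hx, norm_zero]
      norm_num
  rw [Finset.sum_congr rfl (fun x _ => h2 x), Finset.sum_ite, Finset.sum_const, Finset.sum_const_zero,
    add_zero, nsmul_eq_mul] at h1
  have h3 : (Finset.univ.filter (fun x => x ∈ Subgroup.center G)).card =
      Nat.card (Subgroup.center G) := by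
    rw [Nat.card_eq_fintype_card, Fintype.card_subtype]
  rw [h3] at h1
  have h4 : Nat.card (Subgroup.center G) * (dg χ) ^ 2 = Nat.card G := by exact_mod_cast h1
  have h5 := (Subgroup.center G).card_mul_index
  rw [← h5] at h4
  exact Nat.eq_of_mul_eq_mul_left Nat.card_pos h4

/-- abelian groups -/
theorem comm_bot_iff : commutator G = ⊥ ↔ ∀ χ : G → ℂ, IsIrrChar χ → dg χ = 1 := by
  constructor
  · intro h χ hχ
    rw [← triv_comm_iff hχ, h]
    intro n hn g
    rw [Subgroup.mem_bot] at hn
    rw [hn, one_mul]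
  · intro h
    have h1 := card_lin (G := G)
    have h2 : (Irr G).filter (fun χ => dg χ = 1) = Irr G := by
      rw [Finset.filter_eq_self]
      intro χ hχ
      exact h χ (mem_Irr.mp hχ)
    have h3 := sum_sq (G := G)
    rw [Finset.sum_congr rfl (fun χ hχ => by rw [h χ (mem_Irr.mp hχ)]), one_pow, Finset.sum_const,
      smul_eq_mul, mul_one] at h3
    rw [h2, h3] at h1
    have h4 := (commutator G).card_mul_index
    rw [← h1] at h4
    have h5 : Nat.card (commutator G) = 1 :=
      Nat.eq_of_mul_eq_mul_right Nat.card_pos (by rw [h4, one_mul])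
    exact Subgroup.card_eq_one.mp h5

/-- subgroups of order `p` that are normal in a `p`-group are central -/
theorem le_center_of_card {p : ℕ} (hp : p.Prime) (hG : IsPGroup p G) {N : Subgroup G}
    (hN : N.Normal) (hc : Nat.card N = p) : N ≤ Subgroup.center G := by
  haveI : Fact p.Prime := ⟨hp⟩
  have hne : ∃ x ∈ N, x ≠ 1 := by
    by_contra h
    push Not at h
    have h1 : N = ⊥ := by
      rw [Subgroup.eq_bot_iff_forall]
      exact h
    rw [h1, Subgroup.card_bot] at hc
    exact hp.one_lt.ne hc
  obtain ⟨z, hz, hz1, hzc⟩ := exists_central_in_normal hG N hN hne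
  have hgen : Subgroup.zpowers z = N := by
    apply Subgroup.eq_of_le_of_card_ge
    · rw [Subgroup.zpowers_le]
      exact hz
    · rw [hc]
      have h1 : Nat.card (Subgroup.zpowers z) ∣ Nat.card N :=
        Subgroup.card_dvd_of_le (by rw [Subgroup.zpowers_le]; exact hz)
      rw [hc] at h1
      rcases (Nat.dvd_prime hp).mp h1 with h2 | h2
      · exfalso
        rw [Subgroup.card_eq_one, Subgroup.zpowers_eq_bot] at h2
        exact hz1 h2
      · exact h2.ge
  rw [← hgen, Subgroup.zpowers_le, Subgroup.mem_center_iff]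
  intro g
  have := hzc g
  rw [mul_inv_eq_iff_eq_mul] at this
  exact this

/-- a subgroup containing two different subgroups of order `p` of the commutator subgroup -/
theorem eq_of_two {p : ℕ} (hp : p.Prime) (hG : IsPGroup p G)
    (hcard : Nat.card (commutator G) ≤ p ^ 2) {N₁ N₂ Q : Subgroup G}
    (hc1 : Nat.card N₁ = p) (hc2 : Nat.card N₂ = p) (hne : N₁ ≠ N₂) (h1 : N₁ ≤ Q) (h2 : N₂ ≤ Q)
    (hQ : Q ≤ commutator G) : Q = commutator G := by
  haveI : Fact p.Prime := ⟨hp⟩
  apply Subgroup.eq_of_le_of_card_ge hQ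
  refine hcard.trans ?_
  obtain ⟨m, hm⟩ := IsPGroup.iff_card.mp (hG.to_subgroup Q)
  rw [hm]
  apply Nat.pow_le_pow_right hp.pos
  by_contra h
  push Not at h
  have h3 : Nat.card Q ≤ p := by
    rw [hm]
    calc p ^ m ≤ p ^ 1 := Nat.pow_le_pow_right hp.pos (by omega)
      _ = p := pow_one p
  apply hne
  have e1 := Subgroup.eq_of_le_of_card_ge h1 (by rw [hc1]; exact h3)
  have e2 := Subgroup.eq_of_le_of_card_ge h2 (by rw [hc2]; exact h3)
  rw [e1, e2]

/-- either the commutator subgroup is central and elementary of order `p ^ 2`, or any three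
nonlinear characters contain two of the same degree -/
theorem small_dichotomy {p : ℕ} (hp : p.Prime) (hG : IsPGroup p G)
    (hcard : Nat.card (commutator G) ≤ p ^ 2) :
    (commutator G ≤ Subgroup.center G ∧ (∀ x ∈ commutator G, x ^ p = 1) ∧
      Nat.card (commutator G) = p ^ 2) ∨
    ∀ χ₁ χ₂ χ₃ : G → ℂ, IsIrrChar χ₁ → IsIrrChar χ₂ → IsIrrChar χ₃ → dg χ₁ ≠ 1 → dg χ₂ ≠ 1 →
      dg χ₃ ≠ 1 → dg χ₁ = dg χ₂ ∨ dg χ₁ = dg χ₃ ∨ dg χ₂ = dg χ₃ := by
  haveI : Fact p.Prime := ⟨hp⟩
  by_cases hex : ∃ N₁ N₂ : Subgroup G, N₁.Normal ∧ N₂.Normal ∧ N₁ ≤ commutator G ∧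
      N₂ ≤ commutator G ∧ Nat.card N₁ = p ∧ Nat.card N₂ = p ∧ N₁ ≠ N₂
  · left
    obtain ⟨N₁, N₂, hn1, hn2, hl1, hl2, hc1, hc2, hne⟩ := hex
    have hz1 := le_center_of_card hp hG hn1 hc1
    have hz2 := le_center_of_card hp hG hn2 hc2
    have h1 : commutator G ⊓ Subgroup.center G = commutator G :=
      eq_of_two hp hG hcard hc1 hc2 hne (le_inf hl1 hz1) (le_inf hl2 hz2) inf_le_left
    have h2 : commutator G ≤ Subgroup.center G := by
      rw [← h1]
      exact inf_le_right
    let Q : Subgroup G :=
      { carrier := {x | x ∈ commutator G ∧ x ^ p = 1}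
        one_mem' := ⟨Subgroup.one_mem _, one_pow p⟩
        mul_mem' := by
          rintro x y ⟨hx, hx2⟩ ⟨hy, hy2⟩
          refine ⟨Subgroup.mul_mem _ hx hy, ?_⟩
          have h3 : Commute x y := Subgroup.mem_center_iff.mp (h2 hy) x
          rw [h3.mul_pow, hx2, hy2, one_mul]
        inv_mem' := by
          rintro x ⟨hx, hx2⟩
          exact ⟨Subgroup.inv_mem _ hx, by rw [inv_pow, hx2, inv_one]⟩ }
    have hpow : ∀ N : Subgroup G, N ≤ commutator G → Nat.card N = p → N ≤ Q := by
      intro N hN hc x hx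
      refine ⟨hN hx, ?_⟩
      have h3 := pow_card_eq_one' (x := (⟨x, hx⟩ : N))
      rw [hc] at h3
      exact congrArg Subtype.val h3
    have h3 : Q = commutator G :=
      eq_of_two hp hG hcard hc1 hc2 hne (hpow _ hl1 hc1) (hpow _ hl2 hc2) (fun x hx => hx.1)
    refine ⟨h2, ?_, ?_⟩
    · intro x hx
      rw [← h3] at hx
      exact hx.2
    · apply le_antisymm hcard
      by_contra h4
      push Not at h4
      obtain ⟨m, hm⟩ := IsPGroup.iff_card.mp (hG.to_subgroup (commutator G))
      have h5 : m < 2 := by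
        rw [hm] at h4
        exact (Nat.pow_lt_pow_iff_right hp.one_lt).mp h4
      have h6 : Nat.card (commutator G) ≤ p := by
        rw [hm]
        calc p ^ m ≤ p ^ 1 := Nat.pow_le_pow_right hp.pos (by omega)
          _ = p := pow_one p
      apply hne
      have e1 := Subgroup.eq_of_le_of_card_ge hl1 (by rw [hc1]; exact h6)
      have e2 := Subgroup.eq_of_le_of_card_ge hl2 (by rw [hc2]; exact h6)
      rw [e1, e2]
  · right
    push Not at hex
    intro χ₁ χ₂ χ₃ h1 h2 h3 hd1 hd2 hd3
    have htype : ∀ χ : G → ℂ, IsIrrChar χ → dg χ ≠ 1 → kerc χ = ⊥ ∨ Nat.card (kerc χ) = p := by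
      intro χ h hd
      rcases card_kerc hp hG hcard h hd with h4 | ⟨h4, -⟩
      · have h5 := Subgroup.card_mul_index ((kerc χ).subgroupOf (commutator G))
        rw [← Subgroup.relIndex, h4] at h5
        have h6 : Nat.card ((kerc χ).subgroupOf (commutator G)) = Nat.card (kerc χ) :=
          Nat.card_congr (Subgroup.subgroupOfEquivOfLe (kerc_le χ)).toEquiv
        rw [h6] at h5
        have h7 : Nat.card (kerc χ) ≤ p := by
          rw [← h5, pow_two] at hcard
          exact Nat.le_of_mul_le_mul_right hcard hp.pos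
        obtain ⟨m, hm⟩ := IsPGroup.iff_card.mp (hG.to_subgroup (kerc χ))
        rw [hm] at h7
        have h8 : m ≤ 1 := by
          have h9 : p ^ m ≤ p ^ 1 := by rwa [pow_one]
          exact (Nat.pow_le_pow_iff_right hp.one_lt).mp h9
        rcases Nat.eq_zero_or_pos m with h9 | h9
        · left
          rw [h9, pow_zero] at hm
          exact Subgroup.card_eq_one.mp hm
        · right
          have h10 : m = 1 := by omega
          rw [hm, h10, pow_one]
      · left
        exact h4
    have hsame : ∀ χ φ : G → ℂ, IsIrrChar χ → IsIrrChar φ → dg χ ≠ 1 →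
        ((kerc χ = ⊥ ∧ kerc φ = ⊥) ∨ (Nat.card (kerc χ) = p ∧ Nat.card (kerc φ) = p)) →
        dg χ = dg φ := by
      intro χ φ hχ hφ hd h4
      apply dg_eq_of_kerc hp hG hcard hχ hφ hd
      rcases h4 with ⟨h5, h6⟩ | ⟨h5, h6⟩
      · rw [h5, h6]
      · exact hex _ _ (kerc_normal hχ) (kerc_normal hφ) (kerc_le χ) (kerc_le φ) h5 h6
    rcases htype χ₁ h1 hd1 with t1 | t1 <;> rcases htype χ₂ h2 hd2 with t2 | t2 <;>
      rcases htype χ₃ h3 hd3 with t3 | t3
    · exact Or.inl (hsame _ _ h1 h2 hd1 (Or.inl ⟨t1, t2⟩))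
    · exact Or.inl (hsame _ _ h1 h2 hd1 (Or.inl ⟨t1, t2⟩))
    · exact Or.inr (Or.inl (hsame _ _ h1 h3 hd1 (Or.inl ⟨t1, t3⟩)))
    · exact Or.inr (Or.inr (hsame _ _ h2 h3 hd2 (Or.inr ⟨t2, t3⟩)))
    · exact Or.inr (Or.inr (hsame _ _ h2 h3 hd2 (Or.inl ⟨t2, t3⟩)))
    · exact Or.inr (Or.inl (hsame _ _ h1 h3 hd1 (Or.inr ⟨t1, t3⟩)))
    · exact Or.inl (hsame _ _ h1 h2 hd1 (Or.inr ⟨t1, t2⟩))
    · exact Or.inl (hsame _ _ h1 h2 hd1 (Or.inr ⟨t1, t2⟩))

end

variable {p : ℕ} [Fact p.Prime]

/-- the necessary conditions -/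
theorem small_nec {α β : Finset ℕ} (hβ : ∀ y ∈ β, y ≤ 2) (hβ0 : 0 ∈ β) (hα0 : 0 ∈ α) {M : ℕ}
    (hM : M ∈ α) (hα : ∀ x ∈ α, x ≤ M) (h : Realizable p α β) :
    (α.card = 1 ∧ β.card = 1) ∨ (α.card = 2 ∧ β.card = 2) ∨
      (β.card = 3 ∧ 2 ≤ α.card ∧ α.card ≤ p + 2 ∧ ∑ x ∈ α.erase 0, (M - x) ≤ M) := by
  have hp : p.Prime := Fact.out
  obtain ⟨P, _, _, hP, hcd, hcs⟩ := h
  haveI : Fintype P := Fintype.ofFinite P
  -- translation
  have hcl : ∀ x : P, ∃ y ∈ β, (Subgroup.centralizer ({x} : Set P)).index = p ^ y := by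
    intro x
    have h2 : (Subgroup.centralizer ({x} : Set P)).index ∈ cs P := ⟨x, rfl⟩
    rw [hcs] at h2
    obtain ⟨c, hc, hc2⟩ := h2
    exact ⟨c, hc, hc2.symm⟩
  have hcl2 : ∀ y ∈ β, ∃ x : P, (Subgroup.centralizer ({x} : Set P)).index = p ^ y := by
    intro y hy
    have h2 : p ^ y ∈ cs P := by
      rw [hcs]
      exact ⟨y, hy, rfl⟩
    exact h2
  have hdg : ∀ χ : P → ℂ, IsIrrChar χ → ∃ a ∈ α, dg χ = p ^ a := by
    intro χ hχ
    have h2 : dg χ ∈ cd P := (mem_cd_iff _).mpr ⟨χ, mem_Irr.mpr hχ, rfl⟩
    rw [hcd] at h2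
    obtain ⟨c, hc, hc2⟩ := h2
    exact ⟨c, hc, hc2.symm⟩
  have hdg2 : ∀ a ∈ α, ∃ χ : P → ℂ, IsIrrChar χ ∧ dg χ = p ^ a := by
    intro a ha
    have h4 : p ^ a ∈ cd P := by
      rw [hcd]
      exact ⟨a, ha, rfl⟩
    obtain ⟨χ, hχ, hχd⟩ := (mem_cd_iff _).mp h4
    exact ⟨χ, mem_Irr.mp hχ, hχd⟩
  have hpow1 : ∀ a, p ^ a = 1 ↔ a = 0 := by
    intro a
    rw [Nat.pow_eq_one]
    have := hp.one_lt
    omega
  have hD : ∀ x ∈ α.erase 0, ∃ χ : P → ℂ, IsIrrChar χ ∧ dg χ = p ^ x := fun x hx =>
    hdg2 x (Finset.mem_of_mem_erase hx)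
  have hcount : ∀ n, Nat.card (commutator P) ≤ n → (p - 1) * (α.erase 0).card + 1 ≤ n := by
    intro n hn
    have h2 := count_le hp hP
    have h3 : (α.erase 0).card ≤ (((Irr P).image dg).erase 1).card := by
      apply Finset.card_le_card_of_injOn (fun a => p ^ a)
      · intro a ha
        rw [Finset.mem_coe] at ha
        obtain ⟨χ, hχ, hχd⟩ := hD a ha
        rw [Finset.mem_coe, Finset.mem_erase]
        refine ⟨?_, Finset.mem_image.mpr ⟨χ, mem_Irr.mpr hχ, hχd⟩⟩
        intro h4
        exact Finset.ne_of_mem_erase ha ((hpow1 a).mp h4)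
      · intro a _ c _ hac
        exact Nat.pow_right_injective hp.two_le hac
    have h4 := Nat.mul_le_mul_left (p - 1) h3
    omega
  have hcard1 := Finset.card_erase_add_one hα0
  -- the abelian case
  by_cases hab : commutator P = ⊥
  · left
    have h1 := hcount 1 (by rw [hab, Subgroup.card_bot])
    have hp1 : 0 < p - 1 := by have := hp.two_le; omega
    have h2 : (α.erase 0).card = 0 := by
      rcases Nat.eq_zero_or_pos (α.erase 0).card with h3 | h3
      · exact h3
      · have := Nat.mul_pos hp1 h3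
        omega
    refine ⟨by omega, ?_⟩
    have h3 : β ⊆ {0} := by
      intro y hy
      obtain ⟨x, hx⟩ := hcl2 y hy
      have h4 := index_centralizer_le x
      rw [hx, hab, Subgroup.card_bot] at h4
      have h5 : 0 < p ^ y := pow_pos hp.pos y
      have h6 : p ^ y = 1 := by omega
      rw [Finset.mem_singleton]
      exact (hpow1 y).mp h6
    have h4 := Finset.card_le_card h3
    rw [Finset.card_singleton] at h4
    have h5 : 0 < β.card := Finset.card_pos.mpr ⟨0, hβ0⟩
    omega
  right
  -- there is a nonlinear degree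
  have hα1 : 1 ≤ (α.erase 0).card := by
    by_contra h1
    apply hab
    rw [comm_bot_iff]
    intro χ hχ
    obtain ⟨a, ha, had⟩ := hdg χ hχ
    by_cases ha0 : a = 0
    · rw [had, ha0, pow_zero]
    · exfalso
      exact h1 (Finset.card_pos.mpr ⟨a, Finset.mem_erase.mpr ⟨ha0, ha⟩⟩)
  have hM0 : M ≠ 0 := by
    obtain ⟨x, hx⟩ := Finset.card_pos.mp (by omega : 0 < (α.erase 0).card)
    have := hα x (Finset.mem_of_mem_erase hx)
    have := Finset.ne_of_mem_erase hx
    omega
  have hME : M ∈ α.erase 0 := Finset.mem_erase.mpr ⟨hM0, hM⟩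
  -- there is a nontrivial class
  have hβ1 : ∃ y ∈ β, y ≠ 0 := by
    by_contra h1
    push Not at h1
    apply hab
    rw [eq_bot_iff, commutator_def, Subgroup.commutator_le]
    intro g _ h _
    obtain ⟨y, hy, hy2⟩ := hcl g
    rw [h1 y hy, pow_zero, Subgroup.index_eq_one] at hy2
    rw [Subgroup.mem_bot, commutatorElement_eq_one_iff_mul_comm]
    have h2 : h ∈ Subgroup.centralizer ({g} : Set P) := by
      rw [hy2]
      exact Subgroup.mem_top h
    exact (Subgroup.mem_centralizer_singleton_iff.mp h2).symm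
  have hclle : ∀ x : P, (Subgroup.centralizer ({x} : Set P)).index ≤ p ^ 2 := by
    intro x
    obtain ⟨y, hy, hy2⟩ := hcl x
    rw [hy2]
    exact Nat.pow_le_pow_right hp.pos (hβ y hy)
  have hbr := breadth_two hp _ P hP le_rfl hclle
  have hsmallZ : (Subgroup.center P).index ≤ p ^ 3 → α.erase 0 = {1} := by
    intro hZ
    have h1 : α.erase 0 ⊆ {1} := by
      intro x hx
      obtain ⟨χ, hχ, hχd⟩ := hD x hx
      have h2 := (dg_sq_le hχ).trans hZ
      rw [hχd, ← pow_mul] at h2
      have h3 := (Nat.pow_le_pow_iff_right hp.one_lt).mp h2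
      have := Finset.ne_of_mem_erase hx
      rw [Finset.mem_singleton]
      omega
    apply Finset.eq_of_subset_of_card_le h1
    rw [Finset.card_singleton]
    exact hα1
  -- the number of elements of `β`
  have hβsub : β ⊆ {0, 1, 2} := by
    intro y hy
    have := hβ y hy
    simp only [Finset.mem_insert, Finset.mem_singleton]
    omega
  have hβcard : β.card = 2 ∨ β.card = 3 := by
    have h1 := Finset.card_le_card hβsub
    have h2 : ({0, 1, 2} : Finset ℕ).card = 3 := by decide
    obtain ⟨y, hy, hy0⟩ := hβ1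
    have h3 : 1 < β.card := Finset.one_lt_card.mpr ⟨0, hβ0, y, hy, fun h => hy0 h.symm⟩
    omega
  rcases hβcard with hβc | hβc
  · -- two class sizes
    left
    refine ⟨?_, hβc⟩
    suffices h1 : (α.erase 0).card ≤ 1 by omega
    by_cases h1β : 1 ∈ β
    · -- `β = {0, 1}`
      have h2β : 2 ∉ β := by
        intro h2β
        have h3 : ({0, 1, 2} : Finset ℕ) ⊆ β := by
          intro y hy
          simp only [Finset.mem_insert, Finset.mem_singleton] at hy
          rcases hy with rfl | rfl | rfl
          · exact hβ0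
          · exact h1β
          · exact h2β
        have h4 := Finset.card_le_card h3
        have h5 : ({0, 1, 2} : Finset ℕ).card = 3 := by decide
        omega
      have h2 := breadth_one hp _ P hP le_rfl (by
        intro x
        obtain ⟨y, hy, hy2⟩ := hcl x
        rw [hy2]
        have h3 : y ≤ 1 := by
          have h4 := hβ y hy
          have h5 : y ≠ 2 := by
            rintro rfl
            exact h2β hy
          omega
        calc p ^ y ≤ p ^ 1 := Nat.pow_le_pow_right hp.pos h3
          _ = p := pow_one p)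
      have h3 := hcount p h2
      have hp1 : 0 < p - 1 := by have := hp.two_le; omega
      have h4 : (p - 1) * (α.erase 0).card ≤ (p - 1) * 1 := by omega
      exact Nat.le_of_mul_le_mul_left h4 hp1
    · -- `β = {0, 2}`
      rcases hbr with hbr | hbr
      · have h2 : ∀ x : P, x ∉ Subgroup.center P →
            (Subgroup.centralizer ({x} : Set P)).index = Nat.card (commutator P) := by
          intro x hx
          obtain ⟨y, hy, hy2⟩ := hcl x
          have h3 : y ≠ 0 := by
            rintro rfl
            apply hx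
            rw [pow_zero, Subgroup.index_eq_one] at hy2
            rw [Subgroup.mem_center_iff]
            intro g
            have h4 : g ∈ Subgroup.centralizer ({x} : Set P) := by
              rw [hy2]
              exact Subgroup.mem_top g
            exact Subgroup.mem_centralizer_singleton_iff.mp h4
          have h4 : y = 2 := by
            have h5 := hβ y hy
            have h6 : y ≠ 1 := by
              rintro rfl
              exact h1β hy
            omega
          apply le_antisymm (index_centralizer_le x)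
          rw [hy2, h4]
          exact hbr
        rw [Finset.card_le_one]
        intro a ha c hc
        obtain ⟨χ, hχ, hχd⟩ := hD a ha
        obtain ⟨φ, hφ, hφd⟩ := hD c hc
        have h3 := dg_sq_center hχ (fun x hx => zero_of_index (h2 x hx) hχ (by
          rw [hχd]
          exact fun h4 => Finset.ne_of_mem_erase ha ((hpow1 a).mp h4)))
        have h4 := dg_sq_center hφ (fun x hx => zero_of_index (h2 x hx) hφ (by
          rw [hφd]
          exact fun h4 => Finset.ne_of_mem_erase hc ((hpow1 c).mp h4)))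
        rw [← h4, hχd, hφd] at h3
        exact Nat.pow_right_injective hp.two_le (Nat.pow_left_injective (n := 2) (by norm_num) h3)
      · rw [hsmallZ hbr, Finset.card_singleton]
  · -- three class sizes
    right
    refine ⟨hβc, by omega, ?_, ?_⟩
    · rcases hbr with hbr | hbr
      · have h3 := hcount _ hbr
        have hp1 : 0 < p - 1 := by have := hp.two_le; omega
        have h4 : p ^ 2 = (p - 1) * (p + 1) + 1 := by
          obtain ⟨q, rfl⟩ : ∃ q, p = q + 1 := ⟨p - 1, by omega⟩
          rw [Nat.add_sub_cancel]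
          ring
        rw [h4] at h3
        have h5 : (p - 1) * (α.erase 0).card ≤ (p - 1) * (p + 1) := by omega
        have h6 := Nat.le_of_mul_le_mul_left h5 hp1
        omega
      · rw [hsmallZ hbr, Finset.card_singleton] at hcard1
        omega
    · rcases hbr with hbr | hbr
      · have hsmall : (α.erase 0).card ≤ 2 → ∑ x ∈ α.erase 0, (M - x) ≤ M := by
          intro hle
          rw [← Finset.add_sum_erase _ _ hME, Nat.sub_self, zero_add]
          have h2 : ((α.erase 0).erase M).card ≤ 1 := by
            have := Finset.card_erase_add_one hME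
            omega
          rcases Finset.card_le_one_iff_subset_singleton.mp h2 with ⟨x, hx⟩
          calc ∑ x ∈ (α.erase 0).erase M, (M - x) ≤ ∑ x ∈ {x}, (M - x) :=
                Finset.sum_le_sum_of_subset hx
            _ = M - x := Finset.sum_singleton _ _
            _ ≤ M := Nat.sub_le _ _
        rcases small_dichotomy hp hP hbr with ⟨hc, hexp, hcard⟩ | hdich
        · letI := CW.grp hc
          have hpz : ∀ x : CW P, p • x = 0 := by
            intro x
            apply CW.ext'
            change x.val ^ p = 1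
            apply Subtype.ext
            exact hexp _ x.val.2
          letI : Module (ZMod p) (CW P) := AddCommGroup.zmodModule hpz
          refine pencil_group (p := p) (W := CW P) (CW.equiv (G := P)).symm (fun x y => rfl) hc ?_
            (α.erase 0) (fun x hx => Finset.ne_of_mem_erase hx) hD hME
          rw [← hcard]
          exact Nat.card_congr (CW.equiv (G := P))
        · apply hsmall
          by_contra h2
          push Not at h2
          obtain ⟨a, ha, b, hb, c, hc, hab2, hac, hbc⟩ := Finset.two_lt_card.mp h2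
          obtain ⟨χ₁, h1, hd1⟩ := hD a ha
          obtain ⟨χ₂, h2, hd2⟩ := hD b hb
          obtain ⟨χ₃, h3, hd3⟩ := hD c hc
          have hne : ∀ x ∈ α.erase 0, p ^ x ≠ 1 := fun x hx h4 =>
            Finset.ne_of_mem_erase hx ((hpow1 x).mp h4)
          rcases hdich χ₁ χ₂ χ₃ h1 h2 h3 (by rw [hd1]; exact hne a ha) (by rw [hd2]; exact hne b hb)
            (by rw [hd3]; exact hne c hc) with h4 | h4 | h4
          · rw [hd1, hd2] at h4
            exact hab2 (Nat.pow_right_injective hp.two_le h4)
          · rw [hd1, hd3] at h4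
            exact hac (Nat.pow_right_injective hp.two_le h4)
          · rw [hd2, hd3] at h4
            exact hbc (Nat.pow_right_injective hp.two_le h4)
      · have h2 := hsmallZ hbr
        rw [h2] at hME ⊢
        rw [Finset.mem_singleton] at hME
        rw [Finset.sum_singleton, hME]
        omega

end Run7.h528
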