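import Mathlib
import Pool.Agent.Run7.h528.Kron
import Pool.Agent.Run7.h528.Lin
import Pool.Agent.Run7.h528.Lacun
import Pool.Agent.Run7.h528.SmallNec

/-!
# The complete answer for class sizes at most `p ^ 2`
-/

set_option autoImplicit false
set_option linter.unusedSectionVars false
set_option linter.style.haveILetI false

open scoped BigOperators Classical LinearAlgebra.Projectivization

noncomputable section

namespace Run7.h528

variable {p : ℕ} [Fact p.Prime]

/-- one degree and one class size with `y ≤ x` -/
theorem real_heis {x y : ℕ} (hy : 0 < y) (hyx : y ≤ x) : Realizable p {0, x} {0, y} := by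
  have h1 := Pc.heis (p := p) (W := Fin y → ZMod p) ⊤ x (by omega) (by
    rw [finrank_top]
    simpa using hyx)
  have hW : Module.finrank (ZMod p) (Fin y → ZMod p) = y := by simp
  refine h1.realizable _ _ ?_ ?_
  · intro c
    simp only [Finset.mem_insert, Finset.mem_singleton]
    constructor
    · rintro (rfl | rfl)
      · exact ⟨0, by simp⟩
      · obtain ⟨ℓ, hℓ⟩ : ∃ ℓ : Module.Dual (ZMod p) (Fin y → ZMod p), ℓ ≠ 0 := by
          refine ⟨LinearMap.proj (⟨0, hy⟩ : Fin y), ?_⟩
          intro h
          have := LinearMap.congr_fun h (fun _ => 1)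
          simp at this
        refine ⟨ℓ, if_neg ?_⟩
        intro h
        apply hℓ
        rw [← LinearMap.ker_eq_top]
        exact top_le_iff.mp h
    · rintro ⟨ℓ, rfl⟩
      split_ifs
      · exact Or.inl rfl
      · exact Or.inr rfl
  · intro c
    simp only [Finset.mem_insert, Finset.mem_singleton, Set.mem_insert_iff, Set.mem_singleton_iff]
    constructor
    · rintro (rfl | rfl)
      · exact ⟨⊥, Or.inl rfl, finrank_bot _ _⟩
      · exact ⟨⊤, Or.inr rfl, by rw [finrank_top, hW]⟩
    · rintro ⟨_, (rfl | rfl), rfl⟩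
      · left
        exact finrank_bot _ _
      · right
        rw [finrank_top, hW]

/-- three class sizes -/
theorem small_suf3 {α : Finset ℕ} (hα0 : 0 ∈ α) {M : ℕ} (hM : M ∈ α) (hα : ∀ x ∈ α, x ≤ M)
    (hc2 : 2 ≤ α.card) (hcp : α.card ≤ p + 2) (hsum : ∑ x ∈ α.erase 0, (M - x) ≤ M) :
    Realizable p α {0, 1, 2} := by
  have hp : p.Prime := Fact.out
  let W := Fin 2 → ZMod p
  let PP := ℙ (ZMod p) (Module.Dual (ZMod p) W)
  haveI : Finite (Module.Dual (ZMod p) W) := Module.finite_of_finite (ZMod p)
  haveI : Finite PP := inferInstance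
  haveI : Fintype PP := Fintype.ofFinite PP
  have hWb : Module.finrank (ZMod p) W = 2 := by simp [W]
  have hPP : Fintype.card PP = p + 1 := by
    have h3 := card_points (p := p) 2
    rw [← Nat.card_eq_fintype_card]
    have h4 : 0 < p - 1 := by have := hp.two_le; omega
    have h5 : p ^ 2 = (p + 1) * (p - 1) + 1 := by
      obtain ⟨q, rfl⟩ : ∃ q, p = q + 1 := ⟨p - 1, by omega⟩
      rw [Nat.add_sub_cancel]
      ring
    rw [h5] at h3
    exact Nat.eq_of_mul_eq_mul_right h4 (Nat.add_right_cancel h3)
  have hcard := Finset.card_erase_add_one hα0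
  have hM0 : M ≠ 0 := by
    rintro rfl
    have h1 : α ⊆ {0} := by
      intro x hx
      have := hα x hx
      rw [Finset.mem_singleton]
      omega
    have := Finset.card_le_card h1
    rw [Finset.card_singleton] at this
    omega
  have hME : M ∈ α.erase 0 := Finset.mem_erase.mpr ⟨hM0, hM⟩
  have hcard2 := Finset.card_erase_add_one hME
  set s : Finset ℕ := (α.erase 0).erase M with hs
  have hsle : s.card ≤ p := by omega
  have hsx : ∀ x ∈ s, x ∈ α ∧ x ≠ 0 ∧ x < M := by
    intro x hx
    rw [hs, Finset.mem_erase, Finset.mem_erase] at hx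
    have := hα x hx.2.2
    exact ⟨hx.2.2, hx.2.1, by omega⟩
  obtain ⟨f⟩ : Nonempty ((s : Finset ℕ) ↪ PP) := by
    apply Function.Embedding.nonempty_of_card_le
    rw [Fintype.card_coe, hPP]
    omega
  haveI : Nonempty PP := Fintype.card_pos_iff.mp (by rw [hPP]; omega)
  let g : ℕ → PP := fun x => if hx : x ∈ s then f ⟨x, hx⟩ else Classical.arbitrary PP
  have hg : ∀ x (hx : x ∈ s), g x = f ⟨x, hx⟩ := fun x hx => dif_pos hx
  have hginj : ∀ x ∈ s, ∀ y ∈ s, g x = g y → x = y := by
    intro x hx y hy hxy
    rw [hg x hx, hg y hy] at hxy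
    exact congrArg Subtype.val (f.injective hxy)
  have hsumM : ∑ x ∈ s, (M - x) ≤ M := by
    have h1 := Finset.add_sum_erase (α.erase 0) (fun x => M - x) hME
    rw [Nat.sub_self, zero_add] at h1
    rw [hs, h1]
    exact hsum
  set rem := M - ∑ x ∈ s, (M - x) with hrem
  have hP1 := Pc.sum (p := p) (W := W) s (fun x => Hy (g x)) (fun x => M - x)
    (fun x hx => by have := (hsx x hx).2.2; omega)
    (fun x hx => by
      have h3 := finrank_Hy (g x)
      have := (hsx x hx).2.2
      omega)
  obtain ⟨S, hS1, hS2, hS3, hS4⟩ := Pc.kron (p := p) (W := W) rem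
  have hP := hP1.add hS1
  have hrk : ∀ ℓ : Module.Dual (ZMod p) W, ∀ hℓ : ℓ ≠ 0, ∀ x ∈ s,
      g x = Projectivization.mk (ZMod p) ℓ hℓ →
      (∑ i ∈ s, if Hy (g i) ≤ LinearMap.ker ℓ then 0 else M - i) + (M - x) = ∑ i ∈ s, (M - i) := by
    intro ℓ hℓ x hx hgx
    have h3 : ∀ i ∈ s, (if Hy (g i) ≤ LinearMap.ker ℓ then 0 else M - i) =
        if i = x then 0 else M - i := by
      intro i hi
      simp only [Hy_le_iff (g i) ℓ hℓ, ← hgx]
      by_cases hix : i = x
      · rw [if_pos (by rw [hix]), if_pos hix]
      · rw [if_neg (fun h => hix (hginj i hi x hx h)), if_neg hix]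
    rw [Finset.sum_congr rfl h3, ← Finset.sum_erase_add _ _ hx,
      ← Finset.sum_erase_add s (fun i => M - i) hx, if_pos rfl, add_zero]
    congr 1
    apply Finset.sum_congr rfl
    intro i hi
    rw [if_neg (Finset.mem_erase.mp hi).1]
  have hrk2 : ∀ ℓ : Module.Dual (ZMod p) W, ∀ hℓ : ℓ ≠ 0,
      (∀ x ∈ s, g x ≠ Projectivization.mk (ZMod p) ℓ hℓ) →
      (∑ i ∈ s, if Hy (g i) ≤ LinearMap.ker ℓ then 0 else M - i) = ∑ i ∈ s, (M - i) := by
    intro ℓ hℓ hx
    apply Finset.sum_congr rfl
    intro i hi
    rw [if_neg]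
    rw [Hy_le_iff (g i) ℓ hℓ]
    exact hx i hi
  refine hP.realizable _ _ ?_ ?_
  · intro c
    constructor
    · intro hc
      by_cases hc0 : c = 0
      · refine ⟨0, ?_⟩
        simp [hc0, LinearMap.ker_zero]
      by_cases hcM : c = M
      · -- a point outside the image of `g`
        obtain ⟨y, hy⟩ : ∃ y : PP, y ∉ s.image g := by
          by_contra h
          push Not at h
          have h1 : (Finset.univ : Finset PP) ⊆ s.image g := fun y _ => h y
          have h2 := Finset.card_le_card h1
          rw [Finset.card_univ, hPP] at h2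
          have h3 := Finset.card_image_le (s := s) (f := g)
          omega
        refine ⟨y.rep, ?_⟩
        rw [hrk2 y.rep y.rep_nonzero (by
          intro x hx h
          apply hy
          rw [Projectivization.mk_rep] at h
          exact Finset.mem_image.mpr ⟨x, hx, h⟩), if_neg y.rep_nonzero, hcM, hrem]
        omega
      · have hcs : c ∈ s := by
          rw [hs, Finset.mem_erase, Finset.mem_erase]
          exact ⟨hcM, hc0, hc⟩
        refine ⟨(g c).rep, ?_⟩
        have h1 := hrk (g c).rep (g c).rep_nonzero c hcs (by rw [Projectivization.mk_rep])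
        rw [if_neg (g c).rep_nonzero]
        have h2 := (hsx c hcs).2.2
        have h3 : M - c ≤ ∑ i ∈ s, (M - i) := Finset.single_le_sum (f := fun i => M - i)
          (fun _ _ => Nat.zero_le _) hcs
        omega
    · rintro ⟨ℓ, hℓ⟩
      by_cases hℓ0 : ℓ = 0
      · rw [hℓ0] at hℓ
        have h1 : c = 0 := by
          rw [← hℓ]
          simp [LinearMap.ker_zero]
        rw [h1]
        exact hα0
      · rw [if_neg hℓ0] at hℓ
        by_cases hx : ∃ x ∈ s, g x = Projectivization.mk (ZMod p) ℓ hℓ0
        · obtain ⟨x, hx, hgx⟩ := hx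
          have h1 := hrk ℓ hℓ0 x hx hgx
          have h2 := (hsx x hx).2.2
          have h3 : M - x ≤ ∑ i ∈ s, (M - i) := Finset.single_le_sum (f := fun i => M - i)
            (fun _ _ => Nat.zero_le _) hx
          have h4 : c = x := by omega
          rw [h4]
          exact (hsx x hx).1
        · push Not at hx
          have h1 := hrk2 ℓ hℓ0 hx
          have h2 : c = M := by omega
          rw [h2]
          exact hM
  · intro c
    simp only [Finset.mem_insert, Finset.mem_singleton]
    constructor
    · intro hc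
      rcases hc with rfl | rfl | rfl
      · exact ⟨⊥, ⟨⊥, ⟨∅, by simp, by simp⟩, ⊥, hS2, by simp⟩, finrank_bot _ _⟩
      · -- a class of size `p`
        by_cases hr : rem = 0
        · obtain ⟨x, hx⟩ : s.Nonempty := by
            rw [Finset.nonempty_iff_ne_empty]
            intro h
            rw [hrem, h, Finset.sum_empty] at hr
            omega
          refine ⟨Hy (g x), ⟨Hy (g x), ⟨{x}, by simpa using hx, by simp⟩, ⊥, hS2, by simp⟩, ?_⟩
          have := finrank_Hy (g x)
          omega
        · have hne : (fun _ => 1 : W) ≠ 0 := by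
            intro h
            exact one_ne_zero (congrFun h 0)
          exact ⟨_, ⟨⊥, ⟨∅, by simp, by simp⟩, _, hS4 hr (fun _ => 1), by simp⟩,
            finrank_span_singleton hne⟩
      · -- a class of size `p ^ 2`
        by_cases hr : rem = 0
        · have h1 : 1 < s.card := by
            by_contra h2
            have h3 : s.card ≤ 1 := by omega
            rcases Finset.card_le_one_iff_subset_singleton.mp h3 with ⟨x, hx⟩
            have h4 : ∑ i ∈ s, (M - i) ≤ ∑ i ∈ {x}, (M - i) := Finset.sum_le_sum_of_subset hx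
            rw [Finset.sum_singleton] at h4
            have h5 : M ≤ ∑ i ∈ s, (M - i) := by omega
            have h6 : s.Nonempty := by
              rw [Finset.nonempty_iff_ne_empty]
              intro h
              rw [h, Finset.sum_empty] at h5
              omega
            obtain ⟨y, hy⟩ := h6
            have h7 : y = x := Finset.mem_singleton.mp (hx hy)
            have h8 := hsx y hy
            omega
          obtain ⟨x, hx, y, hy, hxy⟩ := Finset.one_lt_card.mp h1
          refine ⟨Hy (g x) ⊔ Hy (g y), ⟨Hy (g x) ⊔ Hy (g y), ⟨{x, y}, ?_, ?_⟩, ⊥, hS2, by simp⟩, ?_⟩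
          · intro i hi
            rw [Finset.mem_insert, Finset.mem_singleton] at hi
            rcases hi with rfl | rfl
            · exact hx
            · exact hy
          · rw [Finset.iSup_insert, Finset.iSup_singleton]
          · have h2 : Hy (g x) < Hy (g x) ⊔ Hy (g y) := by
              rw [left_lt_sup]
              intro h3
              have h4 : Hy (g y) ≤ LinearMap.ker (g x).rep := h3
              rw [Hy_le_iff (g y) _ (g x).rep_nonzero, Projectivization.mk_rep] at h4
              exact hxy (hginj y hy x hx h4).symm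
            have h3 := Submodule.finrank_lt_finrank_of_lt h2
            have h4 := Submodule.finrank_le (Hy (g x) ⊔ Hy (g y))
            have h5 := finrank_Hy (g x)
            omega
        · exact ⟨⊤, ⟨⊥, ⟨∅, by simp, by simp⟩, ⊤, hS3 hr, by simp⟩, by rw [finrank_top, hWb]⟩
    · rintro ⟨U, -, rfl⟩
      have := Submodule.finrank_le U
      omega

/-- the complete answer for class sizes at most `p ^ 2` -/
theorem small {α β : Finset ℕ} (hβ : ∀ y ∈ β, y ≤ 2) (hβ0 : 0 ∈ β) (hα0 : 0 ∈ α) {M : ℕ}
    (hM : M ∈ α) (hα : ∀ x ∈ α, x ≤ M) :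
    Realizable p α β ↔ (α.card = 1 ∧ β.card = 1) ∨ (α.card = 2 ∧ β.card = 2) ∨
      (β.card = 3 ∧ 2 ≤ α.card ∧ α.card ≤ p + 2 ∧ ∑ x ∈ α.erase 0, (M - x) ≤ M) := by
  constructor
  · exact small_nec hβ hβ0 hα0 hM hα
  · have hone : ∀ γ : Finset ℕ, 0 ∈ γ → γ.card = 1 → γ = {0} := by
      intro γ h0 h1
      obtain ⟨x, rfl⟩ := Finset.card_eq_one.mp h1
      rw [Finset.mem_singleton] at h0
      rw [← h0]
    have htwo : ∀ γ : Finset ℕ, 0 ∈ γ → γ.card = 2 → ∃ x, 0 < x ∧ γ = {0, x} := by
      intro γ h0 h1
      have h2 := Finset.card_erase_add_one h0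
      obtain ⟨x, hx⟩ := Finset.card_eq_one.mp (by omega : (γ.erase 0).card = 1)
      refine ⟨x, ?_, ?_⟩
      · have h3 : x ∈ γ.erase 0 := by
          rw [hx]
          exact Finset.mem_singleton_self x
        have := Finset.ne_of_mem_erase h3
        omega
      · rw [← Finset.insert_erase h0, hx]
    rintro (⟨h1, h2⟩ | ⟨h1, h2⟩ | ⟨h1, h2, h3, h4⟩)
    · rw [hone α hα0 h1, hone β hβ0 h2]
      exact RD.zero.real
    · obtain ⟨x, hx, rfl⟩ := htwo α hα0 h1
      obtain ⟨y, hy, rfl⟩ := htwo β hβ0 h2
      have hy2 := hβ y (by simp)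
      by_cases hyx : y ≤ x
      · exact real_heis hy hyx
      · have h3 : x = 1 := by omega
        have h4 : y = 2 := by omega
        rw [h3, h4]
        exact real_cross 1 one_pos
    · have h5 : β = {0, 1, 2} := by
        apply Finset.eq_of_subset_of_card_le
        · intro y hy
          have := hβ y hy
          simp only [Finset.mem_insert, Finset.mem_singleton]
          omega
        · rw [h1]
          decide
      rw [h5]
      exact small_suf3 hα0 hM hα h2 h3 h4

end Run7.h528
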