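import Mathlib
import Pool.Agent.Run7.h528.Lin

/-!
# Construction of groups with degrees in clusters
-/

set_option autoImplicit false
set_option linter.unusedSectionVars false
set_option linter.style.haveILetI false

open scoped BigOperators Classical LinearAlgebra.Projectivization

noncomputable section

namespace Run7.h528

variable {p : ℕ} [Fact p.Prime]

/-- the number of the hyperplanes over a member of the chain -/
theorem card_hyper {b c : ℕ} (hc : c ≤ b)
    [Fintype (ℙ (ZMod p) (Module.Dual (ZMod p) (Fin b → ZMod p)))] :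
    ((Finset.univ.filter
      (fun x : ℙ (ZMod p) (Module.Dual (ZMod p) (Fin b → ZMod p)) => Ch p b c ≤ Hy x)).card) *
        (p - 1) + 1 = p ^ (b - c) := by
  let W := Fin b → ZMod p
  let Dl := Module.Dual (ZMod p) W
  haveI : Finite Dl := Module.finite_of_finite (ZMod p)
  let A : Submodule (ZMod p) Dl := (Ch p b c).dualAnnihilator
  haveI : Finite A := inferInstance
  haveI : Fintype (ℙ (ZMod p) A) := Fintype.ofFinite _
  have h1 := Projectivization.card' (ZMod p) A
  have h2 := Module.natCard_eq_pow_finrank (K := ZMod p) (V := A)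
  have h3 := Subspace.finrank_add_finrank_dualAnnihilator_eq (Ch p b c)
  rw [finrank_Ch hc] at h3
  have h4 : Module.finrank (ZMod p) A = b - c := by
    have h5 : Module.finrank (ZMod p) (Fin b → ZMod p) = b := by simp
    rw [h5] at h3
    change Module.finrank (ZMod p) (Ch p b c).dualAnnihilator = b - c
    omega
  rw [h2, Nat.card_zmod, h4] at h1
  rw [h1]
  congr 2
  rw [Nat.card_eq_fintype_card, ← Finset.card_univ]
  symm
  apply Finset.card_bij (fun x _ => Projectivization.map A.subtype A.injective_subtype x)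
  · intro x _
    rw [Finset.mem_filter]
    refine ⟨Finset.mem_univ _, ?_⟩
    induction x using Projectivization.ind with
    | h v hv =>
      rw [Projectivization.map_mk]
      rw [Hy_mk]
      intro w hw
      have h5 := v.2
      exact (Submodule.mem_dualAnnihilator (v : Dl)).mp h5 w hw
  · intro x _ y _ hxy
    exact Projectivization.map_injective A.subtype A.injective_subtype hxy
  · intro y hy
    have h5 := (Finset.mem_filter.mp hy).2
    have h6 : y.rep ∈ A := by
      change y.rep ∈ (Ch p b c).dualAnnihilator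
      rw [Submodule.mem_dualAnnihilator]
      intro w hw
      exact h5 hw
    refine ⟨Projectivization.mk (ZMod p) (⟨y.rep, h6⟩ : A) (by
      intro h7
      exact y.rep_nonzero (congrArg Subtype.val h7)), Finset.mem_univ _, ?_⟩
    rw [Projectivization.map_mk]
    exact Projectivization.mk_rep y

/-- sufficiency -/
theorem multi_suf {b : ℕ} (hb : 1 ≤ b) {β : Finset ℕ} (hβ : ∀ x ∈ β, x ≤ b) (h0 : 0 ∈ β)
    (h1 : b - 1 ∈ β) {k : ℕ} (C : Fin (k + 1) → Finset ℕ) (M : Fin (k + 1) → ℕ)
    (hM : ∀ i, M i ∈ C i) (hCM : ∀ i, ∀ x ∈ C i, x ≤ M i)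
    (hgap : ∀ i : Fin k, b * M i.castSucc < M i.succ)
    (N : ℕ) (hN : N * (p - 1) + 1 = p ^ b)
    (hsum : ∑ i, ∑ x ∈ C i, (M i - x) + b ^ 2 * N ≤ M 0)
    (κ : Fin (k + 2) → ℕ) (hκ0 : κ 0 = b) (hκl : κ (Fin.last _) = 0) (hκ : StrictAnti κ)
    (hκβ : ∀ i, κ i ∈ β)
    (hcount : ∀ i : Fin (k + 1),
      (p - 1) * (C i).card + p ^ (b - κ i.castSucc) ≤ p ^ (b - κ i.succ)) :
    Realizable p (insert 0 (Finset.univ.biUnion C)) β := by
  have hp : p.Prime := Fact.out
  have hp1 : 0 < p - 1 := by have := hp.two_le; omega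
  let W := Fin b → ZMod p
  let PP := ℙ (ZMod p) (Module.Dual (ZMod p) W)
  haveI : Finite (Module.Dual (ZMod p) W) := Module.finite_of_finite (ZMod p)
  haveI : Finite PP := inferInstance
  haveI : Fintype PP := Fintype.ofFinite PP
  have hWb : Module.finrank (ZMod p) W = b := by simp [W]
  have hPP : Fintype.card PP = N := by
    have h3 := card_points (p := p) b
    rw [← hN] at h3
    rw [← Nat.card_eq_fintype_card]
    exact Nat.eq_of_mul_eq_mul_right hp1 (Nat.add_right_cancel h3)
  have hNpos : 0 < N := by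
    rcases Nat.eq_zero_or_pos N with h3 | h3
    · rw [h3, zero_mul, zero_add] at hN
      have h4 : p ^ 1 ≤ p ^ b := Nat.pow_le_pow_right hp.pos hb
      rw [pow_one] at h4
      have := hp.two_le
      omega
    · exact h3
  haveI : Nonempty PP := Fintype.card_pos_iff.mp (by rw [hPP]; exact hNpos)
  have hM0pos : 1 ≤ M 0 := by
    have h3 : 1 ≤ b ^ 2 * N := Nat.mul_pos (pow_pos hb 2) hNpos
    omega
  have hMs : ∀ i : Fin k, M i.castSucc + 1 ≤ M i.succ := by
    intro i
    have := hgap i
    nlinarith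
  have hM0 : ∀ i, M 0 ≤ M i := by
    intro i
    induction i using Fin.induction with
    | zero => exact le_rfl
    | succ i ih =>
      have := hMs i
      omega
  have hκb : ∀ i, κ i ≤ b := fun i => hβ _ (hκβ i)
  -- the level sets
  let A : Fin (k + 2) → Finset PP := fun i => Finset.univ.filter (fun x => Ch p b (κ i) ≤ Hy x)
  have hAcard : ∀ i, (A i).card * (p - 1) + 1 = p ^ (b - κ i) := fun i => card_hyper (hκb i)
  have hAmem : ∀ i x, x ∈ A i ↔ Ch p b (κ i) ≤ Hy x := by
    intro i x
    simp only [A, Finset.mem_filter, Finset.mem_univ, true_and]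
  have hAmono : Monotone A := by
    intro i j hij x hx
    rw [hAmem] at hx ⊢
    exact (Ch_mono (hκ.antitone hij)).trans hx
  have hA0 : ∀ x, x ∉ A 0 := by
    intro x hx
    rw [hAmem, hκ0, Ch_top] at hx
    have h3 := finrank_Hy x
    have h4 : Hy x = ⊤ := top_le_iff.mp hx
    rw [h4, finrank_top] at h3
    omega
  have hAl : ∀ x, x ∈ A (Fin.last _) := by
    intro x
    rw [hAmem, hκl, Ch_zero]
    exact bot_le
  let L : Fin (k + 1) → Finset PP := fun i => A i.succ \ A i.castSucc
  have hLcard : ∀ i, (C i).card ≤ (L i).card := by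
    intro i
    have h3 : (L i).card + (A i.castSucc).card = (A i.succ).card :=
      Finset.card_sdiff_add_card_eq_card (hAmono (Fin.castSucc_lt_succ).le)
    have h4 := hcount i
    rw [← hAcard, ← hAcard, ← h3] at h4
    have h5 : (p - 1) * (C i).card ≤ (p - 1) * (L i).card := by nlinarith
    exact Nat.le_of_mul_le_mul_left h5 hp1
  have hlev : ∀ x, ∃ i, x ∈ L i := by
    intro x
    by_contra hcon
    push Not at hcon
    apply hA0 x
    have h3 : ∀ i, x ∈ A i := by
      intro i
      induction i using Fin.reverseInduction with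
      | last => exact hAl x
      | cast i ih =>
        by_contra h4
        exact hcon i (Finset.mem_sdiff.mpr ⟨ih, h4⟩)
    exact h3 0
  choose lev hlevm using hlev
  have hlevu : ∀ x i, x ∈ L i → i = lev x := by
    intro x i hi
    have hj := hlevm x
    by_contra hne
    rcases lt_or_gt_of_ne hne with h3 | h3
    · have h4 : i.succ ≤ (lev x).castSucc := Fin.succ_le_castSucc_iff.mpr h3
      exact (Finset.mem_sdiff.mp hj).2 (hAmono h4 (Finset.mem_sdiff.mp hi).1)
    · have h4 : (lev x).succ ≤ i.castSucc := Fin.succ_le_castSucc_iff.mpr h3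
      exact (Finset.mem_sdiff.mp hi).2 (hAmono h4 (Finset.mem_sdiff.mp hj).1)
  -- membership in the level sets
  have hAlev : ∀ x (i : Fin (k + 1)), x ∈ A i.castSucc ↔ lev x < i := by
    intro x i
    have hj := Finset.mem_sdiff.mp (hlevm x)
    constructor
    · intro hx
      by_contra h3
      push Not at h3
      apply hj.2
      exact hAmono (Fin.castSucc_le_castSucc_iff.mpr h3) hx
    · intro h3
      exact hAmono (Fin.succ_le_castSucc_iff.mpr h3) hj.1
  -- the values
  have hinj : ∀ i, Nonempty ((C i : Finset ℕ) ↪ (L i : Finset PP)) := by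
    intro i
    apply Function.Embedding.nonempty_of_card_le
    rw [Fintype.card_coe, Fintype.card_coe]
    exact hLcard i
  obtain ⟨f⟩ : Nonempty (∀ i, (C i : Finset ℕ) ↪ (L i : Finset PP)) := ⟨fun i => (hinj i).some⟩
  let f' : (Σ i : Fin (k + 1), (C i : Finset ℕ)) → PP := fun y => (f y.1 y.2).1
  have hf'L : ∀ y, lev (f' y) = y.1 := fun y => (hlevu _ _ (f y.1 y.2).2).symm
  have hf' : Function.Injective f' := by
    rintro ⟨i, y⟩ ⟨j, z⟩ hyz
    have h3 : i = j := (hf'L ⟨i, y⟩).symm.trans ((congrArg lev hyz).trans (hf'L ⟨j, z⟩))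
    subst h3
    have h4 : f i y = f i z := Subtype.ext hyz
    rw [(f i).injective h4]
  let a : PP → ℕ := Function.extend f' (fun y => y.2.1) (fun x => M (lev x))
  have haf : ∀ y, a (f' y) = y.2.1 := fun y => hf'.extend_apply _ _ _
  have haf2 : ∀ x, (¬ ∃ y, f' y = x) → a x = M (lev x) := fun x hx =>
    Function.extend_apply' _ _ _ hx
  have ha1 : ∀ x, a x ∈ C (lev x) := by
    intro x
    by_cases hx : ∃ y, f' y = x
    · obtain ⟨y, rfl⟩ := hx
      rw [haf, hf'L]
      exact y.2.2
    · rw [haf2 x hx]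
      exact hM _
  have ha2 : ∀ i, ∀ y ∈ C i, ∃ x, a x = y := fun i y hy => ⟨f' ⟨i, ⟨y, hy⟩⟩, haf _⟩
  have ha3 : ∀ x, a x ≤ M (lev x) := fun x => hCM _ _ (ha1 x)
  have ha4 : ∑ x : PP, (M (lev x) - a x) ≤ ∑ i, ∑ y ∈ C i, (M i - y) := by
    have h3 : ∑ x : PP, (M (lev x) - a x) =
        ∑ x ∈ Finset.univ.map ⟨f', hf'⟩, (M (lev x) - a x) := by
      symm
      apply Finset.sum_subset (Finset.subset_univ _)
      intro x _ hx
      rw [haf2 x, Nat.sub_self]
      rintro ⟨y, rfl⟩
      exact hx (Finset.mem_map_of_mem _ (Finset.mem_univ _))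
    rw [h3, Finset.sum_map]
    simp only [Function.Embedding.coeFn_mk, haf, hf'L]
    rw [← Finset.univ_sigma_univ, Finset.sum_sigma]
    apply Finset.sum_le_sum
    intro i _
    rw [Finset.univ_eq_attach, Finset.sum_attach (C i) (fun y => M i - y)]
  let J := β.filter (fun j => 1 ≤ j ∧ j + 2 ≤ b)
  let SJ := ∑ j ∈ J, j
  have hSJ : b + SJ ≤ b ^ 2 := by
    have h3 : J ⊆ Finset.Ico 1 (b - 1) := by
      intro j hj
      have := (Finset.mem_filter.mp hj).2
      rw [Finset.mem_Ico]
      omega
    have h4 : SJ ≤ ∑ j ∈ Finset.Ico 1 (b - 1), (b - 1) := by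
      calc SJ ≤ ∑ j ∈ Finset.Ico 1 (b - 1), j := Finset.sum_le_sum_of_subset h3
        _ ≤ _ := Finset.sum_le_sum fun j hj => by
            have := Finset.mem_Ico.mp hj
            omega
    rw [Finset.sum_const, Nat.card_Ico, smul_eq_mul] at h4
    obtain ⟨c, rfl⟩ : ∃ c, b = c + 1 := ⟨b - 1, by omega⟩
    rw [Nat.add_sub_cancel] at h4
    have h5 : (c - 1) * c ≤ c * c := Nat.mul_le_mul_right _ (Nat.sub_le _ _)
    nlinarith
  let cc : PP → ℕ := fun x => ∑ j ∈ J, if Ch p b j ≤ Hy x then j else 0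
  have hcc : ∀ x, cc x ≤ SJ := by
    intro x
    apply Finset.sum_le_sum
    intro j _
    split_ifs <;> omega
  let n : PP → ℕ := fun x => (M (lev x) - a x) + (b + SJ - cc x)
  have hn : ∀ x, b ≤ n x := by
    intro x
    have := hcc x
    simp only [n]
    omega
  have hnsum : ∑ x : PP, n x ≤ M 0 := by
    have h3 : ∑ x : PP, (b + SJ - cc x) ≤ b ^ 2 * N := by
      calc ∑ x : PP, (b + SJ - cc x) ≤ ∑ x : PP, b ^ 2 :=
            Finset.sum_le_sum fun x _ => by omega
        _ = b ^ 2 * N := by rw [Finset.sum_const, Finset.card_univ, hPP, smul_eq_mul, mul_comm]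
    simp only [n]
    rw [Finset.sum_add_distrib]
    omega
  let n₀ : ℕ := M 0 + b - ∑ x : PP, n x
  have hn₀ : b ≤ n₀ := by
    simp only [n₀]
    omega
  let g : Fin (k + 1) → ℕ := Fin.cons n₀ (fun i : Fin k => M i.succ - M i.castSucc)
  have hg0 : g 0 = n₀ := rfl
  have hgs : ∀ i : Fin k, g i.succ = M i.succ - M i.castSucc := fun i => rfl
  have hgsum : ∀ j : Fin (k + 1), ∑ i ∈ Finset.univ.filter (fun i => i ≤ j), g i =
      n₀ + (M j - M 0) := by
    intro j
    induction j using Fin.induction with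
    | zero =>
      have h3 : Finset.univ.filter (fun i : Fin (k + 1) => i ≤ 0) = {0} := by
        ext i
        simp
      rw [h3, Finset.sum_singleton, hg0, Nat.sub_self, add_zero]
    | succ j ih =>
      have h3 : Finset.univ.filter (fun i : Fin (k + 1) => i ≤ j.succ) =
          insert j.succ (Finset.univ.filter (fun i : Fin (k + 1) => i ≤ j.castSucc)) := by
        ext i
        simp only [Finset.mem_filter, Finset.mem_univ, true_and, Finset.mem_insert]
        constructor
        · intro h4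
          rcases h4.lt_or_eq with h5 | h5
          · right
            exact Fin.le_castSucc_iff.mpr h5
          · left
            exact h5
        · rintro (rfl | h4)
          · exact le_rfl
          · exact h4.trans (Fin.castSucc_lt_succ).le
      have h4 : j.succ ∉ Finset.univ.filter (fun i : Fin (k + 1) => i ≤ j.castSucc) := by
        simp only [Finset.mem_filter, Finset.mem_univ, true_and, not_le]
        exact Fin.castSucc_lt_succ
      rw [h3, Finset.sum_insert h4, ih, hgs]
      have h5 := hMs j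
      have h6 := hM0 j.castSucc
      omega
  have hP1 := Pc.sum (p := p) (W := W) (Finset.univ : Finset PP) Hy n
    (fun x _ => by have := hn x; omega)
    (fun x _ => by
      have h3 := finrank_Hy x
      have := hn x
      omega)
  have hP2 := Pc.sum (p := p) (W := W) J (Ch p b) (fun j => j)
    (fun j hj => (Finset.mem_filter.mp hj).2.1)
    (fun j hj => by
      have := (Finset.mem_filter.mp hj).2
      rw [finrank_Ch (by omega)])
  have hgpos : ∀ i : Fin (k + 1), κ i.castSucc ≤ g i ∧ 0 < g i := by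
    intro i
    refine Fin.cases ?_ (fun j => ?_) i
    · rw [hg0, Fin.castSucc_zero, hκ0]
      omega
    · rw [hgs]
      have h3 := hgap j
      have h4 := hM0 j.castSucc
      have h5 : κ (j.succ).castSucc < κ 0 := hκ (by
        rw [← Fin.succ_castSucc]
        exact Fin.succ_pos _)
      rw [hκ0] at h5
      have h6 : M j.castSucc + (b - 1) ≤ b * M j.castSucc := by
        obtain ⟨c, rfl⟩ : ∃ c, b = c + 1 := ⟨b - 1, by omega⟩
        rw [Nat.add_sub_cancel]
        nlinarith
      omega
  have hP3 := Pc.sum (p := p) (W := W) (Finset.univ : Finset (Fin (k + 1)))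
    (fun i => Ch p b (κ i.castSucc)) g
    (fun i _ => (hgpos i).2)
    (fun i _ => by
      rw [finrank_Ch (hκb _)]
      exact (hgpos i).1)
  have hP := hP1.add (hP2.add hP3)
  refine hP.realizable _ β ?_ ?_
  · -- degrees
    have hzero : ∀ ℓ : Module.Dual (ZMod p) W, ℓ = 0 →
        ((∑ x : PP, if Hy x ≤ LinearMap.ker ℓ then 0 else n x) +
          ((∑ j ∈ J, if Ch p b j ≤ LinearMap.ker ℓ then 0 else j) +
            ∑ i : Fin (k + 1), if Ch p b (κ i.castSucc) ≤ LinearMap.ker ℓ then 0 else g i)) = 0 := by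
      rintro ℓ rfl
      simp [LinearMap.ker_zero]
    have hne : ∀ (ℓ : Module.Dual (ZMod p) W) (hℓ : ℓ ≠ 0),
        ((∑ x : PP, if Hy x ≤ LinearMap.ker ℓ then 0 else n x) +
          ((∑ j ∈ J, if Ch p b j ≤ LinearMap.ker ℓ then 0 else j) +
            ∑ i : Fin (k + 1), if Ch p b (κ i.castSucc) ≤ LinearMap.ker ℓ then 0 else g i)) =
          a (Projectivization.mk (ZMod p) ℓ hℓ) := by
      intro ℓ hℓ
      set x₀ := Projectivization.mk (ZMod p) ℓ hℓ with hx₀
      have hHy : LinearMap.ker ℓ = Hy x₀ := (Hy_mk ℓ hℓ).symm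
      have e1 : (∑ x : PP, if Hy x ≤ LinearMap.ker ℓ then 0 else n x) + n x₀ = ∑ x : PP, n x := by
        have h3 : ∀ x : PP, (if Hy x ≤ LinearMap.ker ℓ then 0 else n x) =
            if x = x₀ then 0 else n x := by
          intro x
          simp only [Hy_le_iff x ℓ hℓ, ← hx₀]
        rw [Finset.sum_congr rfl (fun x _ => h3 x)]
        rw [← Finset.sum_erase_add _ _ (Finset.mem_univ x₀)]
        rw [← Finset.sum_erase_add Finset.univ n (Finset.mem_univ x₀)]
        rw [if_pos rfl, add_zero]
        congr 1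
        apply Finset.sum_congr rfl
        intro x hx
        rw [if_neg (Finset.mem_erase.mp hx).1]
      have e2 : (∑ j ∈ J, if Ch p b j ≤ LinearMap.ker ℓ then 0 else j) + cc x₀ = SJ := by
        simp only [cc, SJ]
        rw [← Finset.sum_add_distrib]
        apply Finset.sum_congr rfl
        intro j _
        rw [hHy]
        split_ifs <;> omega
      have e3 : (∑ i : Fin (k + 1), if Ch p b (κ i.castSucc) ≤ LinearMap.ker ℓ then 0 else g i) =
          n₀ + (M (lev x₀) - M 0) := by
        rw [← hgsum, Finset.sum_filter]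
        apply Finset.sum_congr rfl
        intro i _
        have h3 : Ch p b (κ i.castSucc) ≤ LinearMap.ker ℓ ↔ lev x₀ < i := by
          rw [hHy, ← hAmem, hAlev]
        by_cases h4 : lev x₀ < i
        · rw [if_pos (h3.mpr h4), if_neg (not_le.mpr h4)]
        · rw [if_neg (fun h5 => h4 (h3.mp h5)), if_pos (not_lt.mp h4)]
      rw [e3]
      have h3 := hcc x₀
      have h4 := ha3 x₀
      have h5 : n x₀ = (M (lev x₀) - a x₀) + (b + SJ - cc x₀) := rfl
      have h6 : n₀ = M 0 + b - ∑ x : PP, n x := rfl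
      have h7 : n x₀ ≤ ∑ x : PP, n x :=
        Finset.single_le_sum (fun _ _ => Nat.zero_le _) (Finset.mem_univ x₀)
      have h8 := hM0 (lev x₀)
      omega
    intro y
    rw [Finset.mem_insert, Finset.mem_biUnion]
    constructor
    · rintro (rfl | ⟨i, -, hi⟩)
      · exact ⟨0, hzero 0 rfl⟩
      · obtain ⟨x, hx⟩ := ha2 i y hi
        refine ⟨x.rep, ?_⟩
        rw [hne x.rep x.rep_nonzero, Projectivization.mk_rep, hx]
    · rintro ⟨ℓ, hℓ⟩
      by_cases hℓ0 : ℓ = 0
      · rw [hzero ℓ hℓ0] at hℓ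
        exact Or.inl hℓ.symm
      · rw [hne ℓ hℓ0] at hℓ
        rw [← hℓ]
        exact Or.inr ⟨_, Finset.mem_univ _, ha1 _⟩
  · -- class sizes
    have hbβ : b ∈ β := by
      rw [← hκ0]
      exact hκβ 0
    intro c
    constructor
    · intro hc
      have hcb := hβ c hc
      by_cases c1 : c = b
      · refine ⟨⊤, ⟨⊥, ⟨∅, by simp, by simp⟩, ⊤, ⟨⊥, ⟨∅, by simp, by simp⟩, ⊤, ⟨{0}, by simp, ?_⟩,
          by simp⟩, by simp⟩, ?_⟩
        · rw [Finset.iSup_singleton, Fin.castSucc_zero, hκ0, Ch_top]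
        · rw [finrank_top, hWb, c1]
      · by_cases c2 : c + 1 = b
        · obtain ⟨x⟩ : Nonempty PP := inferInstance
          refine ⟨Hy x, ⟨Hy x, ⟨{x}, by simp, by simp⟩, ⊥, ⟨⊥, ⟨∅, by simp, by simp⟩, ⊥,
            ⟨∅, by simp, by simp⟩, by simp⟩, by simp⟩, ?_⟩
          have := finrank_Hy x
          omega
        · by_cases c3 : c = 0
          · refine ⟨⊥, ⟨⊥, ⟨∅, by simp, by simp⟩, ⊥, ⟨⊥, ⟨∅, by simp, by simp⟩, ⊥,
              ⟨∅, by simp, by simp⟩, by simp⟩, by simp⟩, ?_⟩
            rw [finrank_bot, c3]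
          · refine ⟨Ch p b c, ⟨⊥, ⟨∅, by simp, by simp⟩, Ch p b c, ⟨Ch p b c, ⟨{c}, ?_, by simp⟩, ⊥,
              ⟨∅, by simp, by simp⟩, by simp⟩, by simp⟩, finrank_Ch hcb⟩
            rw [Finset.singleton_subset_iff]
            exact Finset.mem_filter.mpr ⟨hc, by omega, by omega⟩
    · rintro ⟨_, ⟨X₁, ⟨J₁, -, rfl⟩, _, ⟨X₂, ⟨J₂, hJ₂, rfl⟩, X₃, ⟨J₃, -, rfl⟩, rfl⟩, rfl⟩, rfl⟩
      by_cases hJ₁ : J₁.Nonempty
      · obtain ⟨x, hx⟩ := hJ₁
        set X : Submodule (ZMod p) W := (⨆ i ∈ J₁, Hy i) ⊔ ((⨆ i ∈ J₂, Ch p b i) ⊔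
          ⨆ i ∈ J₃, Ch p b (κ i.castSucc)) with hX
        have h3 : Hy x ≤ X := le_sup_of_le_left (le_iSup₂_of_le x hx le_rfl)
        have h4 := Submodule.finrank_mono h3
        have h5 := finrank_Hy x
        have h6 : Module.finrank (ZMod p) X ≤ Module.finrank (ZMod p) W := Submodule.finrank_le X
        have h7 : Module.finrank (ZMod p) X = b - 1 ∨ Module.finrank (ZMod p) X = b := by omega
        rcases h7 with h7 | h7
        · rw [h7]
          exact h1
        · rw [h7]
          exact hbβ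
      · have h3 : (⨆ i ∈ J₁, Hy i) = (⊥ : Submodule (ZMod p) W) := by
          rw [Finset.not_nonempty_iff_eq_empty.mp hJ₁]
          simp
        rw [h3, bot_sup_eq]
        have h4 : (⨆ i ∈ J₂, Ch p b i) ⊔ (⨆ i ∈ J₃, Ch p b (κ i.castSucc)) =
            ⨆ i ∈ J₂ ∪ J₃.image (fun i => κ i.castSucc), Ch p b i := by
          rw [Finset.iSup_union, Finset.iSup_finset_image]
        rw [h4]
        rcases iSup_chain (Ch_mono (p := p) (b := b)) (J₂ ∪ J₃.image (fun i => κ i.castSucc)) with
          h5 | ⟨j, hj, h5⟩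
        · rw [h5, finrank_bot]
          exact h0
        · have hjβ : j ∈ β := by
            rw [Finset.mem_union, Finset.mem_image] at hj
            rcases hj with hj | ⟨i, -, rfl⟩
            · exact (Finset.mem_filter.mp (hJ₂ hj)).1
            · exact hκβ _
          rw [h5, finrank_Ch (hβ j hjβ)]
          exact hjβ

end Run7.h528
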