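import Mathlib
import Pool.Agent.Run7.h528.SufU
import Pool.Agent.Run7.h528.NecU
import Pool.Agent.Run7.h528.Clus

/-!
# The theorem on degrees in clusters
-/

set_option autoImplicit false
set_option linter.unusedSectionVars false
set_option linter.style.haveILetI false

open scoped BigOperators Classical

noncomputable section

namespace Run7.h528

variable {p : ℕ} [Fact p.Prime]

/-- the case `b = 1` -/
theorem nec_one {β : Finset ℕ} (hβ : ∀ x ∈ β, x ≤ 1) (h0 : 0 ∈ β) (h2 : 1 ∈ β) {k : ℕ}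
    (C : Fin (k + 1) → Finset ℕ) (M : Fin (k + 1) → ℕ) (hM : ∀ i, M i ∈ C i)
    (hlow : ∀ i, ∀ x ∈ C i, 2 ≤ 2 * x) (hgap : ∀ i j, i < j → ∀ x ∈ C j, M i < x)
    (h : Realizable p (insert 0 (Finset.univ.biUnion C)) β) :
    ∃ κ : Fin (k + 2) → ℕ, κ 0 = 1 ∧ κ (Fin.last _) = 0 ∧ StrictAnti κ ∧ (∀ i, κ i ∈ β) ∧
      ∀ i : Fin (k + 1), (p - 1) * (C i).card + p ^ (1 - κ i.castSucc) ≤ p ^ (1 - κ i.succ) := by
  have hp : p.Prime := Fact.out
  have h3 := clus_nec (p := p) (b := 1) hβ ?_ 1 (by rw [one_mul, pow_one]; have := hp.two_le; omega) h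
  swap
  · intro x hx hx0
    omega
  have hsub : ∀ i, C i ⊆ (insert 0 (Finset.univ.biUnion C)).erase 0 := by
    intro i x hx
    rw [Finset.mem_erase, Finset.mem_insert, Finset.mem_biUnion]
    have := hlow i x hx
    exact ⟨by omega, Or.inr ⟨i, Finset.mem_univ _, hx⟩⟩
  have hk : k = 0 := by
    by_contra hk
    obtain ⟨m, rfl⟩ := Nat.exists_eq_succ_of_ne_zero hk
    have h4 : (0 : Fin (m + 1 + 1)) < Fin.last _ := Fin.last_pos
    have h5 := hgap 0 (Fin.last _) h4 _ (hM _)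
    have h6 := Finset.card_le_one.mp h3 _ (hsub 0 (hM 0)) _ (hsub (Fin.last _) (hM _))
    omega
  subst hk
  refine ⟨fun i => 1 - i.1, rfl, rfl, ?_, ?_, ?_⟩
  · intro i j hij
    have h4 := i.2
    have h5 := j.2
    have h6 : i.1 < j.1 := hij
    simp only
    omega
  · intro i
    have h4 : i.1 = 0 ∨ i.1 = 1 := by
      have := i.2
      omega
    rcases h4 with h4 | h4
    · simp only [h4]
      exact h2
    · simp only [h4]
      exact h0
  · intro i
    have hi : i = 0 := Fin.ext (by have := i.2; omega)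
    subst hi
    have h4 : (C 0).card ≤ 1 := (Finset.card_le_card (hsub 0)).trans h3
    have h5 : (p - 1) * (C 0).card ≤ (p - 1) * 1 := Nat.mul_le_mul_left _ h4
    have := hp.two_le
    simp
    omega

theorem multi {b : ℕ} (hb : 1 ≤ b) {β : Finset ℕ} (hβ : ∀ x ∈ β, x ≤ b) (h0 : 0 ∈ β)
    (h1 : b - 1 ∈ β) (h2 : b ∈ β) {k : ℕ} (C : Fin (k + 1) → Finset ℕ) (M : Fin (k + 1) → ℕ)
    (hM : ∀ i, M i ∈ C i) (hCM : ∀ i, ∀ x ∈ C i, x ≤ M i)
    (hgap : ∀ i j, i < j → ∀ x ∈ C j, b * M i < x)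
    (hsum : ∑ i, ∑ x ∈ C i, (M i - x) + b ^ 2 * ((p ^ b - 1) / (p - 1)) ≤ M 0) :
    Realizable p (insert 0 (Finset.univ.biUnion C)) β ↔
      ∃ κ : Fin (k + 2) → ℕ, κ 0 = b ∧ κ (Fin.last _) = 0 ∧ StrictAnti κ ∧ (∀ i, κ i ∈ β) ∧
        ∀ i : Fin (k + 1), (p - 1) * (C i).card + p ^ (b - κ i.castSucc) ≤ p ^ (b - κ i.succ) := by
  have hp : p.Prime := Fact.out
  have hp1 : 0 < p - 1 := by have := hp.two_le; omega
  set N := (p ^ b - 1) / (p - 1) with hN
  have hN2 : N * (p - 1) + 1 = p ^ b := by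
    have h3 : p - 1 ∣ p ^ b - 1 := by
      have := Nat.sub_dvd_pow_sub_pow p 1 b
      rwa [one_pow] at this
    rw [hN, Nat.div_mul_cancel h3]
    have := Nat.one_le_pow b p hp.pos
    omega
  have hNpos : 0 < N := by
    rcases Nat.eq_zero_or_pos N with h3 | h3
    · rw [h3, zero_mul, zero_add] at hN2
      have h4 : p ^ 1 ≤ p ^ b := Nat.pow_le_pow_right hp.pos (by omega)
      rw [pow_one] at h4
      have := hp.two_le
      omega
    · exact h3
  constructor
  · intro h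
    have hlow : ∀ i, ∀ x ∈ C i, b + 1 ≤ 2 * x := ?_
    · rcases hb.eq_or_lt with h3 | h3
      · subst h3
        apply nec_one hβ h0 h2 C M hM hlow ?_ h
        intro i j hij x hx
        have := hgap i j hij x hx
        omega
      · exact nec_chain h3 hβ h2 C M hM hCM hlow hgap h
    intro i x hx
    have hM0i : M 0 ≤ M i := by
      rcases (Fin.zero_le i).lt_or_eq with h3 | h3
      · have h4 := hgap 0 i h3 _ (hM i)
        nlinarith
      · rw [← h3]
    have h4 : M i - x ≤ ∑ x ∈ C i, (M i - x) :=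
      Finset.single_le_sum (f := fun x => M i - x) (fun _ _ => Nat.zero_le _) hx
    have h4' : ∑ x ∈ C i, (M i - x) ≤ ∑ i, ∑ x ∈ C i, (M i - x) :=
      Finset.single_le_sum (f := fun i => ∑ x ∈ C i, (M i - x)) (fun _ _ => Nat.zero_le _)
        (Finset.mem_univ i)
    have h5 : b ^ 2 ≤ b ^ 2 * N := Nat.le_mul_of_pos_right _ hNpos
    have h6 := hCM i x hx
    have h7 : b ^ 2 ≤ x := by omega
    nlinarith
  · rintro ⟨κ, hκ0, hκl, hκ, hκβ, hcount⟩
    exact multi_suf hb hβ h0 h1 C M hM hCM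
      (fun i => hgap i.castSucc i.succ Fin.castSucc_lt_succ _ (hM _)) N hN2 hsum κ hκ0 hκl hκ hκβ
      hcount

end Run7.h528
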