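import Mathlib
import Pool.Agent.Run7.h528.Lin

/-!
# Functions on the dual space given by inverses of linear matrix families
-/

set_option autoImplicit false
set_option linter.unusedSectionVars false
set_option linter.style.haveILetI false

open scoped BigOperators Classical LinearAlgebra.Projectivization

noncomputable section

namespace Run7.h528

variable {p : ℕ} [Fact p.Prime] {W : Type} [AddCommGroup W] [Module (ZMod p) W]

/-- all forms `ℓ ∘ β`, `ℓ ≠ 0`, are nondegenerate on the right -/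
def NS {Y Y' : Type} [AddCommGroup Y] [Module (ZMod p) Y] [AddCommGroup Y'] [Module (ZMod p) Y']
    (β : Y →ₗ[ZMod p] Y' →ₗ[ZMod p] W) : Prop :=
  ∀ ℓ : Module.Dual (ZMod p) W, ℓ ≠ 0 → ∀ y', (∀ y, ℓ (β y y') = 0) → y' = 0

section

variable {Y Y' : Type} [AddCommGroup Y] [Module (ZMod p) Y] [Finite Y] [AddCommGroup Y']
  [Module (ZMod p) Y'] [Finite Y'] {β : Y →ₗ[ZMod p] Y' →ₗ[ZMod p] W}

theorem NS.solve (h : NS β) (hd : Module.finrank (ZMod p) Y = Module.finrank (ZMod p) Y')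
    {ℓ : Module.Dual (ZMod p) W} (hℓ : ℓ ≠ 0) (v : Module.Dual (ZMod p) Y) :
    ∃ x : Y', ∀ y, ℓ (β y x) = v y := by
  haveI : Module.Finite (ZMod p) Y := Module.Finite.of_finite
  haveI : Module.Finite (ZMod p) Y' := Module.Finite.of_finite
  let T : Y' →ₗ[ZMod p] Module.Dual (ZMod p) Y := (β.compr₂ ℓ).flip
  have hT : ∀ x y, T x y = ℓ (β y x) := fun x y => rfl
  have hinj : Function.Injective T := by
    rw [← LinearMap.ker_eq_bot, LinearMap.ker_eq_bot']
    intro x hx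
    apply h ℓ hℓ
    intro y
    rw [← hT, hx]
    rfl
  have hsurj : Function.Surjective T := by
    rw [← LinearMap.injective_iff_surjective_of_finrank_eq_finrank]
    · exact hinj
    · rw [Subspace.dual_finrank_eq, hd]
  obtain ⟨x, hx⟩ := hsurj v
  exact ⟨x, fun y => by rw [← hT, hx]⟩

theorem NS.left (h : NS β) (hd : Module.finrank (ZMod p) Y = Module.finrank (ZMod p) Y')
    {ℓ : Module.Dual (ZMod p) W} (hℓ : ℓ ≠ 0) {y : Y} (hy : ∀ y', ℓ (β y y') = 0) : y = 0 := by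
  rw [← Module.forall_dual_apply_eq_zero_iff (ZMod p)]
  intro φ
  obtain ⟨x, hx⟩ := h.solve hd hℓ φ
  rw [← hx, hy]

end

/-- the functions `u (A_ℓ⁻¹ v)` -/
def SF (g : Module.Dual (ZMod p) W → ZMod p) : Prop :=
  ∃ (Y Y' : Type) (_ : AddCommGroup Y) (_ : Module (ZMod p) Y) (_ : Finite Y)
    (_ : AddCommGroup Y') (_ : Module (ZMod p) Y') (_ : Finite Y')
    (β : Y →ₗ[ZMod p] Y' →ₗ[ZMod p] W) (v : Module.Dual (ZMod p) Y) (u : Module.Dual (ZMod p) Y'),
    Module.finrank (ZMod p) Y = Module.finrank (ZMod p) Y' ∧ NS β ∧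
    ∀ ℓ, ℓ ≠ 0 → ∃ x : Y', (∀ y, ℓ (β y x) = v y) ∧ u x = g ℓ

theorem SF.mul {g₁ g₂ : Module.Dual (ZMod p) W → ZMod p} (h₁ : SF g₁) (h₂ : SF g₂) (w : W) :
    SF (fun ℓ => g₁ ℓ * ℓ w * g₂ ℓ) := by
  obtain ⟨Y₁, Y₁', _, _, _, _, _, _, β₁, v₁, u₁, hd₁, hn₁, hs₁⟩ := h₁
  obtain ⟨Y₂, Y₂', _, _, _, _, _, _, β₂, v₂, u₂, hd₂, hn₂, hs₂⟩ := h₂
  haveI : Module.Finite (ZMod p) Y₁ := Module.Finite.of_finite
  haveI : Module.Finite (ZMod p) Y₁' := Module.Finite.of_finite
  haveI : Module.Finite (ZMod p) Y₂ := Module.Finite.of_finite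
  haveI : Module.Finite (ZMod p) Y₂' := Module.Finite.of_finite
  let β : (Y₁ × Y₂) →ₗ[ZMod p] (Y₁' × Y₂') →ₗ[ZMod p] W :=
    LinearMap.mk₂ (ZMod p) (fun y x => β₁ y.1 x.1 + β₂ y.2 x.2 + (v₁ y.1 * u₂ x.2) • w)
      (fun a b c => by
        simp only [Prod.fst_add, Prod.snd_add, map_add, LinearMap.add_apply, add_mul, add_smul]
        abel)
      (fun c a b => by
        simp only [Prod.smul_fst, Prod.smul_snd, map_smul, LinearMap.smul_apply, smul_eq_mul,
          smul_add, mul_assoc, mul_smul])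
      (fun a b c => by
        simp only [Prod.fst_add, Prod.snd_add, map_add, mul_add, add_smul]
        abel)
      (fun c a b => by
        simp only [Prod.smul_fst, Prod.smul_snd, map_smul, smul_eq_mul, smul_add, ← mul_smul]
        congr 2
        ring)
  have hβ : ∀ y x, β y x = β₁ y.1 x.1 + β₂ y.2 x.2 + (v₁ y.1 * u₂ x.2) • w := fun y x => rfl
  refine ⟨Y₁ × Y₂, Y₁' × Y₂', inferInstance, inferInstance, inferInstance, inferInstance,
    inferInstance, inferInstance, β, v₂.comp (LinearMap.snd _ _ _),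
    -(u₁.comp (LinearMap.fst _ _ _)), ?_, ?_, ?_⟩
  · rw [Module.finrank_prod, Module.finrank_prod, hd₁, hd₂]
  · intro ℓ hℓ x hx
    have h2 : x.2 = 0 := by
      apply hn₂ ℓ hℓ
      intro y
      have := hx (0, y)
      rw [hβ] at this
      simpa using this
    have h1 : x.1 = 0 := by
      apply hn₁ ℓ hℓ
      intro y
      have := hx (y, 0)
      rw [hβ, h2] at this
      simpa using this
    exact Prod.ext h1 h2
  · intro ℓ hℓ
    obtain ⟨x₁, hx₁, hx₁'⟩ := hs₁ ℓ hℓ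
    obtain ⟨x₂, hx₂, hx₂'⟩ := hs₂ ℓ hℓ
    refine ⟨(-(ℓ w * g₂ ℓ) • x₁, x₂), ?_, ?_⟩
    · intro y
      rw [hβ]
      simp only [map_add, map_smul, smul_eq_mul, LinearMap.comp_apply, LinearMap.snd_apply, hx₁, hx₂,
        hx₂']
      ring
    · simp only [LinearMap.neg_apply, LinearMap.comp_apply, LinearMap.fst_apply, map_smul,
        smul_eq_mul, hx₁']
      ring

theorem SF.exists_ne [Finite W] {ℓ₀ : Module.Dual (ZMod p) W} (hℓ₀ : ℓ₀ ≠ 0) :
    ∃ g : Module.Dual (ZMod p) W → ZMod p, SF g ∧ g ℓ₀ ≠ 0 := by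
  haveI : Module.Finite (ZMod p) W := Module.Finite.of_finite
  have hb : Module.finrank (ZMod p) W ≠ 0 := by
    intro h
    apply hℓ₀
    haveI := Module.finrank_zero_iff.mp h
    ext w
    rw [Subsingleton.elim w 0, map_zero, map_zero]
  let F := GaloisField p (Module.finrank (ZMod p) W)
  have hF : Module.finrank (ZMod p) F = Module.finrank (ZMod p) W := GaloisField.finrank p hb
  have hFc : Nat.card F = p ^ _ := GaloisField.card p _ hb
  haveI : Finite F := Nat.finite_of_card_ne_zero (by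
    rw [hFc]
    exact (pow_pos (Fact.out : p.Prime).pos _).ne')
  haveI : Module.Finite (ZMod p) F := Module.Finite.of_finite
  let e : F ≃ₗ[ZMod p] W := LinearEquiv.ofFinrankEq F W hF
  let β : F →ₗ[ZMod p] F →ₗ[ZMod p] W := (LinearMap.mul (ZMod p) F).compr₂ e.toLinearMap
  have hβ : ∀ y x, β y x = e (y * x) := fun y x => rfl
  have hns : NS β := by
    intro ℓ hℓ x hx
    by_contra hx0
    apply hℓ
    ext w
    have h1 := hx (e.symm w / x)
    rw [hβ, div_mul_cancel₀ _ hx0, LinearEquiv.apply_symm_apply] at h1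
    exact h1
  obtain ⟨v, hv⟩ : ∃ v : Module.Dual (ZMod p) F, v ≠ 0 := by
    by_contra h
    push Not at h
    have h1 : (1 : F) = 0 := by
      rw [← Module.forall_dual_apply_eq_zero_iff (ZMod p)]
      intro φ
      rw [h φ]
      rfl
    exact one_ne_zero h1
  have hsol : ∀ ℓ : Module.Dual (ZMod p) W, ∃ x : F, ℓ ≠ 0 → ∀ y, ℓ (β y x) = v y := by
    intro ℓ
    by_cases hℓ : ℓ = 0
    · exact ⟨0, fun h => absurd hℓ h⟩
    · obtain ⟨x, hx⟩ := hns.solve rfl hℓ v
      exact ⟨x, fun _ => hx⟩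
  choose x hx using hsol
  have hx0 : x ℓ₀ ≠ 0 := by
    intro h
    apply hv
    ext y
    rw [← hx ℓ₀ hℓ₀ y, h, map_zero, map_zero]
    rfl
  obtain ⟨u, hu⟩ : ∃ u : Module.Dual (ZMod p) F, u (x ℓ₀) ≠ 0 := by
    by_contra h
    push Not at h
    exact hx0 ((Module.forall_dual_apply_eq_zero_iff (ZMod p) _).mp h)
  exact ⟨fun ℓ => u (x ℓ), ⟨F, F, inferInstance, inferInstance, inferInstance, inferInstance,
    inferInstance, inferInstance, β, v, u, rfl, hns, fun ℓ hℓ => ⟨x ℓ, hx ℓ hℓ, rfl⟩⟩, hu⟩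

theorem SF.homog {g : Module.Dual (ZMod p) W → ZMod p} (h : SF g) {ℓ : Module.Dual (ZMod p) W}
    (hℓ : ℓ ≠ 0) {c : ZMod p} (hc : c ≠ 0) : c * g (c • ℓ) = g ℓ := by
  obtain ⟨Y, Y', _, _, _, _, _, _, β, v, u, hd, hn, hs⟩ := h
  obtain ⟨x, hx, hx'⟩ := hs ℓ hℓ
  obtain ⟨z, hz, hz'⟩ := hs (c • ℓ) (smul_ne_zero hc hℓ)
  have h1 : x - c • z = 0 := by
    apply hn ℓ hℓ
    intro y
    have h2 := hz y
    rw [LinearMap.smul_apply, smul_eq_mul] at h2
    rw [map_sub, map_sub, map_smul, map_smul, smul_eq_mul, h2, hx, sub_self]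
  have h3 : x = c • z := sub_eq_zero.mp h1
  rw [← hz', ← hx', h3, map_smul, smul_eq_mul]

/-- a function supported at one point -/
theorem SF.point [Finite W] {ℓ₀ : Module.Dual (ZMod p) W} (hℓ₀ : ℓ₀ ≠ 0) :
    ∃ g : Module.Dual (ZMod p) W → ZMod p, SF g ∧ g ℓ₀ ≠ 0 ∧
      ∀ ℓ, (¬ ∃ c : ZMod p, ℓ = c • ℓ₀) → g ℓ = 0 := by
  haveI : Module.Finite (ZMod p) W := Module.Finite.of_finite
  haveI : Finite (Module.Dual (ZMod p) W) := Module.finite_of_finite (ZMod p)
  haveI : Fintype (Module.Dual (ZMod p) W) := Fintype.ofFinite _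
  obtain ⟨g₀, hg₀, hg₀'⟩ := SF.exists_ne hℓ₀
  suffices h : ∀ s : Finset (Module.Dual (ZMod p) W), ∃ g : Module.Dual (ZMod p) W → ZMod p,
      SF g ∧ g ℓ₀ ≠ 0 ∧ ∀ ℓ ∈ s, (¬ ∃ c : ZMod p, ℓ = c • ℓ₀) → g ℓ = 0 by
    obtain ⟨g, h1, h2, h3⟩ := h Finset.univ
    exact ⟨g, h1, h2, fun ℓ => h3 ℓ (Finset.mem_univ ℓ)⟩
  intro s
  induction s using Finset.induction_on with
  | empty => exact ⟨g₀, hg₀, hg₀', fun ℓ hℓ => absurd hℓ (Finset.notMem_empty ℓ)⟩
  | insert q s hq ih =>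
    obtain ⟨g, h1, h2, h3⟩ := ih
    by_cases hprop : ∃ c : ZMod p, q = c • ℓ₀
    · refine ⟨g, h1, h2, ?_⟩
      intro ℓ hℓ hn
      rcases Finset.mem_insert.mp hℓ with rfl | hℓ
      · exact absurd hprop hn
      · exact h3 ℓ hℓ hn
    · have h4 : ¬ LinearMap.ker q ≤ LinearMap.ker ℓ₀ := by
        intro h5
        obtain ⟨c, hc⟩ := ker_le_iff.mp h5
        apply hprop
        have hc0 : c ≠ 0 := by
          rintro rfl
          rw [zero_smul] at hc
          exact hℓ₀ hc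
        exact ⟨c⁻¹, by rw [hc, smul_smul, inv_mul_cancel₀ hc0, one_smul]⟩
      obtain ⟨w, hw1, hw2⟩ := Set.not_subset.mp h4
      have hw1' : q w = 0 := hw1
      have hw2' : ℓ₀ w ≠ 0 := hw2
      refine ⟨_, h1.mul hg₀ w, mul_ne_zero (mul_ne_zero h2 hw2') hg₀', ?_⟩
      intro ℓ hℓ hn
      rcases Finset.mem_insert.mp hℓ with rfl | hℓ
      · rw [hw1', mul_zero, zero_mul]
      · rw [h3 ℓ hℓ hn, zero_mul, zero_mul]

/-- the functions `a₁ A_ℓ⁻¹ a₂` with `a₁`, `a₂` depending linearly on `ℓ` -/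
def QF (X : Submodule (ZMod p) W) (F : Module.Dual (ZMod p) W → ZMod p) : Prop :=
  ∃ (Y Y' : Type) (_ : AddCommGroup Y) (_ : Module (ZMod p) Y) (_ : Finite Y)
    (_ : AddCommGroup Y') (_ : Module (ZMod p) Y') (_ : Finite Y')
    (β : Y →ₗ[ZMod p] Y' →ₗ[ZMod p] W) (α₂ : Y →ₗ[ZMod p] W) (α₁ : Y' →ₗ[ZMod p] W),
    Module.finrank (ZMod p) Y = Module.finrank (ZMod p) Y' ∧ NS β ∧
    (∀ y, α₂ y ∈ X) ∧ (∀ y, α₁ y ∈ X) ∧
    ∀ ℓ, ℓ ≠ 0 → ∃ x : Y', (∀ y, ℓ (β y x) = ℓ (α₂ y)) ∧ ℓ (α₁ x) = F ℓ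

theorem QF.zero (X : Submodule (ZMod p) W) : QF X (fun _ => 0) := by
  refine ⟨PUnit, PUnit, inferInstance, inferInstance, inferInstance, inferInstance, inferInstance,
    inferInstance, 0, 0, 0, rfl, ?_, ?_, ?_, ?_⟩
  · intro ℓ _ y _
    exact Subsingleton.elim _ _
  · intro y
    exact X.zero_mem
  · intro y
    exact X.zero_mem
  · intro ℓ _
    exact ⟨0, fun y => rfl, map_zero ℓ⟩

theorem QF.add {X : Submodule (ZMod p) W} {F₁ F₂ : Module.Dual (ZMod p) W → ZMod p}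
    (h₁ : QF X F₁) (h₂ : QF X F₂) : QF X (fun ℓ => F₁ ℓ + F₂ ℓ) := by
  obtain ⟨Y₁, Y₁', _, _, _, _, _, _, β₁, a₁, c₁, hd₁, hn₁, ha₁, hc₁, hs₁⟩ := h₁
  obtain ⟨Y₂, Y₂', _, _, _, _, _, _, β₂, a₂, c₂, hd₂, hn₂, ha₂, hc₂, hs₂⟩ := h₂
  haveI : Module.Finite (ZMod p) Y₁ := Module.Finite.of_finite
  haveI : Module.Finite (ZMod p) Y₁' := Module.Finite.of_finite
  haveI : Module.Finite (ZMod p) Y₂ := Module.Finite.of_finite
  haveI : Module.Finite (ZMod p) Y₂' := Module.Finite.of_finite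
  let β : (Y₁ × Y₂) →ₗ[ZMod p] (Y₁' × Y₂') →ₗ[ZMod p] W :=
    LinearMap.mk₂ (ZMod p) (fun y x => β₁ y.1 x.1 + β₂ y.2 x.2)
      (fun a b c => by
        simp only [Prod.fst_add, Prod.snd_add, map_add, LinearMap.add_apply]
        abel)
      (fun c a b => by
        simp only [Prod.smul_fst, Prod.smul_snd, map_smul, LinearMap.smul_apply, smul_add])
      (fun a b c => by
        simp only [Prod.fst_add, Prod.snd_add, map_add]
        abel)
      (fun c a b => by
        simp only [Prod.smul_fst, Prod.smul_snd, map_smul, smul_add])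
  have hβ : ∀ y x, β y x = β₁ y.1 x.1 + β₂ y.2 x.2 := fun y x => rfl
  refine ⟨Y₁ × Y₂, Y₁' × Y₂', inferInstance, inferInstance, inferInstance, inferInstance,
    inferInstance, inferInstance, β, a₁.coprod a₂, c₁.coprod c₂, ?_, ?_, ?_, ?_, ?_⟩
  · rw [Module.finrank_prod, Module.finrank_prod, hd₁, hd₂]
  · intro ℓ hℓ x hx
    refine Prod.ext ?_ ?_
    · apply hn₁ ℓ hℓ
      intro y
      have := hx (y, 0)
      rw [hβ] at this
      simpa using this
    · apply hn₂ ℓ hℓ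
      intro y
      have := hx (0, y)
      rw [hβ] at this
      simpa using this
  · intro y
    rw [LinearMap.coprod_apply]
    exact X.add_mem (ha₁ _) (ha₂ _)
  · intro y
    rw [LinearMap.coprod_apply]
    exact X.add_mem (hc₁ _) (hc₂ _)
  · intro ℓ hℓ
    obtain ⟨x₁, hx₁, hx₁'⟩ := hs₁ ℓ hℓ
    obtain ⟨x₂, hx₂, hx₂'⟩ := hs₂ ℓ hℓ
    refine ⟨(x₁, x₂), ?_, ?_⟩
    · intro y
      rw [hβ, map_add, LinearMap.coprod_apply, map_add, hx₁, hx₂]
    · rw [LinearMap.coprod_apply, map_add, hx₁', hx₂']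

theorem QF.sum {X : Submodule (ZMod p) W} {ι : Type} (s : Finset ι)
    (F : ι → Module.Dual (ZMod p) W → ZMod p) (h : ∀ i ∈ s, QF X (F i)) :
    QF X (fun ℓ => ∑ i ∈ s, F i ℓ) := by
  induction s using Finset.induction_on with
  | empty =>
    simp only [Finset.sum_empty]
    exact QF.zero X
  | insert a s ha ih =>
    simp only [Finset.sum_insert ha]
    exact (h a (Finset.mem_insert_self a s)).add (ih fun i hi => h i (Finset.mem_insert_of_mem hi))

theorem QF.of_SF {X : Submodule (ZMod p) W} {g : Module.Dual (ZMod p) W → ZMod p} (h : SF g)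
    {w : W} (hw : w ∈ X) : QF X (fun ℓ => ℓ w ^ 2 * g ℓ) := by
  obtain ⟨Y, Y', _, _, _, _, _, _, β, v, u, hd, hn, hs⟩ := h
  refine ⟨Y, Y', inferInstance, inferInstance, inferInstance, inferInstance,
    inferInstance, inferInstance, β, v.smulRight w, u.smulRight w, hd, hn, ?_, ?_, ?_⟩
  · intro y
    rw [LinearMap.smulRight_apply]
    exact X.smul_mem _ hw
  · intro y
    rw [LinearMap.smulRight_apply]
    exact X.smul_mem _ hw
  · intro ℓ hℓ
    obtain ⟨x, hx, hx'⟩ := hs ℓ hℓ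
    refine ⟨ℓ w • x, ?_, ?_⟩
    · intro y
      rw [map_smul, map_smul, hx, LinearMap.smulRight_apply, map_smul, smul_eq_mul, smul_eq_mul]
      ring
    · rw [LinearMap.smulRight_apply, map_smul, map_smul, hx', smul_eq_mul, smul_eq_mul]
      ring

/-- a function that does not vanish off the annihilator of `X` -/
theorem QF.exists_ne [Finite W] (X : Submodule (ZMod p) W) :
    ∃ F : Module.Dual (ZMod p) W → ZMod p, QF X F ∧
      ∀ ℓ : Module.Dual (ZMod p) W, ¬ X ≤ LinearMap.ker ℓ → F ℓ ≠ 0 := by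
  haveI : Module.Finite (ZMod p) W := Module.Finite.of_finite
  haveI : Finite (Module.Dual (ZMod p) W) := Module.finite_of_finite (ZMod p)
  haveI : Fintype (ℙ (ZMod p) (Module.Dual (ZMod p) W)) := Fintype.ofFinite _
  have h1 : ∀ x : ℙ (ZMod p) (Module.Dual (ZMod p) W), ∃ F : Module.Dual (ZMod p) W → ZMod p,
      QF X F ∧ (¬ X ≤ LinearMap.ker x.rep → ∀ c : ZMod p, c ≠ 0 → F (c • x.rep) ≠ 0) ∧
      ∀ ℓ, (¬ ∃ c : ZMod p, ℓ = c • x.rep) → F ℓ = 0 := by
    intro x
    by_cases hx : X ≤ LinearMap.ker x.rep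
    · exact ⟨_, QF.zero X, fun h => absurd hx h, fun _ _ => rfl⟩
    · obtain ⟨w, hw1, hw2⟩ := Set.not_subset.mp hx
      have hw2' : x.rep w ≠ 0 := hw2
      obtain ⟨g, hg, hg1, hg2⟩ := SF.point (p := p) x.rep_nonzero
      refine ⟨_, QF.of_SF hg hw1, ?_, ?_⟩
      · intro _ c hc
        have h2 := hg.homog x.rep_nonzero hc
        rw [LinearMap.smul_apply, smul_eq_mul]
        refine mul_ne_zero (pow_ne_zero 2 (mul_ne_zero hc hw2')) ?_
        intro h3
        rw [h3, mul_zero] at h2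
        exact hg1 h2.symm
      · intro ℓ hℓ
        rw [hg2 ℓ hℓ, mul_zero]
  choose F hF1 hF2 hF3 using h1
  refine ⟨fun ℓ => ∑ x, F x ℓ, QF.sum Finset.univ F (fun x _ => hF1 x), ?_⟩
  intro ℓ hℓ
  have hℓ0 : ℓ ≠ 0 := by
    rintro rfl
    apply hℓ
    rw [LinearMap.ker_zero]
    exact le_top
  set x₀ := Projectivization.mk (ZMod p) ℓ hℓ0 with hx₀
  have hprop : ∀ x : ℙ (ZMod p) (Module.Dual (ZMod p) W), (∃ c : ZMod p, ℓ = c • x.rep) ↔ x = x₀ := by
    intro x
    rw [← ker_le_iff, hx₀]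
    exact Hy_le_iff x ℓ hℓ0
  change ∑ x, F x ℓ ≠ 0
  rw [Finset.sum_eq_single x₀]
  · obtain ⟨c, hc⟩ := (hprop x₀).mpr rfl
    have hc0 : c ≠ 0 := by
      rintro rfl
      rw [zero_smul] at hc
      exact hℓ0 hc
    have h1 : ¬ X ≤ LinearMap.ker x₀.rep := by
      intro h2
      apply hℓ
      refine h2.trans ?_
      rw [ker_le_iff]
      exact ⟨c, hc⟩
    rw [hc]
    exact hF2 x₀ h1 c hc0
  · intro x _ hx
    apply hF3
    rw [hprop]
    exact hx
  · intro h
    exact absurd (Finset.mem_univ x₀) h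

/-- The basic piece: the forms are nondegenerate off the annihilator of `X`, and have the same
two-dimensional radical at all nonzero functionals that vanish on `X`. -/
theorem sr [Finite W] (X : Submodule (ZMod p) W) :
    ∃ (N : ℕ) (S : Set (Submodule (ZMod p) W)),
      Pc S (fun ℓ => if ℓ = 0 then 0 else if X ≤ LinearMap.ker ℓ then N else N + 1) ∧
      ⊥ ∈ S ∧ X ∈ S ∧ ∀ U ∈ S, U = ⊥ ∨ U = X ∨ U = ⊤ := by
  obtain ⟨F, hQ, hF⟩ := QF.exists_ne X
  obtain ⟨Y, Y', _, _, _, _, _, _, β, α₂, α₁, hd, hn, ha₂, ha₁, hs⟩ := hQ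
  haveI : Module.Finite (ZMod p) Y := Module.Finite.of_finite
  haveI : Module.Finite (ZMod p) Y' := Module.Finite.of_finite
  let b : ((ZMod p × ZMod p) × (Y × Y')) →ₗ[ZMod p] ((ZMod p × ZMod p) × (Y × Y')) →ₗ[ZMod p] W :=
    LinearMap.mk₂ (ZMod p)
      (fun v v' => β v.2.1 v'.2.2 + v.1.1 • α₁ v'.2.2 + v.1.2 • α₂ v'.2.1)
      (fun a b c => by
        simp only [Prod.fst_add, Prod.snd_add, map_add, LinearMap.add_apply, add_smul]
        abel)
      (fun c a b => by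
        simp only [Prod.smul_fst, Prod.smul_snd, map_smul, LinearMap.smul_apply, smul_eq_mul,
          smul_add, mul_smul])
      (fun a b c => by
        simp only [Prod.fst_add, Prod.snd_add, map_add, smul_add]
        abel)
      (fun c a b => by
        simp only [Prod.smul_fst, Prod.smul_snd, map_smul, smul_add, ← mul_smul]
        congr 1
        · congr 2
          ring
        · congr 1
          ring)
  have hbr : ∀ v v', BG.br b v v' = (β v.2.1 v'.2.2 + v.1.1 • α₁ v'.2.2 + v.1.2 • α₂ v'.2.1) -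
      (β v'.2.1 v.2.2 + v'.1.1 • α₁ v.2.2 + v'.1.2 • α₂ v.2.1) := fun v v' => rfl
  -- the radicals
  have hr1 : ∀ ℓ : Module.Dual (ZMod p) W, ¬ X ≤ LinearMap.ker ℓ → ∀ v, v ∈ BG.rad b ℓ → v = 0 := by
    intro ℓ hℓ v hv
    have hℓ0 : ℓ ≠ 0 := by
      rintro rfl
      apply hℓ
      rw [LinearMap.ker_zero]
      exact le_top
    rw [BG.mem_rad] at hv
    obtain ⟨x, hx, hx'⟩ := hs ℓ hℓ0
    have hF0 := hF ℓ hℓ
    have e1 : ∀ z', ℓ (β v.2.1 z') + v.1.1 * ℓ (α₁ z') = 0 := by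
      intro z'
      have := hv ((0, 0), (0, z'))
      rw [hbr] at this
      simpa using this
    have e2 : ∀ y', v.1.2 * ℓ (α₂ y') - ℓ (β y' v.2.2) = 0 := by
      intro y'
      have := hv ((0, 0), (y', 0))
      rw [hbr] at this
      simpa using this
    have e3 : ℓ (α₁ v.2.2) = 0 := by
      have := hv ((1, 0), (0, 0))
      rw [hbr] at this
      simpa using this
    have e4 : ℓ (α₂ v.2.1) = 0 := by
      have := hv ((0, 1), (0, 0))
      rw [hbr] at this
      simpa using this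
    have h1 : v.2.2 = v.1.2 • x := by
      have h2 : v.2.2 - v.1.2 • x = 0 := by
        apply hn ℓ hℓ0
        intro y
        rw [map_sub, map_sub, map_smul, map_smul, hx, smul_eq_mul]
        have := e2 y
        rw [sub_eq_zero] at this
        rw [this, sub_self]
      exact sub_eq_zero.mp h2
    have h2 : v.1.2 = 0 := by
      rw [h1, map_smul, map_smul, hx', smul_eq_mul] at e3
      exact (mul_eq_zero.mp e3).resolve_right hF0
    have h3 : v.2.2 = 0 := by rw [h1, h2, zero_smul]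
    have h4 : v.1.1 = 0 := by
      have := e1 x
      rw [hx, e4, zero_add, hx'] at this
      exact (mul_eq_zero.mp this).resolve_right hF0
    have h5 : v.2.1 = 0 := by
      apply hn.left hd hℓ0
      intro z'
      have := e1 z'
      rw [h4, zero_mul, add_zero] at this
      exact this
    exact Prod.ext (Prod.ext h4 h2) (Prod.ext h5 h3)
  have hr2 : ∀ ℓ : Module.Dual (ZMod p) W, ℓ ≠ 0 → X ≤ LinearMap.ker ℓ → ∀ v,
      v ∈ BG.rad b ℓ ↔ v.2 = 0 := by
    intro ℓ hℓ0 hℓ v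
    have k1 : ∀ y, ℓ (α₁ y) = 0 := fun y => hℓ (ha₁ y)
    have k2 : ∀ y, ℓ (α₂ y) = 0 := fun y => hℓ (ha₂ y)
    rw [BG.mem_rad]
    constructor
    · intro hv
      have h5 : v.2.1 = 0 := by
        apply hn.left hd hℓ0
        intro z'
        have := hv ((0, 0), (0, z'))
        rw [hbr] at this
        simpa [k1] using this
      have h3 : v.2.2 = 0 := by
        apply hn ℓ hℓ0
        intro y'
        have := hv ((0, 0), (y', 0))
        rw [hbr] at this
        simpa [k2] using this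
      exact Prod.ext h5 h3
    · intro hv v'
      rw [hbr, hv]
      simp [k1, k2]
  have hcV : Nat.card ((ZMod p × ZMod p) × (Y × Y')) = p ^ (2 * (Module.finrank (ZMod p) Y + 1)) := by
    have h1 := Module.natCard_eq_pow_finrank (K := ZMod p) (V := Y)
    have h2 := Module.natCard_eq_pow_finrank (K := ZMod p) (V := Y')
    rw [Nat.card_zmod] at h1 h2
    rw [Nat.card_prod, Nat.card_prod, Nat.card_prod, Nat.card_zmod, h1, h2, ← hd]
    ring
  have hmem : ∀ (ℓ : Module.Dual (ZMod p) W) v, LinearMap.range (BG.br b v) ≤ LinearMap.ker ℓ →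
      v ∈ BG.rad b ℓ := by
    intro ℓ v h
    rw [BG.mem_rad]
    intro v'
    exact h ⟨v', rfl⟩
  have hS1 : ∀ v : (ZMod p × ZMod p) × (Y × Y'), v.2 = 0 → v ≠ 0 →
      LinearMap.range (BG.br b v) = X := by
    intro v hv2 hv0
    have hle : LinearMap.range (BG.br b v) ≤ X := by
      rintro _ ⟨v', rfl⟩
      rw [hbr, hv2]
      simp only [Prod.fst_zero, Prod.snd_zero, map_zero, LinearMap.zero_apply, zero_add, smul_zero,
        add_zero, sub_zero]
      exact X.add_mem (X.smul_mem _ (ha₁ _)) (X.smul_mem _ (ha₂ _))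
    apply le_antisymm hle
    intro w hw
    by_contra hw2
    obtain ⟨ℓ, hℓ1, hℓ2⟩ := Submodule.exists_dual_map_eq_bot_of_notMem hw2 inferInstance
    have h1 : LinearMap.range (BG.br b v) ≤ LinearMap.ker ℓ := by
      intro u hu
      rw [LinearMap.mem_ker, ← Submodule.mem_bot (ZMod p), ← hℓ2]
      exact Submodule.mem_map_of_mem hu
    apply hv0
    apply hr1 ℓ _ v (hmem ℓ v h1)
    intro h2
    exact hℓ1 (h2 hw)
  have hS2 : ∀ v : (ZMod p × ZMod p) × (Y × Y'), v.2 ≠ 0 →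
      LinearMap.range (BG.br b v) = ⊤ := by
    intro v hv2
    by_contra hlt
    obtain ⟨ℓ, hℓ1, hℓ2⟩ := Submodule.exists_le_ker_of_lt_top _ (lt_top_iff_ne_top.mpr hlt)
    have h1 := hmem ℓ v hℓ2
    by_cases hX : X ≤ LinearMap.ker ℓ
    · exact hv2 ((hr2 ℓ hℓ1 hX v).mp h1)
    · apply hv2
      rw [hr1 ℓ hX v h1]
      rfl
  refine ⟨Module.finrank (ZMod p) Y, {U | ∃ v, LinearMap.range (BG.br b v) = U},
    ⟨_, inferInstance, inferInstance, inferInstance, b, fun U => Iff.rfl, ?_⟩, ?_, ?_, ?_⟩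
  · intro ℓ
    by_cases hℓ0 : ℓ = 0
    · have h1 : BG.rad b ℓ = ⊤ := by
        rw [eq_top_iff]
        intro v _
        rw [BG.mem_rad]
        intro v'
        rw [hℓ0]
        rfl
      simp only [if_pos hℓ0, mul_zero, pow_zero, one_mul]
      rw [h1]
      exact Nat.card_congr (Equiv.Set.univ _)
    · simp only [if_neg hℓ0]
      by_cases hℓ : X ≤ LinearMap.ker ℓ
      · rw [if_pos hℓ, hcV]
        have h1 : Nat.card (BG.rad b ℓ) = Nat.card (ZMod p × ZMod p) := by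
          refine Nat.card_congr ?_
          exact
            { toFun := fun v => v.1.1
              invFun := fun c => ⟨(c, 0), (hr2 ℓ hℓ0 hℓ _).mpr rfl⟩
              left_inv := fun v => Subtype.ext (Prod.ext rfl ((hr2 ℓ hℓ0 hℓ v.1).mp v.2).symm)
              right_inv := fun c => rfl }
        rw [h1, Nat.card_prod, Nat.card_zmod]
        ring
      · rw [if_neg hℓ, hcV]
        have h1 : BG.rad b ℓ = ⊥ := by
          rw [eq_bot_iff]
          intro v hv
          rw [Submodule.mem_bot]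
          exact hr1 ℓ hℓ v hv
        rw [h1]
        simp
  · exact ⟨0, by rw [LinearMap.range_eq_bot]; exact BG.br_zero b⟩
  · refine ⟨((1, 0), (0, 0)), hS1 _ rfl ?_⟩
    intro h
    exact one_ne_zero (congrArg (fun v : (ZMod p × ZMod p) × (Y × Y') => v.1.1) h)
  · rintro _ ⟨v, rfl⟩
    by_cases hv0 : v = 0
    · left
      rw [hv0, LinearMap.range_eq_bot]
      exact BG.br_zero b
    · right
      by_cases hv2 : v.2 = 0
      · left
        exact hS1 v hv2 hv0
      · right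
        exact hS2 v hv2

end Run7.h528
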