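import Mathlib
import Pool.Agent.Run7.h528.SF
import Pool.Agent.Run7.h528.Lift

/-!
# Realizing arbitrary shapes of degree sets
-/

set_option autoImplicit false
set_option linter.unusedSectionVars false
set_option linter.style.haveILetI false

open scoped BigOperators Classical

noncomputable section

namespace Run7.h528

variable {p : ℕ} [Fact p.Prime] {W : Type} [AddCommGroup W] [Module (ZMod p) W]

/-- several copies of the basic piece -/
theorem sr_mul [Finite W] (X : Submodule (ZMod p) W) (m : ℕ) :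
    ∃ (N : ℕ) (S : Set (Submodule (ZMod p) W)),
      Pc S (fun ℓ => if ℓ = 0 then 0 else if X ≤ LinearMap.ker ℓ then N else N + (m + 1)) ∧
      ⊥ ∈ S ∧ X ∈ S ∧ ∀ U ∈ S, U = ⊥ ∨ U = X ∨ U = ⊤ := by
  induction m with
  | zero => exact sr X
  | succ m ih =>
    obtain ⟨N₁, S₁, h1, h2, h3, h4⟩ := ih
    obtain ⟨N₂, S₂, k1, k2, k3, k4⟩ := sr (p := p) X
    refine ⟨N₁ + N₂, _, (h1.add k1).congr (fun _ => Iff.rfl) ?_, ?_, ?_, ?_⟩
    · intro ℓ
      split_ifs <;> omega
    · exact ⟨⊥, h2, ⊥, k2, by simp⟩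
    · exact ⟨X, h3, ⊥, k2, by simp⟩
    · rintro _ ⟨U₁, hU₁, U₂, hU₂, rfl⟩
      rcases h4 U₁ hU₁ with rfl | rfl | rfl <;> rcases k4 U₂ hU₂ with rfl | rfl | rfl <;> simp

/-- a family of subspaces that generate `W` pairwise -/
theorem family [Finite W] {ι : Type} (X : ι → Submodule (ZMod p) W) (m : ι → ℕ)
    (hX : ∀ i j, i ≠ j → X i ⊔ X j = ⊤) (s : Finset ι) :
    ∃ (N : ℕ) (S : Set (Submodule (ZMod p) W)),
      Pc S (fun ℓ => if ℓ = 0 then 0 else
        N + ∑ i ∈ s, (if X i ≤ LinearMap.ker ℓ then 0 else (m i + 1))) ∧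
      ⊥ ∈ S ∧ (∀ i ∈ s, X i ∈ S) ∧ ∀ U ∈ S, U = ⊥ ∨ (∃ i ∈ s, U = X i) ∨ U = ⊤ := by
  induction s using Finset.induction_on with
  | empty =>
    refine ⟨0, {⊥}, Pc.zero.congr (fun _ => Iff.rfl) ?_, rfl, ?_, ?_⟩
    · intro ℓ
      split_ifs <;> simp
    · intro i hi
      exact absurd hi (Finset.notMem_empty i)
    · rintro U rfl
      exact Or.inl rfl
  | insert a s ha ih =>
    obtain ⟨N₁, S₁, h1, h2, h3, h4⟩ := ih
    obtain ⟨N₂, S₂, k1, k2, k3, k4⟩ := sr_mul (p := p) (X a) (m a)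
    refine ⟨N₁ + N₂, _, (h1.add k1).congr (fun _ => Iff.rfl) ?_, ?_, ?_, ?_⟩
    · intro ℓ
      rw [Finset.sum_insert ha]
      split_ifs <;> omega
    · exact ⟨⊥, h2, ⊥, k2, by simp⟩
    · intro i hi
      rcases Finset.mem_insert.mp hi with rfl | hi
      · exact ⟨⊥, h2, _, k3, by simp⟩
      · exact ⟨_, h3 i hi, ⊥, k2, by simp⟩
    · rintro _ ⟨U₁, hU₁, U₂, hU₂, rfl⟩
      rcases h4 U₁ hU₁ with rfl | ⟨i, hi, rfl⟩ | rfl
      · rcases k4 U₂ hU₂ with rfl | rfl | rfl
        · simp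
        · right; left
          exact ⟨a, Finset.mem_insert_self a s, by simp⟩
        · simp
      · rcases k4 U₂ hU₂ with rfl | rfl | rfl
        · right; left
          exact ⟨i, Finset.mem_insert_of_mem hi, by simp⟩
        · right; right
          apply hX
          rintro rfl
          exact ha hi
        · simp
      · simp

/-- all large degree sets of the shape given by a family -/
theorem shape_suf [Finite W] {ι : Type} [Fintype ι] (X : ι → Submodule (ZMod p) W) (m : ι → ℕ)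
    (hm : ∀ i, 0 < m i) (hX : ∀ i j, i ≠ j → X i ⊔ X j = ⊤) (hXt : ∀ i, X i ≠ ⊤)
    (hfree : ∃ ℓ : Module.Dual (ZMod p) W, ℓ ≠ 0 ∧ ∀ i, ¬ X i ≤ LinearMap.ker ℓ) :
    ∃ T₀ : ℕ, ∀ T, T₀ ≤ T → ∀ α β : Finset ℕ,
      (∀ a, a ∈ α ↔ a = 0 ∨ a = T ∨ ∃ i, a + m i = T) →
      (∀ c, c ∈ β ↔ c = 0 ∨ c = Module.finrank (ZMod p) W ∨
        ∃ i, c = Module.finrank (ZMod p) (X i)) → Realizable p α β := by
  obtain ⟨N, S, h1, h2, h3, h4⟩ := family X (fun i => m i - 1) hX Finset.univ
  refine ⟨N + ∑ i, m i + Module.finrank (ZMod p) W + 1, ?_⟩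
  intro T hT α β hα hβ
  have hh := Pc.heis (p := p) (W := W) ⊤ (T - N - ∑ i, m i) (by omega) (by
    rw [finrank_top]
    omega)
  have hmi : ∀ i, m i - 1 + 1 = m i := fun i => by have := hm i; omega
  simp only [hmi] at h1
  have hP := h1.add hh
  have htop : ∀ ℓ : Module.Dual (ZMod p) W, ℓ ≠ 0 → ¬ (⊤ : Submodule (ZMod p) W) ≤ LinearMap.ker ℓ := by
    intro ℓ hℓ h
    apply hℓ
    rw [← LinearMap.ker_eq_top]
    exact top_le_iff.mp h
  -- the rank at a functional
  have hr1 : ∀ ℓ : Module.Dual (ZMod p) W, ℓ ≠ 0 → (∀ i, ¬ X i ≤ LinearMap.ker ℓ) →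
      N + ∑ i, (if X i ≤ LinearMap.ker ℓ then 0 else m i) +
        (if (⊤ : Submodule (ZMod p) W) ≤ LinearMap.ker ℓ then 0 else T - N - ∑ i, m i) = T := by
    intro ℓ hℓ hi
    have h5 : ∑ i, (if X i ≤ LinearMap.ker ℓ then 0 else m i) = ∑ i, m i :=
      Finset.sum_congr rfl (fun i _ => if_neg (hi i))
    rw [if_neg (htop ℓ hℓ), h5]
    omega
  have hr2 : ∀ (ℓ : Module.Dual (ZMod p) W) (i : ι), ℓ ≠ 0 → X i ≤ LinearMap.ker ℓ →
      N + ∑ i, (if X i ≤ LinearMap.ker ℓ then 0 else m i) +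
        (if (⊤ : Submodule (ZMod p) W) ≤ LinearMap.ker ℓ then 0 else T - N - ∑ i, m i) + m i = T := by
    intro ℓ i hℓ hi
    have h5 : ∀ j, j ≠ i → ¬ X j ≤ LinearMap.ker ℓ := by
      intro j hj hj2
      apply htop ℓ hℓ
      rw [← hX j i hj]
      exact sup_le hj2 hi
    have h6 : ∑ j, (if X j ≤ LinearMap.ker ℓ then 0 else m j) + m i = ∑ j, m j := by
      rw [← Finset.sum_erase_add _ _ (Finset.mem_univ i),
        ← Finset.sum_erase_add Finset.univ m (Finset.mem_univ i), if_pos hi, add_zero]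
      congr 1
      apply Finset.sum_congr rfl
      intro j hj
      rw [if_neg (h5 j (Finset.ne_of_mem_erase hj))]
    rw [if_neg (htop ℓ hℓ)]
    omega
  refine hP.realizable α β ?_ ?_
  · intro a
    rw [hα]
    constructor
    · rintro (rfl | rfl | ⟨i, hi⟩)
      · exact ⟨0, by simp [LinearMap.ker_zero]⟩
      · obtain ⟨ℓ, hℓ, hℓ2⟩ := hfree
        exact ⟨ℓ, by rw [if_neg hℓ]; exact hr1 ℓ hℓ hℓ2⟩
      · obtain ⟨ℓ, hℓ, hℓ2⟩ := Submodule.exists_le_ker_of_lt_top _ (lt_top_iff_ne_top.mpr (hXt i))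
        refine ⟨ℓ, ?_⟩
        rw [if_neg hℓ]
        have := hr2 ℓ i hℓ hℓ2
        omega
    · rintro ⟨ℓ, hℓ⟩
      by_cases hℓ0 : ℓ = 0
      · left
        rw [← hℓ, hℓ0]
        simp [LinearMap.ker_zero]
      · right
        rw [if_neg hℓ0] at hℓ
        by_cases hi : ∃ i, X i ≤ LinearMap.ker ℓ
        · obtain ⟨i, hi⟩ := hi
          right
          refine ⟨i, ?_⟩
          have := hr2 ℓ i hℓ0 hi
          omega
        · push Not at hi
          left
          have := hr1 ℓ hℓ0 hi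
          omega
  · intro c
    rw [hβ]
    constructor
    · rintro (rfl | rfl | ⟨i, rfl⟩)
      · exact ⟨⊥, ⟨⊥, h2, ⊥, by simp, by simp⟩, finrank_bot _ _⟩
      · exact ⟨⊤, ⟨⊥, h2, ⊤, by simp, by simp⟩, finrank_top _ _⟩
      · exact ⟨X i, ⟨X i, h3 i (Finset.mem_univ i), ⊥, by simp, by simp⟩, rfl⟩
    · rintro ⟨_, ⟨U₁, hU₁, U₂, hU₂, rfl⟩, rfl⟩
      simp only [Set.mem_insert_iff, Set.mem_singleton_iff] at hU₂
      rcases hU₂ with rfl | rfl
      · rw [sup_bot_eq]
        rcases h4 U₁ hU₁ with rfl | ⟨i, -, rfl⟩ | rfl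
        · left
          exact finrank_bot _ _
        · right; right
          exact ⟨i, rfl⟩
        · right; left
          exact finrank_top _ _
      · rw [sup_top_eq]
        right; left
        exact finrank_top _ _

theorem exists_onto {K : Type} [Fintype K] (D : Finset ℕ) (hD : D.Nonempty)
    (h : D.card ≤ Fintype.card K) : ∃ f : K → ℕ, (∀ k, f k ∈ D) ∧ ∀ d ∈ D, ∃ k, f k = d := by
  obtain ⟨e⟩ : Nonempty ((D : Finset ℕ) ↪ K) := by
    apply Function.Embedding.nonempty_of_card_le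
    rw [Fintype.card_coe]
    exact h
  obtain ⟨d₀, hd₀⟩ := hD
  let f : K → ℕ := Function.extend e (fun y => y.1) (fun _ => d₀)
  refine ⟨f, ?_, ?_⟩
  · intro k
    by_cases hk : ∃ y, e y = k
    · obtain ⟨y, rfl⟩ := hk
      have : f (e y) = y.1 := e.injective.extend_apply _ _ _
      rw [this]
      exact y.2
    · have : f k = d₀ := Function.extend_apply' _ _ _ hk
      rw [this]
      exact hd₀
  · intro d hd
    exact ⟨e ⟨d, hd⟩, e.injective.extend_apply _ _ _⟩

/-- the shape of a set with largest element `M` -/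
theorem shape_suf' [Finite W] {ι : Type} [Fintype ι] (X : ι → Submodule (ZMod p) W)
    (hX : ∀ i j, i ≠ j → X i ⊔ X j = ⊤) (hXt : ∀ i, X i ≠ ⊤)
    (hfree : ∃ ℓ : Module.Dual (ZMod p) W, ℓ ≠ 0 ∧ ∀ i, ¬ X i ≤ LinearMap.ker ℓ)
    (Z : Finset ℕ) (hZ : 2 ≤ Z.card) (hZι : Z.card ≤ Fintype.card ι + 1) (β : Finset ℕ)
    (hβ : ∀ c, c ∈ β ↔ c = 0 ∨ c = Module.finrank (ZMod p) W ∨
        ∃ i, c = Module.finrank (ZMod p) (X i)) :
    ∃ n₀ : ℕ, ∀ n, n₀ ≤ n → Realizable p (insert 0 (Z.image (fun x => n + x))) β := by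
  have hne : Z.Nonempty := Finset.card_pos.mp (by omega)
  set M := Z.max' hne with hM
  have hMZ : M ∈ Z := Z.max'_mem hne
  have hle : ∀ x ∈ Z, x ≤ M := fun x hx => Z.le_max' x hx
  have hcard := Finset.card_erase_add_one hMZ
  let D : Finset ℕ := (Z.erase M).image (fun x => M - x)
  have hDc : D.card ≤ Fintype.card ι := by
    have : D.card ≤ (Z.erase M).card := Finset.card_image_le
    omega
  have hDne : D.Nonempty := by
    apply Finset.Nonempty.image
    exact Finset.card_pos.mp (by omega)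
  obtain ⟨m, hm1, hm2⟩ := exists_onto D hDne hDc
  have hmpos : ∀ i, 0 < m i := by
    intro i
    obtain ⟨x, hx, hx2⟩ := Finset.mem_image.mp (hm1 i)
    rw [← hx2]
    have h1 := hle x (Finset.mem_of_mem_erase hx)
    have h2 := Finset.ne_of_mem_erase hx
    omega
  obtain ⟨T₀, hT⟩ := shape_suf X m hmpos hX hXt hfree
  refine ⟨T₀, ?_⟩
  intro n hn
  apply hT (n + M) (by omega) _ β ?_ hβ
  intro a
  rw [Finset.mem_insert, Finset.mem_image]
  constructor
  · rintro (rfl | ⟨x, hx, rfl⟩)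
    · exact Or.inl rfl
    · right
      by_cases hxM : x = M
      · left
        rw [hxM]
      · right
        obtain ⟨i, hi⟩ := hm2 (M - x)
          (Finset.mem_image.mpr ⟨x, Finset.mem_erase.mpr ⟨hxM, hx⟩, rfl⟩)
        refine ⟨i, ?_⟩
        rw [hi]
        have := hle x hx
        omega
  · rintro (rfl | rfl | ⟨i, hi⟩)
    · exact Or.inl rfl
    · exact Or.inr ⟨M, hMZ, rfl⟩
    · right
      obtain ⟨x, hx, hx2⟩ := Finset.mem_image.mp (hm1 i)
      refine ⟨x, Finset.mem_of_mem_erase hx, ?_⟩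
      have := hle x (Finset.mem_of_mem_erase hx)
      change M - x = m i at hx2
      omega

/-- partial spreads -/
theorem spread_suf {b c : ℕ} (hcb : c < b) (hc : 0 < c) (Z : Finset ℕ) (hZ : 2 ≤ Z.card)
    (U : Fin (Z.card - 1) → Submodule (ZMod p) (Fin b → ZMod p))
    (hU : ∀ i, Module.finrank (ZMod p) (U i) = c) (hdis : ∀ i j, i ≠ j → Disjoint (U i) (U j))
    (hv : ∃ v, v ≠ 0 ∧ ∀ i, v ∉ U i) :
    ∃ n₀ : ℕ, ∀ n, n₀ ≤ n → Realizable p (insert 0 (Z.image (fun x => n + x))) {0, b - c, b} := by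
  haveI : Finite (Module.Dual (ZMod p) (Fin b → ZMod p)) := Module.finite_of_finite (ZMod p)
  have hfr : ∀ i, Module.finrank (ZMod p) (U i).dualAnnihilator = b - c := by
    intro i
    have h1 := Subspace.finrank_add_finrank_dualAnnihilator_eq (U i)
    rw [hU, Module.finrank_fintype_fun_eq_card, Fintype.card_fin] at h1
    omega
  have hWb : Module.finrank (ZMod p) (Module.Dual (ZMod p) (Fin b → ZMod p)) = b := by
    rw [Subspace.dual_finrank_eq]
    simp
  refine shape_suf' (W := Module.Dual (ZMod p) (Fin b → ZMod p)) (fun i => (U i).dualAnnihilator)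
    ?_ ?_ ?_ Z hZ ?_ _ ?_
  · intro i j hij
    rw [← Subspace.dualAnnihilator_inf_eq, (hdis i j hij).eq_bot, Submodule.dualAnnihilator_bot]
  · intro i h
    have h1 := hfr i
    rw [h, finrank_top, hWb] at h1
    omega
  · obtain ⟨v, hv0, hvU⟩ := hv
    refine ⟨Module.Dual.eval (ZMod p) _ v, ?_, ?_⟩
    · intro h
      apply hv0
      rw [← Module.forall_dual_apply_eq_zero_iff (ZMod p)]
      intro φ
      exact LinearMap.congr_fun h φ
    · intro i h
      apply hvU i
      rw [← Subspace.dualAnnihilator_dualCoannihilator_eq (W := U i), Submodule.mem_dualCoannihilator]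
      intro φ hφ
      exact h hφ
  · rw [Fintype.card_fin]
    omega
  · intro d
    simp only [Finset.mem_insert, Finset.mem_singleton, hWb, hfr]
    constructor
    · rintro (h | h | h)
      · exact Or.inl h
      · exact Or.inr (Or.inr ⟨⟨0, by omega⟩, h⟩)
      · exact Or.inr (Or.inl h)
    · rintro (h | h | ⟨-, h⟩)
      · exact Or.inl h
      · exact Or.inr (Or.inr h)
      · exact Or.inr (Or.inl h)

/-- a subspace of given dimension above a given subspace -/
theorem ext_dim [Finite W] {k : ℕ} : ∀ (E : Submodule (ZMod p) W) (d : ℕ),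
    d = Module.finrank (ZMod p) E + k → d ≤ Module.finrank (ZMod p) W →
    ∃ X : Submodule (ZMod p) W, E ≤ X ∧ Module.finrank (ZMod p) X = d := by
  haveI : Module.Finite (ZMod p) W := Module.Finite.of_finite
  induction k with
  | zero =>
    intro E d h _
    exact ⟨E, le_rfl, by omega⟩
  | succ k ih =>
    intro E d h hd
    have h1 : E ≠ ⊤ := by
      rintro rfl
      rw [finrank_top] at h
      omega
    obtain ⟨w, hw⟩ : ∃ w, w ∉ E := by
      by_contra h2
      push Not at h2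
      exact h1 (Submodule.eq_top_iff'.mpr h2)
    have h2 : E < E ⊔ Submodule.span (ZMod p) {w} := by
      rw [left_lt_sup]
      intro h3
      exact hw (h3 (Submodule.mem_span_singleton_self w))
    have h3 := Submodule.finrank_lt_finrank_of_lt h2
    have h4 := Submodule.finrank_add_le_finrank_add_finrank E (Submodule.span (ZMod p) {w})
    have h5 : Module.finrank (ZMod p) (Submodule.span (ZMod p) {w}) ≤ 1 := by
      have := finrank_span_le_card (R := ZMod p) ({w} : Set W)
      simpa using this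
    obtain ⟨X, hX1, hX2⟩ := ih (E ⊔ Submodule.span (ZMod p) {w}) d (by omega) hd
    exact ⟨X, h2.le.trans hX1, hX2⟩

/-- class size sets whose smallest nontrivial element is at least the square root of the largest -/
theorem general_suf {β : Finset ℕ} {b b₁ : ℕ} (hβ0 : 0 ∈ β) (hbβ : b ∈ β) (hβ : ∀ y ∈ β, y ≤ b)
    (hb1β : b₁ ∈ β) (hb1 : 0 < b₁) (hmin : ∀ y ∈ β, y ≠ 0 → b₁ ≤ y) (h2b : b ≤ 2 * b₁)
    (hcard : 3 ≤ β.card) (Z : Finset ℕ) (hZ : 2 ≤ Z.card) (hZp : Z.card ≤ p ^ b₁ + 1) :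
    ∃ n₀ : ℕ, ∀ n, n₀ ≤ n → Realizable p (insert 0 (Z.image (fun x => n + x))) β := by
  have hp : p.Prime := Fact.out
  let K := GaloisField p b₁
  have hKf : Module.finrank (ZMod p) K = b₁ := GaloisField.finrank p hb1.ne'
  have hKc : Nat.card K = p ^ b₁ := GaloisField.card p b₁ hb1.ne'
  haveI : Finite K := Nat.finite_of_card_ne_zero (by
    rw [hKc]
    exact (pow_pos hp.pos b₁).ne')
  haveI : Fintype K := Fintype.ofFinite K
  haveI : Module.Finite (ZMod p) K := Module.Finite.of_finite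
  let W := Fin b → ZMod p
  have hWb : Module.finrank (ZMod p) W = b := by simp [W]
  obtain ⟨π, hπ⟩ := Pd.exists_surj (p := p) (X := W) (F := K × K) (by
    rw [hWb, Module.finrank_prod, hKf]
    omega)
  -- the basic family
  let E : K → Submodule (ZMod p) W := fun z =>
    LinearMap.range (π.comp (LinearMap.prod LinearMap.id (LinearMap.mul (ZMod p) K z)))
  let E' : Submodule (ZMod p) W := LinearMap.range (π.comp (LinearMap.inr (ZMod p) K K))
  have hEmem : ∀ z x, π (x, z * x) ∈ E z := fun z x => ⟨x, rfl⟩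
  have hE'mem : ∀ x, π (0, x) ∈ E' := fun x => ⟨x, rfl⟩
  have hEd : ∀ z, Module.finrank (ZMod p) (E z) ≤ b₁ := by
    intro z
    rw [← hKf]
    exact LinearMap.finrank_range_le _
  have hE'd : Module.finrank (ZMod p) E' ≤ b₁ := by
    rw [← hKf]
    exact LinearMap.finrank_range_le _
  have hEE' : ∀ z, E z ⊔ E' = ⊤ := by
    intro z
    rw [Submodule.eq_top_iff']
    intro w
    obtain ⟨⟨x, y⟩, rfl⟩ := hπ w
    have h1 : ((x, y) : K × K) = (x, z * x) + (0, y - z * x) := by
      rw [Prod.mk_add_mk, add_zero, add_sub_cancel]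
    rw [h1, map_add]
    exact Submodule.add_mem_sup (hEmem z x) (hE'mem _)
  have hEE : ∀ z z', z ≠ z' → E z ⊔ E z' = ⊤ := by
    intro z z' hzz
    rw [Submodule.eq_top_iff']
    intro w
    obtain ⟨⟨x, y⟩, rfl⟩ := hπ w
    have h0 : z - z' ≠ 0 := sub_ne_zero.mpr hzz
    have h1 : ((x, y) : K × K) = ((y - z' * x) / (z - z'), z * ((y - z' * x) / (z - z'))) +
        (x - (y - z' * x) / (z - z'), z' * (x - (y - z' * x) / (z - z'))) := by
      have ht : (y - z' * x) / (z - z') * (z - z') = y - z' * x := div_mul_cancel₀ _ h0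
      rw [Prod.mk_add_mk]
      refine Prod.ext ?_ ?_
      · change x = (y - z' * x) / (z - z') + (x - (y - z' * x) / (z - z'))
        ring
      · change y = z * ((y - z' * x) / (z - z')) + z' * (x - (y - z' * x) / (z - z'))
        linear_combination -ht
    rw [h1, map_add]
    exact Submodule.add_mem_sup (hEmem z _) (hEmem z' _)
  -- the middle class sizes
  have hb1b : b₁ < b := by
    by_contra h
    have h1 : β ⊆ {0, b₁} := by
      intro y hy
      rw [Finset.mem_insert, Finset.mem_singleton]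
      by_cases hy0 : y = 0
      · exact Or.inl hy0
      · right
        have := hmin y hy hy0
        have := hβ y hy
        omega
    have h2 := Finset.card_le_card h1
    have h3 := Finset.card_le_two (a := 0) (b := b₁)
    omega
  let D : Finset ℕ := (β.erase 0).erase b
  have hDcard : D.card + 2 = β.card := by
    have h1 := Finset.card_erase_add_one hβ0
    have h2 := Finset.card_erase_add_one (s := β.erase 0) (a := b)
      (Finset.mem_erase.mpr ⟨by omega, hbβ⟩)
    change ((β.erase 0).erase b).card + 2 = β.card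
    omega
  have hDmem : ∀ d ∈ D, b₁ ≤ d ∧ d < b := by
    intro d hd
    rw [Finset.mem_erase, Finset.mem_erase] at hd
    have h1 := hmin d hd.2.2 hd.2.1
    have h2 := hβ d hd.2.2
    omega
  have hDK : D.card ≤ Fintype.card K := by
    rw [← Nat.card_eq_fintype_card, hKc]
    have h1 : D ⊆ Finset.Ico b₁ b := by
      intro d hd
      rw [Finset.mem_Ico]
      exact hDmem d hd
    have h2 := Finset.card_le_card h1
    rw [Nat.card_Ico] at h2
    have h3 : b₁ < p ^ b₁ := Nat.lt_pow_self hp.one_lt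
    omega
  obtain ⟨d, hd1, hd2⟩ := exists_onto D (Finset.card_pos.mp (by omega)) hDK
  have hX : ∀ z : K, ∃ X : Submodule (ZMod p) W, E z ≤ X ∧ Module.finrank (ZMod p) X = d z := by
    intro z
    have h1 := hEd z
    have h2 := hDmem _ (hd1 z)
    exact ext_dim (k := d z - Module.finrank (ZMod p) (E z)) (E z) (d z) (by omega) (by
      rw [hWb]
      omega)
  choose X hX1 hX2 using hX
  refine shape_suf' (W := W) X ?_ ?_ ?_ Z hZ ?_ β ?_
  · intro z z' hzz
    rw [eq_top_iff, ← hEE z z' hzz]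
    exact sup_le_sup (hX1 z) (hX1 z')
  · intro z h
    have h1 := hX2 z
    rw [h, finrank_top, hWb] at h1
    have := hDmem _ (hd1 z)
    omega
  · have h1 : E' < ⊤ := by
      rw [lt_top_iff_ne_top]
      intro h
      rw [h, finrank_top, hWb] at hE'd
      omega
    obtain ⟨ℓ, hℓ, hℓ2⟩ := Submodule.exists_le_ker_of_lt_top _ h1
    refine ⟨ℓ, hℓ, ?_⟩
    intro z hz
    apply hℓ
    rw [← LinearMap.ker_eq_top, eq_top_iff, ← hEE' z]
    exact sup_le ((hX1 z).trans hz) hℓ2
  · rw [← Nat.card_eq_fintype_card, hKc]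
    exact hZp
  · intro c
    rw [hWb]
    constructor
    · intro hc
      by_cases hc0 : c = 0
      · exact Or.inl hc0
      · by_cases hcb : c = b
        · exact Or.inr (Or.inl hcb)
        · obtain ⟨z, hz⟩ := hd2 c (Finset.mem_erase.mpr ⟨hcb, Finset.mem_erase.mpr ⟨hc0, hc⟩⟩)
          exact Or.inr (Or.inr ⟨z, by rw [hX2, hz]⟩)
    · rintro (rfl | rfl | ⟨z, rfl⟩)
      · exact hβ0
      · exact hbβ
      · rw [hX2]
        exact Finset.mem_of_mem_erase (Finset.mem_of_mem_erase (hd1 z))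

end Run7.h528
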